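import Pool.Agent.H64ND.Stm

/-!
# Project ND (helper64): the action on functions of words, basic rules
-/

set_option autoImplicit false

open Finset

namespace Pool.Agent.H64ND

variable {n : ℕ} {A : Type}

lemma coeff_mul' (x y : QS n) (ρ : Equiv.Perm (Fin n)) :
    (x * y).coeff ρ = ∑ σ, x.coeff σ * y.coeff (σ⁻¹ * ρ) := by
  classical
  rw [MonoidAlgebra.coeff_mul]
  rw [Finsupp.sum_fintype]
  · refine Finset.sum_congr rfl fun σ _ => ?_
    rw [Finsupp.sum_fintype]
    · rw [Finset.sum_eq_single (σ⁻¹ * ρ)]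
      · rw [if_pos (by group)]
      · intro τ _ hτ
        rw [if_neg]
        intro h
        apply hτ
        rw [← h]
        group
      · intro h
        exact absurd (Finset.mem_univ _) h
    · intro τ
      simp
  · intro σ
    simp

lemma sum_mul_aux (x y : QS n) (F : Equiv.Perm (Fin n) → ℚ) :
    ∑ ρ, (x * y).coeff ρ * F ρ = ∑ σ, x.coeff σ * ∑ τ, y.coeff τ * F (σ * τ) := by
  simp only [coeff_mul', Finset.sum_mul, Finset.mul_sum]
  rw [Finset.sum_comm]
  refine Finset.sum_congr rfl fun σ _ => ?_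
  rw [← Equiv.sum_comp (Equiv.mulLeft σ)]
  refine Finset.sum_congr rfl fun τ _ => ?_
  simp only [Equiv.coe_mulLeft]
  rw [inv_mul_cancel_left, mul_assoc]

lemma act0_mul (x y : QS n) (u : (Fin n → A) → ℚ) : act0 (x * y) u = act0 x (act0 y u) := by
  funext w
  simp only [act0]
  exact sum_mul_aux x y (fun ρ => u (w ∘ ρ))

lemma act0_one (u : (Fin n → A) → ℚ) : act0 (1 : QS n) u = u := by
  classical
  funext w
  simp only [act0]
  rw [Finset.sum_eq_single 1]
  · rw [MonoidAlgebra.one_def]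
    simp
  · intro σ _ hσ
    rw [MonoidAlgebra.one_def, MonoidAlgebra.coeff_single, Finsupp.single_eq_of_ne hσ, zero_mul]
  · intro h
    exact absurd (Finset.mem_univ _) h

lemma act0_single (ρ : Equiv.Perm (Fin n)) (u : (Fin n → A) → ℚ) (w : Fin n → A) :
    act0 (MonoidAlgebra.single ρ 1 : QS n) u w = u (w ∘ ρ) := by
  classical
  simp only [act0]
  rw [Finset.sum_eq_single ρ]
  · simp
  · intro σ _ hσ
    rw [MonoidAlgebra.coeff_single, Finsupp.single_eq_of_ne hσ, zero_mul]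
  · intro h
    exact absurd (Finset.mem_univ _) h

lemma act0_smul (x : QS n) (c : ℚ) (u : (Fin n → A) → ℚ) : act0 x (c • u) = c • act0 x u := by
  funext w
  simp only [act0, Pi.smul_apply, smul_eq_mul, Finset.mul_sum]
  exact Finset.sum_congr rfl fun σ _ => by ring

lemma act0_adj [Fintype A] [DecidableEq A] (x : QS n) (hx : ∀ σ, x.coeff σ⁻¹ = x.coeff σ)
    (f g : (Fin n → A) → ℚ) : ∑ w, f w * act0 x g w = ∑ w, act0 x f w * g w := by
  simp only [act0, Finset.mul_sum, Finset.sum_mul]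
  rw [Finset.sum_comm]
  conv_rhs => rw [Finset.sum_comm]
  rw [← Equiv.sum_comp (Equiv.inv (Equiv.Perm (Fin n)))]
  refine Finset.sum_congr rfl fun σ _ => ?_
  have e1 : ∀ w : Fin n → A, (w ∘ σ) ∘ (σ⁻¹ : Equiv.Perm (Fin n)) = w := by
    intro w
    funext i
    simp
  rw [← Equiv.sum_comp (Equiv.arrowCongr (σ⁻¹ : Equiv.Perm (Fin n)) (Equiv.refl A))]
  refine Finset.sum_congr rfl fun w _ => ?_
  have e2 : (Equiv.arrowCongr (σ⁻¹ : Equiv.Perm (Fin n)) (Equiv.refl A)) w = w ∘ σ := by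
    funext i
    rfl
  rw [e2, Equiv.inv_apply, hx, e1]
  ring

lemma CI.one_sub {e : QS n} (h : CI e) : CI (1 - e) := by
  classical
  obtain ⟨h1, h2, h3⟩ := h
  refine ⟨?_, fun x => ?_, fun σ => ?_⟩
  · rw [sub_mul, mul_sub, mul_sub, h1]
    simp
  · rw [sub_mul, mul_sub, h2, one_mul, mul_one]
  · rw [MonoidAlgebra.coeff_sub, Finsupp.sub_apply, Finsupp.sub_apply, h3, MonoidAlgebra.one_def,
      MonoidAlgebra.coeff_single, Finsupp.single_apply, Finsupp.single_apply]
    have e : (1 = σ⁻¹) ↔ (1 = σ) := by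
      constructor
      · intro h
        rw [eq_comm, inv_eq_one] at h
        exact h.symm
      · intro h
        rw [← h, inv_one]
    by_cases hσ : 1 = σ
    · rw [if_pos (e.2 hσ), if_pos hσ]
    · rw [if_neg (fun h => hσ (e.1 h)), if_neg hσ]

lemma coeff_mul_inv {x y : QS n} (hx : ∀ σ, x.coeff σ⁻¹ = x.coeff σ)
    (hy : ∀ σ, y.coeff σ⁻¹ = y.coeff σ) (ρ : Equiv.Perm (Fin n)) :
    (x * y).coeff ρ⁻¹ = (y * x).coeff ρ := by
  rw [coeff_mul', coeff_mul']
  rw [← Equiv.sum_comp (Equiv.mulLeft ρ⁻¹)]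
  refine Finset.sum_congr rfl fun σ _ => ?_
  simp only [Equiv.coe_mulLeft]
  have e1 : (ρ⁻¹ * σ)⁻¹ * ρ⁻¹ = σ⁻¹ := by group
  rw [e1, hy]
  have e2 : x.coeff (ρ⁻¹ * σ) = x.coeff (σ⁻¹ * ρ) := by
    rw [← hx (σ⁻¹ * ρ), mul_inv_rev, inv_inv]
  rw [e2, mul_comm]

lemma CI.mul {e f : QS n} (he : CI e) (hf : CI f) : CI (e * f) := by
  obtain ⟨h1, h2, h3⟩ := he
  obtain ⟨k1, k2, k3⟩ := hf
  refine ⟨?_, fun x => ?_, fun σ => ?_⟩
  · calc e * f * (e * f) = e * (f * e) * f := by simp only [mul_assoc]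
      _ = e * (e * f) * f := by rw [h2 f]
      _ = (e * e) * (f * f) := by simp only [mul_assoc]
      _ = e * f := by rw [h1, k1]
  · rw [mul_assoc, k2, ← mul_assoc, h2, mul_assoc]
  · rw [coeff_mul_inv h3 k3, h2]

lemma exA_succ (m k : ℕ) (σ : Equiv.Perm (Fin m)) :
    exA m (k + 1) σ = exA (m + k) 1 (exA m k σ) := by
  apply Equiv.ext
  intro i
  refine Fin.addCases (fun l => ?_) (fun l => ?_) i
  · rw [exA_castAdd]
    have h := exA_castAdd (m + k) 1 (exA m k σ) (Fin.castAdd k l)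
    rw [exA_castAdd m k σ l] at h
    exact h.symm
  · refine Fin.lastCases ?_ (fun j => ?_) l
    · rw [exA_natAdd]
      have h := exA_natAdd (m + k) 1 (exA m k σ) 0
      exact h.symm
    · rw [exA_natAdd]
      have h := exA_castAdd (m + k) 1 (exA m k σ) (Fin.natAdd m j)
      rw [exA_natAdd m k σ j] at h
      exact h.symm

lemma exQ_succ (m k : ℕ) (x : QS m) : exQ m (k + 1) x = exQ (m + k) 1 (exQ m k x) := by
  induction x using MonoidAlgebra.induction_on with
  | of σ =>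
    simp only [exQ, MonoidAlgebra.mapDomainRingHom_apply, MonoidAlgebra.of_apply,
      MonoidAlgebra.mapDomain_single]
    rw [exA_succ]
  | add x y hx hy => rw [map_add, map_add, map_add, hx, hy]
  | smul c x hx =>
    simp only [exQ, MonoidAlgebra.mapDomainRingHom_apply, MonoidAlgebra.mapDomain_smul] at hx ⊢
    rw [hx]

end Pool.Agent.H64ND
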