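import Pool.Agent.H64ND.Stm

/-!
# Project ND: the action on functions of words (helper66; shared lemmas for HW and QUAD)
-/

set_option autoImplicit false

open Finset

namespace Pool.Agent.H64ND

namespace Act66

variable {n : ℕ} {A : Type}

lemma act0_zero (u : (Fin n → A) → ℚ) : act0 (0 : QS n) u = 0 := by
  funext w
  simp [act0]

lemma act0_add (x y : QS n) (u : (Fin n → A) → ℚ) :
    act0 (x + y) u = act0 x u + act0 y u := by
  funext w
  simp only [act0, Pi.add_apply, MonoidAlgebra.coeff_add, Finsupp.coe_add, add_mul,
    sum_add_distrib]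

lemma act0_smul (c : ℚ) (x : QS n) (u : (Fin n → A) → ℚ) : act0 (c • x) u = c • act0 x u := by
  funext w
  simp only [act0, Pi.smul_apply, MonoidAlgebra.coeff_smul, Finsupp.coe_smul, smul_eq_mul,
    mul_sum, mul_assoc]

lemma act0_single (σ : Equiv.Perm (Fin n)) (c : ℚ) (u : (Fin n → A) → ℚ) (w : Fin n → A) :
    act0 (MonoidAlgebra.single σ c) u w = c * u (w ∘ σ) := by
  simp only [act0, MonoidAlgebra.coeff_single]
  rw [sum_eq_single σ]
  · rw [Finsupp.single_eq_same]
  · intro τ _ hτ
    rw [Finsupp.single_apply, if_neg (fun h => hτ h.symm), zero_mul]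
  · intro h
    exact absurd (mem_univ _) h

lemma act0_one (u : (Fin n → A) → ℚ) : act0 (1 : QS n) u = u := by
  funext w
  rw [MonoidAlgebra.one_def, act0_single, one_mul]
  rfl

lemma act0_mul (x y : QS n) (u : (Fin n → A) → ℚ) : act0 (x * y) u = act0 x (act0 y u) := by
  induction x using MonoidAlgebra.induction with
  | zero => rw [zero_mul, act0_zero, act0_zero]
  | single_add m r x _ _ ih =>
    rw [add_mul, act0_add, act0_add, ih]
    congr 1
    funext w
    rw [act0_single]
    simp only [act0, MonoidAlgebra.coeff_single_mul_apply]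
    rw [mul_sum]
    refine (Fintype.sum_equiv (Equiv.mulLeft m) _ _ fun τ => ?_).symm
    rw [Equiv.coe_mulLeft, inv_mul_cancel_left, mul_assoc]
    rfl

/-- the raising and lowering operators -/
def E {B : Type} [DecidableEq B] (i j : B) (v : (Fin n → B) → ℚ) : (Fin n → B) → ℚ :=
  fun w => ∑ k ∈ univ.filter (fun k => w k = i), v (Function.update w k j)

lemma act0_E {B : Type} [DecidableEq B] (i j : B) (x : QS n) (v : (Fin n → B) → ℚ) :
    act0 x (E i j v) = E i j (act0 x v) := by
  funext w
  simp only [act0, E]
  rw [sum_comm]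
  refine sum_congr rfl fun σ _ => ?_
  rw [← mul_sum]
  congr 1
  refine sum_nbij' (fun k => σ k) (fun k => σ.symm k) ?_ ?_ ?_ ?_ ?_
  · intro k hk
    simpa using hk
  · intro k hk
    simpa using hk
  · intro k _; simp
  · intro k _; simp
  · intro k _
    congr 1
    exact (Function.update_comp_eq_of_injective w σ.injective k j).symm

/-- the weight of a word -/
def wt {B : Type} [DecidableEq B] (w : Fin n → B) (i : B) : ℕ :=
  (univ.filter fun k => w k = i).card

lemma wt_comp {B : Type} [DecidableEq B] (w : Fin n → B) (σ : Equiv.Perm (Fin n)) :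
    wt (w ∘ σ) = wt w := by
  funext i
  unfold wt
  refine card_bij (fun k _ => σ k) ?_ ?_ ?_
  · intro k hk
    simpa using hk
  · intro a _ b _ h
    exact σ.injective h
  · intro k hk
    exact ⟨σ.symm k, by simpa using hk, by simp⟩

lemma wt_update {B : Type} [DecidableEq B] (w : Fin n → B) (k : Fin n) (i j : B) (hk : w k = i)
    (l : B) : wt (Function.update w k j) l + (if l = i then 1 else 0) =
      wt w l + (if l = j then 1 else 0) := by
  unfold wt
  rw [card_filter, card_filter, ← add_sum_erase univ _ (mem_univ k),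
    ← add_sum_erase univ (fun x => if w x = l then 1 else 0) (mem_univ k)]
  have h1 : ∑ x ∈ univ.erase k, (if Function.update w k j x = l then 1 else 0) =
      ∑ x ∈ univ.erase k, (if w x = l then 1 else 0) := by
    refine sum_congr rfl fun x hx => ?_
    rw [Function.update_of_ne (ne_of_mem_erase hx)]
  rw [h1, Function.update_self, hk]
  have e1 : (if j = l then 1 else 0) = (if l = j then 1 else 0) := by
    by_cases h : l = j
    · rw [if_pos h, if_pos h.symm]
    · rw [if_neg h, if_neg (fun h' => h h'.symm)]
  have e2 : (if i = l then 1 else 0) = (if l = i then 1 else 0) := by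
    by_cases h : l = i
    · rw [if_pos h, if_pos h.symm]
    · rw [if_neg h, if_neg (fun h' => h h'.symm)]
  rw [e1, e2]
  ring

end Act66

end Pool.Agent.H64ND
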