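import Pool.Agent.H64ND.Bnd2

/-!
# Project ND (helper64): additivity, multiplicativity
-/

set_option autoImplicit false
set_option linter.unusedSectionVars false

open CategoryTheory Limits MonoidalCategory Finset Filter Topology
open Pool.Agent.Y112.SR Pool.Agent.Y112.KD Pool.Agent.Y112.SC Pool.Agent.R484.NC Pool.Agent.H64NC

namespace Pool.Agent.H64ND

universe u v w

/-- Polynomial factors do not matter. -/
theorem le_of_pow_poly {a b n E : ℕ} (h : ∀ k, 1 ≤ k → a ^ k ≤ b ^ k * (n * k + 1) ^ E) :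
    a ≤ b := by
  by_contra hab
  push Not at hab
  have ha : 0 < a := by omega
  have h1 : 1 < (a : ℝ) / (b + (1 : ℝ) / 2) := by
    rw [lt_div_iff₀ (by positivity), one_mul]
    have : (b : ℝ) + 1 ≤ a := by exact_mod_cast hab
    linarith
  have hb2 : (b : ℝ) < b + 1 / 2 := by linarith
  -- a ^ k ≤ (b + 1/2) ^ k * (n k + 1) ^ E for all k, but the quotient grows exponentially
  have h2 : Tendsto (fun k : ℕ => ((k : ℝ)) ^ E / ((a : ℝ) / (b + (1 : ℝ) / 2)) ^ k) atTop (𝓝 0) :=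
    tendsto_pow_const_div_const_pow_of_one_lt E h1
  have h3 : (0 : ℝ) < 1 / ((n : ℝ) + 1) ^ E := by positivity
  obtain ⟨k, hk, hk1⟩ := ((h2.eventually_lt_const h3).and (eventually_ge_atTop 1)).exists
  have h4 : (0 : ℝ) < ((a : ℝ) / (b + (1 : ℝ) / 2)) ^ k := by positivity
  rw [div_lt_iff₀ h4, div_pow, one_div, mul_div_assoc', lt_div_iff₀ (by positivity)] at hk
  have h5 : ((a : ℝ)) ^ k ≤ (b : ℝ) ^ k * ((n : ℝ) * k + 1) ^ E := by exact_mod_cast h k hk1
  have h6 : ((n : ℝ) * k + 1) ^ E ≤ (((n : ℝ) + 1) * k) ^ E := by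
    apply pow_le_pow_left₀ (by positivity)
    have : (1 : ℝ) ≤ k := by exact_mod_cast hk1
    linarith
  have h7 : (b : ℝ) ^ k ≤ (b + 1 / 2) ^ k := pow_le_pow_left₀ (by positivity) hb2.le k
  have h8 : (a : ℝ) ^ k ≤ (b + 1 / 2) ^ k * (((n : ℝ) + 1) ^ E * (k : ℝ) ^ E) := by
    rw [← mul_pow]
    exact h5.trans (mul_le_mul h7 h6 (by positivity) (by positivity))
  have h9 : ((n : ℝ) + 1) ^ E * ((k : ℝ) ^ E * (b + 1 / 2) ^ k) <
      ((n : ℝ) + 1) ^ E * ((((n : ℝ) + 1) ^ E)⁻¹ * (a : ℝ) ^ k) :=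
    mul_lt_mul_of_pos_left hk (by positivity)
  rw [← mul_assoc (((n : ℝ) + 1) ^ E) ((((n : ℝ) + 1) ^ E)⁻¹), mul_inv_cancel₀ (by positivity),
    one_mul] at h9
  nlinarith

section

variable {C : Type u} [Category.{v} C] [Preadditive C] [Linear ℚ C] [MonoidalCategory C]
  [MonoidalPreadditive C] [MonoidalLinear ℚ C] [SymmetricCategory C] [RightRigidCategory C]
  {hU : UnitQ C} {K : Type w} [Field K] (R : SuperRealisation C K)

include R in
/-- The parity index is subadditive. -/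
theorem idx_sub (hE : S_CEN.{u, v, w}) {X Y S : C} (h : IsSum X Y S) {a b c : ℕ}
    (ha : IsIdx hU X a) (hb : IsIdx hU Y b) (hc : IsIdx hU S c) : c ≤ a + b := by
  obtain ⟨x, hx, hcen, hy⟩ := hE hU R S
  obtain ⟨i, r, i', r', h1, h2, h3, h4, h5⟩ := h
  have e0 : ctr hU (0 : S ⟶ S) = 0 := (trq hU S).map_zero
  -- the trace of `x` is maximal
  have hmax : (c : ℚ) ≤ ctr hU x := by
    obtain ⟨w, hw, hwc⟩ := hc.1
    rw [← hwc]
    have k1 : ∀ ε : ℚ, ε * ε = 1 → NumZero hU (((1 / 2 : ℚ) • (𝟙 S + ε • w)) ≫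
        ((1 / 2 : ℚ) • (𝟙 S + ε • w)) - (1 / 2 : ℚ) • (𝟙 S + ε • w)) := by
      intro ε hε g
      have k2 : ((1 / 2 : ℚ) • (𝟙 S + ε • w)) ≫ ((1 / 2 : ℚ) • (𝟙 S + ε • w)) -
          (1 / 2 : ℚ) • (𝟙 S + ε • w) = (1 / 4 : ℚ) • (w ≫ w - 𝟙 S) := by
        simp only [Linear.smul_comp, Linear.comp_smul, Preadditive.add_comp, Preadditive.comp_add,
          Category.id_comp, Category.comp_id, smul_add, smul_smul, smul_sub]
        have k3 : 1 / 2 * (ε * (1 / 2 * ε)) = 1 / 4 := by linear_combination (1 / 4) * hε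
        have k3' : 1 / 2 * (1 / 2 * (ε * ε)) = 1 / 4 := by rw [hε]; norm_num
        simp only [mul_assoc, mul_left_comm ε, k3', hε]
        module
      rw [k2, Linear.smul_comp, ctr_smul, hw g, mul_zero]
    have k4 := hy _ (k1 1 (by norm_num))
    have k5 := hy _ (k1 (-1) (by norm_num))
    simp only [Linear.comp_smul, Preadditive.comp_add, Category.comp_id, ctr_smul, ctr_add] at k4 k5
    have k6 := (abs_le.1 k4).2
    have k7 := (abs_le.1 k5).1
    linarith
  -- the components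
  have hcomp : ∀ {Z : C} (j : Z ⟶ S) (t : S ⟶ Z) (z : ℕ), j ≫ t = 𝟙 Z → IsIdx hU Z z →
      ctr hU (x ≫ (t ≫ j)) ≤ z := by
    intro Z j t z hjt hz
    have k1 : NumInvolution hU (j ≫ x ≫ t) := by
      intro g
      have k2 : ((j ≫ x ≫ t) ≫ (j ≫ x ≫ t) - 𝟙 Z) ≫ g =
          j ≫ ((x ≫ (t ≫ j) - (t ≫ j) ≫ x) ≫ x ≫ t + (t ≫ j) ≫ (x ≫ x - 𝟙 S) ≫ t) ≫ g := by
        simp only [Preadditive.sub_comp, Preadditive.comp_sub, Preadditive.comp_add,
          Preadditive.add_comp, Category.assoc, Category.id_comp, reassoc_of% hjt, hjt]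
        simp
      rw [k2, Preadditive.add_comp, Preadditive.comp_add, ctr_add]
      have k3 : ctr hU (j ≫ ((x ≫ (t ≫ j) - (t ≫ j) ≫ x) ≫ x ≫ t) ≫ g) = 0 := by
        have k4 := ctr_comm R hU j (((x ≫ (t ≫ j) - (t ≫ j) ≫ x) ≫ x ≫ t) ≫ g)
        rw [k4]
        have k5 := hcen (t ≫ j) (x ≫ t ≫ g ≫ j)
        simp only [Category.assoc] at k5 ⊢
        exact k5
      have k5 : ctr hU (j ≫ ((t ≫ j) ≫ (x ≫ x - 𝟙 S) ≫ t) ≫ g) = 0 := by
        have k6 : j ≫ ((t ≫ j) ≫ (x ≫ x - 𝟙 S) ≫ t) ≫ g = j ≫ ((x ≫ x - 𝟙 S) ≫ t ≫ g) := by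
          simp only [Category.assoc, reassoc_of% hjt]
        rw [k6]
        have k4 := ctr_comm R hU j ((x ≫ x - 𝟙 S) ≫ t ≫ g)
        rw [k4]
        simp only [Category.assoc]
        exact hx _
      rw [k3, k5, add_zero]
    have k2 := hz.2 ⟨_, k1, rfl⟩
    have k3 := ctr_comm R hU j (x ≫ t)
    rw [k3] at k2
    rw [← Category.assoc]
    exact k2
  have e1 : ctr hU x = ctr hU (x ≫ (r ≫ i)) + ctr hU (x ≫ (r' ≫ i')) := by
    rw [← ctr_add, ← Preadditive.comp_add, h5, Category.comp_id]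
  have e2 := hcomp i r a h1 ha
  have e3 := hcomp i' r' b h2 hb
  have e4 : (c : ℚ) ≤ (a : ℚ) + b := by linarith
  exact_mod_cast e4

variable {ρ : C → ℕ} (hρ : ∀ X, IsIdx hU X (ρ X))
  (hsub : ∀ M N S, IsSum M N S → ρ S ≤ ρ M + ρ N)

include R hρ hsub in
/-- The tensor powers of a sum, upper bound. -/
lemma rho_sum_le {M N S : C} (hS : IsSum M N S) {F : ℕ → ℕ → ℕ}
    (hF : ∀ a b, ρ (tp M a ⊗ tp N b) ≤ F a b) (n : ℕ) : ∀ a b : ℕ,
    ρ (tp S n ⊗ (tp M a ⊗ tp N b)) ≤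
      ∑ k ∈ Finset.range (n + 1), n.choose k * F (a + k) (b + (n - k)) := by
  induction n with
  | zero =>
    intro a b
    rw [Finset.sum_range_one, Nat.choose_self, one_mul, add_zero, Nat.sub_self, add_zero]
    refine le_trans (le_of_eq ?_) (hF a b)
    exact rho_iso R hρ (λ_ _)
  | succ n ih =>
    intro a b
    have hsum : IsSum (tp S n ⊗ (tp M (a + 1) ⊗ tp N b)) (tp S n ⊗ (tp M a ⊗ tp N (b + 1)))
        (tp S (n + 1) ⊗ (tp M a ⊗ tp N b)) := by
      have h1 := isSum_whiskerLeft (tp S n ⊗ (tp M a ⊗ tp N b)) hS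
      refine isSum_iso ?_ ?_ ?_ h1
      · exact α_ _ _ _ ≪≫ whiskerLeftIso (tp S n) (α_ _ _ _ ≪≫
          whiskerLeftIso (tp M a) (β_ (tp N b) M) ≪≫ (α_ _ _ _).symm)
      · exact α_ _ _ _ ≪≫ whiskerLeftIso (tp S n) (α_ _ _ _)
      · exact α_ _ _ _ ≪≫ whiskerLeftIso (tp S n) (β_ _ S) ≪≫ (α_ _ _ _).symm
    refine (hsub _ _ _ hsum).trans ?_
    refine (add_le_add (ih (a + 1) b) (ih a (b + 1))).trans (le_of_eq ?_)
    rw [Finset.sum_range_succ' _ (n + 1)]
    have e1 : ∑ k ∈ Finset.range (n + 1), (n + 1).choose (k + 1) *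
        F (a + (k + 1)) (b + (n + 1 - (k + 1))) =
        ∑ k ∈ Finset.range (n + 1), n.choose k *
          F (a + 1 + k) (b + (n - k)) +
        ∑ k ∈ Finset.range (n + 1), n.choose (k + 1) *
          F (a + (k + 1)) (b + 1 + (n - (k + 1))) := by
      rw [← Finset.sum_add_distrib]
      refine Finset.sum_congr rfl fun k hk => ?_
      rw [Finset.mem_range] at hk
      have e2 : a + 1 + k = a + (k + 1) := by ring
      have e3 : n + 1 - (k + 1) = n - k := by omega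
      rw [Nat.choose_succ_succ, e2, e3, add_mul]
      congr 1
      rcases Nat.lt_or_ge k n with h | h
      · have e4 : b + 1 + (n - (k + 1)) = b + (n - k) := by omega
        rw [e4]
      · have e4 : n.choose (k + 1) = 0 := Nat.choose_eq_zero_of_lt (by omega)
        rw [e4, zero_mul, zero_mul]
    have e5 : ∑ k ∈ Finset.range (n + 1), n.choose k *
        F (a + k) (b + 1 + (n - k)) =
        ∑ k ∈ Finset.range (n + 1), n.choose (k + 1) *
          F (a + (k + 1)) (b + 1 + (n - (k + 1))) +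
        F a (b + 1 + n) := by
      have h1 := Finset.sum_range_succ' (fun k => n.choose k *
        F (a + k) (b + 1 + (n - k))) n
      rw [h1, Nat.choose_zero_right, one_mul, add_zero, Nat.sub_zero]
      congr 1
      rw [Finset.sum_range_succ]
      have e4 : n.choose (n + 1) = 0 := Nat.choose_eq_zero_of_lt (by omega)
      rw [e4, zero_mul, add_zero]
    rw [e1, e5, Nat.choose_zero_right, one_mul, add_zero, Nat.sub_zero]
    have e6 : b + (n + 1) = b + 1 + n := by ring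
    rw [e6]
    omega

end

end Pool.Agent.H64ND
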