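import Pool.Agent.H64ND.Cat

/-!
# Project ND (helper64): bounds for the parity index
-/

set_option autoImplicit false
set_option linter.unusedSectionVars false

open CategoryTheory Limits MonoidalCategory Finset
open Pool.Agent.Y112.SR Pool.Agent.Y112.KD Pool.Agent.Y112.SC Pool.Agent.R484.NC Pool.Agent.H64NC

namespace Pool.Agent.H64ND

universe u v w

section

variable {C : Type u} [Category.{v} C] [Preadditive C] [Linear ℚ C] [MonoidalCategory C]
  [MonoidalPreadditive C] [MonoidalLinear ℚ C] [SymmetricCategory C] [RightRigidCategory C]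
  {hU : UnitQ C} {K : Type w} [Field K] (R : SuperRealisation C K)

/-- Cutting idempotents. -/
def Cutb (hU : UnitQ C) (X : C) (T : ℕ) : Prop :=
  ∃ c : X ⟶ X, op R c * op R c = op R c ∧ NumZero hU (c - 𝟙 X) ∧
    LinearMap.trace K (R.H.obj X) (op R c) = T

variable {R} {M : C} {D : ℕ}
  {v : Module.Basis (Fin D) K (R.H.obj M)} {η : Fin D → Bool}
  {s : ∀ n, Equiv.Perm (Fin n) → (tp M n ⟶ tp M n)}

lemma cutb_le (hC : S_CUB.{u, v, w}) {X : C} {T r : ℕ} (h : Cutb R hU X T) (hr : IsIdx hU X r) :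
    r ≤ T := by
  obtain ⟨c, h1, h2, h3⟩ := h
  exact hC hU R X c h1 h2 r T hr h3

lemma cutb_tensor (hN : S_CNUM.{u, v, w}) {X Y : C} {T T' : ℕ} (h : Cutb R hU X T)
    (h' : Cutb R hU Y T') : Cutb R hU (X ⊗ Y) (T * T') := by
  have hK := R_charZero R
  have f1 := R.finite X
  have f2 := R.finite Y
  obtain ⟨c, h1, h2, h3⟩ := h
  obtain ⟨c', h1', h2', h3'⟩ := h'
  have e0 : ∀ {Z : C} (f g : Z ⟶ Z), op R f = op R g → R.H.map f = R.H.map g :=
    fun f g h => ModuleCat.hom_ext h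
  refine ⟨c ⊗ₘ c', ?_, ?_, ?_⟩
  · rw [← Pool.Agent.R484.NC.op_comp]
    show (R.H.map _).hom = (R.H.map _).hom
    rw [Functor.map_comp, ← bx_map, bx_comp]
    have e1 : R.H.map c ≫ R.H.map c = R.H.map c := by
      rw [← Functor.map_comp]
      apply e0
      rw [Pool.Agent.R484.NC.op_comp, h1]
    have e2 : R.H.map c' ≫ R.H.map c' = R.H.map c' := by
      rw [← Functor.map_comp]
      apply e0
      rw [Pool.Agent.R484.NC.op_comp, h1']
    rw [e1, e2]
  · have e1 : c ⊗ₘ c' - 𝟙 (X ⊗ Y) = (c - 𝟙 X) ⊗ₘ c' + 𝟙 X ⊗ₘ (c' - 𝟙 Y) := by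
      have a1 : (c - 𝟙 X) ⊗ₘ c' = c ⊗ₘ c' - 𝟙 X ⊗ₘ c' := by
        rw [MonoidalCategory.tensorHom_def, MonoidalCategory.tensorHom_def c,
          MonoidalCategory.tensorHom_def (𝟙 X)]
        have a2 : (c - 𝟙 X) ▷ Y = c ▷ Y - 𝟙 X ▷ Y :=
          (tensorRight Y).map_sub (f := c) (g := 𝟙 X)
        rw [a2, Preadditive.sub_comp]
      have a4 : 𝟙 X ⊗ₘ (c' - 𝟙 Y) = 𝟙 X ⊗ₘ c' - 𝟙 X ⊗ₘ 𝟙 Y := by
        rw [id_tensorHom, id_tensorHom, id_tensorHom]
        exact (tensorLeft X).map_sub (f := c') (g := 𝟙 Y)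
      rw [a1, a4, id_tensorHom_id]
      abel
    rw [e1]
    exact (hN hU R).2.2.2.1 _ _ _ ((hN hU R).1 _ _ _ _ h2).1 ((hN hU R).1 _ _ _ _ h2').2
  · have e1 : op R (c ⊗ₘ c') = (bx R (R.H.map c) (R.H.map c')).hom := by
      rw [bx_map]
      rfl
    rw [e1, trace_bx]
    have e2 : LinearMap.trace K (R.H.obj X) (R.H.map c).hom = T := h3
    have e3 : LinearMap.trace K (R.H.obj Y) (R.H.map c').hom = T' := h3'
    rw [e2, e3, Nat.cast_mul]

lemma coeff_sum_single {n r : ℕ} (g : Fin r → Equiv.Perm (Fin n)) (a : Fin r → ℚ) {V : Type*}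
    [AddCommGroup V] [Module ℚ V] (F : Equiv.Perm (Fin n) → V) :
    ∑ σ, (∑ i, a i • (MonoidAlgebra.single (g i) 1 : QS n)).coeff σ • F σ = ∑ i, a i • F (g i) := by
  classical
  have h1 : ∀ σ, (∑ i, a i • (MonoidAlgebra.single (g i) 1 : QS n)).coeff σ =
      ∑ i, if g i = σ then a i else 0 := by
    intro σ
    rw [MonoidAlgebra.coeff_sum, Finsupp.finsetSum_apply]
    refine Finset.sum_congr rfl fun i _ => ?_
    rw [MonoidAlgebra.coeff_smul, Finsupp.smul_apply, MonoidAlgebra.coeff_single,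
      Finsupp.single_apply]
    by_cases h : g i = σ
    · rw [if_pos h, if_pos h, smul_eq_mul, mul_one]
    · rw [if_neg h, if_neg h, smul_zero]
  simp only [h1, Finset.sum_smul]
  rw [Finset.sum_comm]
  refine Finset.sum_congr rfl fun i _ => ?_
  rw [Finset.sum_eq_single (g i)]
  · rw [if_pos rfl]
  · intro τ _ hτ
    rw [if_neg (Ne.symm hτ), zero_smul]
  · intro h
    exact absurd (Finset.mem_univ _) h

/-- The lower bound. -/
theorem lowerN (hS : S_SGN) (hN : S_CNUM.{u, v, w}) {n ρ L : ℕ} {o : Fin L → Bool}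
    (hρ : IsIdx hU (tp M n) ρ) (h : NZ R s hU hN n ≤ Ker o n) :
    L ^ (2 * n) ≤ ρ ^ 2 * (n + 1) ^ (L ^ 2) := by
  classical
  obtain ⟨r, g, hli, hle⟩ := t_COUNT n L (fun σ I => sgnW (o ∘ I) σ)
    (fun σ I => hS.2.2.2.2.2 n (o ∘ I) σ)
  refine hle.trans (Nat.mul_le_mul_right _ ?_)
  apply rank_le R hρ r (fun i => s n (g i))
  intro a ha
  have h1 : (∑ i, a i • (MonoidAlgebra.single (g i) 1 : QS n)) ∈ Ker o n := by
    apply h
    rw [mem_NZ, Ph, coeff_sum_single]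
    exact ha
  rw [Fintype.linearIndependent_iff] at hli
  funext i
  refine hli a ?_ i
  ext J I
  rw [Matrix.sum_apply, Matrix.zero_apply]
  have h2 := congrFun (h1 fun w => if w = J then 1 else 0) I
  simp only [actS, Pi.zero_apply] at h2
  have h3 := coeff_sum_single g a (fun σ => sgnW (o ∘ I) σ * (if I ∘ σ = J then 1 else 0) : _ → ℚ)
  simp only [smul_eq_mul, ← mul_assoc] at h3
  rw [h2] at h3
  rw [h3]
  refine Finset.sum_congr rfl fun j _ => ?_
  rw [Matrix.smul_apply, sgm, Matrix.of_apply, smul_eq_mul, mul_assoc]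
  congr 1
  by_cases hj : J = I ∘ (g j)
  · rw [if_pos hj, if_pos hj.symm, mul_one]
  · rw [if_neg hj, if_neg (fun h => hj h.symm), mul_zero]

end

end Pool.Agent.H64ND
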