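import Pool.Agent.H64ND.Bnd

/-!
# Project ND (helper64): cutting idempotents for tensor powers
-/

set_option autoImplicit false
set_option linter.unusedSectionVars false

open CategoryTheory Limits MonoidalCategory Finset
open Pool.Agent.Y112.SR Pool.Agent.Y112.KD Pool.Agent.Y112.SC Pool.Agent.R484.NC Pool.Agent.H64NC

namespace Pool.Agent.H64ND

universe u v w

section

variable {C : Type u} [Category.{v} C] [Preadditive C] [Linear ℚ C] [MonoidalCategory C]
  [MonoidalPreadditive C] [MonoidalLinear ℚ C] [SymmetricCategory C] [RightRigidCategory C]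
  {hU : UnitQ C} {K : Type w} [Field K] {R : SuperRealisation C K} {M : C} {D : ℕ}
  {v : Module.Basis (Fin D) K (R.H.obj M)} {η : Fin D → Bool}
  {s : ∀ n, Equiv.Perm (Fin n) → (tp M n ⟶ tp M n)}

/-- The trace of a permutation. -/
noncomputable def chi (η : Fin D → Bool) {n : ℕ} (σ : Equiv.Perm (Fin n)) : ℚ :=
  ∑ I : Fin n → Fin D, if I ∘ σ = I then sgnW (η ∘ I) σ else 0

lemma trace_s (hs : ∀ n σ, Rp R v η σ (s n σ)) {n : ℕ} (σ : Equiv.Perm (Fin n)) :
    LinearMap.trace K (R.H.obj (tp M n)) (op R (s n σ)) = ((chi η σ : ℚ) : K) := by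
  classical
  have hc := R_charZero R
  rw [LinearMap.trace_eq_matrix_trace K (Perm.bs R v n), Matrix.trace, chi, Rat.cast_sum]
  refine Finset.sum_congr rfl fun I _ => ?_
  rw [Matrix.diag_apply, LinearMap.toMatrix_apply, hs n σ I, map_smul, Module.Basis.repr_self,
    Finsupp.smul_apply, Finsupp.single_apply, smul_eq_mul]
  by_cases h : I ∘ σ = I
  · rw [if_pos h, if_pos h, mul_one]
  · rw [if_neg h, if_neg h, mul_zero, Rat.cast_zero]

lemma abs_chi (hS : S_SGN) {n : ℕ} (σ : Equiv.Perm (Fin n)) :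
    |chi η σ| ≤ (univ.filter fun w : Fin n → Fin D => w ∘ σ = w).card := by
  classical
  rw [chi]
  refine (Finset.abs_sum_le_sum_abs _ _).trans ?_
  rw [Finset.card_filter]
  push_cast
  refine Finset.sum_le_sum fun I _ => ?_
  by_cases h : I ∘ σ = I
  · rw [if_pos h, if_pos h]
    rcases hS.2.2.2.2.2 n (η ∘ I) σ with h1 | h1 <;> rw [h1] <;> norm_num
  · rw [if_neg h, if_neg h, abs_zero]

lemma trace_idem (X : C) (c : X ⟶ X) (h : op R c * op R c = op R c) :
    ∃ T : ℕ, LinearMap.trace K (R.H.obj X) (op R c) = T := by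
  have hf := R.finite X
  exact ⟨_, (LinearMap.IsIdempotentElem.isProj_range _ h).trace⟩

/-- **The cutting idempotent of a tensor power.** -/
theorem cutN (hS : S_SGN) (hN : S_CNUM.{u, v, w}) (hG : S_GA) (hU1 : S_UB1) (hU2 : S_UB2)
    (hs : ∀ n σ, Rp R v η σ (s n σ)) {n L : ℕ} {o : Fin L → Bool}
    (h : Ker o n ≤ NZ R s hU hN n) :
    ∃ T : ℕ, Cutb R hU (tp M n) T ∧ T ^ 2 ≤ L ^ (2 * n) * (n + 1) ^ (D ^ 2) := by
  classical
  have hc := R_charZero R
  obtain ⟨e, he, heN, hex⟩ := hG n (NZ R s hU hN n) (two_NZ hS hN hs n)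
  set c : QS n := 1 - e with hcdef
  have hcC : CI c := he.one_sub
  have hid : op R (Ph s c) * op R (Ph s c) = op R (Ph s c) := by
    rw [← Pool.Agent.R484.NC.op_comp, ← op_Ph_mul hS hs, hcC.1]
  have h1 : op R (Ph s (1 : QS n)) = op R (𝟙 (tp M n)) := by
    rw [op_Ph, Finset.sum_eq_single 1]
    · rw [MonoidAlgebra.one_def, MonoidAlgebra.coeff_single, Finsupp.single_eq_same, Rat.cast_one,
        one_smul]
      refine (Perm.bs R v n).ext fun I => ?_
      have h2 : sgnW (η ∘ I) (1 : Equiv.Perm (Fin n)) = 1 := by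
        have h3 := hS.1 n (η ∘ I) 1 1
        rw [mul_one] at h3
        have h4 : (η ∘ I) ∘ ((1 : Equiv.Perm (Fin n)) : Fin n → Fin n) = η ∘ I := rfl
        rw [h4] at h3
        rcases hS.2.2.2.2.2 n (η ∘ I) 1 with h5 | h5
        · exact h5
        · rw [h5] at h3
          norm_num at h3
      rw [hs n 1 I, h2, Rat.cast_one, one_smul, Pool.Agent.R484.NC.op_id]
      rfl
    · intro τ _ hτ
      rw [MonoidAlgebra.one_def, MonoidAlgebra.coeff_single, Finsupp.single_eq_of_ne hτ,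
        Rat.cast_zero, zero_smul]
    · intro h
      exact absurd (Finset.mem_univ _) h
  have h2 : Ph s c = Ph s (1 : QS n) - Ph s e := by
    rw [hcdef]
    simp only [Ph, MonoidAlgebra.coeff_sub, Finsupp.coe_sub, Pi.sub_apply, sub_smul,
      Finset.sum_sub_distrib]
  have hnum : NumZero hU (Ph s c - 𝟙 (tp M n)) := by
    have h3 : NumZero hU ((-1 : ℚ) • Ph s e) := (hN hU R).2.2.2.2.1 _ _ _ heN
    refine (hN hU R).2.2.1 _ _ _ ?_ h3
    rw [h2, Pool.Agent.R484.NC.op_sub, Pool.Agent.R484.NC.op_sub, h1, op_smul]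
    simp
  obtain ⟨T, hT⟩ := trace_idem (R := R) (tp M n) (Ph s c) hid
  refine ⟨T, ⟨Ph s c, hid, hnum, hT⟩, ?_⟩
  have h3 : ((T : ℚ)) = ∑ σ, c.coeff σ * chi η σ := by
    have h4 : ((T : ℚ) : K) = ((∑ σ, c.coeff σ * chi η σ : ℚ) : K) := by
      rw [Rat.cast_natCast, ← hT, op_Ph, map_sum, Rat.cast_sum]
      refine Finset.sum_congr rfl fun σ _ => ?_
      rw [map_smul, trace_s hs, smul_eq_mul, Rat.cast_mul]
    exact_mod_cast h4
  have h4 := hU1 n D c hcC (fun σ => chi η σ) (fun σ => abs_chi hS σ)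
  have h5 := hU2 n L o c hcC.1 (fun x hx => by
    rw [hcdef, sub_mul, one_mul, hex x (h hx), sub_self])
  rw [← h3] at h4
  have h6 : ((T : ℚ)) ^ 2 ≤ (L : ℚ) ^ (2 * n) * ((n : ℚ) + 1) ^ (D ^ 2) :=
    h4.trans (mul_le_mul_of_nonneg_right h5 (by positivity))
  exact_mod_cast h6

end

section

variable {C : Type u} [Category.{v} C] [Preadditive C] [Linear ℚ C] [MonoidalCategory C]
  [MonoidalPreadditive C] [MonoidalLinear ℚ C] [SymmetricCategory C] [RightRigidCategory C]
  (hU : UnitQ C) {K : Type w} [Field K] (R : SuperRealisation C K)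

/-- All statements about tensor categories which are used. -/
structure AllC : Prop where
  all : AllS
  sgn : S_SGN
  ktid : S_KTID
  kmin : S_KMIN
  ub1 : S_UB1
  ub2 : S_UB2
  cperm : S_CPERM.{u, v, w}
  cpt : S_CPT.{u, v, w}
  cnum : S_CNUM.{u, v, w}
  cub : S_CUB.{u, v, w}
  cen : S_CEN.{u, v, w}

/-- **The numerical dimension.** -/
theorem exists_num (A : AllC.{u, v, w}) (M : C) : ∃ p' q' : ℕ, p' ≤ evenDim R M ∧
    (p' : ℤ) - q' = 2 * evenDim R M - totalDim R M ∧
    (∀ n ρ, IsIdx hU (tp M n) ρ →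
      (p' + q') ^ (2 * n) ≤ ρ ^ 2 * (n + 1) ^ ((p' + q') ^ 2)) ∧
    ∀ n, ∃ T : ℕ, Cutb R hU (tp M n) T ∧
      T ^ 2 ≤ (p' + q') ^ (2 * n) * (n + 1) ^ (totalDim R M ^ 2) := by
  classical
  have hK := R_charZero R
  have hb := exists_hb R M
  generalize evenDim R M = p at hb ⊢
  obtain ⟨q, v, hv, hpq⟩ := hb
  have hv' : Hom' R v (par p q) := by
    intro i
    have h1 := hv i
    rw [et] at h1
    rw [h1]
    by_cases h : (i : ℕ) < p
    · rw [if_pos h]
      have h2 : par p q i = false := by simp [par, h]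
      rw [h2]
      simp
    · rw [if_neg h]
      have h2 : par p q i = true := by simp [par]; omega
      rw [h2]
      simp
  choose s hs using fun (n : ℕ) (σ : Equiv.Perm (Fin n)) => A.cperm R M (p + q) v (par p q) hv' n σ
  have hpt : ∀ n, ∀ x ∈ NZ R s hU A.cnum (n + 1), pt ((p : ℤ) - q) x ∈ NZ R s hU A.cnum n := by
    intro n x hx
    have h1 := pt_NZ A.cpt A.cnum hv' hs n x hx
    rw [card_even, card_odd] at h1
    exact h1
  obtain ⟨p', q', hp', hd, hEq⟩ := ideal_eq_ker A.all A.sgn A.ktid A.kmin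
    (N := fun n => NZ R s hU A.cnum n) (p := p) (q := q)
    (fun n => two_NZ A.sgn A.cnum hs n) (fun n x hx => ex_NZ A.sgn A.cnum hs n x hx) hpt
    (zero_NZ A.cnum hs A.sgn) (fun n => ker_le_NZ A.cnum hs n)
  refine ⟨p', q', hp', ?_, ?_, ?_⟩
  · rw [hd]
    have h1 : (totalDim R M : ℤ) = p + q := by exact_mod_cast hpq.symm
    rw [h1]
    ring
  · intro n ρ hρ
    exact lowerN (o := par p' q') A.sgn A.cnum hρ (hEq n).le
  · intro n
    obtain ⟨T, hT, hT2⟩ := cutN (L := p' + q') (o := par p' q') A.sgn A.cnum A.all.ga A.ub1 A.ub2 hs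
      (n := n) (hU := hU) (hEq n).ge
    exact ⟨T, hT, by rw [← hpq]; exact hT2⟩

end

end Pool.Agent.H64ND
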