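import Pool.Agent.H64ND.Stm

/-!
# Project ND, piece CAP
-/

set_option autoImplicit false

open Finset

namespace Pool.Agent.H64ND

section
variable {a : ℕ} {P : Type} [Fintype P] [DecidableEq P]

/-- the operator `E_ij` -/
def Eo (i j : Fin a) (v : (P → Fin a) → ℚ) (w : P → Fin a) : ℚ :=
  ∑ k ∈ univ.filter (fun k => w k = i), v (Function.update w k j)

theorem Eo_Eo {i j : Fin a} (hij : i ≠ j) (u : (P → Fin a) → ℚ) (w : P → Fin a) :
    Eo i j (Eo j i u) w = ((univ.filter fun k => w k = i).card : ℚ) * u w +
      ∑ k ∈ univ.filter (fun k => w k = i), ∑ l ∈ univ.filter (fun l => w l = j),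
        u (Function.update (Function.update w k j) l i) := by
  unfold Eo
  rw [← nsmul_eq_mul, ← Finset.sum_const, ← Finset.sum_add_distrib]
  refine Finset.sum_congr rfl fun k hk => ?_
  have hk' : w k = i := (Finset.mem_filter.1 hk).2
  have h1 : univ.filter (fun l => Function.update w k j l = j) =
      insert k (univ.filter (fun l => w l = j)) := by
    ext l
    simp only [Finset.mem_filter, Finset.mem_univ, true_and, Finset.mem_insert]
    by_cases h : l = k
    · subst h; simp
    · rw [Function.update_of_ne h]; simp [h]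
  have h2 : k ∉ univ.filter (fun l => w l = j) := by
    simp [hk', hij]
  rw [h1, Finset.sum_insert h2, Function.update_idem]
  congr 1
  rw [← hk', Function.update_eq_self]

theorem Eo_comm {i j : Fin a} (hij : i ≠ j) (u : (P → Fin a) → ℚ) (w : P → Fin a) :
    Eo i j (Eo j i u) w - Eo j i (Eo i j u) w = (((univ.filter fun k => w k = i).card : ℚ) -
      ((univ.filter fun k => w k = j).card : ℚ)) * u w := by
  rw [Eo_Eo hij, Eo_Eo hij.symm]
  have h1 : ∑ k ∈ univ.filter (fun k => w k = i), ∑ l ∈ univ.filter (fun l => w l = j),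
        u (Function.update (Function.update w k j) l i) =
      ∑ l ∈ univ.filter (fun l => w l = j), ∑ k ∈ univ.filter (fun k => w k = i),
        u (Function.update (Function.update w l i) k j) := by
    rw [Finset.sum_comm]
    refine Finset.sum_congr rfl fun l hl => Finset.sum_congr rfl fun k hk => ?_
    have hk' : w k = i := (Finset.mem_filter.1 hk).2
    have hl' : w l = j := (Finset.mem_filter.1 hl).2
    have hkl : k ≠ l := by
      rintro rfl
      exact hij (hk'.symm.trans hl')
    rw [Function.update_comm hkl]
  rw [h1]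
  ring

theorem Eo_tr (i j : Fin a) (u v : (P → Fin a) → ℚ) :
    ∑ w, Eo j i u w * v w = ∑ w, u w * Eo i j v w := by
  have h1 : ∀ w, Eo j i u w * v w = ∑ k, if w k = j then u (Function.update w k i) * v w else 0 := by
    intro w
    unfold Eo
    rw [Finset.sum_filter, Finset.sum_mul]
    refine Finset.sum_congr rfl fun k _ => ?_
    split_ifs <;> simp
  have h2 : ∀ w, u w * Eo i j v w = ∑ k, if w k = i then u w * v (Function.update w k j) else 0 := by
    intro w
    unfold Eo
    rw [Finset.sum_filter, Finset.mul_sum]
    refine Finset.sum_congr rfl fun k _ => ?_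
    split_ifs <;> simp
  simp only [h1, h2]
  rw [Finset.sum_comm]
  conv_rhs => rw [Finset.sum_comm]
  refine Finset.sum_congr rfl fun k _ => ?_
  rw [← Finset.sum_filter, ← Finset.sum_filter]
  refine Finset.sum_nbij' (fun w => Function.update w k i) (fun w => Function.update w k j)
    ?_ ?_ ?_ ?_ ?_
  · intro w _; simp
  · intro w _; simp
  · intro w hw
    have : w k = j := (Finset.mem_filter.1 hw).2
    rw [Function.update_idem, ← this, Function.update_eq_self]
  · intro w hw
    have : w k = i := (Finset.mem_filter.1 hw).2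
    rw [Function.update_idem, ← this, Function.update_eq_self]
  · intro w hw
    have : w k = j := (Finset.mem_filter.1 hw).2
    rw [Function.update_idem]
    congr 2
    rw [← this, Function.update_eq_self]

theorem Eo_all {b : ℕ} {u : (P → Fin a) → ℚ}
    (hs : ∀ w, u w ≠ 0 → ∀ i, (univ.filter fun k => w k = i).card = b)
    (hE : ∀ i j : Fin a, i < j → ∀ w, Eo i j u w = 0) {i j : Fin a} (hij : i ≠ j) (w : P → Fin a) :
    Eo i j u w = 0 := by
  rcases lt_or_gt_of_ne hij with h | h
  · exact hE i j h w
  · -- `j < i`
    have h0 : ∀ w, Eo j i (Eo i j u) w = 0 := by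
      intro w
      have h1 := Eo_comm hij.symm u w
      have h2 : Eo i j (Eo j i u) w = 0 := by
        have : Eo j i u = fun _ => 0 := by
          funext w; exact hE j i h w
        rw [this]
        simp [Eo]
      have h3 : (((univ.filter fun k => w k = j).card : ℚ) -
          ((univ.filter fun k => w k = i).card : ℚ)) * u w = 0 := by
        by_cases hu : u w = 0
        · rw [hu, mul_zero]
        · rw [hs w hu i, hs w hu j, sub_self, zero_mul]
      rw [h2, h3, sub_zero] at h1
      exact h1
    have h4 := Eo_tr j i u (Eo i j u)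
    have h5 : ∑ w, u w * Eo j i (Eo i j u) w = 0 :=
      Finset.sum_eq_zero fun w _ => by rw [h0 w, mul_zero]
    rw [h5] at h4
    have h6 := (Finset.sum_eq_zero_iff_of_nonneg (fun w _ => mul_self_nonneg (Eo i j u w))).1 h4 w
      (Finset.mem_univ w)
    exact mul_self_eq_zero.1 h6

/-- the word in which the letters at the places `κ i` are changed from `i` to `f i` -/
def mix (W : P → Fin a) (κ : Fin a → P) (f : Fin a → Fin a) : P → Fin a :=
  fun p => if κ (W p) = p then f (W p) else W p

theorem mix_rel {W : P → Fin a} {κ : Fin a → P} (hκ : ∀ i, W (κ i) = i) {u : (P → Fin a) → ℚ}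
    (hE : ∀ i j : Fin a, i ≠ j → ∀ w, Eo i j u w = 0) (π : Equiv.Perm (Fin a)) {s : Fin a}
    (hs : π s ≠ s) : u (mix W κ (Equiv.swap s (π s) * π : Equiv.Perm (Fin a))) +
      ∑ k ∈ univ.filter (fun k => W k = s), u (mix W (Function.update κ s k) π) = 0 := by
  set W' : P → Fin a := fun p => if κ (W p) = p ∧ W p ≠ s then π (W p) else W p with hW'
  have hi : π.symm s ≠ s := by
    intro h
    apply hs
    conv_lhs => rw [← h]
    exact π.apply_symm_apply s
  have h0 := hE s (π s) hs.symm W'
  unfold Eo at h0
  have h1 : univ.filter (fun k => W' k = s) =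
      insert (κ (π.symm s)) (univ.filter (fun k => W k = s)) := by
    ext k
    simp only [Finset.mem_filter, Finset.mem_univ, true_and, Finset.mem_insert, hW']
    constructor
    · intro h
      by_cases hc : κ (W k) = k ∧ W k ≠ s
      · rw [if_pos hc] at h
        left
        rw [← hc.1]
        congr 1
        rw [← h, Equiv.symm_apply_apply]
      · rw [if_neg hc] at h
        exact Or.inr h
    · rintro (h | h)
      · have hk : W k = π.symm s := by rw [h, hκ]
        rw [if_pos ⟨by rw [hk, h], by rw [hk]; exact hi⟩, hk, Equiv.apply_symm_apply]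
      · rw [if_neg (fun hc => hc.2 h), h]
  have h2 : κ (π.symm s) ∉ univ.filter (fun k => W k = s) := by
    simp [hκ, hi]
  rw [h1, Finset.sum_insert h2] at h0
  rw [← h0]
  congr 1
  · congr 1
    funext p
    unfold mix
    by_cases hp : p = κ (π.symm s)
    · subst hp
      rw [Function.update_self, hκ, if_pos rfl, Equiv.Perm.mul_apply, Equiv.apply_symm_apply,
        Equiv.swap_apply_left]
    · rw [Function.update_of_ne hp]
      simp only [hW']
      by_cases hc : κ (W p) = p
      · rw [if_pos hc, Equiv.Perm.mul_apply]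
        by_cases hps : W p = s
        · rw [if_neg (fun h => h.2 hps), hps, Equiv.swap_apply_right]
        · rw [if_pos ⟨hc, hps⟩, Equiv.swap_apply_of_ne_of_ne]
          · intro h
            apply hp
            rw [← hc]
            congr 1
            rw [← h, Equiv.symm_apply_apply]
          · intro h
            exact hps (π.injective h)
      · rw [if_neg hc, if_neg (fun h => hc h.1)]
  · refine Finset.sum_congr rfl fun k hk => ?_
    have hk' : W k = s := (Finset.mem_filter.1 hk).2
    congr 1
    funext p
    unfold mix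
    by_cases hp : p = k
    · subst hp
      rw [Function.update_self, hk', Function.update_self, if_pos rfl]
    · rw [Function.update_of_ne hp]
      simp only [hW']
      by_cases hps : W p = s
      · have hc1 : ¬ (κ (W p) = p ∧ W p ≠ s) := fun h => h.2 hps
        have hc2 : ¬ (Function.update κ s k (W p) = p) := by
          rw [hps, Function.update_self]
          exact fun h => hp h.symm
        rw [if_neg hc1, if_neg hc2]
      · rw [Function.update_of_ne hps]
        by_cases hc : κ (W p) = p
        · rw [if_pos hc, if_pos ⟨hc, hps⟩]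
        · rw [if_neg hc, if_neg (fun h => hc h.1)]

/-- the choices of one place for each letter -/
def KK (W : P → Fin a) : Finset (Fin a → P) :=
  Fintype.piFinset fun i => univ.filter fun k => W k = i

theorem mem_KK {W : P → Fin a} {κ : Fin a → P} : κ ∈ KK W ↔ ∀ i, W (κ i) = i := by
  simp [KK]

theorem sum_KK (W : P → Fin a) (s : Fin a) (g : (Fin a → P) → ℚ) :
    ∑ κ ∈ KK W, ∑ k ∈ univ.filter (fun k => W k = s), g (Function.update κ s k) =
      ((univ.filter fun k => W k = s).card : ℚ) * ∑ κ ∈ KK W, g κ := by
  have h1 : ((univ.filter fun k => W k = s).card : ℚ) * ∑ κ ∈ KK W, g κ =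
      ∑ κ ∈ KK W, ∑ k ∈ univ.filter (fun k => W k = s), g κ := by
    rw [Finset.mul_sum]
    refine Finset.sum_congr rfl fun κ _ => ?_
    rw [Finset.sum_const, nsmul_eq_mul]
  rw [h1, ← Finset.sum_product', ← Finset.sum_product']
  refine Finset.sum_nbij' (fun x => (Function.update x.1 s x.2, x.1 s))
    (fun x => (Function.update x.1 s x.2, x.1 s)) ?_ ?_ ?_ ?_ ?_
  · rintro ⟨κ, k⟩ h
    rw [Finset.mem_product] at h ⊢
    obtain ⟨h1, h2⟩ := h
    rw [mem_KK] at h1
    have h2' : W k = s := (Finset.mem_filter.1 h2).2
    refine ⟨mem_KK.2 fun i => ?_, by simpa using h1 s⟩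
    by_cases hi : i = s
    · subst hi; simpa using h2'
    · simp only; rw [Function.update_of_ne hi]; exact h1 i
  · rintro ⟨κ, k⟩ h
    rw [Finset.mem_product] at h ⊢
    obtain ⟨h1, h2⟩ := h
    rw [mem_KK] at h1
    have h2' : W k = s := (Finset.mem_filter.1 h2).2
    refine ⟨mem_KK.2 fun i => ?_, by simpa using h1 s⟩
    by_cases hi : i = s
    · subst hi; simpa using h2'
    · simp only; rw [Function.update_of_ne hi]; exact h1 i
  · rintro ⟨κ, k⟩ _
    simp
  · rintro ⟨κ, k⟩ _
    simp
  · rintro ⟨κ, k⟩ _
    rfl

theorem sum_F {b : ℕ} {W : P → Fin a} (hb : ∀ i, (univ.filter fun k => W k = i).card = b + 1)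
    {u : (P → Fin a) → ℚ} (hE : ∀ i j : Fin a, i ≠ j → ∀ w, Eo i j u w = 0) :
    ∀ (n : ℕ) (π : Equiv.Perm (Fin a)), π.support.card = n → ∃ c : ℚ, 0 < c ∧
      ((Equiv.Perm.sign π : ℤ) : ℚ) * ∑ κ ∈ KK W, u (mix W κ π) = c * u W := by
  intro n
  induction n using Nat.strong_induction_on with
  | _ n ih =>
    intro π hn
    by_cases h1 : π = 1
    · subst h1
      refine ⟨((KK W).card : ℚ), ?_, ?_⟩
      · have : (KK W).card = ∏ _i : Fin a, (b + 1) := by
          unfold KK
          rw [Fintype.card_piFinset]
          exact Finset.prod_congr rfl fun i _ => hb i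
        rw [this]
        simp only [Finset.prod_const]
        positivity
      · have h2 : ∀ κ ∈ KK W, u (mix W κ (1 : Equiv.Perm (Fin a))) = u W := by
          intro κ _
          congr 1
          funext p
          unfold mix
          split_ifs <;> rfl
        rw [Finset.sum_congr rfl h2, Finset.sum_const, nsmul_eq_mul]
        simp
    · obtain ⟨s, hs⟩ : ∃ s, π s ≠ s := by
        by_contra hcon
        push Not at hcon
        exact h1 (Equiv.ext hcon)
      have hlt := Equiv.Perm.card_support_swap_mul hs
      rw [hn] at hlt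
      obtain ⟨c, hc, hce⟩ := ih _ hlt (Equiv.swap s (π s) * π) rfl
      have h3 : ∑ κ ∈ KK W, (u (mix W κ (Equiv.swap s (π s) * π : Equiv.Perm (Fin a))) +
          ∑ k ∈ univ.filter (fun k => W k = s), u (mix W (Function.update κ s k) π)) = 0 :=
        Finset.sum_eq_zero fun κ hκ => mix_rel (mem_KK.1 hκ) hE π hs
      rw [Finset.sum_add_distrib, sum_KK W s (fun κ => u (mix W κ π)), hb s] at h3
      refine ⟨c / ((b + 1 : ℕ) : ℚ), by positivity, ?_⟩
      have hsg : ((Equiv.Perm.sign (Equiv.swap s (π s) * π) : ℤ) : ℚ) =
          -((Equiv.Perm.sign π : ℤ) : ℚ) := by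
        rw [Equiv.Perm.sign_mul, Equiv.Perm.sign_swap hs.symm]
        push_cast
        ring
      rw [hsg] at hce
      have hb0 : ((b + 1 : ℕ) : ℚ) ≠ 0 := by positivity
      have h4 : ∑ κ ∈ KK W, u (mix W κ (Equiv.swap s (π s) * π : Equiv.Perm (Fin a))) =
          -(((b + 1 : ℕ) : ℚ) * ∑ κ ∈ KK W, u (mix W κ π)) := by linarith
      rw [h4] at hce
      rw [div_mul_eq_mul_div, ← hce]
      field_simp

theorem exists_col {b : ℕ} {W : P → Fin a} (hb : ∀ i, (univ.filter fun k => W k = i).card = b + 1)
    {u : (P → Fin a) → ℚ} (hE : ∀ i j : Fin a, i ≠ j → ∀ w, Eo i j u w = 0) (hW : u W ≠ 0) :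
    ∃ κ : Fin a → P, (∀ i, W (κ i) = i) ∧
      ∑ π : Equiv.Perm (Fin a), ((Equiv.Perm.sign π : ℤ) : ℚ) * u (mix W κ π) ≠ 0 := by
  by_contra hcon
  push Not at hcon
  choose c hc hce using fun π : Equiv.Perm (Fin a) => sum_F hb hE _ π rfl
  have h1 : ∑ π : Equiv.Perm (Fin a), ((Equiv.Perm.sign π : ℤ) : ℚ) *
      ∑ κ ∈ KK W, u (mix W κ π) = (∑ π, c π) * u W := by
    rw [Finset.sum_mul]
    exact Finset.sum_congr rfl fun π _ => hce π
  have h2 : ∑ π : Equiv.Perm (Fin a), ((Equiv.Perm.sign π : ℤ) : ℚ) *
      ∑ κ ∈ KK W, u (mix W κ π) = 0 := by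
    simp only [Finset.mul_sum]
    rw [Finset.sum_comm]
    exact Finset.sum_eq_zero fun κ hκ => hcon κ (mem_KK.1 hκ)
  rw [h2] at h1
  have h3 : 0 < ∑ π, c π := Finset.sum_pos (fun π _ => hc π) ⟨1, Finset.mem_univ _⟩
  exact (mul_ne_zero h3.ne' hW) h1.symm

end

section
variable {a : ℕ}

theorem sum_detw (g : (Fin a → Fin a) → ℚ) : ∑ f, detw f * g f =
    ∑ π : Equiv.Perm (Fin a), ((Equiv.Perm.sign π : ℤ) : ℚ) * g π := by
  have h1 : ∀ f : Fin a → Fin a, detw f = ∑ σ : Equiv.Perm (Fin a),
      ((Equiv.Perm.sign σ : ℤ) : ℚ) * if f = ⇑σ.symm then 1 else 0 := by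
    intro f
    unfold detw
    rw [Matrix.det_apply']
    refine Finset.sum_congr rfl fun σ _ => ?_
    congr 1
    simp only [Matrix.of_apply]
    rw [Finset.prod_boole]
    congr 1
    simp only [Finset.mem_univ, true_implies, eq_iff_iff]
    constructor
    · intro h
      funext x
      have := h (σ.symm x)
      rwa [Equiv.apply_symm_apply] at this
    · intro h i
      rw [h, Equiv.symm_apply_apply]
  simp only [h1, Finset.sum_mul]
  rw [Finset.sum_comm]
  have h2 : ∀ σ : Equiv.Perm (Fin a), ∑ f : Fin a → Fin a,
      ((Equiv.Perm.sign σ : ℤ) : ℚ) * (if f = ⇑σ.symm then 1 else 0) * g f =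
      ((Equiv.Perm.sign σ⁻¹ : ℤ) : ℚ) * g ⇑σ⁻¹ := by
    intro σ
    rw [Finset.sum_eq_single (⇑σ.symm)]
    · rw [if_pos rfl, mul_one, Equiv.Perm.sign_inv]
      rfl
    · intro f _ hf
      rw [if_neg hf, mul_zero, zero_mul]
    · intro h
      exact absurd (Finset.mem_univ _) h
  rw [Finset.sum_congr rfl fun σ _ => h2 σ]
  exact Equiv.sum_comp (Equiv.inv (Equiv.Perm (Fin a)))
    (fun π : Equiv.Perm (Fin a) => ((Equiv.Perm.sign π : ℤ) : ℚ) * g π)

/-- `(Fin b × Fin a) ⊕ Fin a ≃ Fin (b + 1) × Fin a` -/
def addCol (a b : ℕ) : (Fin b × Fin a) ⊕ Fin a ≃ Fin (b + 1) × Fin a where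
  toFun := Sum.elim (fun x => (x.1.castSucc, x.2)) (fun r => (Fin.last b, r))
  invFun := fun x => Fin.lastCases (motive := fun _ => (Fin b × Fin a) ⊕ Fin a) (Sum.inr x.2)
    (fun c => Sum.inl (c, x.2)) x.1
  left_inv := by
    rintro (⟨c, r⟩ | r)
    · simp
    · simp
  right_inv := by
    rintro ⟨c, r⟩
    refine Fin.lastCases ?_ (fun c => ?_) c
    · simp
    · simp

theorem addCol_symm_castSucc (b : ℕ) (c : Fin b) (r : Fin a) :
    (addCol a b).symm (c.castSucc, r) = Sum.inl (c, r) := by
  rw [Equiv.symm_apply_eq]; rfl

theorem addCol_symm_last (b : ℕ) (r : Fin a) :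
    (addCol a b).symm (Fin.last b, r) = Sum.inr r := by
  rw [Equiv.symm_apply_eq]; rfl

variable {P : Type} [Fintype P] [DecidableEq P]

/-- the decomposition of `P` given by an injective map -/
noncomputable def spl (κ : Fin a → P) (hκ : Function.Injective κ) :
    {p // p ∉ Set.range κ} ⊕ Fin a ≃ P :=
  Equiv.ofBijective (Sum.elim Subtype.val κ) (by
    constructor
    · rintro (x | i) (y | j) h
      · simp only [Sum.elim_inl] at h
        rw [Subtype.ext h]
      · exact absurd ⟨j, h.symm⟩ x.2
      · exact absurd ⟨i, h⟩ y.2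
      · simp only [Sum.elim_inr] at h
        rw [hκ h]
    · intro p
      by_cases h : p ∈ Set.range κ
      · obtain ⟨i, hi⟩ := h
        exact ⟨Sum.inr i, hi⟩
      · exact ⟨Sum.inl ⟨p, h⟩, rfl⟩)

/-- the word glued from a word outside of the column and a function on the column -/
noncomputable def glue (κ : Fin a → P) (hκ : Function.Injective κ)
    (w' : {p // p ∉ Set.range κ} → Fin a) (f : Fin a → Fin a) : P → Fin a :=
  Sum.elim w' f ∘ (spl κ hκ).symm

theorem glue_val (κ : Fin a → P) (hκ : Function.Injective κ)
    (w' : {p // p ∉ Set.range κ} → Fin a) (f : Fin a → Fin a) (p : {p // p ∉ Set.range κ}) :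
    glue κ hκ w' f p.1 = w' p := by
  have h : (spl κ hκ).symm p.1 = Sum.inl p := by
    rw [Equiv.symm_apply_eq]; rfl
  simp [glue, h]

theorem glue_col (κ : Fin a → P) (hκ : Function.Injective κ)
    (w' : {p // p ∉ Set.range κ} → Fin a) (f : Fin a → Fin a) (i : Fin a) :
    glue κ hκ w' f (κ i) = f i := by
  have h : (spl κ hκ).symm (κ i) = Sum.inr i := by
    rw [Equiv.symm_apply_eq]; rfl
  simp [glue, h]

theorem glue_ext (κ : Fin a → P) (hκ : Function.Injective κ)
    (w' : {p // p ∉ Set.range κ} → Fin a) (f : Fin a → Fin a) (w : P → Fin a)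
    (h1 : ∀ p, w p.1 = w' p) (h2 : ∀ i, w (κ i) = f i) : w = glue κ hκ w' f := by
  funext p
  obtain ⟨x, rfl⟩ := (spl κ hκ).surjective p
  rcases x with x | i
  · exact (h1 x).trans (glue_val κ hκ w' f x).symm
  · exact (h2 i).trans (glue_col κ hκ w' f i).symm

theorem sum_glue (κ : Fin a → P) (hκ : Function.Injective κ) (G : (P → Fin a) → ℚ) :
    ∑ w, G w = ∑ w' : {p // p ∉ Set.range κ} → Fin a, ∑ f : Fin a → Fin a,
      G (glue κ hκ w' f) := by
  rw [← Fintype.sum_prod_type']
  symm
  refine Fintype.sum_bijective (fun x : ({p // p ∉ Set.range κ} → Fin a) × (Fin a → Fin a) =>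
    glue κ hκ x.1 x.2) ?_ _ _ (fun x => rfl)
  constructor
  · rintro ⟨w1, f1⟩ ⟨w2, f2⟩ h
    simp only at h
    have e1 : w1 = w2 := by
      funext p
      rw [← glue_val κ hκ w1 f1 p, h, glue_val]
    have e2 : f1 = f2 := by
      funext i
      rw [← glue_col κ hκ w1 f1 i, h, glue_col]
    rw [e1, e2]
  · intro w
    exact ⟨(fun p => w p.1, w ∘ κ), (glue_ext κ hκ _ _ w (fun _ => rfl) (fun _ => rfl)).symm⟩

theorem sum_glueP (κ : Fin a → P) (hκ : Function.Injective κ) (G : P → ℚ) :
    ∑ p, G p = (∑ p : {p // p ∉ Set.range κ}, G p.1) + ∑ i, G (κ i) := by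
  rw [← Equiv.sum_comp (spl κ hκ), Fintype.sum_sum_type]
  rfl

end

theorem cap_ind (a : ℕ) : ∀ (b : ℕ) (P : Type) [Fintype P] [DecidableEq P],
    Fintype.card P = b * a → ∀ u : (P → Fin a) → ℚ, u ≠ 0 →
    (∀ w, u w ≠ 0 → ∀ i, (univ.filter fun k => w k = i).card = b) →
    (∀ i j : Fin a, i ≠ j → ∀ w, Eo i j u w = 0) →
    ∃ t : P ≃ Fin b × Fin a, ∑ w, dv t w * u w ≠ 0 := by
  intro b
  induction b with
  | zero =>
    intro P _ _ hP u hu _ _
    rw [zero_mul] at hP
    have : IsEmpty P := Fintype.card_eq_zero_iff.1 hP
    refine ⟨Equiv.equivOfIsEmpty _ _, ?_⟩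
    obtain ⟨w, hw⟩ := Function.ne_iff.1 hu
    rw [Fintype.sum_unique]
    simp only [dv, Finset.univ_eq_empty, Finset.prod_empty, one_mul]
    have : w = default := Subsingleton.elim _ _
    rwa [this] at hw
  | succ b ih =>
    intro P _ _ hP u hu hs hE
    obtain ⟨W, hW⟩ := Function.ne_iff.1 hu
    rw [Pi.zero_apply] at hW
    obtain ⟨κ, hκ, hne⟩ := exists_col (hs W hW) hE hW
    have hinj : Function.Injective κ := by
      intro i j h
      rw [← hκ i, h, hκ j]
    let P' := {p // p ∉ Set.range κ}
    let u' : (P' → Fin a) → ℚ := fun w' => ∑ π : Equiv.Perm (Fin a),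
      ((Equiv.Perm.sign π : ℤ) : ℚ) * u (glue κ hinj w' π)
    have hcard : Fintype.card P' = b * a := by
      have h1 : Fintype.card (P' ⊕ Fin a) = Fintype.card P := Fintype.card_congr (spl κ hinj)
      rw [Fintype.card_sum, Fintype.card_fin, hP] at h1
      have : (b + 1) * a = b * a + a := by ring
      omega
    have hu' : u' ≠ 0 := by
      intro h0
      apply hne
      have h1 := congrFun h0 (fun p => W p.1)
      simp only [u', Pi.zero_apply] at h1
      rw [← h1]
      refine Finset.sum_congr rfl fun π _ => ?_
      congr 2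
      apply glue_ext
      · intro p
        unfold mix
        rw [if_neg]
        intro h
        exact p.2 ⟨_, h⟩
      · intro i
        unfold mix
        rw [hκ i, if_pos rfl]
    have hs' : ∀ w', u' w' ≠ 0 → ∀ i, (univ.filter fun k => w' k = i).card = b := by
      intro w' hw' i
      obtain ⟨π, -, hπ⟩ := Finset.exists_ne_zero_of_sum_ne_zero hw'
      have h1 := hs _ (right_ne_zero_of_mul hπ) i
      have h2 : (((univ.filter fun k => glue κ hinj w' π k = i).card : ℕ) : ℚ) =
          ((univ.filter fun k => w' k = i).card : ℚ) + 1 := by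
        rw [Finset.card_filter, Finset.card_filter]
        push_cast
        rw [sum_glueP κ hinj]
        congr 1
        · refine Finset.sum_congr rfl fun p _ => ?_
          rw [glue_val]
        · rw [Finset.sum_eq_single (π.symm i)]
          · rw [glue_col, Equiv.apply_symm_apply, if_pos rfl]
          · intro j _ hj
            rw [glue_col, if_neg]
            intro h
            apply hj
            rw [← h, Equiv.symm_apply_apply]
          · intro h
            exact absurd (Finset.mem_univ _) h
      rw [h1] at h2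
      push_cast at h2
      have h3 : ((univ.filter fun k => w' k = i).card : ℚ) = (b : ℚ) := by linarith
      exact_mod_cast h3
    have hE' : ∀ i j : Fin a, i ≠ j → ∀ w', Eo i j u' w' = 0 := by
      intro i j hij w'
      have e1 : Eo i j u' w' = ∑ π : Equiv.Perm (Fin a), ((Equiv.Perm.sign π : ℤ) : ℚ) *
          ∑ k : P', if w' k = i then u (Function.update (glue κ hinj w' π) k.1 j) else 0 := by
        unfold Eo
        simp only [u']
        rw [Finset.sum_comm]
        refine Finset.sum_congr rfl fun π _ => ?_
        rw [← Finset.mul_sum, ← Finset.sum_filter]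
        congr 1
        refine Finset.sum_congr rfl fun k _ => ?_
        congr 1
        symm
        apply glue_ext
        · intro p
          by_cases h : p = k
          · subst h; rw [Function.update_self, Function.update_self]
          · rw [Function.update_of_ne (fun h' => h (Subtype.ext h')), Function.update_of_ne h,
              glue_val]
        · intro l
          rw [Function.update_of_ne, glue_col]
          intro h
          exact k.2 ⟨l, h⟩
      have e2 : ∀ π : Equiv.Perm (Fin a),
          (∑ k : P', if w' k = i then u (Function.update (glue κ hinj w' π) k.1 j) else 0) =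
          - u (Function.update (glue κ hinj w' π) (κ (π.symm i)) j) := by
        intro π
        have h1 := hE i j hij (glue κ hinj w' π)
        unfold Eo at h1
        rw [Finset.sum_filter, sum_glueP κ hinj] at h1
        simp only [glue_val, glue_col] at h1
        have h2 : (∑ l : Fin a, if π l = i then
            u (Function.update (glue κ hinj w' π) (κ l) j) else 0) =
            u (Function.update (glue κ hinj w' π) (κ (π.symm i)) j) := by
          rw [Finset.sum_eq_single (π.symm i)]
          · rw [Equiv.apply_symm_apply, if_pos rfl]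
          · intro l _ hl
            rw [if_neg]
            intro h
            apply hl
            rw [← h, Equiv.symm_apply_apply]
          · intro h
            exact absurd (Finset.mem_univ _) h
        rw [h2] at h1
        linarith
      have e3 : ∀ π : Equiv.Perm (Fin a),
          Function.update (glue κ hinj w' (Equiv.swap i j * π : Equiv.Perm (Fin a)))
            (κ ((Equiv.swap i j * π : Equiv.Perm (Fin a)).symm i)) j =
          Function.update (glue κ hinj w' π) (κ (π.symm i)) j := by
        intro π
        have h0 : (Equiv.swap i j * π : Equiv.Perm (Fin a)).symm i = π.symm j := by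
          rw [Equiv.symm_apply_eq, Equiv.Perm.mul_apply, Equiv.apply_symm_apply,
            Equiv.swap_apply_right]
        rw [h0]
        funext p
        obtain ⟨x, rfl⟩ := (spl κ hinj).surjective p
        rcases x with x | l
        · change Function.update _ _ _ x.1 = Function.update _ _ _ x.1
          rw [Function.update_of_ne (fun h => x.2 ⟨_, h.symm⟩),
            Function.update_of_ne (fun h => x.2 ⟨_, h.symm⟩), glue_val, glue_val]
        · change Function.update _ _ _ (κ l) = Function.update _ _ _ (κ l)
          by_cases hl1 : l = π.symm j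
          · have hne1 : κ l ≠ κ (π.symm i) := by
              intro h
              have := hinj h
              rw [hl1] at this
              exact hij (π.symm.injective this).symm
            rw [hl1, Function.update_self]
            rw [hl1] at hne1
            rw [Function.update_of_ne hne1, glue_col, Equiv.apply_symm_apply]
          · have hne1 : κ l ≠ κ (π.symm j) := fun h => hl1 (hinj h)
            rw [Function.update_of_ne hne1, glue_col, Equiv.Perm.mul_apply]
            by_cases hl2 : l = π.symm i
            · rw [hl2, Function.update_self, Equiv.apply_symm_apply, Equiv.swap_apply_left]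
            · have hne2 : κ l ≠ κ (π.symm i) := fun h => hl2 (hinj h)
              rw [Function.update_of_ne hne2, glue_col, Equiv.swap_apply_of_ne_of_ne]
              · intro h
                apply hl2
                rw [← h, Equiv.symm_apply_apply]
              · intro h
                apply hl1
                rw [← h, Equiv.symm_apply_apply]
      rw [e1]
      simp only [e2]
      set S := ∑ π : Equiv.Perm (Fin a), ((Equiv.Perm.sign π : ℤ) : ℚ) *
        - u (Function.update (glue κ hinj w' π) (κ (π.symm i)) j) with hS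
      have h1 : S = -S := by
        conv_lhs => rw [hS, ← Equiv.sum_comp (Equiv.mulLeft (Equiv.swap i j))]
        rw [hS, ← Finset.sum_neg_distrib]
        refine Finset.sum_congr rfl fun π _ => ?_
        simp only [Equiv.coe_mulLeft]
        rw [e3 π, Equiv.Perm.sign_mul, Equiv.Perm.sign_swap hij]
        push_cast
        ring
      linarith
    obtain ⟨t', ht'⟩ := ih P' hcard u' hu' hs' hE'
    refine ⟨(spl κ hinj).symm.trans ((Equiv.sumCongr t' (Equiv.refl _)).trans (addCol a b)), ?_⟩
    rw [sum_glue κ hinj]
    have h1 : ∀ (w' : P' → Fin a) (f : Fin a → Fin a),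
        dv ((spl κ hinj).symm.trans ((Equiv.sumCongr t' (Equiv.refl _)).trans (addCol a b)))
          (glue κ hinj w' f) = dv t' w' * detw f := by
      intro w' f
      unfold dv
      rw [Fin.prod_univ_castSucc]
      congr 1
      · refine Finset.prod_congr rfl fun c _ => ?_
        congr 1
        funext r
        have : ((spl κ hinj).symm.trans ((Equiv.sumCongr t' (Equiv.refl _)).trans
            (addCol a b))).symm (c.castSucc, r) = (t'.symm (c, r)).1 := by
          simp only [Equiv.symm_trans_apply, addCol_symm_castSucc, Equiv.symm_symm]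
          rfl
        rw [this, glue_val]
      · congr 1
        funext r
        have : ((spl κ hinj).symm.trans ((Equiv.sumCongr t' (Equiv.refl _)).trans
            (addCol a b))).symm (Fin.last b, r) = κ r := by
          simp only [Equiv.symm_trans_apply, addCol_symm_last, Equiv.symm_symm]
          rfl
        rw [this, glue_col]
    simp only [h1]
    have h2 : (∑ w' : P' → Fin a, ∑ f : Fin a → Fin a,
        dv t' w' * detw f * u (glue κ hinj w' f)) = ∑ w' : P' → Fin a, dv t' w' * u' w' := by
      refine Finset.sum_congr rfl fun w' _ => ?_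
      simp only [u']
      rw [← sum_detw (fun f => u (glue κ hinj w' f)), Finset.mul_sum]
      exact Finset.sum_congr rfl fun f _ => by ring
    rw [h2]
    exact ht'

/-- piece CAP -/
theorem t_CAP : S_CAP := by
  intro a b P _ _ hP u hu hs hE
  exact cap_ind a b P hP u hu hs (fun i j hij w => Eo_all hs hE hij w)

end Pool.Agent.H64ND
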