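import Pool.Agent.H64ND.Stm4

/-!
# Piece CAS: the Casimir element computes the parity index
-/

set_option autoImplicit false

open Module Polynomial TensorProduct Matrix
open CategoryTheory Limits MonoidalCategory
open Pool.Agent.Y112.SR Pool.Agent.Y112.KD Pool.Agent.Y112.SC Pool.Agent.R484.NC Pool.Agent.H64NC

namespace Pool.Agent.H64ND.Cas2

universe u v w

/-- The conclusion, in terms of a functional on a ring. -/
def Concl {E : Type v} [Ring E] [Algebra ℚ E] (τ : E →ₗ[ℚ] ℚ) (Ω : E) : Prop :=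
  ∃ (Λ : Finset ℚ) (μ : ℚ → ℕ), (0 : ℚ) ∉ Λ ∧ (∀ l ∈ Λ, 0 < μ l) ∧ (∀ l ∈ Λ, |l| ≤ μ l) ∧
    (∀ P : Polynomial ℚ, (∀ y, τ (aeval Ω P * y) = 0) ↔ ∀ l ∈ Λ, P.eval l = 0) ∧
    (∀ P : Polynomial ℚ, τ (aeval Ω P) =
      ∑ l ∈ Λ, (if 0 < l then 1 else -1) * (μ l : ℚ) * P.eval l) ∧
    (∀ x : E, (∀ y, τ ((x * x - 1) * y) = 0) → τ x ≤ ∑ l ∈ Λ, (μ l : ℚ)) ∧
    (∀ h y : E, τ ((Ω * h - h * Ω) * y) = 0) ∧
    ∀ y : E, (∀ z, τ ((y * y - y) * z) = 0) → ¬ (∀ z, τ (y * z) = 0) → 0 < τ (Ω * y)

/-- Dual bases give the Casimir element. -/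
theorem dual {K : Type w} [Field K] [CharZero K] {Q : Type w} [Ring Q] [Algebra K Q]
    [Module.Finite K Q] (s : Q →ₗ[K] K) (hs : ∀ x y, s (x * y) = s (y * x))
    (hnd : ∀ x, (∀ y, s (x * y) = 0) → x = 0)
    {E : Type v} [Ring E] [Algebra ℚ E] (κ : E →+* Q)
    (hspan : Submodule.span K (Set.range κ) = ⊤)
    (τ : E →ₗ[ℚ] ℚ) (hτ : ∀ x, ((τ x : ℚ) : K) = s (κ x)) {r : ℕ} (f g : Fin r → E)
    (h1 : ∀ i j, τ (g j * f i) = if i = j then 1 else 0)
    (h2 : ∀ h y, τ ((h - ∑ i, τ (g i * h) • f i) * y) = 0) (a : Q) :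
    s (a * κ (∑ i, g i * f i)) = LinearMap.trace K Q (LinearMap.mulLeft K a) := by
  classical
  -- elements of `E` which are numerically zero are zero in the quotient
  have hz : ∀ x : E, (∀ y, τ (x * y) = 0) → κ x = 0 := by
    intro x hx
    apply hnd
    intro z
    have h3 : z ∈ Submodule.span K (Set.range κ) := by
      rw [hspan]
      exact Submodule.mem_top
    induction h3 using Submodule.span_induction with
    | mem z hz =>
      obtain ⟨z, rfl⟩ := hz
      rw [← map_mul, ← hτ, hx, Rat.cast_zero]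
    | zero => rw [mul_zero, map_zero]
    | add z w _ _ hz hw => rw [mul_add, map_add, hz, hw, add_zero]
    | smul c z _ hz => rw [mul_smul_comm, map_smul, hz, smul_zero]
  have hq : ∀ (q : ℚ) (x : E), κ (q • x) = (q : K) • κ x := by
    intro q x
    have e1 : κ (q • x) = κ (algebraMap ℚ E q) * κ x := by
      rw [← map_mul, ← Algebra.smul_def]
    have e2 : κ (algebraMap ℚ E q) = algebraMap K Q (q : K) := by
      have e3 : κ.comp (algebraMap ℚ E) = (algebraMap K Q).comp (Rat.castHom K) :=
        Subsingleton.elim _ _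
      exact congrArg (fun φ : ℚ →+* Q => φ q) e3
    rw [e1, e2, ← Algebra.smul_def]
  have hpair : ∀ i j, s (κ (g j) * κ (f i)) = if i = j then 1 else 0 := by
    intro i j
    rw [← map_mul, ← hτ, h1]
    split_ifs <;> simp
  -- `κ (f i)` spans
  have hspf : ⊤ ≤ Submodule.span K (Set.range fun i => κ (f i)) := by
    rw [← hspan, Submodule.span_le]
    rintro _ ⟨h, rfl⟩
    have h3 := hz _ (h2 h)
    rw [map_sub, map_sum, sub_eq_zero] at h3
    rw [h3]
    refine Submodule.sum_mem _ fun i _ => ?_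
    rw [hq]
    exact Submodule.smul_mem _ _ (Submodule.subset_span ⟨i, rfl⟩)
  -- independence of both families
  have hlif : LinearIndependent K (fun i => κ (f i)) := by
    rw [Fintype.linearIndependent_iff]
    intro c hc j
    have h3 : s (κ (g j) * ∑ i, c i • κ (f i)) = 0 := by rw [hc, mul_zero, map_zero]
    rw [Finset.mul_sum, map_sum, Finset.sum_eq_single j] at h3
    · rw [mul_smul_comm, map_smul, hpair, if_pos rfl] at h3
      simpa using h3
    · intro i _ hij
      rw [mul_smul_comm, map_smul, hpair, if_neg hij, smul_zero]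
    · intro h
      exact absurd (Finset.mem_univ j) h
  have hlig : LinearIndependent K (fun i => κ (g i)) := by
    rw [Fintype.linearIndependent_iff]
    intro c hc j
    have h3 : s (κ (f j) * ∑ i, c i • κ (g i)) = 0 := by rw [hc, mul_zero, map_zero]
    rw [Finset.mul_sum, map_sum, Finset.sum_eq_single j] at h3
    · rw [mul_smul_comm, map_smul, hs, hpair, if_pos rfl] at h3
      simpa using h3
    · intro i _ hij
      rw [mul_smul_comm, map_smul, hs, hpair, if_neg (Ne.symm hij), smul_zero]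
    · intro h
      exact absurd (Finset.mem_univ j) h
  let bf : Basis (Fin r) K Q := Basis.mk hlif hspf
  have hcard : Fintype.card (Fin r) = Module.finrank K Q := (Module.finrank_eq_card_basis bf).symm
  have hspg : ⊤ ≤ Submodule.span K (Set.range fun i => κ (g i)) :=
    (hlig.span_eq_top_of_card_eq_finrank' hcard).ge
  let b : Basis (Fin r) K Q := Basis.mk hlig hspg
  have hb : ∀ i, b i = κ (g i) := fun i => by simp [b]
  have hcoord : ∀ j (z : Q), s (κ (f j) * z) = b.repr z j := by
    intro j z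
    conv_lhs => rw [← b.sum_repr z]
    rw [Finset.mul_sum, map_sum, Finset.sum_eq_single j]
    · rw [mul_smul_comm, map_smul, hb, hs, hpair, if_pos rfl, smul_eq_mul, mul_one]
    · intro k _ hk
      rw [mul_smul_comm, map_smul, hb, hs, hpair, if_neg (Ne.symm hk), smul_zero]
    · intro h; exact absurd (Finset.mem_univ j) h
  rw [LinearMap.trace_eq_matrix_trace K b, Matrix.trace, map_sum, Finset.mul_sum, map_sum]
  refine Finset.sum_congr rfl fun j _ => ?_
  rw [Matrix.diag_apply, LinearMap.toMatrix_apply, ← hcoord, LinearMap.mulLeft_apply, hb,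
    hs (κ (f j)), map_mul κ, mul_assoc]

/-- the case of a product of matrix algebras -/
theorem main_pi {K : Type w} [Field K] [CharZero K] {m : ℕ} {n : Fin m → ℕ} [∀ i, NeZero (n i)]
    (s : Str1.PM K n →ₗ[K] K) (hs : ∀ x y, s (x * y) = s (y * x))
    (hnd : ∀ x, (∀ y, s (x * y) = 0) → x = 0) (hint : ∀ e, e * e = e → ∃ m : ℤ, s e = m)
    {E : Type v} [Ring E] [Algebra ℚ E] (κ : E →+* Str1.PM K n)
    (hspan : Submodule.span K (Set.range κ) = ⊤)
    (τ : E →ₗ[ℚ] ℚ) (hτ : ∀ x, ((τ x : ℚ) : K) = s (κ x)) {r : ℕ} (f g : Fin r → E)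
    (h1 : ∀ i j, τ (g j * f i) = if i = j then 1 else 0)
    (h2 : ∀ h y, τ ((h - ∑ i, τ (g i * h) • f i) * y) = 0) :
    Concl τ (∑ i, g i * f i) := by
  classical
  have hz : ∀ x : E, (∀ y, τ (x * y) = 0) → κ x = 0 := by
    intro x hx
    apply hnd
    intro z
    have h3 : z ∈ Submodule.span K (Set.range κ) := by
      rw [hspan]
      exact Submodule.mem_top
    induction h3 using Submodule.span_induction with
    | mem z hz =>
      obtain ⟨z, rfl⟩ := hz
      rw [← map_mul, ← hτ, hx, Rat.cast_zero]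
    | zero => rw [mul_zero, map_zero]
    | add z w _ _ hz hw => rw [mul_add, map_add, hz, hw, add_zero]
    | smul c z _ hz => rw [mul_smul_comm, map_smul, hz, smul_zero]
  have hz0 : ∀ x : E, κ x = 0 → ∀ y, τ (x * y) = 0 := by
    intro x hx y
    have : ((τ (x * y) : ℚ) : K) = 0 := by rw [hτ, map_mul, hx, zero_mul, map_zero]
    exact_mod_cast this
  -- the weights
  have hc : ∀ i, ∃ c : ℤ, s (Str1.e0 K n i) = c := fun i => hint _ (Str1.e0_mul_self i)
  choose c hc using hc
  have hsx : ∀ x, s x = ∑ i, (c i : K) * Matrix.trace (x i) := by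
    intro x
    rw [Str1.tracial_pi s hs]
    exact Finset.sum_congr rfl fun i _ => by rw [hc]
  have hc0 : ∀ i, c i ≠ 0 := by
    intro i h0
    apply Str1.e0_ne (K := K) (n := n) i
    apply hnd
    intro y
    rw [hsx]
    refine Finset.sum_eq_zero fun j _ => ?_
    by_cases hij : j = i
    · subst hij; rw [h0]; simp
    · have : (Str1.e0 K n i * y) j = 0 := by
        rw [Pi.mul_apply, Str1.e0, Pi.single_eq_of_ne hij, zero_mul]
      rw [this, Matrix.trace_zero, mul_zero]
  -- the trace of left multiplication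
  let T : Str1.PM K n →ₗ[K] K := LinearMap.trace K (Str1.PM K n) ∘ₗ (LinearMap.mul K (Str1.PM K n))
  have hT : ∀ x, T x = LinearMap.trace K (Str1.PM K n) (LinearMap.mulLeft K x) := fun x => rfl
  have hTtr : ∀ x y, T (x * y) = T (y * x) := by
    intro x y
    rw [hT, hT]
    have h1 : ∀ x y : Str1.PM K n, LinearMap.mulLeft K (x * y)
        = LinearMap.mulLeft K x * LinearMap.mulLeft K y := fun x y => by
      ext z; simp
    rw [h1, h1, LinearMap.trace_mul_comm]
  have ht : ∀ i, ∃ t : ℕ, 0 < t ∧ T (Str1.e0 K n i) = t := fun i =>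
    Str1.trace_idem _ (Str1.e0_mul_self i) (Str1.e0_ne i)
  choose t htpos ht using ht
  have hTx : ∀ x, T x = ∑ i, (t i : K) * Matrix.trace (x i) := by
    intro x
    rw [Str1.tracial_pi T hTtr]
    exact Finset.sum_congr rfl fun i _ => by rw [ht]
  have htn : ∀ i, t i = n i := by
    intro i
    have h3 : T (Pi.single i (1 : Matrix (Fin (n i)) (Fin (n i)) K) : Str1.PM K n) =
        (n i : K) * n i := by
      have e1 : LinearMap.mulLeft K (Pi.single i (1 : Matrix (Fin (n i)) (Fin (n i)) K) :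
          Str1.PM K n) = (LinearMap.single K (fun i => Matrix (Fin (n i)) (Fin (n i)) K) i) ∘ₗ
            (LinearMap.proj i) := by
        refine LinearMap.ext fun x => ?_
        show (Pi.single i (1 : Matrix (Fin (n i)) (Fin (n i)) K) : Str1.PM K n) * x =
          Pi.single i (x i)
        funext j
        by_cases hj : j = i
        · subst hj
          rw [Pi.mul_apply, Pi.single_eq_same, Pi.single_eq_same, one_mul]
        · rw [Pi.mul_apply, Pi.single_eq_of_ne hj, Pi.single_eq_of_ne hj, zero_mul]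
      have e2 : (LinearMap.proj i : Str1.PM K n →ₗ[K] Matrix (Fin (n i)) (Fin (n i)) K) ∘ₗ
          (LinearMap.single K (fun i => Matrix (Fin (n i)) (Fin (n i)) K) i) = LinearMap.id := by
        refine LinearMap.ext fun x => ?_
        exact Pi.single_eq_same (M := fun i => Matrix (Fin (n i)) (Fin (n i)) K) i x
      rw [hT, e1, LinearMap.trace_comp_comm', e2, LinearMap.trace_id, Module.finrank_matrix]
      simp
    have h4 := hTx (Pi.single i (1 : Matrix (Fin (n i)) (Fin (n i)) K))
    rw [h3, Finset.sum_eq_single i (fun j _ hj => by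
      rw [Pi.single_eq_of_ne hj, Matrix.trace_zero, mul_zero]) (fun h => absurd
        (Finset.mem_univ i) h), Pi.single_eq_same, Matrix.trace_one, Fintype.card_fin] at h4
    have h5 : (n i : K) ≠ 0 := by exact_mod_cast (NeZero.ne (n i))
    have h6 : (n i : K) = (t i : K) := mul_right_cancel₀ h5 h4
    exact_mod_cast h6.symm
  -- the Casimir element
  obtain ⟨Ω, hΩd⟩ : ∃ Ω : E, Ω = ∑ i, g i * f i := ⟨_, rfl⟩
  have hΩ := dual s hs hnd κ hspan τ hτ f g h1 h2
  rw [← hΩd] at hΩ ⊢
  let lam : Fin m → ℚ := fun i => (t i : ℚ) / (c i : ℚ)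
  have hlam0 : ∀ i, lam i ≠ 0 := fun i => by
    have hti : (t i : ℚ) ≠ 0 := by exact_mod_cast (htpos i).ne'
    have hci : (c i : ℚ) ≠ 0 := by exact_mod_cast hc0 i
    exact div_ne_zero hti hci
  let G : ∀ i, ℚ →+* Matrix (Fin (n i)) (Fin (n i)) K := fun i =>
    (algebraMap K (Matrix (Fin (n i)) (Fin (n i)) K)).comp (algebraMap ℚ K)
  have hgtr : ∀ i (q : ℚ), Matrix.trace (G i q) = (q : K) * (n i : K) := by
    intro i q
    simp only [G, RingHom.comp_apply, eq_ratCast, Algebra.algebraMap_eq_smul_one,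
      Matrix.trace_smul, Matrix.trace_one, Fintype.card_fin, smul_eq_mul]
  have hgmul : ∀ i (q : ℚ) (A : Matrix (Fin (n i)) (Fin (n i)) K),
      Matrix.trace (A * G i q) = (q : K) * Matrix.trace A := by
    intro i q A
    simp only [G, RingHom.comp_apply, eq_ratCast, Algebra.algebraMap_eq_smul_one,
      Matrix.trace_smul, mul_smul_comm, mul_one, smul_eq_mul]
  have hκΩ : κ Ω = fun i => G i (lam i) := by
    have h1 : ∀ a, s (a * ((fun i => G i (lam i)) - κ Ω)) = 0 := by
      intro a
      rw [mul_sub, map_sub, hΩ, ← hT, hsx, hTx, sub_eq_zero]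
      refine Finset.sum_congr rfl fun i _ => ?_
      rw [Pi.mul_apply, hgmul, ← mul_assoc]
      congr 1
      have : (c i : K) ≠ 0 := by exact_mod_cast hc0 i
      simp only [lam]
      push_cast
      field_simp
    have h2 := hnd ((fun i => G i (lam i)) - κ Ω) (fun y => by rw [hs]; exact h1 y)
    exact (sub_eq_zero.1 h2).symm
  have hκP : ∀ P : Polynomial ℚ, κ (aeval Ω P) = fun i => G i (P.eval (lam i)) := by
    intro q
    have h0 : aeval Ω q = q.eval₂ (algebraMap ℚ E) Ω := rfl
    rw [h0, Polynomial.hom_eval₂, hκΩ]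
    funext i
    have h1 : (Pi.evalRingHom (fun i => Matrix (Fin (n i)) (Fin (n i)) K) i)
        (q.eval₂ (κ.comp (algebraMap ℚ E)) (fun i => G i (lam i)))
        = q.eval₂ ((Pi.evalRingHom (fun i => Matrix (Fin (n i)) (Fin (n i)) K) i).comp
            (κ.comp (algebraMap ℚ E))) (G i (lam i)) := by
      rw [Polynomial.hom_eval₂]; rfl
    have h2 : (Pi.evalRingHom (fun i => Matrix (Fin (n i)) (Fin (n i)) K) i).comp
            (κ.comp (algebraMap ℚ E)) = G i := Subsingleton.elim _ _
    rw [h2, Polynomial.eval₂_at_apply] at h1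
    exact h1
  -- signs
  let sg : ℚ → ℚ := fun x => if 0 < x then 1 else -1
  have hsg2 : ∀ x, sg x * sg x = 1 := by
    intro x; simp only [sg]; split_ifs <;> norm_num
  have hsgc : ∀ i, (c i : ℚ) * sg (lam i) = |(c i : ℚ)| := by
    intro i
    have hti : (0 : ℚ) < t i := by exact_mod_cast htpos i
    have hci : (c i : ℚ) ≠ 0 := by exact_mod_cast hc0 i
    simp only [sg, lam]
    rcases lt_or_gt_of_ne hci with h | h
    · rw [if_neg (not_lt.2 (div_nonpos_of_nonneg_of_nonpos hti.le h.le)), abs_of_neg h]; ring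
    · rw [if_pos (div_pos hti h), abs_of_pos h]; ring
  have hsgc' : ∀ i, (c i : ℚ) = sg (lam i) * |(c i : ℚ)| := by
    intro i
    rw [← hsgc, mul_left_comm, hsg2, mul_one]
  -- the ranks of idempotents
  have hrank : ∀ y : E, κ y * κ y = κ y → ∃ r : Fin m → ℕ, (∀ i, Matrix.trace (κ y i) = (r i : K)) ∧
      ((∀ i, r i = 0) → κ y = 0) := by
    intro y hy
    have hr : ∀ i, ∃ r : ℕ, Matrix.trace (κ y i) = (r : K) ∧ (r = 0 → κ y i = 0) := by
      intro i
      have hi : κ y i * κ y i = κ y i := by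
        have := congrFun hy i
        rwa [Pi.mul_apply] at this
      have hid : IsIdempotentElem (Matrix.toLin' (κ y i)) := by
        rw [IsIdempotentElem, Module.End.mul_eq_comp, ← Matrix.toLin'_mul, hi]
      refine ⟨Module.finrank K (LinearMap.range (Matrix.toLin' (κ y i))), ?_, fun h0 => ?_⟩
      · rw [← Matrix.trace_toLin'_eq]
        exact (LinearMap.IsIdempotentElem.isProj_range _ hid).trace
      · rw [Submodule.finrank_eq_zero, LinearMap.range_eq_bot] at h0
        have h1 : Matrix.toLin' (κ y i) = Matrix.toLin' 0 := by rw [h0, map_zero]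
        exact Matrix.toLin'.injective h1
    choose r hr hr0 using hr
    exact ⟨r, hr, fun h => funext fun i => hr0 i (h i)⟩
  have hτr : ∀ (y : E) (r : Fin m → ℕ), (∀ i, Matrix.trace (κ y i) = (r i : K)) →
      τ y = ∑ i, (c i : ℚ) * (r i : ℚ) := by
    intro y r hr
    have : ((τ y : ℚ) : K) = ((∑ i, (c i : ℚ) * (r i : ℚ) : ℚ) : K) := by
      rw [hτ, hsx, Rat.cast_sum]
      refine Finset.sum_congr rfl fun i _ => ?_
      rw [hr]
      push_cast
      ring
    exact_mod_cast this
  -- the multiplicities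
  let μ : ℚ → ℕ := fun l => ∑ i ∈ Finset.univ.filter (fun i => lam i = l), n i * (c i).natAbs
  have hfib : ∀ F : ℚ → ℚ, ∑ l ∈ Finset.univ.image lam, F l * (μ l : ℚ) =
      ∑ i, F (lam i) * ((n i : ℚ) * |(c i : ℚ)|) := by
    intro F
    rw [← Finset.sum_fiberwise_of_maps_to (s := Finset.univ) (t := Finset.univ.image lam) (g := lam)
      (fun i _ => Finset.mem_image_of_mem lam (Finset.mem_univ i))]
    refine Finset.sum_congr rfl fun l _ => ?_
    simp only [μ]
    rw [Nat.cast_sum, Finset.mul_sum]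
    refine Finset.sum_congr rfl fun i hi => ?_
    rw [(Finset.mem_filter.1 hi).2]
    have : (((c i).natAbs : ℕ) : ℚ) = |(c i : ℚ)| := by
      rw [Nat.cast_natAbs, Int.cast_abs]
    rw [Nat.cast_mul, this]
  refine ⟨Finset.univ.image lam, μ, ?_, ?_, ?_, ?_, ?_, ?_, ?_, ?_⟩
  · intro h
    obtain ⟨i, -, hi⟩ := Finset.mem_image.1 h
    exact hlam0 i hi
  · intro l hl
    obtain ⟨i, -, hi⟩ := Finset.mem_image.1 hl
    refine Finset.sum_pos (fun j _ => Nat.mul_pos (NeZero.pos (n j)) (Int.natAbs_pos.2 (hc0 j)))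
      ⟨i, Finset.mem_filter.2 ⟨Finset.mem_univ i, hi⟩⟩
  · intro l hl
    obtain ⟨i, -, hi⟩ := Finset.mem_image.1 hl
    have hti := htn i
    have h3 : n i * (c i).natAbs ≤ μ l :=
      Finset.single_le_sum (f := fun i => n i * (c i).natAbs) (fun _ _ => Nat.zero_le _)
        (Finset.mem_filter.2 ⟨Finset.mem_univ i, hi⟩)
    have h4 : 1 ≤ (c i).natAbs := Int.natAbs_pos.2 (hc0 i)
    have h5 : (n i : ℚ) ≤ μ l := by
      have : n i ≤ μ l := (Nat.le_mul_of_pos_right _ h4).trans h3
      exact_mod_cast this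
    have h6 : (1 : ℚ) ≤ |(c i : ℚ)| := by
      have : (1 : ℚ) ≤ (((c i).natAbs : ℕ) : ℚ) := by exact_mod_cast h4
      rwa [Nat.cast_natAbs, Int.cast_abs] at this
    rw [← hi]
    simp only [lam]
    rw [abs_div, hti, Nat.abs_cast, div_le_iff₀ (by linarith)]
    have h7 : (0 : ℚ) ≤ μ (↑(n i) / ↑(c i)) := by positivity
    have h8 : (n i : ℚ) ≤ μ ((n i : ℚ) / (c i : ℚ)) := by
      have e1 : (n i : ℚ) / (c i : ℚ) = l := by
        rw [← hi]
        simp only [lam]
        rw [hti]
      rw [e1]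
      exact h5
    nlinarith
  · intro P
    constructor
    · intro h l hl
      obtain ⟨i, -, rfl⟩ := Finset.mem_image.1 hl
      have h3 := hz _ h
      rw [hκP] at h3
      have h4 : G i (P.eval (lam i)) = 0 := congrFun h3 i
      exact (map_eq_zero_iff (G i) (G i).injective).1 h4
    · intro h
      apply hz0
      rw [hκP]
      funext i
      rw [h _ (Finset.mem_image_of_mem lam (Finset.mem_univ i)), map_zero]
      rfl
  · intro P
    have h3 := hfib fun l => (if 0 < l then 1 else -1) * P.eval l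
    have h4 : ∑ l ∈ Finset.univ.image lam, (if 0 < l then 1 else -1) * (μ l : ℚ) * P.eval l =
        ∑ l ∈ Finset.univ.image lam, (if 0 < l then 1 else -1) * P.eval l * (μ l : ℚ) :=
      Finset.sum_congr rfl fun l _ => by ring
    rw [h4, h3]
    have : ((τ (aeval Ω P) : ℚ) : K) = ((∑ i, (if 0 < lam i then 1 else -1) * P.eval (lam i) *
        ((n i : ℚ) * |(c i : ℚ)|) : ℚ) : K) := by
      rw [hτ, hκP, hsx, Rat.cast_sum]
      refine Finset.sum_congr rfl fun i _ => ?_
      rw [hgtr]
      have h5 := hsgc' i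
      have h6 : ((c i : ℤ) : K) = ((((if 0 < lam i then 1 else -1) * |(c i : ℚ)| : ℚ)) : K) := by
        have h7 : ((c i : ℚ) : K) = ((((if 0 < lam i then 1 else -1) * |(c i : ℚ)| : ℚ)) : K) := by
          exact congrArg (fun x : ℚ => (x : K)) h5
        rw [← h7]
        push_cast
        rfl
      rw [h6]
      push_cast
      ring
    exact_mod_cast this
  · intro x hx
    have hxx : κ x * κ x = 1 := by
      have h3 := hz _ hx
      rw [map_sub, map_mul, map_one, sub_eq_zero] at h3
      exact h3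
    have hhalf : ∀ q : ℚ, κ (algebraMap ℚ E q) = algebraMap K (Str1.PM K n) (q : K) := by
      intro q
      have e3 : κ.comp (algebraMap ℚ E) = (algebraMap K (Str1.PM K n)).comp (Rat.castHom K) :=
        Subsingleton.elim _ _
      exact congrArg (fun φ : ℚ →+* (Str1.PM K n) => φ q) e3
    have hsm : ∀ (q : ℚ) (y : E), κ (q • y) = (q : K) • κ y := by
      intro q y
      rw [Algebra.smul_def, map_mul, hhalf, ← Algebra.smul_def]
    have e1 : κ ((1 / 2 : ℚ) • (1 + x)) * κ ((1 / 2 : ℚ) • (1 + x)) = κ ((1 / 2 : ℚ) • (1 + x)) := by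
      rw [hsm, map_add, map_one, smul_mul_smul_comm]
      have : (1 + κ x) * (1 + κ x) = (2 : K) • (1 + κ x) := by
        rw [mul_add, add_mul, add_mul, hxx, two_smul]
        simp only [mul_one, one_mul]
        abel
      rw [this, smul_smul]
      congr 1
      push_cast
      ring
    have e2 : κ ((1 / 2 : ℚ) • (1 - x)) * κ ((1 / 2 : ℚ) • (1 - x)) = κ ((1 / 2 : ℚ) • (1 - x)) := by
      rw [hsm, map_sub, map_one, smul_mul_smul_comm]
      have : (1 - κ x) * (1 - κ x) = (2 : K) • (1 - κ x) := by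
        rw [mul_sub, sub_mul, sub_mul, hxx, two_smul]
        simp only [mul_one, one_mul]
        abel
      rw [this, smul_smul]
      congr 1
      push_cast
      ring
    obtain ⟨r₁, hr₁, -⟩ := hrank _ e1
    obtain ⟨r₂, hr₂, -⟩ := hrank _ e2
    have hsum : ∀ i, r₁ i + r₂ i = n i := by
      intro i
      have h3 : Matrix.trace (κ ((1 / 2 : ℚ) • (1 + x)) i) + Matrix.trace (κ ((1 / 2 : ℚ) • (1 - x)) i) =
          (n i : K) := by
        rw [← Matrix.trace_add, ← Pi.add_apply, ← map_add]
        have h4 : (1 / 2 : ℚ) • (1 + x) + (1 / 2 : ℚ) • (1 - x) = 1 := by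
          rw [← smul_add]
          have h5 : (1 + x) + (1 - x) = (2 : ℚ) • (1 : E) := by
            rw [two_smul]
            abel
          rw [h5, smul_smul]
          norm_num
        rw [h4, map_one, Pi.one_apply, Matrix.trace_one, Fintype.card_fin]
      rw [hr₁, hr₂] at h3
      exact_mod_cast h3
    have h5 : τ x = τ ((1 / 2 : ℚ) • (1 + x)) - τ ((1 / 2 : ℚ) • (1 - x)) := by
      rw [← map_sub]
      congr 1
      rw [← smul_sub]
      have h6 : (1 + x) - (1 - x) = (2 : ℚ) • x := by
        rw [two_smul]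
        abel
      rw [h6, smul_smul]
      norm_num
    rw [h5, hτr _ _ hr₁, hτr _ _ hr₂]
    have h7 := hfib fun _ => 1
    simp only [one_mul] at h7
    rw [h7, ← Finset.sum_sub_distrib]
    refine Finset.sum_le_sum fun i _ => ?_
    have h8 : (n i : ℚ) = (r₁ i : ℚ) + (r₂ i : ℚ) := by
      rw [← hsum i]
      push_cast
      rfl
    rw [h8]
    have h9 := le_abs_self (c i : ℚ)
    have h10 := neg_abs_le (c i : ℚ)
    have h11 : (0 : ℚ) ≤ (r₁ i : ℚ) := by positivity
    have h12 : (0 : ℚ) ≤ (r₂ i : ℚ) := by positivity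
    nlinarith [mul_nonneg h11 (sub_nonneg.2 h9), mul_nonneg h12 (sub_nonneg.2 h10)]
  · intro h y
    apply hz0
    rw [map_sub, map_mul, map_mul, hκΩ, sub_eq_zero]
    funext i
    rw [Pi.mul_apply, Pi.mul_apply]
    exact Algebra.commutes (algebraMap ℚ K (lam i)) (κ h i)
  · intro y hy hne
    have hyy : κ y * κ y = κ y := by
      have h3 := hz _ hy
      rw [map_sub, map_mul, sub_eq_zero] at h3
      exact h3
    obtain ⟨r, hr, hr0⟩ := hrank y hyy
    have h3 : τ (Ω * y) = ∑ i, (t i : ℚ) * (r i : ℚ) := by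
      have : ((τ (Ω * y) : ℚ) : K) = ((∑ i, (t i : ℚ) * (r i : ℚ) : ℚ) : K) := by
        rw [hτ, map_mul κ, hκΩ, hsx, Rat.cast_sum]
        refine Finset.sum_congr rfl fun i _ => ?_
        rw [Pi.mul_apply, Matrix.trace_mul_comm, hgmul, hr]
        have : (c i : K) ≠ 0 := by exact_mod_cast hc0 i
        simp only [lam]
        push_cast
        field_simp
      exact_mod_cast this
    rw [h3]
    have hex : ∃ i, r i ≠ 0 := by
      by_contra hcon
      push Not at hcon
      exact hne (hz0 y (hr0 hcon))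
    obtain ⟨i, hi⟩ := hex
    refine Finset.sum_pos' (fun j _ => by positivity) ⟨i, Finset.mem_univ i, ?_⟩
    have h4 : (0 : ℚ) < t i := by exact_mod_cast htpos i
    have h5 : (0 : ℚ) < r i := by exact_mod_cast Nat.pos_of_ne_zero hi
    positivity

/-- the semisimple quotient -/
theorem alg1 (K : Type w) [Field K] [CharZero K] [IsAlgClosed K] (Q : Type w) [Ring Q] [Algebra K Q]
    [Module.Finite K Q] (s : Q →ₗ[K] K) (hs : ∀ x y, s (x * y) = s (y * x))
    (hnd : ∀ x, (∀ y, s (x * y) = 0) → x = 0) (hint : ∀ e, e * e = e → ∃ m : ℤ, s e = m)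
    (hnil : ∀ x, IsNilpotent x → s x = 0)
    (E : Type v) [Ring E] [Algebra ℚ E] (κ : E →+* Q)
    (hspan : Submodule.span K (Set.range κ) = ⊤)
    (τ : E →ₗ[ℚ] ℚ) (hτ : ∀ x, ((τ x : ℚ) : K) = s (κ x)) {r : ℕ} (f g : Fin r → E)
    (h1 : ∀ i j, τ (g j * f i) = if i = j then 1 else 0)
    (h2 : ∀ h y, τ ((h - ∑ i, τ (g i * h) • f i) * y) = 0) :
    Concl τ (∑ i, g i * f i) := by
  have := Str1.semisimple s hnd hnil
  obtain ⟨m, n, hn, ⟨φ⟩⟩ := IsSemisimpleRing.exists_algEquiv_pi_matrix_of_isAlgClosed K Q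
  refine main_pi (K := K) (n := n) (s ∘ₗ φ.symm.toLinearMap)
    (fun x y => by simp [hs]) ?_ ?_
    (φ.toRingEquiv.toRingHom.comp κ) ?_ τ ?_ f g h1 h2
  · intro x hx
    have : φ.symm x = 0 := by
      apply hnd
      intro y
      have := hx (φ y)
      simpa using this
    simpa using this
  · intro e he
    apply hint
    change φ.symm e * φ.symm e = φ.symm e
    rw [← map_mul, he]
  · have h1 : Set.range (φ.toRingEquiv.toRingHom.comp κ) = φ.toLinearMap '' Set.range κ := by
      ext y; simp [Set.mem_image]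
    rw [h1, ← Submodule.map_span, hspan, Submodule.map_top, LinearMap.range_eq_top]
    exact φ.surjective
  · intro x
    rw [hτ]; simp

section closed

open Pool.Agent.H64NC.Str2 Pool.Agent.H447 Pool.Agent.H914

variable {K : Type w} [Field K] {V : Type w} [AddCommGroup V] [Module K V]
  {E : Type v} [Ring E]

variable [CharZero K] [IsAlgClosed K] [Module.Finite K V] [Algebra ℚ E]

theorem closed (π : E →+* Module.End K V) (p : Module.End K V)
    (hp : p * p = p) (h : ∀ x, Commute (π x) p) (τ : E →ₗ[ℚ] ℚ)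
    (hτ : ∀ x, ((τ x : ℚ) : K) = LinearMap.trace K V ((p - (1 - p)) * π x)) {r : ℕ} (f g : Fin r → E)
    (h1 : ∀ i j, τ (g j * f i) = if i = j then 1 else 0)
    (h2 : ∀ h y, τ ((h - ∑ i, τ (g i * h) • f i) * y) = 0) :
    Concl τ (∑ i, g i * f i) := by
  obtain ⟨s, hs⟩ := exists_s π p h
  have hfin : Module.Finite K (alg π ⧸ rad π p h) :=
    Module.Finite.of_surjective (Ideal.Quotient.mkₐ K (rad π p h)).toLinearMap
      (Ideal.Quotient.mkₐ_surjective K (rad π p h))
  have hκ : ∀ x, ((τ x : ℚ) : K) = s (kap π p h x) := by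
    intro x
    rw [kap_apply, hs, hτ]
    rfl
  have c1 : ∀ x y, s (x * y) = s (y * x) := by
    intro x y
    obtain ⟨x, rfl⟩ := Ideal.Quotient.mk_surjective x
    obtain ⟨y, rfl⟩ := Ideal.Quotient.mk_surjective y
    rw [← map_mul, ← map_mul, hs, hs, sA_apply, sA_apply]
    exact str_comm (comm_alg h x)
  have c2 : ∀ x, (∀ y, s (x * y) = 0) → x = 0 := by
    intro x hx
    obtain ⟨x, rfl⟩ := Ideal.Quotient.mk_surjective x
    rw [Ideal.Quotient.eq_zero_iff_mem]
    refine mem_rad.2 fun y => ?_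
    have h2 := hx (Ideal.Quotient.mk _ y)
    rw [← map_mul, hs] at h2
    exact h2
  have c3 : ∀ e, e * e = e → ∃ m : ℤ, s e = m := by
    intro e he
    obtain ⟨T, rfl⟩ := Ideal.Quotient.mk_surjective e
    have h2 : ∀ r : ℕ, Ideal.Quotient.mk (rad π p h) (T ^ (r + 1)) = Ideal.Quotient.mk _ T := by
      intro r
      induction r with
      | zero => rw [zero_add, pow_one]
      | succ r ih => rw [pow_succ, map_mul, ih, he]
    obtain ⟨a, b, c, h3, -, -⟩ := Pool.Agent.H578R3.Sgn.main (d := s (Ideal.Quotient.mk _ T)) hp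
      (comm_alg h T) (fun r => by
        rw [← h2 r, hs, sA_apply, str_apply]
        rfl)
    exact ⟨a - b, by rw [h3]; push_cast; rfl⟩
  have c4 : ∀ x, IsNilpotent x → s x = 0 := by
    intro x hx
    obtain ⟨T, rfl⟩ := Ideal.Quotient.mk_surjective x
    obtain ⟨m, hm⟩ := hx
    obtain ⟨e, he⟩ := exists_cut (T : Module.End K V) m
    have h2 : Ideal.Quotient.mk (rad π p h) (T * aeval T (X ^ m * e)) = 0 := by
      rw [map_mul (aeval T), map_pow, aeval_X, map_mul, map_mul, map_pow, hm, zero_mul, mul_zero]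
    have h3 : s (Ideal.Quotient.mk (rad π p h) (T * aeval T (X ^ m * e))) = 0 := by
      rw [h2, map_zero]
    have h4 : str p ((T * (1 - aeval T (X ^ m * e)) : alg π) : Module.End K V) = 0 := by
      refine str_nil (comm_alg h _) ?_
      push_cast
      exact he
    rw [hs, sA_apply] at h3
    rw [hs, sA_apply]
    have h6 : (T : Module.End K V) = ((T * aeval T (X ^ m * e) : alg π) : Module.End K V) +
        ((T * (1 - aeval T (X ^ m * e)) : alg π) : Module.End K V) := by
      rw [← Subalgebra.coe_add, ← mul_add, add_sub_cancel, mul_one]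
    rw [h6, map_add, h3, h4, add_zero]
  exact alg1 K (alg π ⧸ rad π p h) s c1 c2 c3 c4 E (kap π p h) (span_kap π p h) τ hκ f g h1 h2

end closed

section

open Pool.Agent.H64NC.Str2 Pool.Agent.H447 Pool.Agent.H914

theorem struct (K : Type w) [Field K] [CharZero K] (V : Type w) [AddCommGroup V] [Module K V]
    [Module.Finite K V] (E : Type v) [Ring E] [Algebra ℚ E] (π : E →+* Module.End K V)
    (p : Module.End K V) (hp : p * p = p) (h : ∀ x, Commute (π x) p)
    (τ : E →ₗ[ℚ] ℚ) (hτ : ∀ x, ((τ x : ℚ) : K) = LinearMap.trace K V ((p - (1 - p)) * π x))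
    {r : ℕ} (f g : Fin r → E) (h1 : ∀ i j, τ (g j * f i) = if i = j then 1 else 0)
    (h2 : ∀ h y, τ ((h - ∑ i, τ (g i * h) • f i) * y) = 0) :
    Concl τ (∑ i, g i * f i) := by
  set Kb := AlgebraicClosure K
  have hbt : ∀ T : Module.End K V, LinearMap.trace Kb (Kb ⊗[K] V)
      ((p.baseChange Kb - (1 - p.baseChange Kb)) * T.baseChange Kb) =
      algebraMap K Kb (LinearMap.trace K V ((p - (1 - p)) * T)) := by
    intro T
    have e : (p.baseChange Kb - (1 - p.baseChange Kb)) * T.baseChange Kb =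
        ((p - (1 - p)) * T).baseChange Kb := by
      rw [bc_mul, bc_sub, bc_sub, bc_one]
    rw [e, LinearMap.trace_baseChange]
  refine closed (K := Kb) (V := Kb ⊗[K] V)
    ((Module.End.baseChangeHom K Kb V).toRingHom.comp π) (p.baseChange Kb)
    (by rw [← bc_mul, hp]) (fun x => ?_) τ (fun x => ?_) f g h1 h2
  · show Commute ((π x).baseChange Kb) (p.baseChange Kb)
    rw [Commute, SemiconjBy, ← bc_mul, ← bc_mul, (h x).eq]
  · show _ = LinearMap.trace Kb (Kb ⊗[K] V)
      ((p.baseChange Kb - (1 - p.baseChange Kb)) * (π x).baseChange Kb)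
    rw [hbt, ← hτ, map_ratCast]

end

end Pool.Agent.H64ND.Cas2

namespace Pool.Agent.H64ND

universe u v w

/-- **Piece CAS.** -/
theorem t_CAS2 : S_CAS2.{u, v, w} := by
  intro C _ _ _ _ _ _ _ _ hU K _ R X m f g hd
  have hK := R_charZero R
  have h0 := R.finite X
  have hcomm : ∀ a b : X ⟶ X, trq hU X ((show End X from a) * (show End X from b)) =
      ctr hU (a ≫ b) := by
    intro a b
    rw [End.mul_def]
    exact ctr_comm R hU b a
  have hnz : ∀ a : X ⟶ X, (∀ y : End X, trq hU X ((show End X from a) * y) = 0) ↔ NumZero hU a := by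
    intro a
    constructor
    · intro h b
      rw [← hcomm a b]
      exact h b
    · intro h b
      rw [hcomm a b]
      exact h b
  obtain ⟨Λ, μ, a1, a2, a2', a3, a4, a5, a6, a7⟩ := Cas2.struct K (R.H.obj X) (End X) (opHom R X)
    (evp R X) (evp_idem R X) (fun x => op_comm R x) (trq hU X) (fun x => by
      have h1 := ctr_eq R hU (M := X) x
      rw [str_eq] at h1
      exact h1) (r := m) f g (fun i j => by
      rw [End.mul_def]
      exact hd.1 i j) (fun h y => by
      exact (hnz _).2 (hd.2 h) y)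
  refine ⟨Λ, μ, a1, a2, a2', ?_, ?_, ⟨?_, ?_⟩, ?_, ?_⟩
  · intro P
    exact (hnz _).symm.trans (a3 P)
  · intro P
    exact a4 P
  · -- the maximum is attained
    obtain ⟨q, hq⟩ : ∃ q : Polynomial ℚ, ∀ l ∈ Λ, q.eval l = if 0 < l then 1 else -1 :=
      ⟨Lagrange.interpolate Λ id (fun l => if 0 < l then 1 else -1), fun l hl =>
        Lagrange.eval_interpolate_at_node (v := id) (r := fun l : ℚ => if 0 < l then (1 : ℚ) else -1)
          (Set.injOn_id _) hl⟩
    refine ⟨(Polynomial.aeval (∑ i, (show End X from g i) * (show End X from f i)) q : End X), ?_, ?_⟩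
    · refine (hnz _).1 ?_
      have h3 : (Polynomial.aeval (∑ i, (show End X from g i) * (show End X from f i)) (q * q - 1) :
          End X) = Polynomial.aeval (∑ i, (show End X from g i) * (show End X from f i)) q *
            Polynomial.aeval (∑ i, (show End X from g i) * (show End X from f i)) q - 1 := by
        rw [map_sub, map_mul, map_one]
      have h4 := (a3 (q * q - 1)).2 (fun l hl => by
        rw [eval_sub, eval_mul, eval_one, hq l hl]
        split_ifs <;> norm_num)
      rw [h3] at h4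
      exact h4
    · have h3 := a4 q
      refine h3.trans ?_
      push_cast
      refine Finset.sum_congr rfl fun l hl => ?_
      rw [hq l hl]
      split_ifs <;> ring
  · rintro d ⟨x, hx, rfl⟩
    have h3 := a5 x ((hnz (x ≫ x - 𝟙 X)).2 hx)
    push_cast
    exact h3
  · intro h
    refine (hnz _).1 fun y => ?_
    have h3 := a6 h y
    have h4 : (show End X from (∑ i, f i ≫ g i) ≫ h - h ≫ ∑ i, f i ≫ g i) =
        -((∑ i, (show End X from g i) * (show End X from f i)) * (show End X from h) -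
          (show End X from h) * ∑ i, (show End X from g i) * (show End X from f i)) := by
      rw [neg_sub]
      rfl
    rw [h4, neg_mul, map_neg, h3, neg_zero]
  · intro y hy hne
    have h3 := a7 y ((hnz (y ≫ y - y)).2 hy) (fun h => hne ((hnz y).1 h))
    rw [hcomm] at h3
    exact h3

end Pool.Agent.H64ND
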