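import Pool.Agent.H64ND.Struct

/-!
# Project ND (helper64): the kernels of the words with `p` even and `q` odd letters
-/

set_option autoImplicit false

open Finset

namespace Pool.Agent.H64ND

/-- The first `p` of the `p + q` letters are even, the others are odd. -/
def par (p q : ℕ) : Fin (p + q) → Bool := fun l => decide (p ≤ (l : ℕ))

lemma card_even (p q : ℕ) : (univ.filter fun a => par p q a = false).card = p := by
  have h1 : (univ.filter fun a => par p q a = false) =
      univ.image (Fin.castAdd q : Fin p → Fin (p + q)) := by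
    ext a
    simp only [par, mem_filter, mem_univ, true_and, mem_image, decide_eq_false_iff_not, not_le]
    constructor
    · intro h
      exact ⟨⟨a, h⟩, by ext; simp⟩
    · rintro ⟨b, rfl⟩
      simp
  rw [h1, Finset.card_image_of_injective _ (Fin.castAdd_injective p q), Finset.card_univ,
    Fintype.card_fin]

lemma card_odd (p q : ℕ) : (univ.filter fun a => par p q a = true).card = q := by
  have h1 : (univ.filter fun a => par p q a = true) =
      univ.image (Fin.natAdd p : Fin q → Fin (p + q)) := by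
    ext a
    simp only [par, mem_filter, mem_univ, true_and, mem_image, decide_eq_true_eq]
    constructor
    · intro h
      refine ⟨⟨a - p, by omega⟩, ?_⟩
      ext
      simp
      omega
    · rintro ⟨b, rfl⟩
      simp
  rw [h1, Finset.card_image_of_injective _ (Fin.natAdd_injective q p), Finset.card_univ,
    Fintype.card_fin]

lemma qs_ext {n : ℕ} {x y : QS n} (h : ∀ σ, x.coeff σ = y.coeff σ) : x = y := by
  ext σ
  exact h σ

lemma ker_zero (hS : S_SGN) {A : Type} (o : A → Bool) : Ker o 0 = ⊥ := by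
  rw [Submodule.eq_bot_iff]
  intro x hx
  have h1 := congrFun (hx fun _ => 1) (fun i => i.elim0)
  simp only [actS, Pi.zero_apply] at h1
  refine qs_ext fun σ => ?_
  have h2 : ∑ σ : Equiv.Perm (Fin 0), x.coeff σ * sgnW (o ∘ fun i : Fin 0 => i.elim0) σ * 1 =
      x.coeff σ * sgnW (o ∘ fun i : Fin 0 => i.elim0) σ * 1 := by
    rw [Finset.sum_eq_single σ]
    · intro τ _ hτ
      exact absurd (Subsingleton.elim τ σ) hτ
    · intro h
      exact absurd (Finset.mem_univ _) h
  rw [h2] at h1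
  have h3 := hS.2.2.2.2.1 0 (o ∘ fun i : Fin 0 => i.elim0) σ (fun i => i.elim0)
  rw [h3, mul_one, mul_one] at h1
  rw [h1]
  rfl

lemma dv_word {n a b : ℕ} (t : Fin n ≃ Fin b × Fin a) :
    dv t (fun k => (t k).2) = 1 := by
  simp only [dv]
  refine Finset.prod_eq_one fun c _ => ?_
  have h1 : (fun r => (t (t.symm (c, r))).2) = fun r : Fin a => r := by
    funext r
    simp
  rw [h1, detw]
  have h2 : (Matrix.of fun r s : Fin a => if r = s then (1 : ℚ) else 0) = 1 := by
    ext r s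
    simp [Matrix.one_apply]
  rw [h2, Matrix.det_one]

/-- The lowest degree of the kernel. -/
theorem ker_min (S : AllS) (hS : S_SGN) (hK : S_KTID) (hM : S_KMIN) (p q : ℕ) :
    ∃ (m : ℕ) (e : QS (m + 1)), m + 1 = (q + 1) * (p + 1) ∧
      (∀ n ≤ m, Ker (par p q) n = ⊥) ∧ e ∈ Ker (par p q) (m + 1) ∧ CI e ∧ e ≠ 0 ∧
      e * ((((p : ℤ) - q : ℤ) : ℚ) • 1 + JM m) = 0 := by
  classical
  set N : ∀ n, Submodule ℚ (QS n) := fun n => Ker (par p q) n with hN
  have hT : ∀ n, Two (N n) := fun n => (hK _ (par p q) n).1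
  have hex : ∀ n, ∀ x ∈ N n, exQ n 1 x ∈ N (n + 1) := fun n => (hK _ (par p q) n).2.1
  have hpt : ∀ n, ∀ x ∈ N (n + 1), pt ((p : ℤ) - q) x ∈ N n := by
    intro n x hx
    have h1 := (hK _ (par p q) n).2.2 x hx
    rw [card_even, card_odd] at h1
    exact h1
  obtain ⟨n₁, x, hx, v, hv⟩ := hM p q
  have hx' : x ∈ N n₁ := hx
  have hx0 : x ≠ 0 := by
    rintro rfl
    apply hv
    funext w
    simp [act0]
  have hne : ∃ n, N n ≠ ⊥ := ⟨n₁, fun h => hx0 ((Submodule.mem_bot ℚ).1 (h ▸ hx'))⟩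
  obtain ⟨m, hm⟩ : ∃ m, Nat.find hne = m + 1 := by
    apply Nat.exists_eq_succ_of_ne_zero
    intro h
    have h1 := Nat.find_spec hne
    rw [h] at h1
    exact h1 (ker_zero hS _)
  have h1 : N (m + 1) ≠ ⊥ := by rw [← hm]; exact Nat.find_spec hne
  have h2 : ∀ n ≤ m, N n = ⊥ := by
    intro n hn
    by_contra h
    have := Nat.find_min' hne h
    omega
  obtain ⟨e, heN, he, he0, hed⟩ := min_ideal S hT hpt (h2 m le_rfl) h1
  obtain ⟨a, b, ha, hb, hab, hmab, hfix⟩ := kl S.quad S.nump S.hw S.cap S.det he he0 hed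
  have hap : p + 1 ≤ a := by
    by_contra h
    push Not at h
    have hle : a ≤ p + q := by omega
    let t : Fin (m + 1) ≃ Fin b × Fin a := (finCongr hmab).trans finProdFinEquiv.symm
    let u : (Fin (m + 1) → Fin (p + q)) → ℚ := fun W =>
      if h : ∀ k, ((W k : Fin (p + q)) : ℕ) < a then dv t (fun k => ⟨W k, h k⟩) else 0
    have h3 := congrFun (heN u) (fun k => Fin.castLE hle (t k).2)
    simp only [actS, Pi.zero_apply] at h3
    have h4 : ∀ σ : Equiv.Perm (Fin (m + 1)),
        e.coeff σ * sgnW (par p q ∘ fun k => Fin.castLE hle (t k).2) σ *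
          u ((fun k => Fin.castLE hle (t k).2) ∘ σ) =
        e.coeff σ * dv t ((fun k => (t k).2) ∘ σ) := by
      intro σ
      rw [hS.2.2.2.2.1 _ _ σ (fun i => by simp [par]; omega), mul_one]
      congr 1
      have h5 : ∀ k, (((fun k => Fin.castLE hle (t k).2) ∘ σ) k : ℕ) < a := by
        intro k
        simp
      show (if h : ∀ k, (((fun k => Fin.castLE hle (t k).2) ∘ σ) k : ℕ) < a then
        dv t (fun k => ⟨_, h k⟩) else 0) = _
      rw [dif_pos h5]
      rfl
    rw [Finset.sum_congr rfl fun σ _ => h4 σ] at h3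
    have h5 := congrFun (hfix t) (fun k => (t k).2)
    simp only [act0] at h5
    rw [h5, dv_word] at h3
    exact one_ne_zero h3
  have hap' : a ≤ p + 1 := by
    by_contra h
    push Not at h
    have h3 : e ∈ Ker0 (p + 1) (m + 1) := by
      by_contra h4
      have h5 : ∃ u : (Fin (m + 1) → Fin (p + 1)) → ℚ, act0 e u ≠ 0 := by
        by_contra h6
        push Not at h6
        exact h4 h6
      obtain ⟨a', b', u, ha', hb', haL, hab', hm', -⟩ :=
        kl_aux S.quad S.nump S.hw he hed h5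
      have h6 : a' < a := by omega
      have h7 : b' < b := by omega
      have h8 : b' * a' < b * a := Nat.mul_lt_mul'' h7 h6
      omega
    have h4 := compare S (N := fun n => Ker0 (p + 1) n) (N' := N) (fun n => two_ker0 _ n) hT
      (fun n x hx => ex_ker0 _ n x hx) hpt h2 e h3 he he0 hed n₁ hx'
    exact hv (h4 v)
  have h3 : a = p + 1 := le_antisymm hap' hap
  have h4 : b = q + 1 := by omega
  refine ⟨m, e, ?_, h2, heN, he, he0, hed⟩
  rw [hmab, h3, h4]

/-- **Tensor ideals containing a kernel are kernels.** -/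
theorem ideal_eq_ker (S : AllS) (hS : S_SGN) (hK : S_KTID) (hM : S_KMIN)
    {N : ∀ n, Submodule ℚ (QS n)} {p q : ℕ} (hT : ∀ n, Two (N n))
    (hex : ∀ n, ∀ x ∈ N n, exQ n 1 x ∈ N (n + 1))
    (hpt : ∀ n, ∀ x ∈ N (n + 1), pt ((p : ℤ) - q) x ∈ N n) (h0 : N 0 = ⊥)
    (hle : ∀ n, Ker (par p q) n ≤ N n) :
    ∃ p' q' : ℕ, p' ≤ p ∧ (p' : ℤ) - q' = p - q ∧ ∀ n, N n = Ker (par p' q') n := by
  classical
  obtain ⟨m₀, e₀, hm₀, hz₀, heK₀, he₀, he₀0, hed₀⟩ := ker_min S hS hK hM p q
  have hne : ∃ n, N n ≠ ⊥ := by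
    refine ⟨m₀ + 1, fun h => he₀0 ?_⟩
    have h1 := hle _ heK₀
    rw [h] at h1
    exact (Submodule.mem_bot ℚ).1 h1
  obtain ⟨m, hm⟩ : ∃ m, Nat.find hne = m + 1 := by
    apply Nat.exists_eq_succ_of_ne_zero
    intro h
    have h1 := Nat.find_spec hne
    rw [h] at h1
    exact h1 h0
  have h1 : N (m + 1) ≠ ⊥ := by rw [← hm]; exact Nat.find_spec hne
  have h2 : ∀ n ≤ m, N n = ⊥ := by
    intro n hn
    by_contra h
    have := Nat.find_min' hne h
    omega
  obtain ⟨e, heN, he, he0, hed⟩ := min_ideal S hT hpt (h2 m le_rfl) h1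
  obtain ⟨a, b, ha, hb, hab, hmab, hfix⟩ := kl S.quad S.nump S.hw S.cap S.det he he0 hed
  have hmm : m ≤ m₀ := by
    have h3 : Nat.find hne ≤ m₀ + 1 := Nat.find_min' hne (fun h => he₀0 (by
      have h1 := hle _ heK₀
      rw [h] at h1
      exact (Submodule.mem_bot ℚ).1 h1))
    omega
  have hap : a ≤ p + 1 := by
    by_contra h
    push Not at h
    have h3 : q + 1 < b := by omega
    have h4 : (q + 1) * (p + 1) < b * a := Nat.mul_lt_mul'' h3 h
    omega
  obtain ⟨p', rfl⟩ := Nat.exists_eq_add_of_le ha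
  obtain ⟨q', rfl⟩ := Nat.exists_eq_add_of_le hb
  have hd : (p : ℤ) - q = (p' : ℤ) - q' := by push_cast at hab; omega
  obtain ⟨m₁, e₁, hm₁, hz₁, heK₁, he₁, he₁0, hed₁⟩ := ker_min S hS hK hM p' q'
  have hmm₁ : m₁ = m := by
    have h3 : m₁ + 1 = m + 1 := by rw [hm₁, hmab]; ring
    omega
  subst hmm₁
  have hTK : ∀ n, Two (Ker (par p' q') n) := fun n => (hK _ (par p' q') n).1
  have hexK : ∀ n, ∀ x ∈ Ker (par p' q') n, exQ n 1 x ∈ Ker (par p' q') (n + 1) :=
    fun n => (hK _ (par p' q') n).2.1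
  have hptK : ∀ n, ∀ x ∈ Ker (par p' q') (n + 1), pt ((p : ℤ) - q) x ∈ Ker (par p' q') n := by
    intro n x hx
    have h1 := (hK _ (par p' q') n).2.2 x hx
    rw [card_even, card_odd, ← hd] at h1
    exact h1
  refine ⟨p', q', by omega, hd.symm, fun n => le_antisymm ?_ ?_⟩
  · rw [← hd] at hed₁
    exact compare S (N := fun n => Ker (par p' q') n) (N' := N) hTK hT hexK hpt h2 e₁ heK₁ he₁
      he₁0 hed₁ n
  · exact compare S (N := N) (N' := fun n => Ker (par p' q') n) hT hTK hex hptK hz₁ e heN he he0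
      hed n

end Pool.Agent.H64ND
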