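import Pool.Agent.H64ND.Stm

/-!
# Project ND, piece KTID (helper31): the kernels are tensor ideals
-/

set_option autoImplicit false

open Finset

namespace Pool.Agent.H64ND.KtidP

/-- sums over a product in the group algebra -/
theorem lin_mul {n : ℕ} (x y : QS n) (g : Equiv.Perm (Fin n) → ℚ) :
    ∑ ρ, (x * y).coeff ρ * g ρ = ∑ σ, x.coeff σ * ∑ τ, y.coeff τ * g (σ * τ) := by
  classical
  induction x using MonoidAlgebra.induction_linear with
  | zero => simp
  | add a b ha hb =>
    simp only [add_mul, MonoidAlgebra.coeff_add, Finsupp.coe_add, Pi.add_apply,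
      Finset.sum_add_distrib, ha, hb]
  | single σ a =>
    have h1 : ∑ σ', (MonoidAlgebra.single σ a : QS n).coeff σ' * ∑ τ, y.coeff τ * g (σ' * τ) =
        a * ∑ τ, y.coeff τ * g (σ * τ) := by
      rw [Finset.sum_eq_single σ]
      · simp
      · intro σ' _ hσ'
        rw [MonoidAlgebra.coeff_single, Finsupp.single_apply, if_neg (Ne.symm hσ'), zero_mul]
      · intro h
        exact absurd (Finset.mem_univ _) h
    rw [h1, Finset.mul_sum]
    refine (Fintype.sum_equiv (Equiv.mulLeft σ) _ _ ?_).symm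
    intro τ
    rw [Equiv.coe_mulLeft, MonoidAlgebra.coeff_single_mul_apply, inv_mul_cancel_left]
    ring

/-- sums over the image of a smaller group algebra -/
theorem lin_ex {m k : ℕ} (x : QS m) (g : Equiv.Perm (Fin (m + k)) → ℚ) :
    ∑ ρ, (exQ m k x).coeff ρ * g ρ = ∑ τ, x.coeff τ * g (exA m k τ) := by
  classical
  induction x using MonoidAlgebra.induction_linear with
  | zero => simp
  | add a b ha hb =>
    simp only [map_add, add_mul, MonoidAlgebra.coeff_add, Finsupp.coe_add, Pi.add_apply,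
      Finset.sum_add_distrib, ha, hb]
  | single σ a =>
    have h0 : exQ m k (MonoidAlgebra.single σ a) = MonoidAlgebra.single (exA m k σ) a := by
      unfold exQ
      simp
    rw [h0, Finset.sum_eq_single (exA m k σ), Finset.sum_eq_single σ]
    · simp
    · intro σ' _ hσ'
      rw [MonoidAlgebra.coeff_single, Finsupp.single_apply, if_neg (Ne.symm hσ'), zero_mul]
    · intro h
      exact absurd (Finset.mem_univ _) h
    · intro σ' _ hσ'
      rw [MonoidAlgebra.coeff_single, Finsupp.single_apply, if_neg (Ne.symm hσ'), zero_mul]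
    · intro h
      exact absurd (Finset.mem_univ _) h

theorem actS_mul (hS : S_SGN) {n : ℕ} {A : Type} (o : A → Bool) (x y : QS n)
    (u : (Fin n → A) → ℚ) : actS o (x * y) u = actS o x (actS o y u) := by
  funext w
  unfold actS
  have h1 := lin_mul x y (fun ρ => sgnW (o ∘ w) ρ * u (w ∘ ρ))
  simp only [← mul_assoc] at h1 ⊢
  rw [h1]
  refine Finset.sum_congr rfl fun σ _ => ?_
  rw [mul_assoc]
  congr 1
  rw [Finset.mul_sum]
  refine Finset.sum_congr rfl fun τ _ => ?_
  rw [hS.1 n (o ∘ w) σ τ]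
  have h2 : w ∘ ((σ * τ : Equiv.Perm (Fin n)) : Fin n → Fin n) = (w ∘ σ) ∘ τ := rfl
  have h3 : o ∘ (w ∘ σ) = (o ∘ w) ∘ σ := rfl
  rw [h2, h3]
  ring

theorem mem_Ker {A : Type} (o : A → Bool) (n : ℕ) (x : QS n) :
    x ∈ Ker o n ↔ ∀ u, actS o x u = 0 := Iff.rfl

theorem actS_zero {n : ℕ} {A : Type} (o : A → Bool) (x : QS n) :
    actS o x (0 : (Fin n → A) → ℚ) = 0 := by
  funext w
  simp [actS]

theorem ker_two (hS : S_SGN) {A : Type} (o : A → Bool) (n : ℕ) : Two (Ker o n) := by
  intro x hx y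
  rw [mem_Ker] at hx
  constructor
  · rw [mem_Ker]
    intro u
    rw [actS_mul hS, hx]
  · rw [mem_Ker]
    intro u
    rw [actS_mul hS, hx, actS_zero]

/-- the word with one more letter -/
def snc {A : Type} {n : ℕ} (w : Fin n → A) (a : A) : Fin (n + 1) → A :=
  fun i => Fin.addCases (motive := fun _ => A) w (fun _ => a) i

theorem snc_castSucc {A : Type} {n : ℕ} (w : Fin n → A) (a : A) (j : Fin n) :
    snc w a j.castSucc = w j := by
  have : j.castSucc = Fin.castAdd 1 j := rfl
  rw [this]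
  simp [snc]

theorem snc_last {A : Type} {n : ℕ} (w : Fin n → A) (a : A) :
    snc w a (Fin.last n) = a := by
  have : Fin.last n = Fin.natAdd n (0 : Fin 1) := rfl
  rw [this]
  simp [snc]

theorem snc_self {A : Type} {n : ℕ} (W : Fin (n + 1) → A) :
    snc (fun i : Fin n => W i.castSucc) (W (Fin.last n)) = W := by
  funext i
  refine Fin.lastCases ?_ (fun j => ?_) i
  · rw [snc_last]
  · rw [snc_castSucc]

theorem exA_castSucc {n : ℕ} (τ : Equiv.Perm (Fin n)) (j : Fin n) :
    exA n 1 τ j.castSucc = (τ j).castSucc := exA_castAdd n 1 τ j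

theorem exA_last {n : ℕ} (τ : Equiv.Perm (Fin n)) :
    exA n 1 τ (Fin.last n) = Fin.last n := exA_natAdd n 1 τ 0

theorem snc_exA {A : Type} {n : ℕ} (w : Fin n → A) (a : A) (τ : Equiv.Perm (Fin n)) :
    snc w a ∘ exA n 1 τ = snc (w ∘ τ) a := by
  funext i
  refine Fin.lastCases ?_ (fun j => ?_) i
  · rw [Function.comp_apply, exA_last, snc_last, snc_last]
  · rw [Function.comp_apply, exA_castSucc, snc_castSucc, snc_castSucc]
    rfl

theorem ker_ex (hS : S_SGN) {A : Type} (o : A → Bool) (n : ℕ) (x : QS n) (hx : x ∈ Ker o n) :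
    exQ n 1 x ∈ Ker o (n + 1) := by
  rw [mem_Ker] at hx ⊢
  intro u
  funext W
  have h1 := lin_ex (k := 1) x (fun ρ => sgnW (o ∘ W) ρ * u (W ∘ ρ))
  simp only [← mul_assoc] at h1
  show ∑ σ, (exQ n 1 x).coeff σ * sgnW (o ∘ W) σ * u (W ∘ σ) = 0
  rw [h1]
  have h2 := congrFun (hx (fun w => u (snc w (W (Fin.last n))))) (fun i : Fin n => W i.castSucc)
  simp only [actS, Pi.zero_apply] at h2
  rw [← h2]
  refine Finset.sum_congr rfl fun τ _ => ?_
  rw [hS.2.2.1 n (o ∘ W) τ]
  have h3 : W ∘ exA n 1 τ = snc ((fun i : Fin n => W i.castSucc) ∘ τ) (W (Fin.last n)) := by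
    conv_lhs => rw [← snc_self W]
    rw [snc_exA]
  rw [h3]
  rfl

theorem tr_last (n : ℕ) (i : Fin n) : tr n i (Fin.last n) = i.castSucc := by
  unfold tr
  rw [Equiv.swap_apply_right]

theorem tr_castSucc_self (n : ℕ) (i : Fin n) : tr n i i.castSucc = Fin.last n := by
  unfold tr
  rw [Equiv.swap_apply_left]

theorem tr_castSucc_ne (n : ℕ) (i j : Fin n) (h : j ≠ i) : tr n i j.castSucc = j.castSucc := by
  unfold tr
  refine Equiv.swap_apply_of_ne_of_ne ?_ ?_
  · intro h'
    exact h (Fin.castSucc_injective n h')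
  · exact (Fin.castSucc_lt_last j).ne

/-- the permutations of `n + 1` places -/
def mkP (n : ℕ) : Option (Fin n) × Equiv.Perm (Fin n) → Equiv.Perm (Fin (n + 1))
  | (none, τ) => exA n 1 τ
  | (some i, τ) => exA n 1 τ * tr n i

theorem exA_inj (n : ℕ) : Function.Injective (exA n 1) := by
  intro τ τ' h
  ext j
  have h1 := congrArg (fun σ : Equiv.Perm (Fin (n + 1)) => σ j.castSucc) h
  simp only [exA_castSucc] at h1
  exact congrArg Fin.val (Fin.castSucc_injective n h1)

theorem mkP_inj (n : ℕ) : Function.Injective (mkP n) := by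
  rintro ⟨o, τ⟩ ⟨o', τ'⟩ h
  rcases o with _ | i <;> rcases o' with _ | i'
  · rw [exA_inj n h]
  · exfalso
    have h1 := congrArg (fun σ : Equiv.Perm (Fin (n + 1)) => σ (Fin.last n)) h
    simp only [mkP, exA_last, Equiv.Perm.mul_apply, tr_last, exA_castSucc] at h1
    exact (Fin.castSucc_lt_last _).ne h1.symm
  · exfalso
    have h1 := congrArg (fun σ : Equiv.Perm (Fin (n + 1)) => σ (Fin.last n)) h
    simp only [mkP, exA_last, Equiv.Perm.mul_apply, tr_last, exA_castSucc] at h1
    exact (Fin.castSucc_lt_last _).ne h1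
  · have hi : i = i' := by
      by_contra hne
      have h1 := congrArg (fun σ : Equiv.Perm (Fin (n + 1)) => σ i.castSucc) h
      simp only [mkP, Equiv.Perm.mul_apply, tr_castSucc_self, exA_last,
        tr_castSucc_ne n i' i hne, exA_castSucc] at h1
      exact (Fin.castSucc_lt_last _).ne h1.symm
    subst hi
    have h2 : exA n 1 τ = exA n 1 τ' := mul_right_cancel h
    rw [exA_inj n h2]

theorem mkP_bij (n : ℕ) : Function.Bijective (mkP n) := by
  rw [Fintype.bijective_iff_injective_and_card]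
  refine ⟨mkP_inj n, ?_⟩
  rw [Fintype.card_prod, Fintype.card_option, Fintype.card_fin, Fintype.card_perm,
    Fintype.card_perm, Fintype.card_fin, Fintype.card_fin, Nat.factorial_succ]

theorem sum_split (n : ℕ) (g : Equiv.Perm (Fin (n + 1)) → ℚ) :
    ∑ σ, g σ = ∑ τ : Equiv.Perm (Fin n), (g (exA n 1 τ) + ∑ i : Fin n, g (exA n 1 τ * tr n i)) := by
  rw [← (Equiv.ofBijective _ (mkP_bij n)).sum_comp, Fintype.sum_prod_type_right]
  refine Finset.sum_congr rfl fun τ _ => ?_
  rw [Fintype.sum_option]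
  rfl

theorem coeff_pt {n : ℕ} (d : ℤ) (x : QS (n + 1)) (τ : Equiv.Perm (Fin n)) :
    (pt d x).coeff τ = (d : ℚ) * x.coeff (exA n 1 τ) + ∑ i : Fin n, x.coeff (exA n 1 τ * tr n i) := by
  classical
  unfold pt
  rw [MonoidAlgebra.coeff_sum, Finsupp.finset_sum_apply, Finset.sum_eq_single τ]
  · simp
  · intro σ' _ hσ'
    rw [MonoidAlgebra.coeff_single, Finsupp.single_apply, if_neg hσ']
  · intro h
    exact absurd (Finset.mem_univ _) h

/-- the sign of a letter -/
def ep {A : Type} (o : A → Bool) (a : A) : ℚ := if o a = true then -1 else 1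

theorem ep_mul {A : Type} (o : A → Bool) (a : A) : ep o a * ep o a = 1 := by
  unfold ep
  split_ifs <;> norm_num

theorem sum_ep {A : Type} [Fintype A] [DecidableEq A] (o : A → Bool) :
    ∑ a, ep o a = (((univ.filter fun a => o a = false).card -
      (univ.filter fun a => o a = true).card : ℤ) : ℚ) := by
  have h : ∀ a, ep o a = (if o a = false then (1 : ℚ) else 0) - (if o a = true then (1 : ℚ) else 0) := by
    intro a
    unfold ep
    cases o a <;> simp
  simp only [h, Finset.sum_sub_distrib, Finset.sum_boole]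
  push_cast
  rfl

/-- the function of longer words attached to a letter -/
def ua {A : Type} [DecidableEq A] {n : ℕ} (v : (Fin n → A) → ℚ) (a : A) : (Fin (n + 1) → A) → ℚ :=
  fun W => if W (Fin.last n) = a then v (fun i => W i.castSucc) else 0

theorem term_ex (hS : S_SGN) {A : Type} [DecidableEq A] {n : ℕ} (o : A → Bool)
    (v : (Fin n → A) → ℚ) (a : A) (w : Fin n → A) (τ : Equiv.Perm (Fin n)) :
    sgnW (o ∘ snc w a) (exA n 1 τ) * ua v a (snc w a ∘ exA n 1 τ) =
      sgnW (o ∘ w) τ * v (w ∘ τ) := by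
  rw [snc_exA, hS.2.2.1]
  congr 1
  · congr 1
    funext i
    rw [Function.comp_apply, snc_castSucc]
    rfl
  · unfold ua
    rw [snc_last, if_pos rfl]
    congr 1
    funext i
    rw [snc_castSucc]

theorem term_tr (hS : S_SGN) {A : Type} [DecidableEq A] {n : ℕ} (o : A → Bool)
    (v : (Fin n → A) → ℚ) (a : A) (w : Fin n → A) (τ : Equiv.Perm (Fin n)) (i : Fin n) :
    ep o a * (sgnW (o ∘ snc w a) (exA n 1 τ * tr n i) *
      ua v a (snc w a ∘ (exA n 1 τ * tr n i : Equiv.Perm (Fin (n + 1))))) =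
      if w (τ i) = a then sgnW (o ∘ w) τ * v (w ∘ τ) else 0 := by
  have h1 : (snc w a ∘ (exA n 1 τ * tr n i : Equiv.Perm (Fin (n + 1)))) (Fin.last n) = w (τ i) := by
    rw [Function.comp_apply, Equiv.Perm.mul_apply, tr_last, exA_castSucc, snc_castSucc]
  unfold ua
  rw [h1]
  split_ifs with h
  · have h2 : (fun j : Fin n => (snc w a ∘ (exA n 1 τ * tr n i : Equiv.Perm (Fin (n + 1))))
        j.castSucc) = w ∘ τ := by
      funext j
      rw [Function.comp_apply, Equiv.Perm.mul_apply]
      by_cases hj : j = i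
      · subst hj
        rw [tr_castSucc_self, exA_last, snc_last, ← h]
        rfl
      · rw [tr_castSucc_ne n i j hj, exA_castSucc, snc_castSucc]
        rfl
    rw [h2, hS.1 (n + 1) (o ∘ snc w a) (exA n 1 τ) (tr n i), hS.2.2.1]
    have h3 : (o ∘ snc w a) ∘ exA n 1 τ = o ∘ snc (w ∘ τ) a := by
      rw [Function.comp_assoc, snc_exA]
    rw [h3, hS.2.1]
    · have h4 : (fun j : Fin n => (o ∘ snc w a) j.castSucc) = o ∘ w := by
        funext j
        rw [Function.comp_apply, snc_castSucc]
        rfl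
      have h5 : (o ∘ snc (w ∘ τ) a) (Fin.last n) = o a := by
        rw [Function.comp_apply, snc_last]
      rw [h4, h5]
      have h6 := ep_mul o a
      unfold ep at h6 ⊢
      calc _ = ((if o a = true then (-1 : ℚ) else 1) * (if o a = true then (-1 : ℚ) else 1)) *
            (sgnW (o ∘ w) τ * v (w ∘ τ)) := by ring
        _ = _ := by rw [h6, one_mul]
    · rw [Function.comp_apply, Function.comp_apply, snc_castSucc, snc_last, Function.comp_apply, h]
  · rw [mul_zero, mul_zero]

theorem ker_pt (hS : S_SGN) {A : Type} [Fintype A] [DecidableEq A] (o : A → Bool) (n : ℕ)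
    (x : QS (n + 1)) (hx : x ∈ Ker o (n + 1)) :
    pt ((univ.filter fun a => o a = false).card -
      (univ.filter fun a => o a = true).card : ℤ) x ∈ Ker o n := by
  rw [mem_Ker] at hx ⊢
  intro v
  funext w
  have h0 : ∑ a, ep o a * actS o x (ua v a) (snc w a) = 0 := by
    refine Finset.sum_eq_zero fun a _ => ?_
    rw [hx, Pi.zero_apply, mul_zero]
  rw [Pi.zero_apply, ← h0]
  symm
  calc ∑ a, ep o a * actS o x (ua v a) (snc w a)
      = ∑ a, ∑ τ : Equiv.Perm (Fin n), (ep o a * (x.coeff (exA n 1 τ) *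
            (sgnW (o ∘ w) τ * v (w ∘ τ))) + ∑ i : Fin n, x.coeff (exA n 1 τ * tr n i) *
            (if w (τ i) = a then sgnW (o ∘ w) τ * v (w ∘ τ) else 0)) := by
        refine Finset.sum_congr rfl fun a _ => ?_
        unfold actS
        rw [sum_split, Finset.mul_sum]
        refine Finset.sum_congr rfl fun τ _ => ?_
        rw [mul_add, Finset.mul_sum]
        congr 1
        · rw [mul_assoc, term_ex hS]
        · refine Finset.sum_congr rfl fun i _ => ?_
          rw [← term_tr hS o v a w τ i]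
          ring
    _ = ∑ τ : Equiv.Perm (Fin n), ∑ a, (ep o a * (x.coeff (exA n 1 τ) *
            (sgnW (o ∘ w) τ * v (w ∘ τ))) + ∑ i : Fin n, x.coeff (exA n 1 τ * tr n i) *
            (if w (τ i) = a then sgnW (o ∘ w) τ * v (w ∘ τ) else 0)) := Finset.sum_comm
    _ = _ := by
        unfold actS
        refine Finset.sum_congr rfl fun τ _ => ?_
        rw [Finset.sum_add_distrib, ← Finset.sum_mul, sum_ep, Finset.sum_comm, coeff_pt, add_mul,
          add_mul, Finset.sum_mul, Finset.sum_mul]
        congr 1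
        · ring
        · refine Finset.sum_congr rfl fun i _ => ?_
          rw [← Finset.mul_sum, Finset.sum_ite_eq, if_pos (Finset.mem_univ _)]
          ring

end Pool.Agent.H64ND.KtidP

namespace Pool.Agent.H64ND

open KtidP

/-- Piece KTID. -/
theorem t_KTID : S_SGN → S_KTID := by
  intro hS A _ _ o n
  exact ⟨ker_two hS o n, ker_ex hS o n, ker_pt hS o n⟩

end Pool.Agent.H64ND
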