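import Pool.Agent.H64ND.Cpt
import Pool.Agent.H64ND.Kers
import Pool.Agent.H64ND.Ktid

/-!
# Project ND (helper64): the numerical ideal of the symmetric groups
-/

set_option autoImplicit false
set_option linter.unusedSectionVars false

open CategoryTheory Limits MonoidalCategory Finset
open Pool.Agent.Y112.SR Pool.Agent.Y112.KD Pool.Agent.Y112.SC Pool.Agent.R484.NC Pool.Agent.H64NC

namespace Pool.Agent.H64ND

universe u v w

/-- The sum over a product. -/
lemma smul_mul {n : ℕ} {V : Type*} [AddCommGroup V] [Module ℚ V] (x y : QS n)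
    (F : Equiv.Perm (Fin n) → V) :
    ∑ ρ, (x * y).coeff ρ • F ρ = ∑ σ, x.coeff σ • ∑ τ, y.coeff τ • F (σ * τ) := by
  simp only [coeff_mul', Finset.sum_smul, Finset.smul_sum]
  rw [Finset.sum_comm]
  refine Finset.sum_congr rfl fun σ _ => ?_
  rw [← Equiv.sum_comp (Equiv.mulLeft σ)]
  refine Finset.sum_congr rfl fun τ _ => ?_
  simp only [Equiv.coe_mulLeft]
  rw [inv_mul_cancel_left, mul_smul]

lemma smul_exQ {n : ℕ} {V : Type*} [AddCommGroup V] [Module ℚ V] (x : QS n) (k : ℕ)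
    (F : Equiv.Perm (Fin (n + k)) → V) :
    ∑ ρ, (exQ n k x).coeff ρ • F ρ = ∑ σ, x.coeff σ • F (exA n k σ) := by
  classical
  induction x using MonoidAlgebra.induction_on with
  | of σ =>
    simp only [exQ, MonoidAlgebra.mapDomainRingHom_apply, MonoidAlgebra.of_apply,
      MonoidAlgebra.mapDomain_single]
    rw [Finset.sum_eq_single (exA n k σ), Finset.sum_eq_single σ]
    · simp
    · intro τ _ hτ
      rw [MonoidAlgebra.coeff_single, Finsupp.single_eq_of_ne hτ, zero_smul]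
    · intro h
      exact absurd (Finset.mem_univ _) h
    · intro τ _ hτ
      rw [MonoidAlgebra.coeff_single, Finsupp.single_eq_of_ne hτ, zero_smul]
    · intro h
      exact absurd (Finset.mem_univ _) h
  | add x y hx hy =>
    rw [map_add]
    simp only [MonoidAlgebra.coeff_add, Finsupp.coe_add, Pi.add_apply, add_smul,
      Finset.sum_add_distrib, hx, hy]
  | smul c x hx =>
    have h1 : exQ n k (c • x) = c • exQ n k x := by
      simp only [exQ, MonoidAlgebra.mapDomainRingHom_apply, MonoidAlgebra.mapDomain_smul]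
    rw [h1]
    simp only [MonoidAlgebra.coeff_smul, Finsupp.coe_smul, Pi.smul_apply, smul_eq_mul, mul_smul,
      ← Finset.smul_sum, hx]

lemma smul_split (n : ℕ) {V : Type*} [AddCommGroup V] (g : Equiv.Perm (Fin (n + 1)) → V) :
    ∑ σ, g σ = ∑ τ : Equiv.Perm (Fin n), (g (exA n 1 τ) + ∑ i : Fin n, g (exA n 1 τ * tr n i)) := by
  rw [← (Equiv.ofBijective _ (KtidP.mkP_bij n)).sum_comp, Fintype.sum_prod_type_right]
  refine Finset.sum_congr rfl fun τ _ => ?_
  rw [Fintype.sum_option]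
  rfl

section

variable {C : Type u} [Category.{v} C] [Preadditive C] [Linear ℚ C] [MonoidalCategory C]
  [MonoidalPreadditive C] [MonoidalLinear ℚ C] [SymmetricCategory C] [RightRigidCategory C]
  {hU : UnitQ C} {K : Type w} [Field K] (R : SuperRealisation C K) {M : C} {D : ℕ}
  {v : Module.Basis (Fin D) K (R.H.obj M)} {η : Fin D → Bool}

/-- The image of an element of the group algebra. -/
noncomputable def Ph (s : ∀ n, Equiv.Perm (Fin n) → (tp M n ⟶ tp M n)) {n : ℕ} (x : QS n) :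
    tp M n ⟶ tp M n := ∑ σ, x.coeff σ • s n σ

lemma op_sum {X : C} {ι : Type*} (t : Finset ι) (f : ι → (X ⟶ X)) :
    op R (∑ i ∈ t, f i) = ∑ i ∈ t, op R (f i) := by
  have h1 : ∀ f : X ⟶ X, op R f = opHom R X f := fun _ => rfl
  simp only [h1, map_sum]

lemma op_Ph (s : ∀ n, Equiv.Perm (Fin n) → (tp M n ⟶ tp M n)) {n : ℕ} (x : QS n) :
    op R (Ph s x) = ∑ σ, ((x.coeff σ : ℚ) : K) • op R (s n σ) := by
  rw [Ph, op_sum]
  exact Finset.sum_congr rfl fun σ _ => op_smul R _ _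

variable (s : ∀ n, Equiv.Perm (Fin n) → (tp M n ⟶ tp M n))

/-- The numerically trivial elements. -/
def NZ (hU : UnitQ C) (hN : S_CNUM.{u, v, w}) (n : ℕ) : Submodule ℚ (QS n) where
  carrier := {x | NumZero hU (Ph s x)}
  add_mem' := by
    intro x y hx hy
    have h1 : Ph s (x + y) = Ph s x + Ph s y := by
      simp only [Ph, MonoidAlgebra.coeff_add, Finsupp.coe_add, Pi.add_apply, add_smul,
        Finset.sum_add_distrib]
    show NumZero hU (Ph s (x + y))
    rw [h1]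
    exact (hN hU R).2.2.2.1 _ _ _ hx hy
  zero_mem' := by
    have h1 : Ph s (0 : QS n) = 0 := by simp [Ph]
    show NumZero hU (Ph s (0 : QS n))
    rw [h1]
    intro g
    rw [zero_comp]
    exact (trq hU _).map_zero
  smul_mem' := by
    intro c x hx
    have h1 : Ph s (c • x) = c • Ph s x := by
      simp only [Ph, MonoidAlgebra.coeff_smul, Finsupp.coe_smul, Pi.smul_apply, smul_eq_mul,
        mul_smul, Finset.smul_sum]
    show NumZero hU (Ph s (c • x))
    rw [h1]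
    exact (hN hU R).2.2.2.2.1 _ _ _ hx

variable {s} {R}

lemma mem_NZ {hN : S_CNUM.{u, v, w}} {n : ℕ} {x : QS n} :
    x ∈ NZ R s hU hN n ↔ NumZero hU (Ph s x) := Iff.rfl

lemma op_Ph_mul (hS : S_SGN) (hs : ∀ n σ, Rp R v η σ (s n σ)) {n : ℕ} (x y : QS n) :
    op R (Ph s (x * y)) = op R (Ph s x ≫ Ph s y) := by
  have hc := R_charZero R
  have h1 : Ph s (x * y) = ∑ σ, x.coeff σ • ∑ τ, y.coeff τ • s n (σ * τ) :=
    smul_mul x y (s n)
  have h2 : Ph s x ≫ Ph s y = ∑ σ, x.coeff σ • ∑ τ, y.coeff τ • (s n σ ≫ s n τ) := by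
    rw [Ph, Ph, Preadditive.sum_comp]
    refine Finset.sum_congr rfl fun σ _ => ?_
    rw [Linear.smul_comp, Preadditive.comp_sum]
    congr 1
    refine Finset.sum_congr rfl fun τ _ => ?_
    rw [Linear.comp_smul]
  rw [h1, h2, op_sum, op_sum]
  refine Finset.sum_congr rfl fun σ _ => ?_
  rw [op_smul, op_smul, op_sum, op_sum]
  congr 1
  refine Finset.sum_congr rfl fun τ _ => ?_
  rw [op_smul, op_smul]
  congr 1
  exact CPT.Rp_op_eq R (hs n _) (CPT.Rp_mul R hS (hs n σ) (hs n τ))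

lemma two_NZ (hS : S_SGN) (hN : S_CNUM.{u, v, w}) (hs : ∀ n σ, Rp R v η σ (s n σ)) (n : ℕ) :
    Two (NZ R s hU hN n) := by
  intro x hx y
  constructor
  · exact (hN hU R).2.2.1 _ _ _ (op_Ph_mul hS hs x y).symm ((hN hU R).2.2.2.2.2 _ _ _ hx).1
  · exact (hN hU R).2.2.1 _ _ _ (op_Ph_mul hS hs y x).symm ((hN hU R).2.2.2.2.2 _ _ _ hx).2

lemma ex_NZ (hS : S_SGN) (hN : S_CNUM.{u, v, w}) (hs : ∀ n σ, Rp R v η σ (s n σ)) (n : ℕ)
    (x : QS n) (hx : x ∈ NZ R s hU hN n) : exQ n 1 x ∈ NZ R s hU hN (n + 1) := by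
  have h1 : NumZero hU (Ph s x ⊗ₘ 𝟙 M) := ((hN hU R).1 _ _ _ _ hx).1
  rw [tensorHom_id] at h1
  refine (hN hU R).2.2.1 (tp M (n + 1)) (Ph s x ▷ M) (Ph s (exQ n 1 x)) ?_ h1
  have h2 : Ph s (exQ n 1 x) = ∑ σ, x.coeff σ • s (n + 1) (exA n 1 σ) :=
    smul_exQ x 1 (s (n + 1))
  have h3 : (Ph s x ▷ M : tp M (n + 1) ⟶ tp M (n + 1)) = ∑ σ, x.coeff σ • (s n σ ▷ M) := by
    rw [Ph, sum_whiskerRight]
    exact Finset.sum_congr rfl fun σ _ => MonoidalLinear.smul_whiskerRight _ _ _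
  rw [h2, h3, op_sum, op_sum]
  refine Finset.sum_congr rfl fun σ _ => ?_
  rw [op_smul, op_smul]
  congr 1
  exact (CPT.Rp_op_eq R (hs (n + 1) _) (CPT.Rp_lift R hS (hs n σ))).symm

lemma pt_NZ (hP : S_CPT.{u, v, w}) (hN : S_CNUM.{u, v, w}) (hv : Hom' R v η)
    (hs : ∀ n σ, Rp R v η σ (s n σ)) (n : ℕ) (x : QS (n + 1)) (hx : x ∈ NZ R s hU hN (n + 1)) :
    pt ((Finset.univ.filter fun a => η a = false).card -
            (Finset.univ.filter fun a => η a = true).card : ℤ) x ∈ NZ R s hU hN n := by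
  have hc := R_charZero R
  have h1 : NumZero hU (ptr (Ph s x) : tp M n ⟶ tp M n) := (hN hU R).2.1 _ _ _ hx
  refine (hN hU R).2.2.1 (tp M n) (ptr (Ph s x)) _ ?_ h1
  have hsum : ∀ (f : Equiv.Perm (Fin (n + 1)) → (tp M (n + 1) ⟶ tp M (n + 1)))
      (t : Finset (Equiv.Perm (Fin (n + 1)))),
      (ptr (∑ σ ∈ t, f σ) : tp M n ⟶ tp M n) = ∑ σ ∈ t, ptr (f σ) := by
    classical
    intro f t
    induction t using Finset.induction_on with
    | empty =>
      rw [Finset.sum_empty, Finset.sum_empty]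
      have h2 := ptr_smul (0 : ℚ) (0 : tp M n ⊗ M ⟶ tp M n ⊗ M)
      rw [zero_smul, zero_smul] at h2
      exact h2
    | insert σ t hσ ih => rw [Finset.sum_insert hσ, Finset.sum_insert hσ, ← ih]; exact ptr_add _ _
  have h2 : (ptr (Ph s x) : tp M n ⟶ tp M n) = ∑ σ, x.coeff σ • ptr (s (n + 1) σ) := by
    rw [Ph, hsum]
    exact Finset.sum_congr rfl fun σ _ => ptr_smul _ _
  have h3 : ∀ τ : Equiv.Perm (Fin n), op R (ptr (s (n + 1) (exA n 1 τ)) : tp M n ⟶ tp M n) =
      ((((Finset.univ.filter fun a => η a = false).card -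
            (Finset.univ.filter fun a => η a = true).card : ℤ) : ℚ) : K) • op R (s n τ) := by
    intro τ
    refine (Perm.bs R v n).ext fun I => ?_
    rw [(hP hU R M D v η hv n τ).1 _ (hs _ _) I, LinearMap.smul_apply, hs n τ I, smul_smul,
      Rat.cast_mul]
  have h4 : ∀ (τ : Equiv.Perm (Fin n)) (i : Fin n),
      op R (ptr (s (n + 1) (exA n 1 τ * tr n i)) : tp M n ⟶ tp M n) = op R (s n τ) := by
    intro τ i
    refine (Perm.bs R v n).ext fun I => ?_
    rw [(hP hU R M D v η hv n τ).2 i _ (hs _ _) I, hs n τ I]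
  rw [h2, op_sum, op_Ph, smul_split]
  refine Finset.sum_congr rfl fun τ _ => ?_
  rw [op_smul, h3, KtidP.coeff_pt, smul_smul]
  have h5 : ∀ i : Fin n, op R (x.coeff (exA n 1 τ * tr n i) •
      (ptr (s (n + 1) (exA n 1 τ * tr n i)) : tp M n ⟶ tp M n)) =
      ((x.coeff (exA n 1 τ * tr n i) : ℚ) : K) • op R (s n τ) := by
    intro i
    rw [op_smul, h4]
  rw [Finset.sum_congr rfl fun i _ => h5 i, ← Finset.sum_smul, ← add_smul]
  congr 1
  push_cast
  ring

lemma zero_NZ (hN : S_CNUM.{u, v, w}) (hs : ∀ n σ, Rp R v η σ (s n σ)) (hS : S_SGN) :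
    NZ R s hU hN 0 = ⊥ := by
  classical
  have hc := R_charZero R
  rw [Submodule.eq_bot_iff]
  intro x hx
  have h1 : op R (Ph s x) = op R (x.coeff 1 • 𝟙 (tp M 0)) := by
    rw [op_Ph, op_smul, Pool.Agent.R484.NC.op_id]
    rw [Finset.sum_eq_single 1]
    · congr 1
      refine (Perm.bs R v 0).ext fun I => ?_
      rw [hs 0 1 I, hS.2.2.2.2.1 0 _ _ (fun i => i.elim0), Rat.cast_one, one_smul]
      rfl
    · intro τ _ hτ
      exact absurd (Subsingleton.elim τ 1) hτ
    · intro h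
      exact absurd (Finset.mem_univ _) h
  have h2 := (hN hU R).2.2.1 _ _ _ h1 hx (𝟙 _)
  rw [Category.comp_id, ctr_smul] at h2
  have h3 : ctr hU (𝟙 (tp M 0)) = 1 := ctr_unit R hU
  rw [h3, mul_one] at h2
  refine qs_ext fun σ => ?_
  rw [Subsingleton.elim σ 1, h2]
  rfl

lemma op_Ph_eq_zero (hs : ∀ n σ, Rp R v η σ (s n σ)) {n : ℕ} {x : QS n} (hx : x ∈ Ker η n) :
    op R (Ph s x) = 0 := by
  classical
  have hc := R_charZero R
  refine (Perm.bs R v n).ext fun I => ?_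
  rw [op_Ph, LinearMap.sum_apply, LinearMap.zero_apply]
  apply (Perm.bs R v n).repr.injective
  rw [map_zero, map_sum]
  ext J
  rw [Finsupp.finsetSum_apply, Finsupp.zero_apply]
  have h1 := congrFun (hx fun w => if w = J then 1 else 0) I
  simp only [actS, Pi.zero_apply] at h1
  have h2 : ∀ σ : Equiv.Perm (Fin n), ((Perm.bs R v n).repr
      ((((x.coeff σ : ℚ) : K) • op R (s n σ)) (Perm.bs R v n I))) J =
      ((x.coeff σ * sgnW (η ∘ I) σ * (if I ∘ σ = J then 1 else 0) : ℚ) : K) := by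
    intro σ
    rw [LinearMap.smul_apply, hs n σ I, smul_smul, map_smul, Module.Basis.repr_self,
      Finsupp.smul_apply, Finsupp.single_apply, smul_eq_mul]
    push_cast
    by_cases h : I ∘ σ = J
    · rw [if_pos h, if_pos h, Rat.cast_one]
    · rw [if_neg h, if_neg h, Rat.cast_zero]
  rw [Finset.sum_congr rfl fun σ _ => h2 σ, ← Rat.cast_sum, h1, Rat.cast_zero]

lemma ker_le_NZ (hN : S_CNUM.{u, v, w}) (hs : ∀ n σ, Rp R v η σ (s n σ)) (n : ℕ) :
    Ker η n ≤ NZ R s hU hN n := by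
  intro x hx
  refine (hN hU R).2.2.1 _ 0 _ ?_ ?_
  · rw [op_Ph_eq_zero hs hx]
    exact map_zero (opHom R (tp M n))
  · intro g
    rw [zero_comp]
    exact (trq hU _).map_zero

end

end Pool.Agent.H64ND
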