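import Pool.Agent.H64ND.Cen

/-!
# The sign of a numerical motive: a central numerical involution with positive pairings
-/

set_option autoImplicit false

open Module Polynomial TensorProduct Matrix
open CategoryTheory Limits MonoidalCategory
open Pool.Agent.Y112.SR Pool.Agent.Y112.KD Pool.Agent.Y112.SC Pool.Agent.R484.NC Pool.Agent.H64NC

namespace Pool.Agent.H64ND.Cen2

universe u v w

/-- the case of a product of matrix algebras -/
theorem main_pi {K : Type w} [Field K] [CharZero K] {m : ℕ} {n : Fin m → ℕ} [∀ i, NeZero (n i)]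
    (s : Str1.PM K n →ₗ[K] K) (hs : ∀ x y, s (x * y) = s (y * x))
    (hnd : ∀ x, (∀ y, s (x * y) = 0) → x = 0) (hint : ∀ e, e * e = e → ∃ m : ℤ, s e = m)
    {E : Type v} [Ring E] [Algebra ℚ E] (κ : E →+* Str1.PM K n)
    (hspan : Submodule.span K (Set.range κ) = ⊤)
    (τ : E →ₗ[ℚ] ℚ) (hτ : ∀ x, ((τ x : ℚ) : K) = s (κ x))
    :
    ∃ x : E, κ x * κ x = 1 ∧ (∀ g, κ x * κ g = κ g * κ x) ∧
      ∀ y, κ y * κ y = κ y → |τ y| ≤ τ (x * y) ∧ (κ y ≠ 0 → 0 < τ (x * y)) := by
  classical
  -- the weights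
  have hc : ∀ i, ∃ c : ℤ, s (Str1.e0 K n i) = c := fun i => hint _ (Str1.e0_mul_self i)
  choose c hc using hc
  have hsx : ∀ x, s x = ∑ i, (c i : K) * Matrix.trace (x i) := by
    intro x
    rw [Str1.tracial_pi s hs]
    exact Finset.sum_congr rfl fun i _ => by rw [hc]
  have hc0 : ∀ i, c i ≠ 0 := by
    intro i h0
    apply Str1.e0_ne (K := K) (n := n) i
    apply hnd
    intro y
    rw [hsx]
    refine Finset.sum_eq_zero fun j _ => ?_
    by_cases hij : j = i
    · subst hij; rw [h0]; simp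
    · have : (Str1.e0 K n i * y) j = 0 := by
        rw [Pi.mul_apply, Str1.e0, Pi.single_eq_of_ne hij, zero_mul]
      rw [this, Matrix.trace_zero, mul_zero]
  -- the trace of left multiplication
  let T : Str1.PM K n →ₗ[K] K := LinearMap.trace K (Str1.PM K n) ∘ₗ (LinearMap.mul K (Str1.PM K n))
  have hT : ∀ x, T x = LinearMap.trace K (Str1.PM K n) (LinearMap.mulLeft K x) := fun x => rfl
  have hTtr : ∀ x y, T (x * y) = T (y * x) := by
    intro x y
    rw [hT, hT]
    have h1 : ∀ x y : Str1.PM K n, LinearMap.mulLeft K (x * y)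
        = LinearMap.mulLeft K x * LinearMap.mulLeft K y := fun x y => by
      ext z; simp
    rw [h1, h1, LinearMap.trace_mul_comm]
  have ht : ∀ i, ∃ t : ℕ, 0 < t ∧ T (Str1.e0 K n i) = t := fun i =>
    Str1.trace_idem _ (Str1.e0_mul_self i) (Str1.e0_ne i)
  choose t htpos ht using ht
  have hTx : ∀ x, T x = ∑ i, (t i : K) * Matrix.trace (x i) := by
    intro x
    rw [Str1.tracial_pi T hTtr]
    exact Finset.sum_congr rfl fun i _ => by rw [ht]
  -- the Casimir element
  obtain ⟨Ω, hΩ⟩ := Str1.casimir s hs hnd κ hspan τ hτ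
  let lam : Fin m → ℚ := fun i => (t i : ℚ) / (c i : ℚ)
  let g : ∀ i, ℚ →+* Matrix (Fin (n i)) (Fin (n i)) K := fun i =>
    (algebraMap K (Matrix (Fin (n i)) (Fin (n i)) K)).comp (algebraMap ℚ K)
  have hgtr : ∀ i (q : ℚ), Matrix.trace (g i q) = (q : K) * (n i : K) := by
    intro i q
    simp only [g, RingHom.comp_apply, eq_ratCast, Algebra.algebraMap_eq_smul_one,
      Matrix.trace_smul, Matrix.trace_one, Fintype.card_fin, smul_eq_mul]
  have hgmul : ∀ i (q : ℚ) (A : Matrix (Fin (n i)) (Fin (n i)) K),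
      Matrix.trace (A * g i q) = (q : K) * Matrix.trace A := by
    intro i q A
    simp only [g, RingHom.comp_apply, eq_ratCast, Algebra.algebraMap_eq_smul_one,
      Matrix.trace_smul, mul_smul_comm, mul_one, smul_eq_mul]
  have hκΩ : κ Ω = fun i => g i (lam i) := by
    have h1 : ∀ a, s (a * ((fun i => g i (lam i)) - κ Ω)) = 0 := by
      intro a
      rw [mul_sub, map_sub, hΩ, ← hT, hsx, hTx, sub_eq_zero]
      refine Finset.sum_congr rfl fun i _ => ?_
      rw [Pi.mul_apply, hgmul, ← mul_assoc]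
      congr 1
      have : (c i : K) ≠ 0 := by exact_mod_cast hc0 i
      simp only [lam]
      push_cast
      field_simp
    have h2 := hnd ((fun i => g i (lam i)) - κ Ω) (fun y => by rw [hs]; exact h1 y)
    exact (sub_eq_zero.1 h2).symm
  -- the interpolation polynomial
  let sg : ℚ → ℚ := fun x => if 0 < x then 1 else -1
  let q : Polynomial ℚ := Lagrange.interpolate (Finset.univ.image lam) id sg
  have hq : ∀ i, q.eval (lam i) = sg (lam i) := by
    intro i
    exact Lagrange.eval_interpolate_at_node (v := id) (r := sg) (Set.injOn_id _)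
      (Finset.mem_image_of_mem lam (Finset.mem_univ i))
  have hsg2 : ∀ x, sg x * sg x = 1 := by
    intro x; simp only [sg]; split_ifs <;> norm_num
  have hsgc : ∀ i, (c i : ℚ) * sg (lam i) = |(c i : ℚ)| := by
    intro i
    have hti : (0 : ℚ) < t i := by exact_mod_cast htpos i
    have hci : (c i : ℚ) ≠ 0 := by exact_mod_cast hc0 i
    simp only [sg, lam]
    rcases lt_or_gt_of_ne hci with h | h
    · rw [if_neg (not_lt.2 (div_nonpos_of_nonneg_of_nonpos hti.le h.le)), abs_of_neg h]; ring
    · rw [if_pos (div_pos hti h), abs_of_pos h]; ring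
  have hκx : κ (q.eval₂ (algebraMap ℚ E) Ω) = fun i => g i (sg (lam i)) := by
    rw [Polynomial.hom_eval₂, hκΩ]
    funext i
    have h1 : (Pi.evalRingHom (fun i => Matrix (Fin (n i)) (Fin (n i)) K) i)
        (q.eval₂ (κ.comp (algebraMap ℚ E)) (fun i => g i (lam i)))
        = q.eval₂ ((Pi.evalRingHom (fun i => Matrix (Fin (n i)) (Fin (n i)) K) i).comp
            (κ.comp (algebraMap ℚ E))) (g i (lam i)) := by
      rw [Polynomial.hom_eval₂]; rfl
    have h2 : (Pi.evalRingHom (fun i => Matrix (Fin (n i)) (Fin (n i)) K) i).comp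
            (κ.comp (algebraMap ℚ E)) = g i := Subsingleton.elim _ _
    rw [h2, Polynomial.eval₂_at_apply, hq] at h1
    exact h1
  refine ⟨q.eval₂ (algebraMap ℚ E) Ω, ?_, ?_, ?_⟩
  · rw [hκx]
    funext i
    rw [Pi.mul_apply, ← map_mul, hsg2, map_one]; rfl
  · intro h
    rw [hκx]
    funext i
    rw [Pi.mul_apply, Pi.mul_apply]
    exact Algebra.commutes (algebraMap ℚ K (sg (lam i))) (κ h i)
  · intro y hy
    have hr : ∀ i, ∃ r : ℕ, Matrix.trace (κ y i) = (r : K) ∧ (κ y i ≠ 0 → 0 < r) := by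
      intro i
      have hi : κ y i * κ y i = κ y i := by
        have := congrFun hy i
        rwa [Pi.mul_apply] at this
      have hid : IsIdempotentElem (Matrix.toLin' (κ y i)) := by
        rw [IsIdempotentElem, Module.End.mul_eq_comp, ← Matrix.toLin'_mul, hi]
      refine ⟨Module.finrank K (LinearMap.range (Matrix.toLin' (κ y i))), ?_, fun h => ?_⟩
      · rw [← Matrix.trace_toLin'_eq]
        exact (LinearMap.IsIdempotentElem.isProj_range _ hid).trace
      · rw [Nat.pos_iff_ne_zero]
        intro h0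
        apply h
        have h1 : LinearMap.range (Matrix.toLin' (κ y i)) = ⊥ :=
          Submodule.finrank_eq_zero.1 h0
        rw [LinearMap.range_eq_bot] at h1
        exact (Matrix.toLin' (R := K) (m := Fin (n i)) (n := Fin (n i))).injective
          (by rw [h1, map_zero])
    choose r hr hrp using hr
    have h1 : τ y = ∑ i, (c i : ℚ) * (r i : ℚ) := by
      have : ((τ y : ℚ) : K) = ((∑ i, (c i : ℚ) * (r i : ℚ) : ℚ) : K) := by
        rw [hτ, hsx, Rat.cast_sum]
        refine Finset.sum_congr rfl fun i _ => ?_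
        rw [hr]
        push_cast
        ring
      exact_mod_cast this
    have h2 : τ (q.eval₂ (algebraMap ℚ E) Ω * y) = ∑ i, |(c i : ℚ)| * (r i : ℚ) := by
      have : ((τ (q.eval₂ (algebraMap ℚ E) Ω * y) : ℚ) : K) =
          ((∑ i, |(c i : ℚ)| * (r i : ℚ) : ℚ) : K) := by
        rw [hτ, map_mul κ, hκx, hsx, Rat.cast_sum]
        refine Finset.sum_congr rfl fun i _ => ?_
        rw [Pi.mul_apply, Matrix.trace_mul_comm, hgmul, hr, ← hsgc]
        push_cast
        ring
      exact_mod_cast this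
    rw [h1, h2]
    constructor
    · refine (Finset.abs_sum_le_sum_abs _ _).trans (le_of_eq ?_)
      refine Finset.sum_congr rfl fun i _ => ?_
      rw [abs_mul, abs_of_nonneg (show (0 : ℚ) ≤ (r i : ℚ) by positivity)]
    · intro hne
      obtain ⟨i, hi⟩ := Function.ne_iff.1 hne
      refine Finset.sum_pos' (fun j _ => by positivity) ⟨i, Finset.mem_univ i, ?_⟩
      have h3 : (0 : ℚ) < r i := by exact_mod_cast hrp i hi
      have h4 : (0 : ℚ) < |(c i : ℚ)| := abs_pos.2 (by exact_mod_cast hc0 i)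
      positivity


/-- the semisimple quotient -/
theorem alg1 (K : Type w) [Field K] [CharZero K] [IsAlgClosed K] (Q : Type w) [Ring Q] [Algebra K Q]
    [Module.Finite K Q] (s : Q →ₗ[K] K) (hs : ∀ x y, s (x * y) = s (y * x))
    (hnd : ∀ x, (∀ y, s (x * y) = 0) → x = 0) (hint : ∀ e, e * e = e → ∃ m : ℤ, s e = m)
    (hnil : ∀ x, IsNilpotent x → s x = 0)
    (E : Type v) [Ring E] [Algebra ℚ E] (κ : E →+* Q)
    (hspan : Submodule.span K (Set.range κ) = ⊤)
    (τ : E →ₗ[ℚ] ℚ) (hτ : ∀ x, ((τ x : ℚ) : K) = s (κ x)) :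
    ∃ x : E, κ x * κ x = 1 ∧ (∀ g, κ x * κ g = κ g * κ x) ∧
      ∀ y, κ y * κ y = κ y → |τ y| ≤ τ (x * y) ∧ (κ y ≠ 0 → 0 < τ (x * y)) := by
  have := Str1.semisimple s hnd hnil
  obtain ⟨m, n, hn, ⟨φ⟩⟩ := IsSemisimpleRing.exists_algEquiv_pi_matrix_of_isAlgClosed K Q
  have h := main_pi (K := K) (n := n) (s ∘ₗ φ.symm.toLinearMap)
    (fun x y => by simp [hs]) ?_ ?_
    (φ.toRingEquiv.toRingHom.comp κ) ?_ τ ?_
  · obtain ⟨x, hx, h1, h2⟩ := h
    refine ⟨x, ?_, fun g => ?_, fun y hy => ?_⟩
    · apply φ.injective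
      simpa using hx
    · apply φ.injective
      have := h1 g
      simpa using this
    · obtain ⟨h2, h3⟩ := h2 y (by
        have := congrArg φ hy
        simpa using this)
      exact ⟨h2, fun h4 => h3 (fun h5 => h4 (φ.injective (by simpa using h5)))⟩
  · intro x hx
    have : φ.symm x = 0 := by
      apply hnd
      intro y
      have := hx (φ y)
      simpa using this
    simpa using this
  · intro e he
    apply hint
    change φ.symm e * φ.symm e = φ.symm e
    rw [← map_mul, he]
  · have h1 : Set.range (φ.toRingEquiv.toRingHom.comp κ) = φ.toLinearMap '' Set.range κ := by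
      ext y; simp [Set.mem_image]
    rw [h1, ← Submodule.map_span, hspan, Submodule.map_top, LinearMap.range_eq_top]
    exact φ.surjective
  · intro x
    rw [hτ]; simp

section closed

open Pool.Agent.H64NC.Str2 Pool.Agent.H447 Pool.Agent.H914

variable {K : Type w} [Field K] {V : Type w} [AddCommGroup V] [Module K V]
  {E : Type v} [Ring E]

variable [CharZero K] [IsAlgClosed K] [Module.Finite K V] [Algebra ℚ E]

theorem closed (π : E →+* Module.End K V) (p : Module.End K V)
    (hp : p * p = p) (h : ∀ x, Commute (π x) p) (τ : E →ₗ[ℚ] ℚ)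
    (hτ : ∀ x, ((τ x : ℚ) : K) = LinearMap.trace K V ((p - (1 - p)) * π x)) :
    ∃ x : E, (∀ y, τ ((x * x - 1) * y) = 0) ∧ (∀ g y, τ ((g * x - x * g) * y) = 0) ∧
      ∀ y, (∀ z, τ ((y * y - y) * z) = 0) → |τ y| ≤ τ (x * y) ∧
        ((¬ ∀ z, τ (y * z) = 0) → 0 < τ (x * y)) := by
  obtain ⟨s, hs⟩ := exists_s π p h
  have hfin : Module.Finite K (alg π ⧸ rad π p h) :=
    Module.Finite.of_surjective (Ideal.Quotient.mkₐ K (rad π p h)).toLinearMap
      (Ideal.Quotient.mkₐ_surjective K (rad π p h))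
  have hκ : ∀ x, ((τ x : ℚ) : K) = s (kap π p h x) := by
    intro x
    rw [kap_apply, hs, hτ]
    rfl
  have c1 : ∀ x y, s (x * y) = s (y * x) := by
    intro x y
    obtain ⟨x, rfl⟩ := Ideal.Quotient.mk_surjective x
    obtain ⟨y, rfl⟩ := Ideal.Quotient.mk_surjective y
    rw [← map_mul, ← map_mul, hs, hs, sA_apply, sA_apply]
    exact str_comm (comm_alg h x)
  have c2 : ∀ x, (∀ y, s (x * y) = 0) → x = 0 := by
    intro x hx
    obtain ⟨x, rfl⟩ := Ideal.Quotient.mk_surjective x
    rw [Ideal.Quotient.eq_zero_iff_mem]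
    refine mem_rad.2 fun y => ?_
    have h2 := hx (Ideal.Quotient.mk _ y)
    rw [← map_mul, hs] at h2
    exact h2
  have c3 : ∀ e, e * e = e → ∃ m : ℤ, s e = m := by
    intro e he
    obtain ⟨T, rfl⟩ := Ideal.Quotient.mk_surjective e
    have h2 : ∀ r : ℕ, Ideal.Quotient.mk (rad π p h) (T ^ (r + 1)) = Ideal.Quotient.mk _ T := by
      intro r
      induction r with
      | zero => rw [zero_add, pow_one]
      | succ r ih => rw [pow_succ, map_mul, ih, he]
    obtain ⟨a, b, c, h3, -, -⟩ := Pool.Agent.H578R3.Sgn.main (d := s (Ideal.Quotient.mk _ T)) hp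
      (comm_alg h T) (fun r => by
        rw [← h2 r, hs, sA_apply, str_apply]
        rfl)
    exact ⟨a - b, by rw [h3]; push_cast; rfl⟩
  have c4 : ∀ x, IsNilpotent x → s x = 0 := by
    intro x hx
    obtain ⟨T, rfl⟩ := Ideal.Quotient.mk_surjective x
    obtain ⟨m, hm⟩ := hx
    obtain ⟨e, he⟩ := exists_cut (T : Module.End K V) m
    have h2 : Ideal.Quotient.mk (rad π p h) (T * aeval T (X ^ m * e)) = 0 := by
      rw [map_mul (aeval T), map_pow, aeval_X, map_mul, map_mul, map_pow, hm, zero_mul, mul_zero]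
    have h3 : s (Ideal.Quotient.mk (rad π p h) (T * aeval T (X ^ m * e))) = 0 := by
      rw [h2, map_zero]
    have h4 : str p ((T * (1 - aeval T (X ^ m * e)) : alg π) : Module.End K V) = 0 := by
      refine str_nil (comm_alg h _) ?_
      push_cast
      exact he
    rw [hs, sA_apply] at h3
    rw [hs, sA_apply]
    have h6 : (T : Module.End K V) = ((T * aeval T (X ^ m * e) : alg π) : Module.End K V) +
        ((T * (1 - aeval T (X ^ m * e)) : alg π) : Module.End K V) := by
      rw [← Subalgebra.coe_add, ← mul_add, add_sub_cancel, mul_one]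
    rw [h6, map_add, h3, h4, add_zero]
  obtain ⟨x, hx1, hx2, hx3⟩ := alg1 K (alg π ⧸ rad π p h) s c1 c2 c3 c4 E (kap π p h)
    (span_kap π p h) τ hκ
  refine ⟨x, fun y => ?_, fun g y => ?_, fun y hy => ?_⟩
  · have h2 : ((τ ((x * x - 1) * y) : ℚ) : K) = 0 := by
      rw [hκ, (kap π p h).map_mul, (kap π p h).map_sub, (kap π p h).map_mul, (kap π p h).map_one,
        hx1, sub_self, zero_mul, map_zero]
    exact_mod_cast h2
  · have h3 : kap π p h (g * x - x * g) = 0 := by
      rw [(kap π p h).map_sub, (kap π p h).map_mul g x, (kap π p h).map_mul x g, hx2 g, sub_self]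
    have h2 : ((τ ((g * x - x * g) * y) : ℚ) : K) = 0 := by
      rw [hκ, (kap π p h).map_mul, h3, zero_mul, map_zero]
    exact_mod_cast h2
  · have hyy : kap π p h y * kap π p h y = kap π p h y := by
      rw [← sub_eq_zero]
      apply c2
      intro z
      have h3 : z ∈ Submodule.span K (Set.range (kap π p h)) := by
        rw [span_kap]
        exact Submodule.mem_top
      induction h3 using Submodule.span_induction with
      | mem z hz =>
        obtain ⟨z, rfl⟩ := hz
        have h4 : kap π p h y * kap π p h y - kap π p h y = kap π p h (y * y - y) := by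
          rw [(kap π p h).map_sub, (kap π p h).map_mul y y]
        rw [h4, ← (kap π p h).map_mul, ← hκ, hy, Rat.cast_zero]
      | zero => rw [mul_zero, map_zero]
      | add z w _ _ hz hw => rw [mul_add, map_add, hz, hw, add_zero]
      | smul c z _ hz => rw [mul_smul_comm, map_smul, hz, smul_zero]
    obtain ⟨h5, h6⟩ := hx3 y hyy
    refine ⟨h5, fun hne => h6 fun h0 => hne fun z => ?_⟩
    have h2 : ((τ (y * z) : ℚ) : K) = 0 := by
      rw [hκ, (kap π p h).map_mul, h0, zero_mul, map_zero]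
    exact_mod_cast h2

end closed

section

open Pool.Agent.H64NC.Str2 Pool.Agent.H447 Pool.Agent.H914

theorem struct (K : Type w) [Field K] [CharZero K] (V : Type w) [AddCommGroup V] [Module K V]
    [Module.Finite K V] (E : Type v) [Ring E] [Algebra ℚ E] (π : E →+* Module.End K V)
    (p : Module.End K V) (hp : p * p = p) (h : ∀ x, Commute (π x) p)
    (τ : E →ₗ[ℚ] ℚ) (hτ : ∀ x, ((τ x : ℚ) : K) = LinearMap.trace K V ((p - (1 - p)) * π x)) :
    ∃ x : E, (∀ y, τ ((x * x - 1) * y) = 0) ∧ (∀ g y, τ ((g * x - x * g) * y) = 0) ∧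
      ∀ y, (∀ z, τ ((y * y - y) * z) = 0) → |τ y| ≤ τ (x * y) ∧
        ((¬ ∀ z, τ (y * z) = 0) → 0 < τ (x * y)) := by
  set Kb := AlgebraicClosure K
  have hbt : ∀ T : Module.End K V, LinearMap.trace Kb (Kb ⊗[K] V)
      ((p.baseChange Kb - (1 - p.baseChange Kb)) * T.baseChange Kb) =
      algebraMap K Kb (LinearMap.trace K V ((p - (1 - p)) * T)) := by
    intro T
    have e : (p.baseChange Kb - (1 - p.baseChange Kb)) * T.baseChange Kb =
        ((p - (1 - p)) * T).baseChange Kb := by
      rw [bc_mul, bc_sub, bc_sub, bc_one]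
    rw [e, LinearMap.trace_baseChange]
  refine closed (K := Kb) (V := Kb ⊗[K] V)
    ((Module.End.baseChangeHom K Kb V).toRingHom.comp π) (p.baseChange Kb)
    (by rw [← bc_mul, hp]) (fun x => ?_) τ (fun x => ?_)
  · show Commute ((π x).baseChange Kb) (p.baseChange Kb)
    rw [Commute, SemiconjBy, ← bc_mul, ← bc_mul, (h x).eq]
  · show _ = LinearMap.trace Kb (Kb ⊗[K] V)
      ((p.baseChange Kb - (1 - p.baseChange Kb)) * (π x).baseChange Kb)
    rw [hbt, ← hτ, map_ratCast]

end

end Pool.Agent.H64ND.Cen2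

namespace Pool.Agent.H64ND

universe u v w

/-- the sign: a central numerical involution with positive pairings -/
theorem exists_sign {C : Type u} [Category.{v} C] [Preadditive C] [Linear ℚ C] [MonoidalCategory C]
    [MonoidalPreadditive C] [MonoidalLinear ℚ C] [SymmetricCategory C] [RightRigidCategory C]
    (hU : UnitQ C) {K : Type w} [Field K] (R : SuperRealisation C K) (X : C) :
    ∃ x : X ⟶ X, NumInvolution hU x ∧ (∀ g : X ⟶ X, NumZero hU (x ≫ g - g ≫ x)) ∧
      ∀ y : X ⟶ X, NumZero hU (y ≫ y - y) → |ctr hU y| ≤ ctr hU (x ≫ y) ∧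
        (¬ NumZero hU y → 0 < ctr hU (x ≫ y)) := by
  have hK := R_charZero R
  have h0 := R.finite X
  obtain ⟨x, hx, hc, hy⟩ := Cen2.struct K (R.H.obj X) (End X) (opHom R X) (evp R X) (evp_idem R X)
    (fun x => op_comm R x) (trq hU X) (fun x => by
      have h1 := ctr_eq R hU (M := X) x
      rw [str_eq] at h1
      exact h1)
  refine ⟨x, ?_, ?_, ?_⟩
  · intro y
    have h2 := hx y
    rw [End.mul_def, End.mul_def] at h2
    have h3 := ctr_comm R hU ((x : X ⟶ X) ≫ x - 𝟙 X) y
    rw [h3]
    exact h2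
  · intro g y
    have h2 := hc g y
    rw [End.mul_def, End.mul_def, End.mul_def] at h2
    have h3 := ctr_comm R hU ((x : X ⟶ X) ≫ g - g ≫ x) y
    rw [h3]
    exact h2
  · intro y h
    obtain ⟨h2, h5⟩ := hy y (fun z => by
      rw [End.mul_def, End.mul_def]
      have h3 := ctr_comm R hU ((y : X ⟶ X) ≫ y - y) z
      have h4 := h z
      rw [h3] at h4
      exact h4)
    rw [End.mul_def] at h2
    have h3 := ctr_comm R hU (x : X ⟶ X) y
    rw [h3]
    refine ⟨h2, fun hne => ?_⟩
    have h6 := h5 (fun h7 => hne (fun z => by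
      have h8 := h7 z
      rw [End.mul_def] at h8
      have h9 := ctr_comm R hU (y : X ⟶ X) z
      rw [h9]
      exact h8))
    rw [End.mul_def] at h6
    exact h6

end Pool.Agent.H64ND
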