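import Pool.Agent.H64ND.Cas

/-!
# Project NS (helper64), second part: pieces CAS2, DUAL
-/

set_option autoImplicit false

open CategoryTheory Limits MonoidalCategory
open Pool.Agent.Y112.SR Pool.Agent.Y112.KD Pool.Agent.Y112.SC Pool.Agent.R484.NC Pool.Agent.H64NC

namespace Pool.Agent.H64ND

universe u v w

/-- **Piece CAS2** (file `Pool/Agent/H64ND/Cas2.lean`, `theorem t_CAS2 : S_CAS2.{u, v, w}`): `S_CAS` with the additional conclusion `|l| ≤ μ l`.

Proof. `l = lam i = t i / c i`, where `t i = T (e0 i)` is the trace of left multiplication with the matrix unit `E_{11}` on `Mat_{n i}`, which is `n i`, and `|c i| ≥ 1`, `μ l ≥ n i |c i|`. So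
`|l| = n i / |c i| ≤ n i ≤ μ l`. -/
def S_CAS2 : Prop :=
  ∀ {C : Type u} [Category.{v} C] [Preadditive C] [Linear ℚ C] [MonoidalCategory C]
    [MonoidalPreadditive C] [MonoidalLinear ℚ C] [SymmetricCategory C] [RightRigidCategory C]
    (hU : UnitQ C) {K : Type w} [Field K] (_ : SuperRealisation C K) (X : C) (m : ℕ)
    (f g : Fin m → (X ⟶ X)), DualBases hU f g →
    ∃ (Λ : Finset ℚ) (μ : ℚ → ℕ), (0 : ℚ) ∉ Λ ∧ (∀ l ∈ Λ, 0 < μ l) ∧ (∀ l ∈ Λ, |l| ≤ μ l) ∧
      (∀ P : Polynomial ℚ, NumZero hU (Polynomial.aeval (End.of (∑ i, f i ≫ g i)) P : End X) ↔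
        ∀ l ∈ Λ, P.eval l = 0) ∧
      (∀ P : Polynomial ℚ, ctr hU (Polynomial.aeval (End.of (∑ i, f i ≫ g i)) P : End X) =
        ∑ l ∈ Λ, (if 0 < l then 1 else -1) * (μ l : ℚ) * P.eval l) ∧
      IsIdx hU X (∑ l ∈ Λ, μ l) ∧
      (∀ h : X ⟶ X, NumZero hU ((∑ i, f i ≫ g i) ≫ h - h ≫ ∑ i, f i ≫ g i)) ∧
      ∀ y : X ⟶ X, NumZero hU (y ≫ y - y) → ¬ NumZero hU y →
        0 < ctr hU ((∑ i, f i ≫ g i) ≫ y)

/-- **Piece DUAL** (file `Pool/Agent/H64ND/Dual.lean`, `theorem t_DUAL : S_DUAL.{u, v, w}`): dual bases modulo numerical equivalence exist.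

Proof. `rank_le` (`Pool/Agent/H64NC/Asm.lean`) bounds the number of numerically independent endomorphisms by the square of the parity index (`exists_index hU R` gives the parity index; `IsIdx hU X (ρ X)`).
So the quotient `Q` of the `ℚ`-vector space `X ⟶ X` by the subspace of the numerically trivial `f` is finite dimensional, and `(f, g) ↦ ctr (f ≫ g)` is a symmetric (`ctr_comm R hU`) nondegenerate bilinear form on `Q`; take a basis and
its dual basis (`LinearMap.BilinForm.dualBasis`), lift both. Alternatively: take a maximal independent family `f` (of maximal length `m`), the Gram matrix `ctr (f i ≫ f j)` is invertible, `g` from the inverse matrix. -/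
def S_DUAL : Prop :=
  ∀ {C : Type u} [Category.{v} C] [Preadditive C] [Linear ℚ C] [MonoidalCategory C]
    [MonoidalPreadditive C] [MonoidalLinear ℚ C] [SymmetricCategory C] [RightRigidCategory C]
    (hU : UnitQ C) {K : Type w} [Field K] (_ : SuperRealisation C K) (X : C),
    ∃ (m : ℕ) (f g : Fin m → (X ⟶ X)), DualBases hU f g

end Pool.Agent.H64ND
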