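import Pool.Agent.H64ND.Full
import Pool.Agent.H64ND.Stm4

/-!
# The Casimir criterion
-/

set_option autoImplicit false
set_option linter.unusedSectionVars false

open CategoryTheory Limits MonoidalCategory Polynomial
open Pool.Agent.Y112.SR Pool.Agent.Y112.KD Pool.Agent.Y112.SC Pool.Agent.R484.NC Pool.Agent.H64NC

namespace Pool.Agent.H64ND

universe u v w

section poly

/-- the monic polynomial with simple roots `A` -/
noncomputable def PS (A : Finset ℚ) : ℚ[X] := ∏ l ∈ A, (X - C l)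

lemma PS_dvd_iff (A : Finset ℚ) (P : ℚ[X]) : PS A ∣ P ↔ ∀ l ∈ A, P.eval l = 0 := by
  constructor
  · rintro h l hl
    have h1 : (X - C l) ∣ P := (Finset.dvd_prod_of_mem (fun l => (X - C l : ℚ[X])) hl).trans h
    exact Polynomial.dvd_iff_isRoot.1 h1
  · intro h
    refine Finset.prod_dvd_of_coprime ?_ fun l hl => Polynomial.dvd_iff_isRoot.2 (h l hl)
    intro a _ b _ hab
    exact Polynomial.pairwise_coprime_X_sub_C (Function.injective_id (α := ℚ)) hab

lemma PS_coprime {A B : Finset ℚ} (h : ∀ a ∈ A, ∀ b ∈ B, a ≠ b) : IsCoprime (PS A) (PS B) := by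
  refine IsCoprime.prod_left fun a ha => IsCoprime.prod_right fun b hb => ?_
  exact Polynomial.isCoprime_X_sub_C_of_isUnit_sub ((sub_ne_zero.2 (h a ha b hb)).isUnit)

end poly

section lin

variable {K : Type w} [Field K] {V : Type w} [AddCommGroup V] [Module K V] [Module.Finite K V]

lemma pow_fin {a p : Module.End K V} (hp : p * p = p) (hc : Commute a p) {N : ℕ}
    (h : a ^ N * p = 0) : a ^ Module.finrank K V * p = 0 := by
  rcases Nat.eq_zero_or_pos (Module.finrank K V) with h0 | h0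
  · have : Subsingleton V := Module.finrank_zero_iff.1 h0
    exact LinearMap.ext fun x => Subsingleton.elim _ _
  · have e : ∀ k, 1 ≤ k → (a * p) ^ k = a ^ k * p := by
      intro k hk
      obtain ⟨k, rfl⟩ := Nat.exists_eq_add_of_le' hk
      rw [hc.mul_pow, Pool.Agent.H578R3.Sgn.idem_pow hp]
    have h1 : (a * p) ^ (N + Module.finrank K V) = 0 := by
      rw [e _ (by omega), add_comm, pow_add, mul_assoc, h, mul_zero]
    have h2 := Module.End.ker_pow_eq_ker_pow_finrank_of_le (f := a * p)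
      (m := N + Module.finrank K V) (by omega)
    rw [h1, LinearMap.ker_zero] at h2
    have h3 := LinearMap.ker_eq_top.1 h2.symm
    rw [← e _ h0, h3]

end lin

section

variable {C : Type u} [Category.{v} C] [Preadditive C] [Linear ℚ C] [MonoidalCategory C]
  [MonoidalPreadditive C] [MonoidalLinear ℚ C] [SymmetricCategory C] [RightRigidCategory C]
  {hU : UnitQ C} {K : Type w} [Field K] (R : SuperRealisation C K)

/-- polynomials in an endomorphism, as operators -/
noncomputable def phi {M : C} (T : M ⟶ M) : ℚ[X] →+* Module.End K (R.H.obj M) :=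
  (opHom R M).comp (aeval (End.of T) : ℚ[X] →ₐ[ℚ] End M).toRingHom

lemma phi_apply {M : C} (T : M ⟶ M) (P : ℚ[X]) :
    phi R T P = op R ((aeval (End.of T) P : End M) : M ⟶ M) := rfl

lemma phi_comm {M : C} (T : M ⟶ M) (P : ℚ[X]) : Commute (phi R T P) (evp R M) := op_comm R _

/-- the part of the realisation where the parity operator is `ε` is killed by `z` -/
def KillsPart {M : C} (z : M ⟶ M) (ε : ℤ) : Prop :=
  ∀ x : R.H.obj M, (R.par M).hom x = (ε : K) • x → (R.H.map z).hom x = 0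

lemma kills_even {M : C} (z : M ⟶ M) : KillsPart R z 1 ↔ op R z * evp R M = 0 := by
  have hc := R_charZero R
  have h2 : (2 : K) ≠ 0 := two_ne_zero
  constructor
  · intro h
    refine LinearMap.ext fun x => ?_
    refine h (evp R M x) ?_
    rw [par_hom]
    have e1 : evp R M (evp R M x) = evp R M x := LinearMap.congr_fun (evp_idem R M) x
    show evp R M (evp R M x) - (evp R M x - evp R M (evp R M x)) = _
    rw [e1]
    simp
  · intro h x hx
    rw [par_hom] at hx
    have hx' : evp R M x - (x - evp R M x) = ((1 : ℤ) : K) • x := hx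
    have h3 : evp R M x = x := by
      have h4 : (2 : K) • evp R M x = (2 : K) • x := by
        rw [two_smul, two_smul]
        have h5 : evp R M x - (x - evp R M x) = x := by simpa using hx'
        have h6 : evp R M x + evp R M x = (evp R M x - (x - evp R M x)) + x := by abel
        rw [h6, h5]
      exact smul_right_injective _ h2 h4
    have h4 := LinearMap.congr_fun h x
    rw [Module.End.mul_apply, h3] at h4
    exact h4

lemma kills_odd {M : C} (z : M ⟶ M) : KillsPart R z (-1) ↔ op R z * (1 - evp R M) = 0 := by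
  have hc := R_charZero R
  have h2 : (2 : K) ≠ 0 := two_ne_zero
  constructor
  · intro h
    refine LinearMap.ext fun x => ?_
    refine h ((1 - evp R M) x) ?_
    rw [par_hom]
    have e1 : evp R M (evp R M x) = evp R M x := LinearMap.congr_fun (evp_idem R M) x
    show evp R M (x - evp R M x) - ((x - evp R M x) - evp R M (x - evp R M x)) =
      ((-1 : ℤ) : K) • (x - evp R M x)
    rw [map_sub, e1]
    simp
  · intro h x hx
    rw [par_hom] at hx
    have hx' : evp R M x - (x - evp R M x) = ((-1 : ℤ) : K) • x := hx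
    have h3 : evp R M x = 0 := by
      have h4 : (2 : K) • evp R M x = (2 : K) • (0 : R.H.obj M) := by
        rw [two_smul, smul_zero]
        have h5 : evp R M x - (x - evp R M x) = -x := by simpa using hx'
        have h6 : evp R M x + evp R M x = (evp R M x - (x - evp R M x)) + x := by abel
        rw [h6, h5, neg_add_cancel]
      exact smul_right_injective _ h2 h4
    have h4 := LinearMap.congr_fun h x
    rw [Module.End.mul_apply] at h4
    have h5 : (1 - evp R M) x = x := by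
      show x - evp R M x = x
      rw [h3, sub_zero]
    rw [h5] at h4
    exact h4

/-- On the part of `R(M)` where the parity operator is `ε`, the eigenvalues of `R(T)` are rational numbers `l` with `ε l > 0`. -/
def EigSign {M : C} (T : M ⟶ M) (ε : ℤ) : Prop :=
  ∃ (A : Finset ℚ) (k : ℕ), (∀ l ∈ A, 0 < ε * l) ∧
    KillsPart R (aeval (End.of T) ((∏ l ∈ A, (X - Polynomial.C l)) ^ k : ℚ[X]) : End M) ε

variable {R} in
lemma cplus_of_phi {M : C} {T : M ⟶ M} {E : ℚ[X]} (h1 : phi R T (1 - E) * evp R M = 0)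
    (h2 : phi R T E * (1 - evp R M) = 0) : phi R T E = evp R M := by
  rw [map_sub, map_one, sub_mul, one_mul, sub_eq_zero] at h1
  rw [mul_sub, mul_one, sub_eq_zero] at h2
  rw [h2, ← h1]

/-- (iii) ⇒ (i) -/
theorem cplus_of_eig {M : C} {T : M ⟶ M} (h1 : EigSign R T 1) (h2 : EigSign R T (-1)) :
    R.CPlus M := by
  obtain ⟨A, k, hA, hk⟩ := h1
  obtain ⟨B, m, hB, hm⟩ := h2
  rw [kills_even] at hk
  rw [kills_odd] at hm
  have hcop : IsCoprime (PS A ^ k) (PS B ^ m) := by
    refine (PS_coprime fun a ha b hb hab => ?_).pow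
    have h3 := hA a ha
    have h4 := hB b hb
    rw [hab] at h3
    push_cast at h3 h4
    linarith
  obtain ⟨s, t, hst⟩ := hcop
  rw [cplus_iff_op]
  refine ⟨((aeval (End.of T) (t * PS B ^ m) : End M) : M ⟶ M), ?_⟩
  rw [← phi_apply]
  apply cplus_of_phi
  · have e1 : 1 - t * PS B ^ m = s * PS A ^ k := by rw [← hst]; ring
    rw [e1, map_mul, mul_assoc]
    have : phi R T (PS A ^ k) * evp R M = 0 := hk
    rw [this, mul_zero]
  · rw [map_mul, mul_assoc]
    have : phi R T (PS B ^ m) * (1 - evp R M) = 0 := hm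
    rw [this, mul_zero]

/-- the data of the Casimir element -/
structure CasData (hU : UnitQ C) {M : C} (T : M ⟶ M) (A B : Finset ℚ) (μ : ℚ → ℕ) : Prop where
  pos : ∀ l ∈ A, 0 < l ∧ 0 < μ l ∧ l ≤ μ l
  neg : ∀ l ∈ B, l < 0 ∧ 0 < μ l ∧ -l ≤ μ l
  nz : ∀ P : ℚ[X], NumZero hU (aeval (End.of T) P : End M) ↔ ∀ l ∈ A ∪ B, P.eval l = 0
  tr : ∀ P : ℚ[X], ctr hU (aeval (End.of T) P : End M) =
    ∑ l ∈ A, (μ l : ℚ) * P.eval l - ∑ l ∈ B, (μ l : ℚ) * P.eval l
  idx : IsIdx hU M (∑ l ∈ A, μ l + ∑ l ∈ B, μ l)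

variable {R} in
/-- Under `C⁺` the even projector is a polynomial in the Casimir element. -/
theorem eig_of_cplus {M : C} {T : M ⟶ M} {A B : Finset ℚ} {μ : ℚ → ℕ}
    (h : CasData hU T A B μ) (hC : R.CPlus M)
    (hdim : totalDim R M = ∑ l ∈ A, μ l + ∑ l ∈ B, μ l) :
    phi R T (PS A) ^ totalDim R M * evp R M = 0 ∧
      phi R T (PS B) ^ totalDim R M * (1 - evp R M) = 0 := by
  classical
  have hK := R_charZero R
  have h0 := R.finite M
  have hdisj : ∀ a ∈ A, ∀ b ∈ B, a ≠ b := by
    intro a ha b hb hab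
    have h1 := (h.pos a ha).1
    have h2 := (h.neg b hb).1
    rw [hab] at h1
    linarith
  -- the interpolation polynomial
  set e : ℚ[X] := Lagrange.interpolate (A ∪ B) id (fun x => if 0 < x then (1 : ℚ) else 0) with he
  have hev : ∀ l ∈ A ∪ B, e.eval l = if 0 < l then (1 : ℚ) else 0 := fun l hl =>
    Lagrange.eval_interpolate_at_node (v := id) (r := fun x => if 0 < x then (1 : ℚ) else 0)
      (Set.injOn_id _) hl
  have heA : ∀ l ∈ A, e.eval l = 1 := fun l hl => by
    rw [hev l (Finset.mem_union_left _ hl), if_pos (h.pos l hl).1]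
  have heB : ∀ l ∈ B, e.eval l = 0 := fun l hl => by
    rw [hev l (Finset.mem_union_right _ hl), if_neg (not_lt.2 (h.neg l hl).1.le)]
  have hs : ∀ P : ℚ[X], LinearMap.trace K (R.H.obj M) ((evp R M - (1 - evp R M)) * phi R T P) =
      ((ctr hU (aeval (End.of T) P : End M) : ℚ) : K) := by
    intro P
    have h1 := ctr_eq R hU (M := M) ((aeval (End.of T) P : End M) : M ⟶ M)
    rw [str_eq] at h1
    exact h1.symm
  have hpow : ∀ r : ℕ, LinearMap.trace K (R.H.obj M)
      ((evp R M - (1 - evp R M)) * phi R T e ^ (r + 1)) = ((∑ l ∈ A, μ l : ℕ) : K) := by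
    intro r
    rw [← map_pow, hs, h.tr]
    have h1 : ∑ l ∈ A, (μ l : ℚ) * (e ^ (r + 1)).eval l = ∑ l ∈ A, (μ l : ℚ) :=
      Finset.sum_congr rfl fun l hl => by rw [eval_pow, heA l hl, one_pow, mul_one]
    have h2 : ∑ l ∈ B, (μ l : ℚ) * (e ^ (r + 1)).eval l = 0 :=
      Finset.sum_eq_zero fun l hl => by
        rw [eval_pow, heB l hl, zero_pow (Nat.succ_ne_zero r), mul_zero]
    rw [h1, h2, sub_zero]
    push_cast
    rfl
  obtain ⟨a, b, c, h1, h2, h3⟩ := Pool.Agent.H578R3.Sgn.main (evp_idem R M) (phi_comm R T e) hpow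
  -- `b = c = 0`
  have h4 : (∑ l ∈ A, μ l : ℕ) + b = a := by
    have : (((∑ l ∈ A, μ l : ℕ) + b : ℕ) : K) = (a : K) := by
      push_cast
      push_cast at h1
      rw [h1]; ring
    exact_mod_cast this
  have h5 : evenDim R M = a + c := by
    have h6 := trace_evp R M
    rw [h2] at h6
    exact_mod_cast h6.symm
  have h6 : (2 * evenDim R M : ℤ) - totalDim R M = ∑ l ∈ A, (μ l : ℤ) - ∑ l ∈ B, (μ l : ℤ) := by
    have h7 := ctr_one R hU M
    have h8 := h.tr 1
    have h9 : (aeval (End.of T) (1 : ℚ[X]) : End M) = (𝟙 M : M ⟶ M) := by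
      rw [map_one]; rfl
    rw [h9, h7] at h8
    simp only [eval_one, mul_one] at h8
    exact_mod_cast h8
  have h7 : b = 0 ∧ c = 0 := by
    have e1 : ((∑ l ∈ A, μ l : ℕ) : ℤ) = ∑ l ∈ A, (μ l : ℤ) := by push_cast; rfl
    have e2 : ((∑ l ∈ B, μ l : ℕ) : ℤ) = ∑ l ∈ B, (μ l : ℤ) := by push_cast; rfl
    rw [← e1, ← e2] at h6
    omega
  have hnil : IsNilpotent (phi R T (PS (A ∪ B))) :=
    nil_of_cplus_obj R hC _ ((h.nz _).2 fun l hl => (PS_dvd_iff (A ∪ B) _).1 dvd_rfl l hl)
  obtain ⟨n, hn⟩ := hnil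
  set N : ℕ := max (n + 1) (Module.finrank K (R.H.obj M)) with hN
  have h8 := h3 h7.1 h7.2 N (by omega) (by omega)
  have hnN : phi R T (PS (A ∪ B)) ^ N = 0 := by
    have : N = n + (N - n) := by omega
    rw [this, pow_add, hn, zero_mul]
  set E : ℚ[X] := 1 - (1 - e ^ N) ^ N with hE
  have h9 : phi R T E = evp R M := by
    rw [h8, hE]
    simp only [map_sub, map_one, map_pow]
  have hAB : PS (A ∪ B) = PS A * PS B := by
    rw [PS, PS, PS, Finset.prod_union]
    rw [Finset.disjoint_left]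
    intro x hx hx'
    exact hdisj x hx x hx' rfl
  have hBE : PS B ^ N ∣ E := by
    have h10 : PS B ^ N ∣ e ^ N := pow_dvd_pow_of_dvd ((PS_dvd_iff B e).2 heB) N
    have h11 : e ^ N ∣ E := by
      have h12 := sub_dvd_pow_sub_pow (1 : ℚ[X]) (1 - e ^ N) N
      rw [one_pow, sub_sub_cancel] at h12
      exact h12
    exact h10.trans h11
  have hAE : PS A ^ N ∣ 1 - E := by
    rw [hE, sub_sub_cancel]
    apply pow_dvd_pow_of_dvd
    rw [PS_dvd_iff]
    intro l hl
    rw [eval_sub, eval_pow, heA l hl]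
    simp
  have hz : ∀ P : ℚ[X], PS (A ∪ B) ^ N ∣ P → phi R T P = 0 := by
    rintro P ⟨Q, rfl⟩
    rw [map_mul, map_pow, hnN, zero_mul]
  constructor
  · have h10 : phi R T (PS A) ^ N * evp R M = 0 := by
      rw [← h9, ← map_pow, ← map_mul]
      apply hz
      rw [hAB, mul_pow]
      exact mul_dvd_mul_left _ hBE
    exact pow_fin (evp_idem R M) (phi_comm R T _) h10
  · have hq : (1 - evp R M) * (1 - evp R M) = 1 - evp R M := by
      rw [mul_sub, sub_mul, sub_mul, evp_idem]; simp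
    have h10 : phi R T (PS B) ^ N * (1 - evp R M) = 0 := by
      have h11 : 1 - evp R M = phi R T (1 - E) := by rw [map_sub, map_one, h9]
      rw [h11, ← map_pow, ← map_mul]
      apply hz
      rw [hAB, mul_pow, mul_comm (PS A ^ N)]
      exact mul_dvd_mul_left _ hAE
    exact pow_fin hq ((Commute.one_right _).sub_right (phi_comm R T _)) h10

/-- **The Casimir criterion.** -/
theorem cas_tfae {M : C} {T : M ⟶ M} {A B : Finset ℚ} {μ : ℚ → ℕ} (h : CasData hU T A B μ)
    {ρ β : C → ℕ} (hB : BD.{u, v, w} hU ρ β) :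
    [R.CPlus M, totalDim R M = ∑ l ∈ A, μ l + ∑ l ∈ B, μ l, EigSign R T 1 ∧ EigSign R T (-1),
      ∀ Q : ℚ[X], (∏ l ∈ A, (X - Polynomial.C l)) ^ totalDim R M ∣ Q - 1 →
        (∏ l ∈ B, (X - Polynomial.C l)) ^ totalDim R M ∣ Q + 1 →
        R.H.map ((aeval (End.of T) Q : End M) : M ⟶ M) = R.par M].TFAE := by
  have hK := R_charZero R
  have hrho := hB.uniq h.idx
  obtain ⟨-, -, -, -, -, c5⟩ := hB.cp M R
  tfae_have 1 ↔ 2 := by rw [c5, hrho]
  tfae_have 1 → 4 := by
    intro h1 Q hQ1 hQ2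
    obtain ⟨h2, h3⟩ := eig_of_cplus h h1 (by rw [c5.1 h1, hrho])
    obtain ⟨a, ha⟩ := hQ1
    obtain ⟨b, hb⟩ := hQ2
    have e1 : (phi R T Q - 1) * evp R M = 0 := by
      have : phi R T Q - 1 = phi R T (a * PS A ^ totalDim R M) := by
        rw [← map_one (phi R T), ← map_sub, ha, mul_comm]
        rfl
      rw [this, map_mul, map_pow, mul_assoc, h2, mul_zero]
    have e2 : (phi R T Q + 1) * (1 - evp R M) = 0 := by
      have : phi R T Q + 1 = phi R T (b * PS B ^ totalDim R M) := by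
        rw [← map_one (phi R T), ← map_add, hb, mul_comm]
        rfl
      rw [this, map_mul, map_pow, mul_assoc, h3, mul_zero]
    have e3 : phi R T Q = evp R M - (1 - evp R M) := by
      rw [sub_mul, one_mul, sub_eq_zero] at e1
      rw [add_mul, one_mul] at e2
      have e4 : phi R T Q = phi R T Q * evp R M + phi R T Q * (1 - evp R M) := by
        rw [← mul_add, add_sub_cancel, mul_one]
      rw [e4, e1, eq_neg_of_add_eq_zero_left e2]
      abel
    have e4 : (R.H.map ((aeval (End.of T) Q : End M) : M ⟶ M)).hom = (R.par M).hom := by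
      rw [par_hom]
      exact e3
    exact ModuleCat.hom_ext e4
  tfae_have 1 → 3 := by
    intro h1
    obtain ⟨h2, h3⟩ := eig_of_cplus h h1 (by rw [c5.1 h1, hrho])
    refine ⟨⟨A, totalDim R M, fun l hl => ?_, ?_⟩, ⟨B, totalDim R M, fun l hl => ?_, ?_⟩⟩
    · have := (h.pos l hl).1
      push_cast
      linarith
    · rw [kills_even]
      have := phi_apply R T (PS A ^ totalDim R M)
      rw [map_pow] at this
      rw [this] at h2
      exact h2
    · have := (h.neg l hl).1
      push_cast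
      linarith
    · rw [kills_odd]
      have := phi_apply R T (PS B ^ totalDim R M)
      rw [map_pow] at this
      rw [this] at h3
      exact h3
  tfae_have 3 → 1 := fun h1 => cplus_of_eig R h1.1 h1.2
  tfae_have 4 → 1 := by
    intro h1
    have hcop : IsCoprime (PS A ^ totalDim R M) (PS B ^ totalDim R M) := by
      refine (PS_coprime fun a ha b hb hab => ?_).pow
      have h3 := (h.pos a ha).1
      have h4 := (h.neg b hb).1
      rw [hab] at h3
      linarith
    obtain ⟨s, t, hst⟩ := hcop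
    have h2 := h1 (1 - 2 * (s * PS A ^ totalDim R M)) ⟨-2 * s, by
        show _ = PS A ^ totalDim R M * _
        ring⟩ ⟨2 * t, by
        show _ = PS B ^ totalDim R M * _
        linear_combination (-2) * hst⟩
    rw [cplus_iff_op]
    have h3 : op R ((aeval (End.of T) (1 - 2 * (s * PS A ^ totalDim R M)) : End M) : M ⟶ M) =
        evp R M - (1 - evp R M) := by
      rw [← par_hom, ← h2]
      rfl
    set q : M ⟶ M := (aeval (End.of T) (1 - 2 * (s * PS A ^ totalDim R M)) : End M) with hq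
    refine ⟨(1 / 2 : ℚ) • (𝟙 M + q), ?_⟩
    rw [Pool.Agent.R484.NC.op_smul, Pool.Agent.R484.NC.op_add, h3, Pool.Agent.R484.NC.op_id]
    have e1 : (1 : Module.End K (R.H.obj M)) + (evp R M - (1 - evp R M)) =
        (2 : K) • evp R M := by
      rw [two_smul]; abel
    rw [e1, smul_smul]
    push_cast
    norm_num
  tfae_finish

include R in
/-- many numerically independent endomorphisms -/
theorem cas_rank {M : C} {T : M ⟶ M} {A B : Finset ℚ} {μ : ℚ → ℕ} (h : CasData hU T A B μ)
    {ρ β : C → ℕ} (hB : BD.{u, v, w} hU ρ β) {m : ℕ} (hm : ctr hU T = m) :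
    m ≤ (∑ l ∈ A, μ l) ^ 2 + (∑ l ∈ B, μ l) ^ 2 ∧
      ((evenDim R M - 1) ^ 2 + (totalDim R M - evenDim R M - 1) ^ 2 < m → R.CPlus M) := by
  have hrho := hB.uniq h.idx
  obtain ⟨-, -, -, c3, c4, c5⟩ := hB.cp M R
  have h1 : ctr hU T = ∑ l ∈ A, (μ l : ℚ) * l - ∑ l ∈ B, (μ l : ℚ) * l := by
    have h2 := h.tr X
    simp only [aeval_X, eval_X] at h2
    exact h2
  have h2 : (m : ℚ) ≤ ((∑ l ∈ A, μ l) ^ 2 + (∑ l ∈ B, μ l) ^ 2 : ℕ) := by
    rw [← hm, h1]
    have e1 : ∑ l ∈ A, (μ l : ℚ) * l ≤ (∑ l ∈ A, (μ l : ℚ)) ^ 2 := by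
      rw [sq, Finset.sum_mul]
      refine Finset.sum_le_sum fun l hl => ?_
      refine mul_le_mul_of_nonneg_left ?_ (by positivity)
      exact (h.pos l hl).2.2.trans
        (Finset.single_le_sum (f := fun l => (μ l : ℚ)) (fun i _ => by positivity) hl)
    have e2 : -∑ l ∈ B, (μ l : ℚ) * l ≤ (∑ l ∈ B, (μ l : ℚ)) ^ 2 := by
      rw [sq, Finset.sum_mul, ← Finset.sum_neg_distrib]
      refine Finset.sum_le_sum fun l hl => ?_
      rw [← mul_neg]
      refine mul_le_mul_of_nonneg_left ?_ (by positivity)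
      exact (h.neg l hl).2.2.trans
        (Finset.single_le_sum (f := fun l => (μ l : ℚ)) (fun i _ => by positivity) hl)
    push_cast
    linarith
  have h3 : m ≤ (∑ l ∈ A, μ l) ^ 2 + (∑ l ∈ B, μ l) ^ 2 := by exact_mod_cast h2
  refine ⟨h3, fun h4 => ?_⟩
  rw [c5]
  by_contra hne
  have h6 : (2 * evenDim R M : ℤ) - totalDim R M = ∑ l ∈ A, (μ l : ℤ) - ∑ l ∈ B, (μ l : ℤ) := by
    have h7 := ctr_one R hU M
    have h8 := h.tr 1
    have h9 : (aeval (End.of T) (1 : ℚ[X]) : End M) = (𝟙 M : M ⟶ M) := by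
      rw [map_one]; rfl
    rw [h9, h7] at h8
    simp only [eval_one, mul_one] at h8
    exact_mod_cast h8
  have e1 : ((∑ l ∈ A, μ l : ℕ) : ℤ) = ∑ l ∈ A, (μ l : ℤ) := by push_cast; rfl
  have e2 : ((∑ l ∈ B, μ l : ℕ) : ℤ) = ∑ l ∈ B, (μ l : ℤ) := by push_cast; rfl
  rw [← e1, ← e2] at h6
  obtain ⟨x, hx⟩ := c3
  have h7 : ∑ l ∈ A, μ l ≤ evenDim R M - 1 := by omega
  have h8 : ∑ l ∈ B, μ l ≤ totalDim R M - evenDim R M - 1 := by omega
  have h9 := Nat.pow_le_pow_left h7 2
  have h10 := Nat.pow_le_pow_left h8 2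
  omega

end

end Pool.Agent.H64ND
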