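import Pool.Agent.H64ND.Cfin

/-!
# The Casimir criterion, assembly
-/

set_option autoImplicit false
set_option linter.unusedSectionVars false

open CategoryTheory Limits MonoidalCategory Polynomial
open Pool.Agent.Y112.SR Pool.Agent.Y112.KD Pool.Agent.Y112.SC Pool.Agent.R484.NC Pool.Agent.H64NC

namespace Pool.Agent.H64ND

universe u v w

section

variable {C : Type u} [Category.{v} C] [Preadditive C] [Linear ℚ C] [MonoidalCategory C]
  [MonoidalPreadditive C] [MonoidalLinear ℚ C] [SymmetricCategory C] [RightRigidCategory C]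
  {hU : UnitQ C} {K : Type w} [Field K] (R : SuperRealisation C K)

lemma ctr_sum {M : C} {ι : Type} (s : Finset ι) (f : ι → (M ⟶ M)) :
    ctr hU (∑ i ∈ s, f i) = ∑ i ∈ s, ctr hU (f i) := map_sum (trq hU M) f s

include R in
theorem casData (hC2 : S_CAS2.{u, v, w}) {M : C} {m : ℕ} {f g : Fin m → (M ⟶ M)}
    (hd : DualBases hU f g) :
    ctr hU (∑ i, f i ≫ g i) = m ∧
    (∀ h : M ⟶ M, NumZero hU ((∑ i, f i ≫ g i) ≫ h - h ≫ ∑ i, f i ≫ g i)) ∧
    ∃ (A B : Finset ℚ) (μ : ℚ → ℕ), CasData hU (∑ i, f i ≫ g i) A B μ := by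
  classical
  obtain ⟨Λ, μ, h0, hpos, hle, hnz, htr, hidx, hcen, -⟩ := hC2 hU R M m f g hd
  refine ⟨?_, hcen, Λ.filter (fun l => 0 < l), Λ.filter (fun l => ¬ 0 < l), μ, ?_⟩
  · rw [ctr_sum]
    have h1 : ∀ i ∈ (Finset.univ : Finset (Fin m)), ctr hU (f i ≫ g i) = 1 := fun i _ => by
      rw [hd.1, if_pos rfl]
    rw [Finset.sum_congr rfl h1]
    simp
  · refine ⟨fun l hl => ?_, fun l hl => ?_, fun P => ?_, fun P => ?_, ?_⟩
    · rw [Finset.mem_filter] at hl
      exact ⟨hl.2, hpos l hl.1, (le_abs_self l).trans (hle l hl.1)⟩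
    · rw [Finset.mem_filter] at hl
      have h1 : l ≠ 0 := fun h => h0 (h ▸ hl.1)
      exact ⟨lt_of_le_of_ne (not_lt.1 hl.2) h1, hpos l hl.1, (neg_le_abs l).trans (hle l hl.1)⟩
    · rw [hnz P, Finset.filter_union_filter_not_eq]
    · rw [htr P, ← Finset.sum_filter_add_sum_filter_not Λ (fun l => 0 < l), sub_eq_add_neg,
        ← Finset.sum_neg_distrib]
      congr 1
      · refine Finset.sum_congr rfl fun l hl => ?_
        rw [Finset.mem_filter] at hl
        rw [if_pos hl.2, one_mul]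
      · refine Finset.sum_congr rfl fun l hl => ?_
        rw [Finset.mem_filter] at hl
        rw [if_neg hl.2]
        ring
    · rw [Finset.sum_filter_add_sum_filter_not]
      exact hidx

end

end Pool.Agent.H64ND
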