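import Pool.Agent.H64ND.Stm2

/-! # Project ND: piece CNUM -/

set_option autoImplicit false

open CategoryTheory Limits MonoidalCategory
open Pool.Agent.Y112.SR Pool.Agent.Y112.KD Pool.Agent.Y112.SC Pool.Agent.R484.NC Pool.Agent.H64NC

namespace Pool.Agent.H64ND

universe u v w

theorem t_CNUM : S_CNUM.{u, v, w} := by
  intro C _ _ _ _ _ _ _ _ hU K _ R
  have hc := R_charZero R
  have key : ∀ (X Y : C) (f : X ⟶ X) (g : Y ⟶ Y), NumZero hU f → NumZero hU (f ⊗ₘ g) := by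
    intro X Y f g hf h
    have e1 : (f ⊗ₘ g) ≫ h = f ▷ Y ≫ (X ◁ g ≫ h) := by
      rw [MonoidalCategory.tensorHom_def, Category.assoc]
    rw [e1]
    have e2 : ctr hU (f ▷ Y ≫ (X ◁ g ≫ h)) = ctr hU (ptr (f ▷ Y ≫ (X ◁ g ≫ h)) : X ⟶ X) :=
      (trq_ptr R hU _).symm
    rw [e2, ptr_comp_left]
    exact hf _
  refine ⟨fun X Y f g hf => ⟨key X Y f g hf, ?_⟩, ?_, ?_, ?_, ?_, ?_⟩
  · intro h
    have e1 : (g ⊗ₘ f) = (β_ Y X).hom ≫ (f ⊗ₘ g) ≫ (β_ Y X).inv := by
      rw [← BraidedCategory.braiding_naturality_assoc, Iso.hom_inv_id, Category.comp_id]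
    rw [e1, Category.assoc, Category.assoc, ctr_comm R]
    simp only [Category.assoc]
    exact key X Y f g hf _
  · intro X Y z hz g
    have e1 : (ptr z : X ⟶ X) ≫ g = ptr (z ≫ g ▷ Y) := (ptr_comp_right g z).symm
    rw [e1]
    have e2 : ctr hU (ptr (z ≫ g ▷ Y) : X ⟶ X) = ctr hU (z ≫ g ▷ Y) := trq_ptr R hU _
    rw [e2]
    exact hz _
  · intro X f g hfg hf h
    have e1 : ((ctr hU (g ≫ h) : ℚ) : K) = ((ctr hU (f ≫ h) : ℚ) : K) := by
      rw [ctr_eq R, ctr_eq R, str_eq, str_eq, Pool.Agent.R484.NC.op_comp,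
        Pool.Agent.R484.NC.op_comp, hfg]
    have e2 : ctr hU (g ≫ h) = ctr hU (f ≫ h) := by exact_mod_cast e1
    rw [e2]
    exact hf h
  · intro X f g hf hg h
    rw [Preadditive.add_comp, ctr_add, hf h, hg h, add_zero]
  · intro X c f hf h
    rw [Linear.smul_comp, ctr_smul, hf h, mul_zero]
  · intro X f g hf
    refine ⟨fun h => ?_, fun h => ?_⟩
    · rw [Category.assoc]
      exact hf _
    · rw [Category.assoc, ctr_comm R, Category.assoc]
      exact hf _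

end Pool.Agent.H64ND
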