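import Pool.Agent.H64ND.Full

/-!
# `C⁺(M ⊗ N)` implies `C⁺(M)` and `C⁺(N)`
-/

set_option autoImplicit false
set_option linter.unusedSectionVars false

open CategoryTheory Limits MonoidalCategory Filter Topology
open Pool.Agent.Y112.SR Pool.Agent.Y112.KD Pool.Agent.Y112.SC Pool.Agent.R484.NC Pool.Agent.H64NC

namespace Pool.Agent.H64ND

universe u v w

variable {C : Type u} [Category.{v} C] [Preadditive C] [Linear ℚ C] [MonoidalCategory C]
  [MonoidalPreadditive C] [MonoidalLinear ℚ C] [SymmetricCategory C] [RightRigidCategory C]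
  {hU : UnitQ C} {K₀ : Type w} [Field K₀] (R₀ : SuperRealisation C K₀) {ρ β : C → ℕ}
  (h : BD.{u, v, w} hU ρ β)

include R₀ h in
theorem BD.cplus_tensor {K : Type w} [Field K] (R : SuperRealisation C K) {M N : C}
    (hM : totalDim R M ≠ 0) (hN : totalDim R N ≠ 0) :
    R.CPlus (M ⊗ N) ↔ R.CPlus M ∧ R.CPlus N := by
  obtain ⟨hbM, -, -, -, hrM, hcM⟩ := h.cp M R
  obtain ⟨hbN, -, -, -, hrN, hcN⟩ := h.cp N R
  obtain ⟨hbT, -, -, -, hrT, hcT⟩ := h.cp (M ⊗ N) R
  have hd : totalDim R (M ⊗ N) = totalDim R M * totalDim R N := totalDim_tensor R M N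
  rw [hcM, hcN, hcT, hd]
  constructor
  · intro he
    have h1 : ρ (M ⊗ N) ≤ β (M ⊗ N) := h.le R₀ (M ⊗ N)
    rw [h.bmul] at h1
    have hpos : 0 < totalDim R M * totalDim R N :=
      Nat.mul_pos (Nat.pos_of_ne_zero hM) (Nat.pos_of_ne_zero hN)
    have hb1 : β M = totalDim R M := by
      refine le_antisymm hbM (not_lt.1 fun hlt => ?_)
      have h2 : β M * β N < totalDim R M * totalDim R N :=
        (Nat.mul_le_mul_left _ hbN).trans_lt
          (Nat.mul_lt_mul_of_pos_right hlt (Nat.pos_of_ne_zero hN))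
      omega
    have hb2 : β N = totalDim R N := by
      refine le_antisymm hbN (not_lt.1 fun hlt => ?_)
      have h2 : β M * β N < totalDim R M * totalDim R N :=
        (Nat.mul_le_mul_right _ hbM).trans_lt
          (Nat.mul_lt_mul_of_pos_left hlt (Nat.pos_of_ne_zero hM))
      omega
    have hne : ¬ NumZero hU (𝟙 (M ⊗ N)) := by
      intro h0
      have h3 := (h.bzero (M ⊗ N)).2 h0
      rw [h.bmul] at h3
      omega
    have hs : NumSign hU (M ⊗ N) := by
      rw [h.numSign_iff R₀, h.bmul, hb1, hb2]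
      exact he.symm
    obtain ⟨s1, s2⟩ := (h.tensor_iff R₀ hne).1 hs
    rw [h.numSign_iff R₀] at s1 s2
    exact ⟨by omega, by omega⟩
  · rintro ⟨e1, e2⟩
    have h1 := h.mul M N
    rw [← e1, ← e2] at h1
    rw [hd] at hrT
    omega

end Pool.Agent.H64ND
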