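import Pool.Agent.H64ND.Cpt

/-! # Project ND: piece CPERM -/

set_option autoImplicit false

open CategoryTheory Limits MonoidalCategory
open Pool.Agent.Y112.SR Pool.Agent.Y112.KD Pool.Agent.Y112.SC Pool.Agent.R484.NC Pool.Agent.H64NC

namespace Pool.Agent.H64ND

universe u v w

theorem t_CPERM : S_SGN → S_CPERM.{u, v, w} := by
  intro hS C _ _ _ _ _ _ _ _ K _ R M D v η hv n σ
  have hc := R_charZero R
  have hone : ∀ m : ℕ, Rp R v η (1 : Equiv.Perm (Fin m)) (𝟙 (tp M m)) := by
    intro m I
    have h2 : sgnW (η ∘ I) (1 : Equiv.Perm (Fin m)) = 1 := by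
      have h3 := hS.1 m (η ∘ I) 1 1
      rw [mul_one] at h3
      have h4 : (η ∘ I) ∘ ((1 : Equiv.Perm (Fin m)) : Fin m → Fin m) = η ∘ I := rfl
      rw [h4] at h3
      rcases hS.2.2.2.2.2 m (η ∘ I) 1 with h5 | h5
      · exact h5
      · rw [h5] at h3
        norm_num at h3
    rw [h2, Rat.cast_one, one_smul, Pool.Agent.R484.NC.op_id]
    rfl
  have hswap : ∀ (m : ℕ) (i : Fin m), ∃ s : tp M (m + 1) ⟶ tp M (m + 1),
      Rp R v η (Equiv.swap i.castSucc i.succ) s := by
    intro m
    induction m with
    | zero => exact fun i => i.elim0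
    | succ m ih =>
      intro i
      refine Fin.lastCases ?_ (fun j => ?_) i
      · refine ⟨sw (tp M m) M, ?_⟩
        have h1 := CPT.Rp_sw R hS hv m
        rw [tr] at h1
        rw [Fin.succ_last]
        exact h1
      · obtain ⟨s, hs⟩ := ih j
        refine ⟨s ▷ M, ?_⟩
        have h1 := CPT.Rp_lift R hS hs
        have h2 : exA (m + 1) 1 (Equiv.swap j.castSucc j.succ) =
            Equiv.swap (j.castSucc).castSucc (j.castSucc).succ := by
          apply Equiv.ext
          intro k
          refine Fin.lastCases ?_ (fun l => ?_) k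
          · have h3 := exA_natAdd (m + 1) 1 (Equiv.swap j.castSucc j.succ) 0
            have h4 : (Fin.natAdd (m + 1) (0 : Fin 1)) = Fin.last (m + 1) := rfl
            rw [h4] at h3
            rw [h3, ← Fin.castSucc_succ, Equiv.swap_apply_of_ne_of_ne]
            · exact (Fin.castSucc_lt_last _).ne'
            · exact (Fin.castSucc_lt_last _).ne'
          · have h3 := exA_castAdd (m + 1) 1 (Equiv.swap j.castSucc j.succ) l
            have h4 : (Fin.castAdd 1 l) = l.castSucc := rfl
            rw [h4] at h3
            rw [h3]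
            have h5 : Fin.castAdd 1 (Equiv.swap j.castSucc j.succ l) =
              (Equiv.swap j.castSucc j.succ l).castSucc := rfl
            rw [h5, ← Fin.castSucc_succ]
            by_cases h6 : l = j.castSucc
            · rw [h6, Equiv.swap_apply_left, Equiv.swap_apply_left]
            · by_cases h7 : l = j.succ
              · rw [h7, Equiv.swap_apply_right, Equiv.swap_apply_right]
              · rw [Equiv.swap_apply_of_ne_of_ne h6 h7, Equiv.swap_apply_of_ne_of_ne]
                · exact fun h => h6 (Fin.castSucc_injective _ h)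
                · exact fun h => h7 (Fin.castSucc_injective _ h)
        rw [h2] at h1
        exact h1
  cases n with
  | zero =>
    rw [Subsingleton.elim σ 1]
    exact ⟨_, hone 0⟩
  | succ n =>
    let S : Submonoid (Equiv.Perm (Fin (n + 1))) :=
      { carrier := {σ | ∃ s : tp M (n + 1) ⟶ tp M (n + 1), Rp R v η σ s}
        mul_mem' := by
          rintro σ τ ⟨s, hs⟩ ⟨t, ht⟩
          exact ⟨s ≫ t, CPT.Rp_mul R hS hs ht⟩
        one_mem' := ⟨_, hone (n + 1)⟩ }
    have h1 : Submonoid.closure (Set.range fun i : Fin n => Equiv.swap i.castSucc i.succ) ≤ S := by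
      rw [Submonoid.closure_le]
      rintro _ ⟨i, rfl⟩
      exact hswap n i
    rw [Equiv.Perm.mclosure_swap_castSucc_succ] at h1
    exact h1 (Submonoid.mem_top σ)

end Pool.Agent.H64ND
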