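import Pool.Agent.H64ND.Stm2

/-!
# Project ND: the piece CPT (helper41), the partial trace of the last factor
-/

set_option autoImplicit false
set_option linter.unusedSectionVars false
set_option linter.unusedSimpArgs false
set_option backward.isDefEq.respectTransparency false
set_option backward.defeqAttrib.useBackward true

open CategoryTheory Limits MonoidalCategory
open Pool.Agent.Y112.SR Pool.Agent.Y112.KD Pool.Agent.Y112.SC Pool.Agent.R484.NC Pool.Agent.H64NC
open scoped TensorProduct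

namespace Pool.Agent.H64ND.CPT

universe u v w

/-- the conjugation of a transposition -/
lemma tr_conj (m : ℕ) (i : Fin (m + 1)) (τ : Equiv.Perm (Fin (m + 1))) :
    exA (m + 1) 1 τ * tr (m + 1) i =
      exA (m + 1) 1 (τ * Equiv.swap i (Fin.last m)) * tr (m + 1) (Fin.last m) *
        exA (m + 1) 1 (Equiv.swap i (Fin.last m)) := by
  have h1 : exA (m + 1) 1 (Equiv.swap i (Fin.last m)) *
      exA (m + 1) 1 (Equiv.swap i (Fin.last m)) = 1 := by
    rw [← map_mul, Equiv.swap_mul_self, map_one]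
  have h2 : (exA (m + 1) 1 (Equiv.swap i (Fin.last m)))⁻¹ =
      exA (m + 1) 1 (Equiv.swap i (Fin.last m)) := inv_eq_of_mul_eq_one_left h1
  have h3 : exA (m + 1) 1 (Equiv.swap i (Fin.last m)) (Fin.last m).castSucc = i.castSucc := by
    have h := exA_castAdd (m + 1) 1 (Equiv.swap i (Fin.last m)) (Fin.last m)
    rw [Equiv.swap_apply_right] at h
    exact h
  have h4 : exA (m + 1) 1 (Equiv.swap i (Fin.last m)) (Fin.last (m + 1)) = Fin.last (m + 1) :=
    exA_natAdd (m + 1) 1 (Equiv.swap i (Fin.last m)) 0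
  have h5 : tr (m + 1) i = exA (m + 1) 1 (Equiv.swap i (Fin.last m)) *
      tr (m + 1) (Fin.last m) * (exA (m + 1) 1 (Equiv.swap i (Fin.last m)))⁻¹ := by
    rw [tr, tr, ← Equiv.swap_apply_apply, h3, h4]
  rw [map_mul, mul_assoc (exA (m + 1) 1 τ), mul_assoc (exA (m + 1) 1 τ)]
  conv_lhs => rw [h5, h2]

section

variable {C : Type u} [Category.{v} C] [Preadditive C] [Linear ℚ C] [MonoidalCategory C]
  [MonoidalPreadditive C] [MonoidalLinear ℚ C] [SymmetricCategory C] [RightRigidCategory C]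
  {K : Type w} [Field K] (R : SuperRealisation C K) {M : C} {D : ℕ}

/-- the realisation of a partial trace depends only on the realisation -/
lemma op_ptr_congr {Q X : C} {s t : Q ⊗ X ⟶ Q ⊗ X} (h : op R s = op R t) :
    op R (ptr s) = op R (ptr t) := by
  have h1 : R.H.map s = R.H.map t := ModuleCat.hom_ext h
  show (R.H.map (ptr s)).hom = (R.H.map (ptr t)).hom
  rw [← PT_map, ← PT_map, h1]

variable {v : Module.Basis (Fin D) K (R.H.obj M)} {η : Fin D → Bool}

lemma Rp_op_eq {n : ℕ} {σ : Equiv.Perm (Fin n)} {s t : tp M n ⟶ tp M n}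
    (hs : Rp R v η σ s) (ht : Rp R v η σ t) : op R s = op R t :=
  (Perm.bs R v n).ext fun I => by rw [hs I, ht I]

lemma Rp_mul (hS : S_SGN) {n : ℕ} {σ τ : Equiv.Perm (Fin n)} {s t : tp M n ⟶ tp M n}
    (hs : Rp R v η σ s) (ht : Rp R v η τ t) : Rp R v η (σ * τ) (s ≫ t) := by
  intro I
  have hc := R_charZero R
  have h3 : I ∘ ⇑(σ * τ) = (I ∘ σ) ∘ τ := rfl
  rw [Pool.Agent.R484.NC.op_comp, Module.End.mul_apply, hs, map_smul, ht, smul_smul, hS.1,
    Rat.cast_mul, h3]
  rfl

lemma Rp_lift (hS : S_SGN) {n : ℕ} {τ : Equiv.Perm (Fin n)} {s : tp M n ⟶ tp M n}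
    (hs : Rp R v η τ s) : Rp R v η (exA n 1 τ) (s ▷ M : tp M (n + 1) ⟶ tp M (n + 1)) := by
  intro I
  have e1 : Fin.init (α := fun _ => Fin D) (I ∘ exA n 1 τ) =
      (Fin.init (α := fun _ => Fin D) I) ∘ τ := by
    funext a
    exact congrArg I (exA_castAdd n 1 τ a)
  have e2 : (I ∘ exA n 1 τ) (Fin.last n) = I (Fin.last n) :=
    congrArg I (exA_natAdd n 1 τ 0)
  rw [Perm.bs_succ, Perm.bs_succ, e1, e2]
  refine (Perm.mu_right R s _ _).trans ?_
  rw [hs, Perm.mu_smul_left, hS.2.2.1]
  rfl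

lemma Rp_sw (hS : S_SGN) (hv : Hom' R v η) (m : ℕ) :
    Rp R v η (tr (m + 1) (Fin.last m)) (sw (tp M m) M : tp M (m + 2) ⟶ tp M (m + 2)) := by
  have hc := R_charZero R
  have hb : ∀ i j, op R (β_ M M).hom (Perm.mu R (v i) (v j)) =
      (((if η i = true ∧ η j = true then -1 else 1 : ℚ)) : K) • Perm.mu R (v j) (v i) := by
    intro i j
    have h1 := Perm.mu_braid R (v i) (v j)
    rw [hv, hv] at h1
    simp only [Perm.mu_smul_left, Perm.mu_smul_right] at h1
    have h2 : (2 : K) ≠ 0 := two_ne_zero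
    have h3 := congrArg (fun z => (2 : K)⁻¹ • z) h1
    simp only [smul_smul, inv_mul_cancel₀ h2, one_smul] at h3
    rw [h3]
    have h4 : ∀ w : R.H.obj (M ⊗ M), (2 : K)⁻¹ • ((w + (if η i then (-1 : K) else 1) • w +
        (if η j then (-1 : K) else 1) • w) -
        ((if η i then (-1 : K) else 1) * (if η j then (-1 : K) else 1)) • w) =
        (((if η i = true ∧ η j = true then -1 else 1 : ℚ)) : K) • w := by
      intro w
      have h5 : (2 : K)⁻¹ • ((w + (if η i then (-1 : K) else 1) • w +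
        (if η j then (-1 : K) else 1) • w) -
        ((if η i then (-1 : K) else 1) * (if η j then (-1 : K) else 1)) • w) =
        ((2 : K)⁻¹ * (1 + (if η i then (-1 : K) else 1) + (if η j then (-1 : K) else 1) -
          ((if η j then (-1 : K) else 1) * (if η i then (-1 : K) else 1)))) • w := by
        module
      rw [h5]
      congr 1
      cases η i <;> cases η j <;> push_cast <;> norm_num
    exact h4 _
  have e0 : ∀ I : Fin (m + 2) → Fin D,
      Perm.bs R v (m + 2) I = Perm.mu R (Perm.mu R (Perm.bs R v m (Fin.init (Fin.init I)))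
        (v (I (Fin.castSucc (Fin.last m))))) (v (I (Fin.last (m + 1)))) := by
    intro I
    rw [Perm.bs_succ, Perm.bs_succ]
    rfl
  intro I
  have e1 : Fin.init (α := fun _ => Fin D)
      (Fin.init (α := fun _ => Fin D) (I ∘ tr (m + 1) (Fin.last m))) =
      Fin.init (α := fun _ => Fin D) (Fin.init (α := fun _ => Fin D) I) := by
    funext a
    simp only [Fin.init, Function.comp_apply]
    rw [tr, Equiv.swap_apply_of_ne_of_ne]
    · intro h
      have := congrArg Fin.val h
      simp at this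
      omega
    · intro h
      have := congrArg Fin.val h
      simp at this
      omega
  have e2 : (I ∘ tr (m + 1) (Fin.last m)) (Fin.last (m + 1)) =
      I (Fin.castSucc (Fin.last m)) := by
    rw [Function.comp_apply, tr, Equiv.swap_apply_right]
  have e3 : (I ∘ tr (m + 1) (Fin.last m)) (Fin.castSucc (Fin.last m)) =
      I (Fin.last (m + 1)) := by
    rw [Function.comp_apply, tr, Equiv.swap_apply_left]
  rw [e0, e0, e1, e2, e3, hS.2.2.2.1]
  exact Perm.op_sw R _ _ _ _ (hb _ _)

/-- the dimension -/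
lemma ctr_id (hU : UnitQ C) (hv : Hom' R v η) :
    ctr hU (𝟙 M) = (((Finset.univ.filter fun a => η a = false).card -
            (Finset.univ.filter fun a => η a = true).card : ℤ) : ℚ) := by
  have hc := R_charZero R
  have h : ((ctr hU (𝟙 M) : ℚ) : K) = ((((Finset.univ.filter fun a => η a = false).card -
            (Finset.univ.filter fun a => η a = true).card : ℤ) : ℚ) : K) := by
    rw [ctr_eq R, str, CategoryTheory.Functor.map_id, Category.id_comp,
      LinearMap.trace_eq_matrix_trace K v, Matrix.trace]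
    have h1 : ∀ i, (LinearMap.toMatrix v v (R.par M).hom).diag i =
        (if η i = false then (1 : K) else 0) - (if η i = true then (1 : K) else 0) := by
      intro i
      rw [Matrix.diag_apply, LinearMap.toMatrix_apply, hv i, map_smul, Finsupp.smul_apply,
        Module.Basis.repr_self, Finsupp.single_eq_same, smul_eq_mul, mul_one]
      cases η i <;> simp
    rw [Finset.sum_congr rfl fun i _ => h1 i, Finset.sum_sub_distrib, Finset.sum_boole,
      Finset.sum_boole]
    push_cast
    rfl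
  exact_mod_cast h

lemma ptr_lift (hU : UnitQ C) {n : ℕ} (s : tp M n ⟶ tp M n) :
    ptr (s ▷ M) = ctr hU (𝟙 M) • s := by
  have h2 := ptr_tensor s (𝟙 M) (trq hU M (𝟙 M)) (trq_spec hU _)
  rw [tensorHom_id] at h2
  exact h2

end

end Pool.Agent.H64ND.CPT

namespace Pool.Agent.H64ND

universe u v w

/-- **CPT** -/
theorem t_CPT : S_SGN → S_CPERM.{u, v, w} → S_CPT.{u, v, w} := by
  intro hS hP C _ _ _ _ _ _ _ _ hU K _ R M D v η hv n τ
  have hc := R_charZero R
  refine ⟨fun s hs I => ?_, fun i s hs I => ?_⟩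
  · obtain ⟨t, ht⟩ := hP R M D v η hv n τ
    have h1 : op R (ptr s : tp M n ⟶ tp M n) = op R (ptr (t ▷ M) : tp M n ⟶ tp M n) :=
      CPT.op_ptr_congr R (CPT.Rp_op_eq R hs (CPT.Rp_lift R hS ht))
    rw [h1, CPT.ptr_lift hU, Pool.Agent.R484.NC.op_smul, LinearMap.smul_apply, ht I, smul_smul,
      CPT.ctr_id R hU hv, Rat.cast_mul]
  · rcases n with - | m
    · exact i.elim0
    · obtain ⟨t, ht⟩ := hP R M D v η hv (m + 1) (τ * Equiv.swap i (Fin.last m))
      obtain ⟨t', ht'⟩ := hP R M D v η hv (m + 1) (Equiv.swap i (Fin.last m))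
      have h0 : Rp R v η (exA (m + 1) 1 τ * tr (m + 1) i)
          (((t ▷ M) ≫ sw (tp M m) M) ≫ (t' ▷ M) : tp M (m + 2) ⟶ tp M (m + 2)) := by
        rw [CPT.tr_conj]
        exact CPT.Rp_mul R hS (CPT.Rp_mul R hS (CPT.Rp_lift R hS ht) (CPT.Rp_sw R hS hv m))
          (CPT.Rp_lift R hS ht')
      have h1 : op R (ptr s : tp M (m + 1) ⟶ tp M (m + 1)) =
          op R (ptr (((t ▷ M) ≫ sw (tp M m) M) ≫ (t' ▷ M)) : tp M (m + 1) ⟶ tp M (m + 1)) :=
        CPT.op_ptr_congr R (CPT.Rp_op_eq R hs h0)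
      have h2 : ptr (((t ▷ M) ≫ sw (tp M m) M) ≫ (t' ▷ M)) = t ≫ t' := by
        rw [Category.assoc, ptr_comp, ptr_sw, Category.id_comp]
      have h3 := CPT.Rp_mul R hS ht ht'
      rw [mul_assoc, Equiv.swap_mul_self, mul_one] at h3
      rw [h1, h2]
      exact h3 I

end Pool.Agent.H64ND
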