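import Pool.Agent.H64ND.Stm2
import Pool.Agent.H64NC.Cut

/-! # Project ND: piece CUB -/

set_option autoImplicit false

open CategoryTheory Limits MonoidalCategory
open Pool.Agent.Y112.SR Pool.Agent.Y112.KD Pool.Agent.Y112.SC Pool.Agent.R484.NC Pool.Agent.H64NC

namespace Pool.Agent.H64ND

universe u v w

theorem t_CUB : S_CUB.{u, v, w} := by
  intro C _ _ _ _ _ _ _ _ hU K _ R X c hcc hc1 r N hr hN
  have hK := R_charZero R
  have h0 := R.finite X
  obtain ⟨x, hx, hxr⟩ := hr.1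
  set z : X ⟶ X := (1 / 2 : ℚ) • (𝟙 X + x) with hz
  have htr : ∀ f : X ⟶ X, ctr hU f = 0 → LinearMap.trace K (R.H.obj X)
      ((evp R X - (1 - evp R X)) * op R f) = 0 := by
    intro f hf
    have h1 : ((ctr hU f : ℚ) : K) = 0 := by rw [hf, Rat.cast_zero]
    rw [ctr_eq R, str_eq] at h1
    exact h1
  obtain ⟨m, hm, hmN⟩ := t_CUT K (R.H.obj X) (evp R X) (op R c) (op R z)
    (Set.range (fun f : X ⟶ X => op R f)) (evp_idem R X) hcc
    (by rintro _ ⟨f, rfl⟩; exact op_comm R f) ⟨𝟙 X, Pool.Agent.R484.NC.op_id R X⟩ ⟨c, rfl⟩ ⟨z, rfl⟩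
    (by
      rintro _ ⟨f, rfl⟩ _ ⟨g, rfl⟩
      exact ⟨g ≫ f, Pool.Agent.R484.NC.op_comp R g f⟩)
    (by
      rintro _ ⟨f, rfl⟩ _ ⟨g, rfl⟩
      exact ⟨f - g, Pool.Agent.R484.NC.op_sub R f g⟩)
    (by
      rintro _ ⟨f, rfl⟩
      have h1 : (op R c - 1) * op R f = op R (f ≫ (c - 𝟙 X)) := by
        rw [Pool.Agent.R484.NC.op_comp, Pool.Agent.R484.NC.op_sub, Pool.Agent.R484.NC.op_id]
      show LinearMap.trace K (R.H.obj X) ((evp R X - (1 - evp R X)) * ((op R c - 1) * op R f)) = 0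
      rw [h1]
      apply htr
      rw [ctr_comm R]
      exact hc1 f)
    (by
      rintro _ ⟨f, rfl⟩
      have h1 : (op R z * op R z - op R z) * op R f = op R (f ≫ (z ≫ z - z)) := by
        rw [Pool.Agent.R484.NC.op_comp, Pool.Agent.R484.NC.op_sub, Pool.Agent.R484.NC.op_comp]
      show LinearMap.trace K (R.H.obj X)
        ((evp R X - (1 - evp R X)) * ((op R z * op R z - op R z) * op R f)) = 0
      rw [h1]
      apply htr
      rw [ctr_comm R]
      have h2 : z ≫ z - z = (1 / 4 : ℚ) • (x ≫ x - 𝟙 X) := by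
        rw [hz]
        simp only [Linear.smul_comp, Linear.comp_smul, Preadditive.add_comp, Preadditive.comp_add,
          Category.id_comp, Category.comp_id, smul_add, smul_smul, smul_sub]
        module
      rw [h2, Linear.smul_comp, ctr_smul, hx f, mul_zero]) N hN
  have h1 : op R z - (1 - op R z) = op R x := by
    have h2 : z - (𝟙 X - z) = x := by
      rw [hz]
      module
    have h3 := congrArg (op R) h2
    rw [Pool.Agent.R484.NC.op_sub, Pool.Agent.R484.NC.op_sub, Pool.Agent.R484.NC.op_id] at h3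
    exact h3
  rw [h1, ← str_eq, ← ctr_eq R hU, hxr] at hm
  have h2 : (r : ℤ) = m := by
    have h3 : (((r : ℤ) : ℚ) : K) = ((m : ℤ) : K) := by
      rw [← hm]
      push_cast
      rfl
    have h4 : ((r : ℤ) : K) = ((m : ℤ) : K) := by
      rw [← h3]
      push_cast
      rfl
    exact_mod_cast h4
  have h3 := le_abs_self m
  omega

end Pool.Agent.H64ND
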