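import Pool.Agent.H64ND.Stm3

/-!
# Project NS (helper64): sliding a strand through the trace of one factor
-/

set_option autoImplicit false
set_option linter.all false

open CategoryTheory Limits MonoidalCategory
open Pool.Agent.Y112.SR

namespace Pool.Agent.H64ND

universe u v

section slide

variable {C : Type u} [Category.{v} C] [MonoidalCategory C] [SymmetricCategory C]

theorem exch_exch (M P N : C) : exch M P N ≫ exch M N P = 𝟙 _ := by
  unfold exch
  simp only [Category.assoc, Iso.inv_hom_id_assoc]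
  rw [← MonoidalCategory.whiskerLeft_comp_assoc, SymmetricCategory.symmetry]
  simp

theorem exch_exch_assoc (M P N : C) {Z : C} (f : (M ⊗ P) ⊗ N ⟶ Z) :
    exch M P N ≫ exch M N P ≫ f = f := by
  rw [← Category.assoc, exch_exch, Category.id_comp]

theorem exch_nat (M P : C) {X Y : C} (κ : X ⟶ Y) :
    exch M X P ≫ (M ⊗ P) ◁ κ = (M ◁ κ) ▷ P ≫ exch M Y P := by
  unfold exch
  have h := BraidedCategory.braiding_naturality_left κ P
  have h2 : M ◁ (κ ▷ P) ≫ M ◁ (β_ Y P).hom = M ◁ (β_ X P).hom ≫ M ◁ (P ◁ κ) := by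
    rw [← MonoidalCategory.whiskerLeft_comp, ← MonoidalCategory.whiskerLeft_comp, h]
  simp only [Category.assoc]
  rw [← associator_inv_naturality_right, ← reassoc_of% h2, associator_naturality_middle_assoc]

theorem exch_nat' (M P : C) {X Y : C} (κ : X ⟶ Y) :
    (M ⊗ P) ◁ κ ≫ exch M P Y = exch M P X ≫ (M ◁ κ) ▷ P := by
  have h := exch_nat M P κ
  have h2 := congrArg (fun f => exch M P X ≫ f ≫ exch M P Y) h
  simp only [Category.assoc] at h2
  rw [exch_exch_assoc, exch_exch, Category.comp_id] at h2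
  exact h2

theorem exch_natl {X Y : C} (x : X ⟶ Y) (P N : C) :
    exch X N P ≫ (x ▷ P) ▷ N = (x ▷ N) ▷ P ≫ exch Y N P := by
  unfold exch
  simp only [Category.assoc]
  rw [← associator_inv_naturality_left, whisker_exchange_assoc, associator_naturality_left_assoc]

theorem exch_hex (M N N' P : C) :
    exch (M ⊗ N) N' P ≫ exch M N P ▷ N' ≫ (α_ (M ⊗ P) N N').hom =
      (α_ M N N').hom ▷ P ≫ exch M (N ⊗ N') P := by
  unfold exch
  rw [BraidedCategory.braiding_tensor_left_hom]
  monoidal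

theorem exch_hex' (M N N' P : C) :
    (α_ (M ⊗ P) N N').inv ≫ exch M P N ▷ N' =
      exch M P (N ⊗ N') ≫ (α_ M N N').inv ▷ P ≫ exch (M ⊗ N) N' P := by
  have h := exch_hex M N N' P
  have e1 : exch M P N ▷ N' ≫ exch M N P ▷ N' = 𝟙 _ := by
    rw [← MonoidalCategory.comp_whiskerRight, exch_exch, MonoidalCategory.id_whiskerRight]
  have e2 : exch M N P ▷ N' ≫ exch M P N ▷ N' = 𝟙 _ := by
    rw [← MonoidalCategory.comp_whiskerRight, exch_exch, MonoidalCategory.id_whiskerRight]
  have e3 : (α_ M N N').inv ▷ P ≫ (α_ M N N').hom ▷ P = 𝟙 _ := by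
    rw [← MonoidalCategory.comp_whiskerRight, Iso.inv_hom_id, MonoidalCategory.id_whiskerRight]
  have h2 := congrArg (fun f => exch M P (N ⊗ N') ≫ (α_ M N N').inv ▷ P ≫ f ≫
    (α_ (M ⊗ P) N N').inv ≫ exch M P N ▷ N') h
  simp only [Category.assoc, Iso.hom_inv_id_assoc] at h2
  rw [e2, Category.comp_id, reassoc_of% e3, exch_exch_assoc] at h2
  exact h2.symm

theorem exch_one (M P : C) : exch M (𝟙_ C) P ≫ (ρ_ (M ⊗ P)).hom = (ρ_ M).hom ▷ P := by
  unfold exch
  rw [braiding_tensorUnit_left]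
  monoidal

theorem exch_one' (M P : C) : (ρ_ (M ⊗ P)).inv ≫ exch M P (𝟙_ C) = (ρ_ M).inv ▷ P := by
  unfold exch
  rw [braiding_tensorUnit_right]
  monoidal

end slide

theorem t_SLIDE : S_SLIDE.{u, v} := by
  intro C _ _ _ _ M P N x
  have e1 := exch_hex' M N Nᘁ P
  have e2 := exch_hex M N Nᘁ P
  unfold ptr
  simp only [MonoidalCategory.comp_whiskerRight, Category.assoc]
  rw [reassoc_of% e1, reassoc_of% (exch_nat' M P (η_ N Nᘁ)), reassoc_of% (exch_one' M P),
    reassoc_of% (exch_natl x P Nᘁ), reassoc_of% e2, reassoc_of% (exch_nat M P ((β_ N Nᘁ).hom ≫ ε_ N Nᘁ)),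
    exch_one]

end Pool.Agent.H64ND
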