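import Pool.Agent.H64ND.Sqi
import Pool.Agent.H64ND.Slide

/-!
# Descent of signs from a tensor product to the factors
-/

set_option autoImplicit false
set_option linter.unusedSectionVars false

open CategoryTheory Limits MonoidalCategory
open Pool.Agent.Y112.SR Pool.Agent.Y112.KD Pool.Agent.Y112.SC Pool.Agent.R484.NC Pool.Agent.H64NC

namespace Pool.Agent.H64ND

universe u v w

section

variable {C : Type u} [Category.{v} C] [Preadditive C] [Linear ℚ C] [MonoidalCategory C]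
  [MonoidalPreadditive C] [MonoidalLinear ℚ C] [SymmetricCategory C] [RightRigidCategory C]
  {hU : UnitQ C} {K : Type w} [Field K] (R : SuperRealisation C K)

include R in
lemma nz_conj {X Y : C} (e : X ≅ Y) {f : X ⟶ X} (h : NumZero hU f) :
    NumZero hU (e.inv ≫ f ≫ e.hom) := by
  intro g
  have h1 := ctr_comm R hU e.inv (f ≫ e.hom ≫ g)
  simp only [Category.assoc] at h1 ⊢
  rw [h1]
  exact h _

include R in
lemma ctr_conj {X Y : C} (e : X ≅ Y) (f : X ⟶ X) : ctr hU (e.inv ≫ f ≫ e.hom) = ctr hU f := by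
  have h1 := ctr_comm R hU e.inv (f ≫ e.hom)
  rw [h1]
  simp

include R in
lemma ne_conj {X Y : C} (e : X ≅ Y) {f g : X ⟶ X} (h : NE hU f g) :
    NE hU (e.inv ≫ f ≫ e.hom) (e.inv ≫ g ≫ e.hom) := by
  have h1 := nz_conj R e h
  rw [Preadditive.sub_comp, Preadditive.comp_sub] at h1
  exact h1

include R in
lemma inv_conj {X Y : C} (e : X ≅ Y) {f : X ⟶ X} (h : NumInvolution hU f) :
    NumInvolution hU (e.inv ≫ f ≫ e.hom) := by
  have h1 := ne_conj R e (h : NE hU (f ≫ f) (𝟙 X))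
  have e1 : (e.inv ≫ f ≫ e.hom) ≫ (e.inv ≫ f ≫ e.hom) = e.inv ≫ (f ≫ f) ≫ e.hom := by simp
  have e2 : e.inv ≫ 𝟙 X ≫ e.hom = 𝟙 Y := by simp
  rw [e2] at h1
  show NE hU _ _
  rw [e1]
  exact h1

include R in
lemma inv_tensor {X Y : C} {f : X ⟶ X} {g : Y ⟶ Y} (h : NumInvolution hU f)
    (h' : NumInvolution hU g) : NumInvolution hU (f ⊗ₘ g) := by
  have h1 : NE hU ((f ≫ f) ⊗ₘ (g ≫ g)) (𝟙 X ⊗ₘ 𝟙 Y) := NE.tensor R h h'
  rw [id_tensorHom_id] at h1
  show NE hU _ _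
  rw [tensorHom_comp_tensorHom]
  exact h1

include R in
lemma ne_ptr {X Y : C} {f g : X ⊗ Y ⟶ X ⊗ Y} (h : NE hU f g) :
    NE hU (ptr f : X ⟶ X) (ptr g) := by
  have h1 := (t_CNUM hU R).2.1 X Y (f - g) h
  have h2 : (ptr (f - g) : X ⟶ X) = ptr f - ptr g := (ptrL X Y).map_sub f g
  rw [h2] at h1
  exact h1

include R in
/-- The exchange argument: if the sign of `(M ⊗ N)²` is the square of the sign of `M ⊗ N`, then a multiple of the latter is a tensor product. -/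
theorem exch_main {M N : C} {w : M ⊗ N ⟶ M ⊗ N} {c : ℕ} (hw : NumInvolution hU w)
    (hc : ctr hU w = c) (hY : IsIdx hU (((M ⊗ N) ⊗ N) ⊗ M) (c * c)) :
    ∃ (a : M ⟶ M) (b : N ⟶ N), ctr hU a = c ∧ ctr hU b = c ∧
      NE hU (a ⊗ₘ b) ((c : ℚ) • w) := by
  set v : N ⊗ M ⟶ N ⊗ M := (β_ M N).inv ≫ w ≫ (β_ M N).hom with hv
  have hv1 : NumInvolution hU v := inv_conj R (β_ M N) hw
  have hv2 : ctr hU v = c := by rw [hv, ctr_conj R (β_ M N), hc]
  set W : ((M ⊗ N) ⊗ N) ⊗ M ⟶ ((M ⊗ N) ⊗ N) ⊗ M :=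
    (α_ (M ⊗ N) N M).hom ≫ (w ⊗ₘ v) ≫ (α_ (M ⊗ N) N M).inv with hW
  have hW1 : NumInvolution hU W := inv_conj R (α_ (M ⊗ N) N M).symm (inv_tensor R hw hv1)
  have hW2 : ctr hU W = ((c * c : ℕ) : ℚ) := by
    have h1 := ctr_conj (hU := hU) R (α_ (M ⊗ N) N M).symm (w ⊗ₘ v)
    rw [ctr_tensor R hU, hc, hv2] at h1
    rw [hW]
    push_cast
    exact h1
  have hWs : IsSign hU W := (isSign_iff R hY W).2 ⟨hW1, hW2⟩
  set s : ((M ⊗ N) ⊗ N) ⊗ M ⟶ ((M ⊗ N) ⊗ N) ⊗ M := sw M N ▷ M with hs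
  have hss : s ≫ s = 𝟙 _ := by
    rw [hs, ← comp_whiskerRight, sw_sw, id_whiskerRight]
  have h1 : NE hU (s ≫ W ≫ s) W := by
    have h2 := NE.comp R (NE.rfl' s) (sign_central R hWs s)
    rw [← Category.assoc s s W, hss, Category.id_comp] at h2
    exact h2
  -- the partial trace over the last factor
  have hWeq : W = (w ▷ N) ▷ M ≫ (α_ (M ⊗ N) N M).hom ≫ ((M ⊗ N) ◁ v) ≫
      (α_ (M ⊗ N) N M).inv := by
    rw [hW, MonoidalCategory.tensorHom_def, Category.assoc, associator_naturality_left_assoc]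
  set T : N ⟶ N := ptr v with hT
  have h3 : ptr W = (w ▷ N) ≫ ((M ⊗ N) ◁ T) := by
    rw [hWeq, ptr_comp_left, ptr_assoc]
  have h4 := ne_ptr R h1
  rw [hs, ptr_comp, h3, Category.assoc, sw_nat_last] at h4
  have h5 : sw M N ≫ w ▷ N ≫ sw M N ≫ (M ◁ T) ▷ N =
      (sw M N ≫ w ▷ N ≫ sw M N) ≫ (M ◁ T) ▷ N := by simp only [Category.assoc]
  rw [h5] at h4
  have h6 := ne_ptr R h4
  have h7 : ptr (sw M N ≫ w ▷ N ≫ sw M N) = ptr w ▷ N := t_SLIDE M N N w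
  have h8 : ptr ((M ⊗ N) ◁ T) = (ctr hU T) • 𝟙 (M ⊗ N) := by
    have h9 := ptr_tensor (𝟙 (M ⊗ N)) T (trq hU N T) (trq_spec hU _)
    rw [id_tensorHom] at h9
    exact h9
  rw [ptr_comp_right, h7, ptr_comp_left, h8, Linear.comp_smul, Category.comp_id] at h6
  have hT2 : ctr hU T = c := by
    have h9 : ctr hU T = ctr hU v := trq_ptr R hU v
    rw [h9, hv2]
  refine ⟨ptr w, T, ?_, hT2, ?_⟩
  · have h9 : ctr hU (ptr w) = ctr hU w := trq_ptr R hU w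
    rw [h9, hc]
  · rw [hT2] at h6
    rw [MonoidalCategory.tensorHom_def]
    exact h6

include R in
lemma desc_aux {M N : C} {w : M ⊗ N ⟶ M ⊗ N} {c : ℚ} (hw : NumInvolution hU w) {a : M ⟶ M}
    {b : N ⟶ N} (ha : ctr hU a = c) (hb : ctr hU b = c) (hc : c ≠ 0)
    (h : NE hU (a ⊗ₘ b) (c • w)) :
    ∃ σ : ℚ, NE hU (a ≫ a) (σ • 𝟙 M) ∧ ctr hU (b ≫ b ≫ b) * σ = c ^ 3 := by
  have h1 := NE.comp R h h
  rw [tensorHom_comp_tensorHom, Linear.smul_comp, Linear.comp_smul, smul_smul] at h1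
  have h2 := NE.trans R h1 (NE.smul R (c * c) (hw : NE hU (w ≫ w) (𝟙 _)))
  have h3 := NE.comp R h2 (NE.rfl' (𝟙 M ⊗ₘ b))
  rw [tensorHom_comp_tensorHom, Category.comp_id, Linear.smul_comp, Category.id_comp] at h3
  have h4 := ne_ptr R h3
  rw [ptr_tensor _ _ (trq hU N ((b ≫ b) ≫ b)) (trq_spec hU _), ptr_smul,
    ptr_tensor _ _ (trq hU N b) (trq_spec hU _), smul_smul] at h4
  have h5 : trq hU N b = c := hb
  have h6 : trq hU N ((b ≫ b) ≫ b) = ctr hU (b ≫ b ≫ b) := by rw [Category.assoc]; rfl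
  rw [h5, h6] at h4
  have h7 : ctr hU (b ≫ b ≫ b) ≠ 0 := by
    intro h0
    rw [h0, zero_smul] at h4
    have h8 := NE.symm R h4
    have h9 := h8 a
    rw [sub_zero, Linear.smul_comp, Category.id_comp, ctr_smul, ha] at h9
    have : c * c * c * c = 0 := h9
    have h10 : c ^ 4 = 0 := by linear_combination this
    exact hc (pow_eq_zero_iff (by norm_num) |>.1 h10)
  refine ⟨c ^ 3 / ctr hU (b ≫ b ≫ b), ?_, by field_simp⟩
  have h8 := NE.smul R (ctr hU (b ≫ b ≫ b))⁻¹ h4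
  rw [smul_smul, smul_smul, inv_mul_cancel₀ h7, one_smul] at h8
  have e : c ^ 3 / ctr hU (b ≫ b ≫ b) = (ctr hU (b ≫ b ≫ b))⁻¹ * (c * c * c) := by
    field_simp
  rw [e]
  exact h8

include R in
lemma abs_le_idx {X : C} {a : X ⟶ X} {c σ : ℚ} {m : ℤ} {r : ℕ} (hσ : NE hU (a ≫ a) (σ • 𝟙 X))
    (ha : ctr hU a = c) (hc : c ≠ 0) (hm : c ^ 2 = σ * m ^ 2) (hr : IsIdx hU X r) :
    m.natAbs ≤ r := by
  have key : ∀ ε : ℚ, ε * ε = 1 → ε * m ≤ r := by
    intro ε hε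
    apply hr.2
    refine ⟨(ε * m / c) • a, ?_, ?_⟩
    · have h1 := NE.smul R ((ε * m / c) * (ε * m / c)) hσ
      rw [smul_smul] at h1
      have e1 : (ε * m / c) * (ε * m / c) * σ = 1 := by
        field_simp
        linear_combination -hm + σ * m ^ 2 * hε
      rw [e1, one_smul] at h1
      show NE hU _ _
      rw [Linear.smul_comp, Linear.comp_smul, smul_smul]
      exact h1
    · rw [ctr_smul, ha]
      field_simp
  have h1 := key 1 (by norm_num)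
  have h2 := key (-1) (by norm_num)
  have h3 : ((m.natAbs : ℤ) : ℚ) ≤ r := by
    rw [Int.natCast_natAbs]
    push_cast
    rw [abs_le]
    constructor <;> linarith
  exact_mod_cast h3

include R in
/-- **Descent.** If the parity index of `(M ⊗ N)²` is the square of the parity index of `M ⊗ N`, the latter is the product of the parity
indices of `M` and `N`. -/
theorem desc {M N : C} {c a b : ℕ} (hX : IsIdx hU (M ⊗ N) c)
    (hY : IsIdx hU (((M ⊗ N) ⊗ N) ⊗ M) (c * c)) (hM : IsIdx hU M a) (hN : IsIdx hU N b) :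
    c ≤ a * b := by
  rcases Nat.eq_zero_or_pos c with h0 | h0
  · omega
  have hc0 : (c : ℚ) ≠ 0 := by positivity
  obtain ⟨w, hw, hwc⟩ := hX.1
  obtain ⟨s, t, hs, ht, hst⟩ := exch_main R hw hwc hY
  obtain ⟨σ, hσ, hσ1⟩ := desc_aux R hw hs ht hc0 hst
  -- the same with the factors exchanged
  have hst' : NE hU (t ⊗ₘ s) ((c : ℚ) • ((β_ M N).inv ≫ w ≫ (β_ M N).hom)) := by
    have h1 := ne_conj R (β_ M N) hst
    have e1 : (β_ M N).inv ≫ (s ⊗ₘ t) ≫ (β_ M N).hom = t ⊗ₘ s := by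
      rw [BraidedCategory.braiding_naturality, Iso.inv_hom_id_assoc]
    have e2 : (β_ M N).inv ≫ ((c : ℚ) • w) ≫ (β_ M N).hom =
        (c : ℚ) • ((β_ M N).inv ≫ w ≫ (β_ M N).hom) := by
      rw [Linear.smul_comp, Linear.comp_smul]
    rw [e1, e2] at h1
    exact h1
  obtain ⟨τ, hτ, -⟩ := desc_aux R (inv_conj R (β_ M N) hw) ht hs hc0 hst'
  have h1 : ctr hU (t ≫ t ≫ t) = τ * c := by
    have h2 := NE.comp R hτ (NE.rfl' t)
    rw [Linear.smul_comp, Category.id_comp] at h2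
    rw [← Category.assoc, h2.ctr_eq, ctr_smul, ht]
  have h2 : σ * τ = (c : ℚ) ^ 2 := by
    have h3 : (c : ℚ) * (σ * τ) = c * (c : ℚ) ^ 2 := by
      rw [h1] at hσ1
      linear_combination hσ1
    exact mul_left_cancel₀ hc0 h3
  have hσ0 : σ ≠ 0 := by
    rintro rfl
    rw [zero_mul] at h2
    exact hc0 (pow_eq_zero_iff (by norm_num) |>.1 h2.symm)
  have hτ0 : τ ≠ 0 := by
    rintro rfl
    rw [mul_zero] at h2
    exact hc0 (pow_eq_zero_iff (by norm_num) |>.1 h2.symm)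
  obtain ⟨m, hm⟩ := ctr_sq R hσ0 hσ
  obtain ⟨n, hn⟩ := ctr_sq R hτ0 hτ
  rw [hs] at hm
  rw [ht] at hn
  have h3 := abs_le_idx R hσ hs hc0 hm hM
  have h4 := abs_le_idx R hτ ht hc0 hn hN
  have h5 : (c : ℚ) ^ 2 = (m * n) ^ 2 := by
    have h6 : (c : ℚ) ^ 2 * (c : ℚ) ^ 2 = (c : ℚ) ^ 2 * (m * n) ^ 2 := by
      calc (c : ℚ) ^ 2 * (c : ℚ) ^ 2 = (σ * m ^ 2) * (τ * n ^ 2) := by rw [← hm, ← hn]
        _ = (σ * τ) * (m * n) ^ 2 := by ring
        _ = _ := by rw [h2]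
    exact mul_left_cancel₀ (pow_ne_zero 2 hc0) h6
  have h6 : (c : ℤ) ^ 2 = (m * n) ^ 2 := by exact_mod_cast h5
  have h7 : c = (m * n).natAbs := by
    have h8 := Int.natAbs_eq_iff_sq_eq.2 h6
    simpa using h8
  rw [h7, Int.natAbs_mul]
  exact Nat.mul_le_mul h3 h4

end

end Pool.Agent.H64ND
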