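import Pool.Agent.H64ND.Stm

/-!
# Project ND, piece DET (helper31): central elements act on `dv t` by a scalar
-/

set_option autoImplicit false

open Finset

namespace Pool.Agent.H64ND.DetP

/-- conjugation invariance of the coefficients of a central element -/
theorem coeff_conj {n : ℕ} (e : QS n) (he : ∀ x, e * x = x * e) (s σ : Equiv.Perm (Fin n)) :
    e.coeff (s * σ * s⁻¹) = e.coeff σ := by
  have h := congrArg (fun x : QS n => x.coeff (s * σ)) (he (MonoidAlgebra.single s 1))
  simp only [MonoidAlgebra.coeff_mul_single_apply, MonoidAlgebra.coeff_single_mul_apply, mul_one,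
    one_mul] at h
  rw [h]
  congr 1
  group

theorem act_comp {n : ℕ} {A : Type} (e : QS n) (he : ∀ x, e * x = x * e)
    (s : Equiv.Perm (Fin n)) (u : (Fin n → A) → ℚ) (w : Fin n → A) :
    act0 e u (w ∘ s) = ∑ σ, e.coeff σ * u ((w ∘ σ) ∘ s) := by
  unfold act0
  refine Fintype.sum_equiv (MulAut.conj s).toEquiv _ _ ?_
  intro σ
  show e.coeff σ * u ((w ∘ s) ∘ σ) = e.coeff (s * σ * s⁻¹) * u ((w ∘ (s * σ * s⁻¹ : Equiv.Perm (Fin n))) ∘ s)
  rw [coeff_conj e he]
  congr 2
  funext i
  simp

/-- the column permutation with given columns -/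
def colP {n a b : ℕ} (t : Fin n ≃ Fin b × Fin a) (π : Fin b → Equiv.Perm (Fin a)) :
    Equiv.Perm (Fin n) :=
  (t.trans (Equiv.prodCongrRight π)).trans t.symm

theorem colP_symm {n a b : ℕ} (t : Fin n ≃ Fin b × Fin a) (π : Fin b → Equiv.Perm (Fin a))
    (c : Fin b) (r : Fin a) : colP t π (t.symm (c, r)) = t.symm (c, π c r) := by
  simp [colP]

theorem detw_comp {a : ℕ} (f : Fin a → Fin a) (π : Equiv.Perm (Fin a)) :
    detw (fun r => f (π r)) = ((Equiv.Perm.sign π : ℤ) : ℚ) * detw f := by
  unfold detw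
  rw [← Matrix.det_permute]
  rfl

/-- the sign of a family of columns -/
def sg {a b : ℕ} (π : Fin b → Equiv.Perm (Fin a)) : ℚ :=
  ∏ c, ((Equiv.Perm.sign (π c) : ℤ) : ℚ)

theorem dv_comp {n a b : ℕ} (t : Fin n ≃ Fin b × Fin a) (π : Fin b → Equiv.Perm (Fin a))
    (w : Fin n → Fin a) : dv t (w ∘ colP t π) = sg π * dv t w := by
  unfold dv sg
  rw [← Finset.prod_mul_distrib]
  refine Finset.prod_congr rfl fun c _ => ?_
  rw [← detw_comp]
  congr 1
  funext r
  simp only [Function.comp_apply, colP_symm]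

theorem act_dv_comp {n a b : ℕ} (t : Fin n ≃ Fin b × Fin a) (e : QS n)
    (he : ∀ x, e * x = x * e) (π : Fin b → Equiv.Perm (Fin a)) (w : Fin n → Fin a) :
    act0 e (dv t) (w ∘ colP t π) = sg π * act0 e (dv t) w := by
  rw [act_comp e he]
  unfold act0
  rw [Finset.mul_sum]
  refine Finset.sum_congr rfl fun σ _ => ?_
  rw [dv_comp]
  ring

theorem sg_swap {a b : ℕ} (c : Fin b) (r r' : Fin a) (h : r ≠ r') :
    sg (Function.update (1 : Fin b → Equiv.Perm (Fin a)) c (Equiv.swap r r')) = -1 := by
  unfold sg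
  rw [Finset.prod_eq_single c]
  · rw [Function.update_self, Equiv.Perm.sign_swap h]
    simp
  · intro c' _ hc'
    rw [Function.update_of_ne hc']
    simp
  · intro h'
    exact absurd (Finset.mem_univ _) h'

theorem comp_swap {n a b : ℕ} (t : Fin n ≃ Fin b × Fin a) (w : Fin n → Fin a) (c : Fin b)
    (r r' : Fin a) (h : w (t.symm (c, r)) = w (t.symm (c, r'))) :
    w ∘ colP t (Function.update (1 : Fin b → Equiv.Perm (Fin a)) c (Equiv.swap r r')) = w := by
  funext k
  obtain ⟨⟨c', q⟩, rfl⟩ := t.symm.surjective k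
  rw [Function.comp_apply, colP_symm]
  by_cases hc : c' = c
  · subst hc
    rw [Function.update_self]
    by_cases h1 : q = r
    · subst h1
      rw [Equiv.swap_apply_left, h]
    · by_cases h2 : q = r'
      · subst h2
        rw [Equiv.swap_apply_right, h]
      · rw [Equiv.swap_apply_of_ne_of_ne h1 h2]
  · rw [Function.update_of_ne hc]
    rfl

theorem dv_base {n a b : ℕ} (t : Fin n ≃ Fin b × Fin a) : dv t (fun k => (t k).2) = 1 := by
  unfold dv
  refine Finset.prod_eq_one fun c _ => ?_
  unfold detw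
  simp only [Equiv.apply_symm_apply]
  have : (Matrix.of fun r s : Fin a => if r = s then (1 : ℚ) else 0) = 1 := by
    ext r s
    simp [Matrix.one_apply]
  rw [this, Matrix.det_one]

end Pool.Agent.H64ND.DetP

namespace Pool.Agent.H64ND

open DetP

/-- Piece DET. -/
theorem t_DET : S_DET := by
  intro n a b t e he
  refine ⟨act0 e (dv t) (fun k => (t k).2), ?_⟩
  funext w
  rw [Pi.smul_apply, smul_eq_mul]
  by_cases hw : ∀ c : Fin b, Function.Injective fun r : Fin a => w (t.symm (c, r))
  · let π : Fin b → Equiv.Perm (Fin a) := fun c =>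
      Equiv.ofBijective _ (Finite.injective_iff_bijective.1 (hw c))
    have hwπ : w = (fun k => (t k).2) ∘ colP t π := by
      funext k
      obtain ⟨⟨c', q⟩, rfl⟩ := t.symm.surjective k
      rw [Function.comp_apply, colP_symm, Equiv.apply_symm_apply]
      rfl
    rw [hwπ, act_dv_comp t e he, dv_comp, dv_base]
    ring
  · push Not at hw
    obtain ⟨c, hc⟩ := hw
    unfold Function.Injective at hc
    push Not at hc
    obtain ⟨r, r', h1, h2⟩ := hc
    have h3 := comp_swap t w c r r' h1
    have h4 := dv_comp t (Function.update (1 : Fin b → Equiv.Perm (Fin a)) c (Equiv.swap r r')) w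
    have h5 := act_dv_comp t e he
      (Function.update (1 : Fin b → Equiv.Perm (Fin a)) c (Equiv.swap r r')) w
    rw [h3, sg_swap c r r' h2] at h4 h5
    have h6 : dv t w = 0 := by linarith
    have h7 : act0 e (dv t) w = 0 := by linarith
    rw [h6, h7, mul_zero]

end Pool.Agent.H64ND
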