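import Pool.Agent.H64ND.Cen2
import Pool.Agent.H64ND.Cnum

/-!
# Signs of objects
-/

set_option autoImplicit false
set_option linter.unusedSectionVars false

open CategoryTheory Limits MonoidalCategory
open Pool.Agent.Y112.SR Pool.Agent.Y112.KD Pool.Agent.Y112.SC Pool.Agent.R484.NC Pool.Agent.H64NC

namespace Pool.Agent.H64ND

universe u v w

section

variable {C : Type u} [Category.{v} C] [Preadditive C] [Linear ℚ C] [MonoidalCategory C]
  [MonoidalPreadditive C] [MonoidalLinear ℚ C] [SymmetricCategory C] [RightRigidCategory C]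

/-- `w` is a sign of `X`: a numerical involution whose pairing with every numerically nonzero numerical idempotent is positive. -/
def IsSign (hU : UnitQ C) {X : C} (w : X ⟶ X) : Prop :=
  NumInvolution hU w ∧ ∀ e : X ⟶ X, NumZero hU (e ≫ e - e) → ¬ NumZero hU e →
    0 < ctr hU (w ≫ e)

variable {hU : UnitQ C} {K : Type w} [Field K] (R : SuperRealisation C K)

lemma wr_neg {X X' : C} (f : X ⟶ X') (Y : C) : (-f) ▷ Y = -(f ▷ Y) := by
  rw [eq_neg_iff_add_eq_zero, ← MonoidalPreadditive.add_whiskerRight, neg_add_cancel,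
    MonoidalPreadditive.zero_whiskerRight]

lemma wl_neg {X X' : C} (f : X ⟶ X') (Y : C) : Y ◁ (-f) = -(Y ◁ f) := by
  rw [eq_neg_iff_add_eq_zero, ← MonoidalPreadditive.whiskerLeft_add, neg_add_cancel,
    MonoidalPreadditive.whiskerLeft_zero]

/-- congruence modulo numerically trivial endomorphisms -/
def NE (hU : UnitQ C) {X : C} (f g : X ⟶ X) : Prop := NumZero hU (f - g)

lemma NE.rfl' {X : C} (f : X ⟶ X) : NE hU f f := by
  intro g
  rw [sub_self, zero_comp]
  exact (trq hU X).map_zero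

include R in
lemma nz_smul {X : C} (c : ℚ) {f : X ⟶ X} (h : NumZero hU f) : NumZero hU (c • f) :=
  (t_CNUM hU R).2.2.2.2.1 X c f h

include R in
lemma nz_add {X : C} {f g : X ⟶ X} (h : NumZero hU f) (h' : NumZero hU g) : NumZero hU (f + g) :=
  (t_CNUM hU R).2.2.2.1 X f g h h'

include R in
lemma nz_neg {X : C} {f : X ⟶ X} (h : NumZero hU f) : NumZero hU (-f) := by
  have := nz_smul R (-1) h
  simpa using this

include R in
lemma nz_right {X : C} {f : X ⟶ X} (g : X ⟶ X) (h : NumZero hU f) : NumZero hU (f ≫ g) :=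
  ((t_CNUM hU R).2.2.2.2.2 X f g h).1

include R in
lemma nz_left {X : C} {f : X ⟶ X} (g : X ⟶ X) (h : NumZero hU f) : NumZero hU (g ≫ f) :=
  ((t_CNUM hU R).2.2.2.2.2 X f g h).2

include R in
lemma NE.symm {X : C} {f g : X ⟶ X} (h : NE hU f g) : NE hU g f := by
  have := nz_neg R h
  rwa [neg_sub] at this

include R in
lemma NE.trans {X : C} {f g k : X ⟶ X} (h : NE hU f g) (h' : NE hU g k) : NE hU f k := by
  have := nz_add R h h'
  rwa [sub_add_sub_cancel] at this

include R in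
lemma NE.comp {X : C} {f g f' g' : X ⟶ X} (h : NE hU f g) (h' : NE hU f' g') :
    NE hU (f ≫ f') (g ≫ g') := by
  have h1 := nz_add R (nz_right R f' h) (nz_left R g h')
  have h2 : (f - g) ≫ f' + g ≫ (f' - g') = f ≫ f' - g ≫ g' := by
    rw [Preadditive.sub_comp, Preadditive.comp_sub]; abel
  rwa [h2] at h1

include R in
lemma NE.smul {X : C} {f g : X ⟶ X} (c : ℚ) (h : NE hU f g) : NE hU (c • f) (c • g) := by
  have := nz_smul R c h
  rwa [smul_sub] at this

include R in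
lemma NE.add {X : C} {f g f' g' : X ⟶ X} (h : NE hU f g) (h' : NE hU f' g') :
    NE hU (f + f') (g + g') := by
  have h1 := nz_add R h h'
  have h2 : (f - g) + (f' - g') = f + f' - (g + g') := by abel
  rwa [h2] at h1

include R in
lemma NE.sub {X : C} {f g f' g' : X ⟶ X} (h : NE hU f g) (h' : NE hU f' g') :
    NE hU (f - f') (g - g') := by
  have h1 := nz_add R h (nz_neg R h')
  have h2 : (f - g) + -(f' - g') = f - f' - (g - g') := by abel
  rwa [h2] at h1

lemma NE.ctr_eq {X : C} {f g : X ⟶ X} (h : NE hU f g) : ctr hU f = ctr hU g := by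
  have h1 := h (𝟙 X)
  rw [Category.comp_id] at h1
  have h2 : ctr hU (f - g) = ctr hU f - ctr hU g := (trq hU X).map_sub f g
  rw [h2] at h1
  linarith

include R in
lemma NE.tensor {X Y : C} {f f' : X ⟶ X} {g g' : Y ⟶ Y} (h : NE hU f f') (h' : NE hU g g') :
    NE hU (f ⊗ₘ g) (f' ⊗ₘ g') := by
  have h1 := ((t_CNUM hU R).1 X Y (f - f') g h).1
  have h2 := ((t_CNUM hU R).1 Y X (g - g') f' h').2
  have h3 := nz_add R h1 h2
  have h4 : ((f - f') ⊗ₘ g) + (f' ⊗ₘ (g - g')) = (f ⊗ₘ g) - (f' ⊗ₘ g') := by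
    have e1 : ((f - f') ⊗ₘ g) = (f ⊗ₘ g) - (f' ⊗ₘ g) := by
      rw [MonoidalCategory.tensorHom_def, MonoidalCategory.tensorHom_def,
        MonoidalCategory.tensorHom_def, ← Preadditive.sub_comp]
      congr 1
      simp [sub_eq_add_neg, wr_neg]
    have e2 : (f' ⊗ₘ (g - g')) = (f' ⊗ₘ g) - (f' ⊗ₘ g') := by
      rw [MonoidalCategory.tensorHom_def, MonoidalCategory.tensorHom_def,
        MonoidalCategory.tensorHom_def, ← Preadditive.comp_sub]
      congr 1
      simp [sub_eq_add_neg, wl_neg]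
    rw [e1, e2]; abel
  rwa [h4] at h3

lemma NE.zero {X : C} {f : X ⟶ X} : NE hU f 0 ↔ NumZero hU f := by
  rw [NE, sub_zero]

lemma ctr_sub' {X : C} (f g : X ⟶ X) : ctr hU (f - g) = ctr hU f - ctr hU g :=
  (trq hU X).map_sub f g

/-- idempotents from numerical involutions which commute -/
lemma idem_eq {X : C} (u : X ⟶ X) : ((1 / 2 : ℚ) • (𝟙 X - u)) ≫ ((1 / 2 : ℚ) • (𝟙 X - u)) -
    (1 / 2 : ℚ) • (𝟙 X - u) = (1 / 4 : ℚ) • (u ≫ u - 𝟙 X) := by
  simp only [Linear.smul_comp, Linear.comp_smul, Preadditive.sub_comp, Preadditive.comp_sub,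
    Category.id_comp, Category.comp_id, smul_sub, smul_smul]
  module

include R in
lemma idem_of_inv {X : C} {u : X ⟶ X} (h : NumInvolution hU u) :
    NumZero hU (((1 / 2 : ℚ) • (𝟙 X - u)) ≫ ((1 / 2 : ℚ) • (𝟙 X - u)) -
      (1 / 2 : ℚ) • (𝟙 X - u)) := by
  rw [idem_eq]
  exact nz_smul R _ h

include R in
lemma inv_congr {X : C} {u v : X ⟶ X} (h : NE hU u v) (hu : NumInvolution hU u) :
    NumInvolution hU v := by
  have h1 : NE hU (u ≫ u) (v ≫ v) := NE.comp R h h
  have h2 : NE hU (v ≫ v) (𝟙 X) := NE.trans R (NE.symm R h1) hu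
  exact h2

include R in
lemma sign_congr {X : C} {u v : X ⟶ X} (h : NE hU u v) (hu : IsSign hU u) : IsSign hU v := by
  refine ⟨inv_congr R h hu.1, fun e he hne => ?_⟩
  have h1 : NE hU (u ≫ e) (v ≫ e) := NE.comp R h (NE.rfl' e)
  rw [← h1.ctr_eq]
  exact hu.2 e he hne

/-- product of a central involution and an involution -/
lemma prod_inv {X : C} {x v : X ⟶ X} (hx : NumInvolution hU x)
    (hc : ∀ g : X ⟶ X, NumZero hU (x ≫ g - g ≫ x)) (hv : NumInvolution hU v)
    (R : SuperRealisation C K) : NumInvolution hU (x ≫ v) := by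
  have h1 : NE hU (x ≫ v) (v ≫ x) := hc v
  have h2 : NE hU ((x ≫ v) ≫ (x ≫ v)) ((x ≫ v) ≫ (v ≫ x)) := NE.comp R (NE.rfl' _) h1
  have h3 : (x ≫ v) ≫ (v ≫ x) = x ≫ (v ≫ v) ≫ x := by simp
  have h4 : NE hU (x ≫ (v ≫ v) ≫ x) (x ≫ 𝟙 X ≫ x) :=
    NE.comp R (NE.rfl' x) (NE.comp R hv (NE.rfl' x))
  have h5 : x ≫ 𝟙 X ≫ x = x ≫ x := by simp
  rw [h3] at h2
  rw [h5] at h4
  exact NE.trans R (NE.trans R h2 h4) hx

include R in
/-- **Uniqueness**: a numerical involution with the trace of the sign, or a sign, is the sign. -/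
theorem sign_unique_aux {X : C} {x v : X ⟶ X} (hx : IsSign hU x)
    (hc : ∀ g : X ⟶ X, NumZero hU (x ≫ g - g ≫ x)) (hv : NumInvolution hU v)
    (h : ctr hU x ≤ ctr hU v ∨ IsSign hU v) : NE hU v x := by
  have h1 := idem_of_inv R (prod_inv hx.1 hc hv R)
  set y : X ⟶ X := (1 / 2 : ℚ) • (𝟙 X - x ≫ v) with hy
  have h2 : ctr hU (x ≫ y) = (1 / 2) * (ctr hU x - ctr hU v) := by
    have e1 : x ≫ y = (1 / 2 : ℚ) • (x - (x ≫ x) ≫ v) := by
      rw [hy, Linear.comp_smul, Preadditive.comp_sub, Category.comp_id, Category.assoc]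
    have e2 : NE hU ((x ≫ x) ≫ v) (𝟙 X ≫ v) := NE.comp R hx.1 (NE.rfl' v)
    rw [e1, ctr_smul, ctr_sub', e2.ctr_eq, Category.id_comp]
  have h3 : NumZero hU y := by
    by_contra hne
    have h4 := hx.2 y h1 hne
    rw [h2] at h4
    rcases h with h | h
    · linarith
    · have h5 := h.2 y h1 hne
      have e1 : ctr hU (v ≫ y) = (1 / 2) * (ctr hU v - ctr hU x) := by
        have e1 : v ≫ y = (1 / 2 : ℚ) • (v - v ≫ x ≫ v) := by
          rw [hy, Linear.comp_smul, Preadditive.comp_sub, Category.comp_id]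
        have e2 : NE hU ((x ≫ v) ≫ v) x := by
          have e3 : NE hU (x ≫ (v ≫ v)) (x ≫ 𝟙 X) := NE.comp R (NE.rfl' x) hv
          rw [Category.comp_id] at e3
          rw [Category.assoc]
          exact e3
        rw [e1, ctr_smul, ctr_sub', ctr_comm R hU v (x ≫ v), e2.ctr_eq]
      rw [e1] at h5
      linarith
  -- `x v = 1`, so `v = x`
  have h4 : NE hU (x ≫ v) (𝟙 X) := by
    have h5 := nz_smul R (-2) h3
    have h6 : (-2 : ℚ) • y = x ≫ v - 𝟙 X := by
      rw [hy, smul_smul, smul_sub]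
      module
    rw [h6] at h5
    exact h5
  have h5 : NE hU (x ≫ (x ≫ v)) (x ≫ 𝟙 X) := NE.comp R (NE.rfl' x) h4
  have h6 : NE hU ((x ≫ x) ≫ v) (𝟙 X ≫ v) := NE.comp R hx.1 (NE.rfl' v)
  rw [Category.comp_id] at h5
  rw [Category.assoc, Category.id_comp] at h6
  exact NE.trans R (NE.symm R h6) h5

include R in
theorem exists_isSign (X : C) : ∃ x : X ⟶ X, IsSign hU x ∧
    (∀ g : X ⟶ X, NumZero hU (x ≫ g - g ≫ x)) ∧ ∀ ρ : ℕ, IsIdx hU X ρ → ctr hU x = ρ := by
  obtain ⟨x, hx, hc, hy⟩ := exists_sign hU R X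
  refine ⟨x, ⟨hx, fun e he hne => (hy e he).2 hne⟩, hc, fun ρ hρ => ?_⟩
  apply le_antisymm
  · exact hρ.2 ⟨x, hx, rfl⟩
  · obtain ⟨u, hu, hur⟩ := hρ.1
    rw [← hur]
    have h1 := (hy _ (idem_of_inv R hu)).1
    have hu' : NumInvolution hU (-u) := by
      intro g
      have h2 : (-u) ≫ (-u) - 𝟙 X = u ≫ u - 𝟙 X := by simp
      rw [h2]
      exact hu g
    have h2 := (hy _ (idem_of_inv R hu')).1
    simp only [Linear.comp_smul, Preadditive.comp_sub, Category.comp_id, ctr_smul, ctr_sub',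
      Preadditive.comp_neg] at h1 h2
    have e1 : ctr hU (-u) = - ctr hU u := (trq hU X).map_neg u
    have e2 : ctr hU (-(x ≫ u)) = - ctr hU (x ≫ u) := (trq hU X).map_neg _
    rw [e1, e2] at h2
    have h3 := (abs_le.1 h1).1
    have h4 := (abs_le.1 h2).2
    linarith

include R in
/-- **Characterisation of signs.** -/
theorem isSign_iff {X : C} {ρ : ℕ} (hρ : IsIdx hU X ρ) (v : X ⟶ X) :
    IsSign hU v ↔ NumInvolution hU v ∧ ctr hU v = ρ := by
  obtain ⟨x, hx, hc, hxr⟩ := exists_isSign (hU := hU) R X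
  constructor
  · intro hv
    have h1 := sign_unique_aux R hx hc hv.1 (Or.inr hv)
    exact ⟨hv.1, by rw [h1.ctr_eq, hxr ρ hρ]⟩
  · rintro ⟨hv, hvr⟩
    have h1 := sign_unique_aux R hx hc hv (Or.inl (by rw [hvr, hxr ρ hρ]))
    exact sign_congr R (NE.symm R h1) hx

include R in
theorem sign_unique {X : C} {v v' : X ⟶ X} (hv : IsSign hU v) (hv' : IsSign hU v') :
    NE hU v v' := by
  obtain ⟨x, hx, hc, -⟩ := exists_isSign (hU := hU) R X
  exact NE.trans R (sign_unique_aux R hx hc hv.1 (Or.inr hv))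
    (NE.symm R (sign_unique_aux R hx hc hv'.1 (Or.inr hv')))

include R in
theorem sign_central {X : C} {v : X ⟶ X} (hv : IsSign hU v) (g : X ⟶ X) :
    NE hU (v ≫ g) (g ≫ v) := by
  obtain ⟨x, hx, hc, -⟩ := exists_isSign (hU := hU) R X
  have h := sign_unique_aux R hx hc hv.1 (Or.inr hv)
  exact NE.trans R (NE.comp R h (NE.rfl' g)) (NE.trans R (hc g)
    (NE.comp R (NE.rfl' g) (NE.symm R h)))

end

end Pool.Agent.H64ND
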