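import Pool.Agent.H64ND.Stm4
import Pool.Agent.H64ND.Sig

/-!
# Piece DUAL: dual bases modulo numerical equivalence
-/

set_option autoImplicit false
set_option linter.unusedSectionVars false

open CategoryTheory Limits MonoidalCategory
open Pool.Agent.Y112.SR Pool.Agent.Y112.KD Pool.Agent.Y112.SC Pool.Agent.R484.NC Pool.Agent.H64NC

namespace Pool.Agent.H64ND

universe u v w

/-- **Piece DUAL.** -/
theorem t_DUAL : S_DUAL.{u, v, w} := by
  intro C _ _ _ _ _ _ _ _ hU K _ R X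
  classical
  obtain ⟨ρ, hρ, -⟩ := exists_index hU R
  let P : ℕ → Prop := fun r => ∃ f : Fin r → (X ⟶ X),
    ∀ a : Fin r → ℚ, NumZero hU (∑ i, a i • f i) → a = 0
  have hP0 : P 0 := ⟨fun i => i.elim0, fun a _ => Subsingleton.elim _ _⟩
  have hb : ∀ r, P r → r ≤ ρ X ^ 2 := fun r ⟨f, hf⟩ => rank_le R (hρ X) r f hf
  obtain ⟨m, hm, hmax⟩ : ∃ m, P m ∧ ¬ P (m + 1) := by
    by_contra hcon
    push Not at hcon
    have h1 : ∀ r, P r := fun r => by
      induction r with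
      | zero => exact hP0
      | succ r ih => exact hcon r ih
    have h2 := hb _ (h1 (ρ X ^ 2 + 1))
    omega
  obtain ⟨f, hf⟩ := hm
  have hsumc : ∀ (b : Fin m → ℚ) (z : X ⟶ X), ctr hU ((∑ i, b i • f i) ≫ z) =
      ∑ i, b i * ctr hU (f i ≫ z) := by
    intro b z
    rw [Preadditive.sum_comp]
    have h1 : ctr hU (∑ i, (b i • f i) ≫ z) = ∑ i, ctr hU ((b i • f i) ≫ z) :=
      map_sum (trq hU X) _ _
    rw [h1]
    exact Finset.sum_congr rfl fun i _ => by rw [Linear.smul_comp, ctr_smul]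
  have hspan : ∀ h : X ⟶ X, ∃ b : Fin m → ℚ, NE hU h (∑ i, b i • f i) := by
    intro h
    have h1 : ¬ ∀ a : Fin (m + 1) → ℚ,
        NumZero hU (∑ i, a i • (Fin.cons h f : Fin (m + 1) → (X ⟶ X)) i) → a = 0 :=
      fun h2 => hmax ⟨_, h2⟩
    push Not at h1
    obtain ⟨a, ha, ha0⟩ := h1
    rw [Fin.sum_univ_succ] at ha
    simp only [Fin.cons_zero, Fin.cons_succ] at ha
    by_cases hc : a 0 = 0
    · exfalso
      rw [hc, zero_smul, zero_add] at ha
      have h2 := hf _ ha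
      apply ha0
      funext i
      refine Fin.cases hc (fun j => congrFun h2 j) i
    · refine ⟨fun i => -((a 0)⁻¹ * a i.succ), ?_⟩
      have h3 := nz_smul R (a 0)⁻¹ ha
      have h4 : (a 0)⁻¹ • (a 0 • h + ∑ i : Fin m, a i.succ • f i) =
          h - ∑ i, (-((a 0)⁻¹ * a i.succ)) • f i := by
        rw [smul_add, smul_smul, inv_mul_cancel₀ hc, one_smul, Finset.smul_sum, sub_eq_add_neg,
          ← Finset.sum_neg_distrib]
        congr 1
        refine Finset.sum_congr rfl fun i _ => ?_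
        rw [smul_smul, neg_smul, neg_neg]
      rw [h4] at h3
      exact h3
  let G : Matrix (Fin m) (Fin m) ℚ := Matrix.of fun i j => ctr hU (f i ≫ f j)
  have hG : G.det ≠ 0 := by
    intro h0
    obtain ⟨v, hv0, hv⟩ := Matrix.exists_mulVec_eq_zero_iff.2 h0
    apply hv0
    apply hf
    intro h
    obtain ⟨b, hb⟩ := hspan h
    have h1 : NE hU ((∑ i, v i • f i) ≫ h) ((∑ i, v i • f i) ≫ ∑ i, b i • f i) :=
      NE.comp R (NE.rfl' _) hb
    rw [h1.ctr_eq, ctr_comm R hU, hsumc]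
    refine Finset.sum_eq_zero fun i _ => ?_
    have h2 : ctr hU (f i ≫ ∑ j, v j • f j) = 0 := by
      rw [ctr_comm R hU, hsumc]
      have h3 := congrFun hv i
      rw [Matrix.mulVec, dotProduct, Pi.zero_apply] at h3
      rw [← h3]
      refine Finset.sum_congr rfl fun j _ => ?_
      show v j * ctr hU (f j ≫ f i) = ctr hU (f i ≫ f j) * v j
      rw [ctr_comm R hU, mul_comm]
    rw [h2, mul_zero]
  refine ⟨m, f, fun j => ∑ k, G⁻¹ k j • f k, ?_, ?_⟩
  · intro i j
    rw [ctr_comm R hU, hsumc]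
    have h1 : (G * G⁻¹) i j = (1 : Matrix (Fin m) (Fin m) ℚ) i j := by
      rw [Matrix.mul_nonsing_inv G (isUnit_iff_ne_zero.2 hG)]
    rw [Matrix.mul_apply, Matrix.one_apply] at h1
    rw [← h1]
    refine Finset.sum_congr rfl fun k _ => ?_
    show G⁻¹ k j * ctr hU (f k ≫ f i) = ctr hU (f i ≫ f k) * G⁻¹ k j
    rw [ctr_comm R hU, mul_comm]
  · intro h
    obtain ⟨b, hb⟩ := hspan h
    have h1 : ∀ i, ctr hU (h ≫ ∑ k, G⁻¹ k i • f k) = b i := by
      intro i
      have h2 : NE hU (h ≫ ∑ k, G⁻¹ k i • f k) ((∑ i, b i • f i) ≫ ∑ k, G⁻¹ k i • f k) :=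
        NE.comp R hb (NE.rfl' _)
      rw [h2.ctr_eq, hsumc]
      have h3 : ∀ j, ctr hU (f j ≫ ∑ k, G⁻¹ k i • f k) = if j = i then 1 else 0 := by
        intro j
        rw [ctr_comm R hU, hsumc]
        have h4 : (G * G⁻¹) j i = (1 : Matrix (Fin m) (Fin m) ℚ) j i := by
          rw [Matrix.mul_nonsing_inv G (isUnit_iff_ne_zero.2 hG)]
        rw [Matrix.mul_apply, Matrix.one_apply] at h4
        rw [← h4]
        refine Finset.sum_congr rfl fun k _ => ?_
        show G⁻¹ k i * ctr hU (f k ≫ f j) = ctr hU (f j ≫ f k) * G⁻¹ k i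
        rw [ctr_comm R hU, mul_comm]
      simp [h3]
    have h5 : ∑ i, ctr hU (h ≫ ∑ k, G⁻¹ k i • f k) • f i = ∑ i, b i • f i :=
      Finset.sum_congr rfl fun i _ => by rw [h1 i]
    rw [h5]
    exact hb

end Pool.Agent.H64ND
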