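import Pool.Agent.H64ND.Stm

/-!
Piece FACTB of project ND (helper64).
-/

set_option autoImplicit false

open Finset

namespace Pool.Agent.H64ND

namespace FB

lemma act0_single {n : ℕ} {A : Type} (σ : Equiv.Perm (Fin n)) (c : ℚ) (u : (Fin n → A) → ℚ)
    (w : Fin n → A) : act0 (MonoidAlgebra.single σ c) u w = c * u (w ∘ σ) := by
  classical
  unfold act0
  rw [Finset.sum_eq_single σ]
  · rw [MonoidAlgebra.coeff_single, Finsupp.single_eq_same]
  · intro τ _ hτ
    rw [MonoidAlgebra.coeff_single, Finsupp.single_eq_of_ne hτ, zero_mul]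
  · intro h
    exact absurd (Finset.mem_univ _) h

lemma act0_add {n : ℕ} {A : Type} (x y : QS n) (u : (Fin n → A) → ℚ) (w : Fin n → A) :
    act0 (x + y) u w = act0 x u w + act0 y u w := by
  unfold act0
  simp only [MonoidAlgebra.coeff_add, Finsupp.coe_add, Pi.add_apply, add_mul,
    Finset.sum_add_distrib]

lemma act0_zero {n : ℕ} {A : Type} (u : (Fin n → A) → ℚ) (w : Fin n → A) :
    act0 (0 : QS n) u w = 0 := by
  unfold act0
  simp

lemma act0_add_right {n : ℕ} {A : Type} (x : QS n) (u v : (Fin n → A) → ℚ) (w : Fin n → A) :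
    act0 x (fun w => u w + v w) w = act0 x u w + act0 x v w := by
  unfold act0
  simp only [mul_add, Finset.sum_add_distrib]

lemma act0_smul_right {n : ℕ} {A : Type} (x : QS n) (c : ℚ) (u : (Fin n → A) → ℚ)
    (w : Fin n → A) : act0 x (fun w => c * u w) w = c * act0 x u w := by
  unfold act0
  rw [Finset.mul_sum]
  exact Finset.sum_congr rfl fun σ _ => by ring

lemma act0_mul {n : ℕ} {A : Type} (x y : QS n) (u : (Fin n → A) → ℚ) :
    act0 (x * y) u = act0 x (act0 y u) := by
  induction x using MonoidAlgebra.induction_linear with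
  | zero =>
    funext w
    rw [zero_mul, act0_zero, act0_zero]
  | add x x' hx hx' =>
    funext w
    rw [add_mul, act0_add, act0_add, hx, hx']
  | single σ c =>
    induction y using MonoidAlgebra.induction_linear with
    | zero =>
      funext w
      rw [mul_zero, act0_zero, act0_single, act0_zero, mul_zero]
    | add y y' hy hy' =>
      funext w
      rw [mul_add, act0_add, hy, hy', act0_single, act0_single, act0_single, act0_add, mul_add]
    | single τ d =>
      funext w
      rw [MonoidAlgebra.single_mul_single, act0_single, act0_single, act0_single, mul_assoc]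
      rfl

lemma act0_exQ {n k : ℕ} {A : Type} (x : QS n) (u : (Fin (n + k) → A) → ℚ)
    (w : Fin (n + k) → A) :
    act0 (exQ n k x) u w = ∑ σ : Equiv.Perm (Fin n), x.coeff σ * u (w ∘ exA n k σ) := by
  classical
  induction x using MonoidAlgebra.induction_linear with
  | zero =>
    rw [map_zero, act0_zero]
    simp
  | add x x' hx hx' =>
    rw [map_add, act0_add, hx, hx']
    simp only [MonoidAlgebra.coeff_add, Finsupp.coe_add, Pi.add_apply, add_mul,
      Finset.sum_add_distrib]
  | single σ c =>
    have h1 : exQ n k (MonoidAlgebra.single σ c) = MonoidAlgebra.single (exA n k σ) c := by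
      unfold exQ
      rw [MonoidAlgebra.mapDomainRingHom_apply, MonoidAlgebra.mapDomain_single]
    rw [h1, act0_single, Finset.sum_eq_single σ]
    · rw [MonoidAlgebra.coeff_single, Finsupp.single_eq_same]
    · intro τ _ hτ
      rw [MonoidAlgebra.coeff_single, Finsupp.single_eq_of_ne hτ, zero_mul]
    · intro h
      exact absurd (Finset.mem_univ _) h

/-- The identity column. -/
lemma detw_id {a : ℕ} (f : Fin a → Fin a) (h : ∀ r, f r = r) : detw f = 1 := by
  unfold detw
  have h1 : (Matrix.of fun r s => if f r = s then (1 : ℚ) else 0) = 1 := by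
    ext r s
    simp only [Matrix.of_apply, h, Matrix.one_apply]
  rw [h1, Matrix.det_one]

/-- A column with the identity in the last rows. -/
lemma detw_block {a m : ℕ} (f₀ : Fin a → Fin a) (f : Fin (a + m) → Fin (a + m))
    (h1 : ∀ r, f (Fin.castAdd m r) = Fin.castAdd m (f₀ r))
    (h2 : ∀ r, f (Fin.natAdd a r) = Fin.natAdd a r) : detw f = detw f₀ := by
  unfold detw
  rw [← Matrix.det_submatrix_equiv_self (finSumFinEquiv : Fin a ⊕ Fin m ≃ Fin (a + m))]
  have h3 : (Matrix.of fun r s => if f r = s then (1 : ℚ) else 0).submatrix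
      (finSumFinEquiv : Fin a ⊕ Fin m ≃ Fin (a + m)) finSumFinEquiv =
      Matrix.fromBlocks (Matrix.of fun r s => if f₀ r = s then (1 : ℚ) else 0) 0 0 1 := by
    ext r s
    rcases r with r | r <;> rcases s with s | s
    · simp [h1]
    · simp only [Matrix.submatrix_apply, finSumFinEquiv_apply_left, finSumFinEquiv_apply_right,
        Matrix.of_apply, h1, Matrix.fromBlocks_apply₁₂, Matrix.zero_apply]
      rw [if_neg]
      intro h
      have := congrArg Fin.val h
      simp at this
      omega
    · simp only [Matrix.submatrix_apply, finSumFinEquiv_apply_left, finSumFinEquiv_apply_right,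
        Matrix.of_apply, h2, Matrix.fromBlocks_apply₂₁, Matrix.zero_apply]
      rw [if_neg]
      intro h
      have := congrArg Fin.val h
      simp at this
      omega
    · simp [h2, Matrix.one_apply]
  rw [h3, Matrix.det_fromBlocks_zero₂₁, Matrix.det_one, mul_one]

/-- Extension of an injection to an equivalence. -/
lemma exists_ext {n k : ℕ} {B : Type} [Fintype B] [DecidableEq B] (ι : Fin n → B)
    (hι : Function.Injective ι) (hc : n + k = Fintype.card B) :
    ∃ t' : Fin (n + k) ≃ B, ∀ j, t' (Fin.castAdd k j) = ι j := by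
  classical
  have h1 : Fintype.card (Fin k) = Fintype.card ((Set.range ι)ᶜ : Set B) := by
    have h2 : Fintype.card (Set.range ι) = n := by
      rw [← Fintype.card_congr (Equiv.ofInjective ι hι), Fintype.card_fin]
    rw [Fintype.card_compl_set, h2, Fintype.card_fin]
    omega
  let g : Fin k ≃ ((Set.range ι)ᶜ : Set B) := Fintype.equivOfCardEq h1
  refine ⟨finSumFinEquiv.symm.trans ((Equiv.sumCongr (Equiv.ofInjective ι hι) g).trans
    (Equiv.Set.sumCompl (Set.range ι))), fun j => ?_⟩
  simp

end FB

open FB in
theorem t_FACTB : S_FACTB := by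
  classical
  intro a b a' b' n k ha hb hn hk e e' he he' h0
  obtain ⟨m, rfl⟩ := Nat.exists_eq_add_of_le ha
  obtain ⟨l, rfl⟩ := Nat.exists_eq_add_of_le hb
  subst hn
  let t : Fin (b * a) ≃ Fin b × Fin a := finProdFinEquiv.symm
  let ι : Fin (b * a) → Fin (b + l) × Fin (a + m) :=
    fun j => (Fin.castAdd l (t j).1, Fin.castAdd m (t j).2)
  have hι : Function.Injective ι := by
    intro j j' hj
    have h1 := congrArg Prod.fst hj
    have h2 := congrArg Prod.snd hj
    exact t.injective (Prod.ext (Fin.castAdd_injective _ _ h1) (Fin.castAdd_injective _ _ h2))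
  obtain ⟨t', ht'⟩ := exists_ext (k := k) ι hι (by
    rw [Fintype.card_prod, Fintype.card_fin, Fintype.card_fin, hk])
  let W : Fin (b * a + k) → Fin (a + m) := fun i => (t' i).2
  have h1 : act0 (exQ (b * a) k e) (dv t') W = 0 := by
    have h2 : act0 (exQ (b * a) k e * e') (dv t') W = 0 := by
      rw [h0, act0_zero]
    rwa [act0_mul, he'] at h2
  -- the places outside the first block
  have hout : ∀ (σ : Equiv.Perm (Fin (b * a))) (c : Fin (b + l)) (r : Fin (a + m)),
      (∀ j, ι j ≠ (c, r)) → (W ∘ exA (b * a) k σ) (t'.symm (c, r)) = r := by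
    intro σ c r h
    obtain ⟨i, hi⟩ : ∃ i, t'.symm (c, r) = Fin.natAdd (b * a) i := by
      revert h
      generalize hz : t'.symm (c, r) = z
      intro h
      induction z using Fin.addCases with
      | left j =>
        exfalso
        refine h j ?_
        rw [← ht' j, ← hz, Equiv.apply_symm_apply]
      | right i => exact ⟨i, rfl⟩
    have h3 : t' (Fin.natAdd (b * a) i) = (c, r) := by rw [← hi, Equiv.apply_symm_apply]
    simp only [Function.comp_apply, hi, exA_natAdd, W, h3]
  have hin : ∀ (σ : Equiv.Perm (Fin (b * a))) (c : Fin b) (r : Fin a),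
      (W ∘ exA (b * a) k σ) (t'.symm (Fin.castAdd l c, Fin.castAdd m r)) =
        Fin.castAdd m (((fun j => (t j).2) ∘ σ) (t.symm (c, r))) := by
    intro σ c r
    have h3 : t'.symm (Fin.castAdd l c, Fin.castAdd m r) = Fin.castAdd k (t.symm (c, r)) := by
      rw [Equiv.symm_apply_eq, ht']
      simp [ι]
    simp only [Function.comp_apply, h3, exA_castAdd, W, ht', ι]
  have key : ∀ σ : Equiv.Perm (Fin (b * a)), dv t' (W ∘ exA (b * a) k σ) =
      dv t ((fun j => (t j).2) ∘ σ) := by
    intro σ
    unfold dv
    rw [Fin.prod_univ_add]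
    have h3 : ∀ c : Fin l, detw (fun r => (W ∘ exA (b * a) k σ) (t'.symm (Fin.natAdd b c, r))) = 1 := by
      intro c
      refine detw_id _ fun r => hout σ _ r ?_
      intro j hj
      have := congrArg Fin.val (congrArg Prod.fst hj)
      simp [ι] at this
      omega
    rw [Finset.prod_congr rfl fun c _ => h3 c, Finset.prod_const_one, mul_one]
    refine Finset.prod_congr rfl fun c _ => ?_
    refine detw_block _ _ (fun r => hin σ c r) fun r => hout σ _ _ ?_
    intro j hj
    have := congrArg Fin.val (congrArg Prod.snd hj)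
    simp [ι] at this
    omega
  rw [act0_exQ] at h1
  simp only [key] at h1
  have h4 : act0 e (dv t) (fun j => (t j).2) = 0 := h1
  rw [he] at h4
  have h5 : dv t (fun j => (t j).2) = 1 := by
    unfold dv
    refine Finset.prod_eq_one fun c _ => detw_id _ fun r => ?_
    simp
  rw [h5] at h4
  exact one_ne_zero h4

end Pool.Agent.H64ND
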