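import Pool.Agent.H64ND.Beta

/-!
# Project ND (helper64): the numerical Betti number
-/

set_option autoImplicit false
set_option linter.unusedSectionVars false

open CategoryTheory Limits MonoidalCategory Finset Filter Topology
open Pool.Agent.Y112.SR Pool.Agent.Y112.KD Pool.Agent.Y112.SC Pool.Agent.R484.NC Pool.Agent.H64NC

namespace Pool.Agent.H64ND

universe u v w

lemma sq_le_sq_nat {a b : ℕ} (h : a ^ 2 ≤ b ^ 2) : a ≤ b :=
  (Nat.pow_le_pow_iff_left (by norm_num)).1 h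

/-- from a bound of the squares to a bound with a bigger polynomial factor -/
lemma root_bound {t b k n E : ℕ} (hk : k ≤ n) (h : t ^ 2 ≤ b ^ (2 * k) * (k + 1) ^ E) :
    t ≤ b ^ k * (n + 1) ^ E := by
  apply sq_le_sq_nat
  calc t ^ 2 ≤ b ^ (2 * k) * (k + 1) ^ E := h
    _ ≤ b ^ (2 * k) * ((n + 1) ^ E) ^ 2 := by
      apply Nat.mul_le_mul_left
      calc (k + 1) ^ E ≤ (n + 1) ^ E := Nat.pow_le_pow_left (by omega) _
        _ = ((n + 1) ^ E) ^ 1 := (pow_one _).symm
        _ ≤ ((n + 1) ^ E) ^ 2 := Nat.pow_le_pow_right (by positivity) (by norm_num)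
    _ = (b ^ k * (n + 1) ^ E) ^ 2 := by rw [mul_pow, ← pow_mul b k 2, mul_comm k 2]

lemma root_bound' {t b k n E : ℕ} (hk : k ≤ n) (h : b ^ (2 * k) ≤ t ^ 2 * (k + 1) ^ E) :
    b ^ k ≤ t * (n + 1) ^ E := by
  apply sq_le_sq_nat
  calc (b ^ k) ^ 2 = b ^ (2 * k) := by rw [← pow_mul, mul_comm]
    _ ≤ t ^ 2 * (k + 1) ^ E := h
    _ ≤ t ^ 2 * ((n + 1) ^ E) ^ 2 := by
      apply Nat.mul_le_mul_left
      calc (k + 1) ^ E ≤ (n + 1) ^ E := Nat.pow_le_pow_left (by omega) _
        _ = ((n + 1) ^ E) ^ 1 := (pow_one _).symm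
        _ ≤ ((n + 1) ^ E) ^ 2 := Nat.pow_le_pow_right (by positivity) (by norm_num)
    _ = (t * (n + 1) ^ E) ^ 2 := by rw [mul_pow]

section

variable {C : Type u} [Category.{v} C] [Preadditive C] [Linear ℚ C] [MonoidalCategory C]
  [MonoidalPreadditive C] [MonoidalLinear ℚ C] [SymmetricCategory C] [RightRigidCategory C]

/-- **The numerical Betti number.** -/
theorem betti (A : AllC.{u, v, w}) (hU : UnitQ C) {K₀ : Type w} [Field K₀]
    (R₀ : SuperRealisation C K₀) :
    ∃ β : C → ℕ,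
      (∀ M n ρ, IsIdx hU (tp M n) ρ → ρ ≤ β M ^ n ∧
        β M ^ (2 * n) ≤ ρ ^ 2 * (n + 1) ^ (β M ^ 2)) ∧
      β (𝟙_ C) = 1 ∧ (∀ M N, β (M ⊗ N) = β M * β N) ∧
      (∀ M N S, IsSum M N S → β S = β M + β N) ∧
      (∀ M, β M = 0 ↔ NumZero hU (𝟙 M)) ∧
      ∀ (M : C) {K : Type w} [Field K] (R : SuperRealisation C K), β M ≤ totalDim R M ∧
        Even (totalDim R M - β M) ∧ (β M = totalDim R M ↔ Nil R hU M) := by
  obtain ⟨ρ, hρ0, -, hmul, hadd⟩ := exists_index hU R₀
  have hρ : ∀ X, IsIdx hU X (ρ X) := hρ0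
  have hsub : ∀ M N S, IsSum M N S → ρ S ≤ ρ M + ρ N := fun M N S h =>
    idx_sub R₀ A.cen h (hρ M) (hρ N) (hρ S)
  choose p q hp hpq hlow T hT hT2 using fun M => exists_num hU R₀ A M
  set β : C → ℕ := fun M => p M + q M with hβ
  have low : ∀ M n, β M ^ (2 * n) ≤ ρ (tp M n) ^ 2 * (n + 1) ^ (β M ^ 2) :=
    fun M n => hlow M n _ (hρ _)
  have cut : ∀ M n, ρ (tp M n) ≤ T M n := fun M n => cutb_le A.cub (hT M n) (hρ _)
  have up : ∀ M n, ρ (tp M n) ≤ β M ^ n := by
    intro M n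
    apply sq_le_sq_nat
    apply le_of_pow_poly (n := n) (E := totalDim R₀ M ^ 2)
    intro k _
    have h1 := rho_pow R₀ (hU := hU) (M := M) (ρ := fun n => ρ (tp M n)) (fun n => hρ _) n k
    calc (ρ (tp M n) ^ 2) ^ k = (ρ (tp M n) ^ k) ^ 2 := by rw [← pow_mul, ← pow_mul, mul_comm]
      _ ≤ (ρ (tp M (n * k))) ^ 2 := Nat.pow_le_pow_left h1 2
      _ ≤ (T M (n * k)) ^ 2 := Nat.pow_le_pow_left (cut M _) 2
      _ ≤ β M ^ (2 * (n * k)) * (n * k + 1) ^ (totalDim R₀ M ^ 2) := hT2 M _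
      _ = ((β M ^ n) ^ 2) ^ k * (n * k + 1) ^ (totalDim R₀ M ^ 2) := by
        congr 1
        rw [← pow_mul, ← pow_mul]
        congr 1
        ring
  have hle : ∀ (M : C) {K : Type w} [Field K] (R : SuperRealisation C K), β M ≤ totalDim R M := by
    intro M K _ R
    apply sq_le_sq_nat
    apply le_of_pow_poly (n := 1) (E := β M ^ 2)
    intro k _
    have h1 := rho_le R (hU := hU) (M := M) (ρ := fun n => ρ (tp M n)) (fun n => hρ _) k
    calc (β M ^ 2) ^ k = β M ^ (2 * k) := by rw [← pow_mul]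
      _ ≤ ρ (tp M k) ^ 2 * (k + 1) ^ (β M ^ 2) := low M k
      _ ≤ (totalDim R M ^ k) ^ 2 * (k + 1) ^ (β M ^ 2) :=
        Nat.mul_le_mul_right _ (Nat.pow_le_pow_left h1 2)
      _ = (totalDim R M ^ 2) ^ k * (1 * k + 1) ^ (β M ^ 2) := by
        rw [one_mul]
        congr 1
        rw [← pow_mul, ← pow_mul, mul_comm]
  have hev : ∀ (M : C) {K : Type w} [Field K] (R : SuperRealisation C K),
      Even (totalDim R M - β M) := by
    intro M K _ R
    have h1 : ctr hU (𝟙 M) = 2 * evenDim R M - totalDim R M := ctr_one R hU M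
    have h2 : ctr hU (𝟙 M) = 2 * evenDim R₀ M - totalDim R₀ M := ctr_one R₀ hU M
    have h3 : (2 * evenDim R M - totalDim R M : ℚ) = ((p M : ℤ) - q M : ℤ) := by
      rw [hpq M, ← h1, h2]
      push_cast
      ring
    have h4 : (2 * (evenDim R M : ℤ) - totalDim R M) = (p M : ℤ) - q M := by exact_mod_cast h3
    have h5 := hle M R
    have h6 : ((totalDim R M - β M : ℕ) : ℤ) = 2 * ((evenDim R M : ℤ) - p M) := by
      rw [Nat.cast_sub h5]
      have : (β M : ℤ) = p M + q M := by rw [hβ]; push_cast; ring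
      rw [this]
      linarith
    have h7 : Even ((totalDim R M - β M : ℕ) : ℤ) := by rw [h6]; exact even_two_mul _
    exact_mod_cast h7
  have hunit : β (𝟙_ C) = 1 := by
    have h1 := hle (𝟙_ C) R₀
    have h2 := hev (𝟙_ C) R₀
    rw [totalDim_unit] at h1 h2
    rcases Nat.lt_or_ge (β (𝟙_ C)) 1 with h | h
    · have h3 : β (𝟙_ C) = 0 := by omega
      rw [h3] at h2
      exact absurd h2 (by decide)
    · omega
  refine ⟨β, ?_, hunit, ?_, ?_, ?_, ?_⟩
  · intro M n r hr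
    have h1 : r = ρ (tp M n) := by
      have h2 := IsGreatest.unique hr (hρ (tp M n))
      exact_mod_cast h2
    rw [h1]
    exact ⟨up M n, low M n⟩
  · intro M N
    apply le_antisymm
    · apply sq_le_sq_nat
      apply le_of_pow_poly (n := 1) (E := totalDim R₀ M ^ 2 + totalDim R₀ N ^ 2 + β (M ⊗ N) ^ 2)
      intro k _
      obtain ⟨e⟩ := tp_tensor M N k
      have h1 : ρ (tp (M ⊗ N) k) ≤ T M k * T N k := by
        rw [rho_iso R₀ hρ e]
        exact cutb_le A.cub (cutb_tensor A.cnum (hT M k) (hT N k)) (hρ _)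
      calc (β (M ⊗ N) ^ 2) ^ k = β (M ⊗ N) ^ (2 * k) := by rw [← pow_mul]
        _ ≤ ρ (tp (M ⊗ N) k) ^ 2 * (k + 1) ^ (β (M ⊗ N) ^ 2) := low _ _
        _ ≤ (T M k * T N k) ^ 2 * (k + 1) ^ (β (M ⊗ N) ^ 2) :=
          Nat.mul_le_mul_right _ (Nat.pow_le_pow_left h1 2)
        _ = (T M k ^ 2 * T N k ^ 2) * (k + 1) ^ (β (M ⊗ N) ^ 2) := by rw [mul_pow]
        _ ≤ ((β M ^ (2 * k) * (k + 1) ^ (totalDim R₀ M ^ 2)) *
            (β N ^ (2 * k) * (k + 1) ^ (totalDim R₀ N ^ 2))) * (k + 1) ^ (β (M ⊗ N) ^ 2) :=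
          Nat.mul_le_mul_right _ (Nat.mul_le_mul (hT2 M k) (hT2 N k))
        _ = _ := by
          rw [one_mul, pow_add, pow_add, mul_pow, mul_pow, ← pow_mul, ← pow_mul]
          ring
    · apply sq_le_sq_nat
      apply le_of_pow_poly (n := 1) (E := β M ^ 2 + β N ^ 2)
      intro k _
      obtain ⟨e⟩ := tp_tensor M N k
      have h1 : ρ (tp M k) * ρ (tp N k) ≤ β (M ⊗ N) ^ k :=
        ((hmul _ _).trans (le_of_eq (rho_iso R₀ hρ e.symm))).trans (up _ _)
      calc ((β M * β N) ^ 2) ^ k = β M ^ (2 * k) * β N ^ (2 * k) := by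
            rw [mul_pow, mul_pow, ← pow_mul, ← pow_mul]
        _ ≤ (ρ (tp M k) ^ 2 * (k + 1) ^ (β M ^ 2)) * (ρ (tp N k) ^ 2 * (k + 1) ^ (β N ^ 2)) :=
          Nat.mul_le_mul (low M k) (low N k)
        _ = (ρ (tp M k) * ρ (tp N k)) ^ 2 * (k + 1) ^ (β M ^ 2 + β N ^ 2) := by
          rw [pow_add, mul_pow]; ring
        _ ≤ (β (M ⊗ N) ^ k) ^ 2 * (k + 1) ^ (β M ^ 2 + β N ^ 2) :=
          Nat.mul_le_mul_right _ (Nat.pow_le_pow_left h1 2)
        _ = _ := by rw [one_mul, ← pow_mul, ← pow_mul, mul_comm k 2]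
  · intro M N S hS
    apply le_antisymm
    · apply sq_le_sq_nat
      set E := totalDim R₀ M ^ 2 + totalDim R₀ N ^ 2 with hE
      apply le_of_pow_poly (n := 1) (E := 2 * E + β S ^ 2)
      intro k _
      have h3 := rho_sum_le R₀ hρ hsub hS (F := fun a b => T M a * T N b)
        (fun a b => cutb_le A.cub (cutb_tensor A.cnum (hT M a) (hT N b)) (hρ _)) k 0 0
      have h4 : ρ (tp S k ⊗ (tp M 0 ⊗ tp N 0)) = ρ (tp S k) :=
        rho_iso R₀ hρ (whiskerLeftIso _ (λ_ (𝟙_ C)) ≪≫ ρ_ _)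
      rw [h4] at h3
      simp only [zero_add] at h3
      have h5 : ρ (tp S k) ≤ (β M + β N) ^ k * (k + 1) ^ E := by
        refine h3.trans ?_
        rw [add_pow, Finset.sum_mul]
        refine Finset.sum_le_sum fun j hj => ?_
        rw [Finset.mem_range] at hj
        have h6 := root_bound (n := k) (by omega) (hT2 M j)
        have h7 := root_bound (k := k - j) (n := k) (by omega) (hT2 N (k - j))
        calc k.choose j * (T M j * T N (k - j)) ≤
            k.choose j * ((β M ^ j * (k + 1) ^ (totalDim R₀ M ^ 2)) *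
              (β N ^ (k - j) * (k + 1) ^ (totalDim R₀ N ^ 2))) :=
            Nat.mul_le_mul_left _ (Nat.mul_le_mul h6 h7)
          _ = _ := by rw [hE, pow_add, Nat.cast_id]; ring
      calc (β S ^ 2) ^ k = β S ^ (2 * k) := by rw [← pow_mul]
        _ ≤ ρ (tp S k) ^ 2 * (k + 1) ^ (β S ^ 2) := low _ _
        _ ≤ ((β M + β N) ^ k * (k + 1) ^ E) ^ 2 * (k + 1) ^ (β S ^ 2) :=
          Nat.mul_le_mul_right _ (Nat.pow_le_pow_left h5 2)
        _ = _ := by
          rw [one_mul, mul_pow, ← pow_mul, ← pow_mul, ← pow_mul, pow_add, mul_comm k 2,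
            mul_comm E 2, mul_assoc]
    · set E := β M ^ 2 + β N ^ 2 with hE
      apply le_of_pow_poly (n := 1) (E := E)
      intro k _
      have h3 := rho_sum R₀ hρ hmul hadd hS k 0 0
      have h4 : ρ (tp S k ⊗ (tp M 0 ⊗ tp N 0)) = ρ (tp S k) :=
        rho_iso R₀ hρ (whiskerLeftIso _ (λ_ (𝟙_ C)) ≪≫ ρ_ _)
      rw [h4] at h3
      simp only [zero_add] at h3
      rw [one_mul]
      calc (β M + β N) ^ k ≤ ρ (tp S k) * (k + 1) ^ E := by
            refine le_trans ?_ (Nat.mul_le_mul_right _ h3)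
            rw [add_pow, Finset.sum_mul]
            refine Finset.sum_le_sum fun j hj => ?_
            rw [Finset.mem_range] at hj
            have h6 := root_bound' (n := k) (by omega) (low M j)
            have h7 := root_bound' (k := k - j) (n := k) (by omega) (low N (k - j))
            calc β M ^ j * β N ^ (k - j) * k.choose j ≤
                (ρ (tp M j) * (k + 1) ^ (β M ^ 2)) *
                  (ρ (tp N (k - j)) * (k + 1) ^ (β N ^ 2)) * k.choose j :=
                Nat.mul_le_mul_right _ (Nat.mul_le_mul h6 h7)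
              _ = _ := by rw [hE, pow_add]; ring
        _ ≤ β S ^ k * (k + 1) ^ E := Nat.mul_le_mul_right _ (up S k)
  · intro M
    have h1 : Nonempty (tp M 1 ≅ M) := ⟨λ_ M⟩
    obtain ⟨e⟩ := h1
    have h2 : ρ (tp M 1) = ρ M := rho_iso R₀ hρ e
    constructor
    · intro h
      have h3 := up M 1
      rw [h, h2] at h3
      have h4 : ρ M = 0 := by simpa using h3
      by_contra hne
      have h5 := rank_le R₀ (hρ M) 1 (fun _ => 𝟙 M) (fun a ha => by
        rw [Fin.sum_univ_one] at ha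
        by_contra ha0
        apply hne
        intro g
        have ha1 : a 0 ≠ 0 := by
          intro h6
          apply ha0
          funext i
          rw [Fin.fin_one_eq_zero i, h6]
          rfl
        have h6 := ha g
        rw [Linear.smul_comp, ctr_smul] at h6
        exact (mul_eq_zero.1 h6).resolve_left ha1)
      rw [h4] at h5
      omega
    · intro h
      have h3 : ρ M = 0 := by
        obtain ⟨x, -, hxr⟩ := (hρ M).1
        have h4 := h x
        rw [Category.id_comp] at h4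
        rw [h4] at hxr
        exact_mod_cast hxr.symm
      have h4 := low M 1
      rw [h2, h3] at h4
      have h5 : β M ^ (2 * 1) = 0 := by
        apply Nat.eq_zero_of_le_zero
        calc β M ^ (2 * 1) ≤ 0 ^ 2 * (1 + 1) ^ (β M ^ 2) := h4
          _ = 0 := by ring
      exact pow_eq_zero_iff (by norm_num) |>.1 h5
  · intro M K _ R
    refine ⟨hle M R, hev M R, ?_⟩
    have hρ' : ∀ n, IsIdx hU (tp M n) (ρ (tp M n)) := fun n => hρ _
    have h1 := (tfae R hρ' t_PERM).out 0 2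
    have h2 : Tendsto (fun n : ℕ => (ρ (tp M n) : ℝ) ^ ((1 : ℝ) / n)) atTop (𝓝 (β M : ℝ)) :=
      lim_root (up M) (low M)
    rw [← h1]
    constructor
    · intro h
      rw [← h]
      exact h2
    · intro h
      exact_mod_cast tendsto_nhds_unique h2 h

end

end Pool.Agent.H64ND
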