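import Pool.Agent.H64ND.Stm

/-!
# Project ND (helper64), piece GA: two-sided ideals of the group algebra of the symmetric group
-/

set_option autoImplicit false
set_option linter.all false

open Finset

namespace Pool.Agent.H64ND

namespace GaP

/-- The standard form. -/
noncomputable def bf (n : ℕ) : LinearMap.BilinForm ℚ (QS n) :=
  LinearMap.mk₂ ℚ (fun x y => ∑ σ, x.coeff σ * y.coeff σ)
    (fun x y z => by simp [add_mul, Finset.sum_add_distrib])
    (fun c x y => by simp [mul_assoc, Finset.mul_sum])
    (fun x y z => by simp [mul_add, Finset.sum_add_distrib])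
    (fun c x y => by
      simp only [MonoidAlgebra.coeff_smul, Finsupp.coe_smul, Pi.smul_apply, smul_eq_mul, Finset.mul_sum]
      exact Finset.sum_congr rfl fun σ _ => by ring)

theorem bf_apply {n : ℕ} (x y : QS n) : bf n x y = ∑ σ, x.coeff σ * y.coeff σ := rfl

theorem bf_symm {n : ℕ} (x y : QS n) : bf n x y = bf n y x := by
  rw [bf_apply, bf_apply]
  exact Finset.sum_congr rfl fun σ _ => mul_comm _ _

theorem bf_self {n : ℕ} (x : QS n) (h : bf n x x = 0) : x = 0 := by
  rw [bf_apply] at h
  rw [Finset.sum_eq_zero_iff_of_nonneg fun σ _ => mul_self_nonneg _] at h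
  apply MonoidAlgebra.coeff_injective
  ext σ
  exact mul_self_eq_zero.1 (h σ (mem_univ _))

theorem bf_mul_right {n : ℕ} (x y : QS n) (s : Equiv.Perm (Fin n)) :
    bf n x (y * MonoidAlgebra.single s 1) = bf n (x * MonoidAlgebra.single s⁻¹ 1) y := by
  rw [bf_apply, bf_apply]
  refine (Equiv.sum_comp (Equiv.mulRight s)
    (fun σ => x.coeff σ * (y * MonoidAlgebra.single s (1 : ℚ)).coeff σ)).symm.trans ?_
  refine Finset.sum_congr rfl fun σ _ => ?_
  rw [Equiv.coe_mulRight, MonoidAlgebra.coeff_mul_single_apply, MonoidAlgebra.coeff_mul_single_apply]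
  simp

theorem bf_mul_left {n : ℕ} (x y : QS n) (s : Equiv.Perm (Fin n)) :
    bf n x (MonoidAlgebra.single s 1 * y) = bf n (MonoidAlgebra.single s⁻¹ 1 * x) y := by
  rw [bf_apply, bf_apply]
  refine (Equiv.sum_comp (Equiv.mulLeft s)
    (fun σ => x.coeff σ * (MonoidAlgebra.single s (1 : ℚ) * y).coeff σ)).symm.trans ?_
  refine Finset.sum_congr rfl fun σ _ => ?_
  rw [Equiv.coe_mulLeft, MonoidAlgebra.coeff_single_mul_apply, MonoidAlgebra.coeff_single_mul_apply]
  simp

/-- The orthogonal complement of a two-sided ideal. -/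
theorem two_orth {n : ℕ} (N : Submodule ℚ (QS n)) (hN : Two N) : Two ((bf n).orthogonal N) := by
  intro y hy z
  rw [LinearMap.BilinForm.mem_orthogonal_iff] at hy
  constructor
  · rw [LinearMap.BilinForm.mem_orthogonal_iff]
    intro x hx
    change bf n x (y * z) = 0
    induction z using MonoidAlgebra.induction_on with
    | of s =>
      rw [MonoidAlgebra.of_apply, bf_mul_right]
      exact hy _ (hN x hx _).1
    | add a b ha hb => rw [mul_add, map_add, ha, hb, add_zero]
    | smul c a ha => rw [mul_smul_comm, map_smul, ha, smul_zero]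
  · rw [LinearMap.BilinForm.mem_orthogonal_iff]
    intro x hx
    change bf n x (z * y) = 0
    induction z using MonoidAlgebra.induction_on with
    | of s =>
      rw [MonoidAlgebra.of_apply, bf_mul_left]
      exact hy _ (hN x hx _).2
    | add a b ha hb => rw [add_mul, map_add, ha, hb, add_zero]
    | smul c a ha => rw [smul_mul_assoc, map_smul, ha, smul_zero]

theorem compl {n : ℕ} (N : Submodule ℚ (QS n)) : IsCompl N ((bf n).orthogonal N) := by
  haveI : Module.Finite ℚ (QS n) := Module.Finite.of_basis (MonoidAlgebra.basis (Equiv.Perm (Fin n)) ℚ)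
  apply LinearMap.BilinForm.isCompl_orthogonal_of_restrict_nondegenerate
  · intro x y h
    exact (bf_symm y x).trans h
  · apply LinearMap.BilinForm.nondegenerate_restrict_of_disjoint_orthogonal
    · intro x y h
      exact (bf_symm y x).trans h
    · rw [Submodule.disjoint_def]
      intro x hx hx'
      rw [LinearMap.BilinForm.mem_orthogonal_iff] at hx'
      exact bf_self x (hx' x hx)

end GaP

open GaP in
/-- **GA.** -/
theorem t_GA : S_GA := by
  intro n N hN
  have hO := two_orth N hN
  have hC := compl N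
  have h0 : ∀ x, x ∈ N → x ∈ (bf n).orthogonal N → x = 0 := fun x h1 h2 =>
    (Submodule.disjoint_def.1 hC.disjoint) x h1 h2
  obtain ⟨e, he, e', he', h1⟩ := Submodule.mem_sup.1
    (show (1 : QS n) ∈ N ⊔ (bf n).orthogonal N by rw [hC.sup_eq_top]; exact Submodule.mem_top)
  have hr : ∀ x ∈ N, x * e = x := by
    intro x hx
    have h2 : x * e' = 0 := h0 _ (hN x hx e').1 (hO e' he' x).2
    have h3 : x * (e + e') = x := by rw [h1, mul_one]
    rwa [mul_add, h2, add_zero] at h3
  have hl : ∀ x ∈ N, e * x = x := by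
    intro x hx
    have h2 : e' * x = 0 := h0 _ (hN x hx e').2 (hO e' he' x).1
    have h3 : (e + e') * x = x := by rw [h1, one_mul]
    rwa [add_mul, h2, add_zero] at h3
  have hl' : ∀ y ∈ (bf n).orthogonal N, e * y = 0 := fun y hy =>
    h0 _ (hN e he y).1 (hO y hy e).2
  refine ⟨e, ⟨hr e he, ?_, ?_⟩, he, hl⟩
  · intro x
    have h2 : x = x * e + x * e' := by rw [← mul_add, h1, mul_one]
    have h3 : e * x = e * (x * e) + e * (x * e') := by rw [← mul_add, ← h2]
    rw [h3, hl _ (hN e he x).2, hl' _ (hO e' he' x).2, add_zero]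
  · have key : ∀ σ : Equiv.Perm (Fin n), e.coeff σ = ∑ τ, e.coeff τ * e.coeff (τ * σ) := by
      intro σ
      have h2 : bf n (e * MonoidAlgebra.single σ⁻¹ 1) e' = 0 :=
        (LinearMap.BilinForm.mem_orthogonal_iff.1 he') _ (hN e he _).1
      have h3 : e' = 1 - e := by rw [← h1]; abel
      rw [h3, map_sub, sub_eq_zero, bf_apply, bf_apply] at h2
      have h4 : ∀ τ, (e * MonoidAlgebra.single σ⁻¹ (1 : ℚ)).coeff τ = e.coeff (τ * σ) := by
        intro τ
        rw [MonoidAlgebra.coeff_mul_single_apply]
        simp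
      simp only [h4] at h2
      have h5 : ∑ τ, e.coeff (τ * σ) * (1 : QS n).coeff τ = e.coeff σ := by
        rw [Finset.sum_eq_single 1]
        · simp
        · intro τ _ hτ
          have : (1 : QS n).coeff τ = 0 := by
            rw [MonoidAlgebra.one_def, MonoidAlgebra.coeff_single, Finsupp.single_eq_of_ne hτ]
          rw [this, mul_zero]
        · intro h
          exact absurd (mem_univ _) h
      rw [h5] at h2
      rw [h2]
      exact Finset.sum_congr rfl fun τ _ => mul_comm _ _
    intro σ
    rw [key σ⁻¹, key σ, ← Equiv.sum_comp (Equiv.mulRight σ) (fun τ => e.coeff τ * e.coeff (τ * σ⁻¹))]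
    refine Finset.sum_congr rfl fun τ _ => ?_
    rw [Equiv.coe_mulRight, mul_inv_cancel_right, mul_comm]

end Pool.Agent.H64ND
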