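import Pool.Agent.H64ND.Act66

/-!
# Project ND, piece HW (helper66)
-/

set_option autoImplicit false

open Finset

namespace Pool.Agent.H64ND

open Act66 in
theorem t_HW : S_HW := by
  classical
  intro n L e he hu
  obtain ⟨u0, hu0⟩ := hu
  -- the words which occur in an eigenfunction of pure weight
  set S : Finset (Fin n → Fin L) := univ.filter (fun w0 => ∃ v : (Fin n → Fin L) → ℚ,
    act0 e v = v ∧ v w0 ≠ 0 ∧ ∀ w, v w ≠ 0 → wt w = wt w0) with hS
  have hne : S.Nonempty := by
    obtain ⟨w0, hw0⟩ := Function.ne_iff.1 hu0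
    refine ⟨w0, ?_⟩
    rw [hS, mem_filter]
    refine ⟨mem_univ _, fun w => if wt w = wt w0 then act0 e u0 w else 0, ?_, ?_, ?_⟩
    · have h1 : act0 e (act0 e u0) = act0 e u0 := by rw [← act0_mul, he.1]
      funext w
      have h2 := congrFun h1 w
      simp only [act0, wt_comp] at h2 ⊢
      by_cases hw : wt w = wt w0
      · simp only [hw, if_true]
        exact h2
      · simp only [hw, if_false, mul_zero, sum_const_zero]
    · simp only [if_true]
      exact hw0
    · intro w hw
      by_contra hc
      apply hw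
      simp only [hc, if_false]
  obtain ⟨w0, hw0S, hmin⟩ := S.exists_min_image (fun w => ∑ i : Fin L, (i : ℕ) * wt w i) hne
  rw [hS, mem_filter] at hw0S
  obtain ⟨-, v, hv, hvw0, hvs⟩ := hw0S
  refine ⟨v, wt w0, ?_, hv, ?_, ?_⟩
  · intro h
    rw [h] at hvw0
    exact hvw0 rfl
  · intro w hw i
    exact congrFun (hvs w hw) i
  · intro i j hij w
    by_contra hcon
    -- all words of the support of `E i j v` have the same weight
    have hkey : ∀ w' : Fin n → Fin L, E i j v w' ≠ 0 → ∀ l, wt w0 l + (if l = i then 1 else 0) =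
        wt w' l + (if l = j then 1 else 0) := by
      intro w' hw' l
      obtain ⟨k, hk, hk'⟩ := exists_ne_zero_of_sum_ne_zero hw'
      have h1 := wt_update w' k i j (mem_filter.1 hk).2 l
      rw [hvs _ hk'] at h1
      exact h1
    have hwS : w ∈ S := by
      rw [hS, mem_filter]
      refine ⟨mem_univ _, E i j v, ?_, hcon, ?_⟩
      · rw [act0_E, hv]
      · intro w' hw'
        funext l
        have h1 := hkey w' hw' l
        have h2 := hkey w hcon l
        omega
    have h3 := hmin w hwS
    have h4 : ∑ l : Fin L, (l : ℕ) * wt w0 l + i = ∑ l : Fin L, (l : ℕ) * wt w l + j := by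
      have h5 : ∀ (f : Fin L → ℕ) (m : Fin L), ∑ l : Fin L, (l : ℕ) * f l + m =
          ∑ l : Fin L, (l : ℕ) * (f l + if l = m then 1 else 0) := by
        intro f m
        simp only [mul_add, sum_add_distrib, mul_ite, mul_one, mul_zero, sum_ite_eq', mem_univ,
          if_true]
      rw [h5, h5]
      exact sum_congr rfl fun l _ => by rw [hkey w hcon l]
    have h6 : (i : ℕ) < j := hij
    omega

end Pool.Agent.H64ND
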