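import Pool.Agent.H64ND.Stm

/-!
# Project ND, piece KMIN
-/

set_option autoImplicit false

open Finset

namespace Pool.Agent.H64ND

theorem sgnW_one (h : S_SGN) {n : ℕ} (o : Fin n → Bool) : sgnW o 1 = 1 := by
  have h1 := h.1 n o 1 1
  have h2 : o ∘ ⇑(1 : Equiv.Perm (Fin n)) = o := rfl
  rw [mul_one, h2] at h1
  rcases h.2.2.2.2.2 n o 1 with h3 | h3
  · exact h3
  · rw [h3] at h1
    norm_num at h1

theorem sgnW_swap (h : S_SGN) : ∀ {n : ℕ} (o : Fin n → Bool) (k l : Fin n), k ≠ l → o k = o l →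
    sgnW o (Equiv.swap k l) = if o k = true then -1 else 1 := by
  intro n
  cases n with
  | zero => intro o k; exact k.elim0
  | succ n =>
    have hlast : ∀ (o : Fin (n + 1) → Bool) (k : Fin (n + 1)), k ≠ Fin.last n →
        o k = o (Fin.last n) →
        sgnW o (Equiv.swap k (Fin.last n)) = if o k = true then -1 else 1 := by
      intro o k hk ho
      obtain ⟨i, rfl⟩ := Fin.exists_castSucc_eq.2 hk
      have := h.2.1 n o i ho
      unfold tr at this
      rw [this, ho]
    intro o k l hkl ho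
    by_cases hk : k = Fin.last n
    · subst hk
      rw [Equiv.swap_comm, hlast o l hkl.symm ho.symm, ho]
    by_cases hl : l = Fin.last n
    · subst hl
      exact hlast o k hk ho
    have e1 : Equiv.swap k l = Equiv.swap (Fin.last n) l * Equiv.swap k (Fin.last n) *
        Equiv.swap (Fin.last n) l := by
      rw [Equiv.swap_mul_swap_mul_swap hk hkl, Equiv.swap_comm]
    set c := Equiv.swap (Fin.last n) l with hc
    set s := Equiv.swap k (Fin.last n) with hs
    have e2 : o ∘ ⇑(c * s) = o ∘ ⇑c := by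
      funext x
      simp only [Function.comp_apply, Equiv.Perm.mul_apply]
      by_cases hx1 : x = k
      · subst hx1
        rw [hs, Equiv.swap_apply_left, hc, Equiv.swap_apply_left,
          Equiv.swap_apply_of_ne_of_ne hk hkl, ho]
      · by_cases hx2 : x = Fin.last n
        · subst hx2
          rw [hs, Equiv.swap_apply_right, hc, Equiv.swap_apply_left,
            Equiv.swap_apply_of_ne_of_ne hk hkl, ho]
        · rw [hs, Equiv.swap_apply_of_ne_of_ne hx1 hx2]
    have e3 : sgnW o c * sgnW (o ∘ ⇑c) c = 1 := by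
      rw [← h.1, hc, Equiv.swap_mul_self]
      exact sgnW_one h o
    rw [e1, h.1, h.1, e2]
    have e4 : sgnW o c * sgnW (o ∘ ⇑c) s * sgnW (o ∘ ⇑c) c =
        (sgnW o c * sgnW (o ∘ ⇑c) c) * sgnW (o ∘ ⇑c) s := by ring
    have e5 : (o ∘ ⇑c) k = o k := by
      simp only [Function.comp_apply]
      rw [hc, Equiv.swap_apply_of_ne_of_ne hk hkl]
    have e6 : (o ∘ ⇑c) (Fin.last n) = o l := by
      simp only [Function.comp_apply]
      rw [hc, Equiv.swap_apply_left]
    rw [e4, e3, one_mul, hs, hlast (o ∘ ⇑c) k hk (by rw [e5, e6, ho]), e5]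

/-- the linear functional on the group algebra -/
noncomputable def ev {n : ℕ} (f : Equiv.Perm (Fin n) → ℚ) (x : QS n) : ℚ :=
  ∑ σ, x.coeff σ * f σ

theorem ev_single {n : ℕ} (f : Equiv.Perm (Fin n) → ℚ) (τ : Equiv.Perm (Fin n)) (c : ℚ) :
    ev f (MonoidAlgebra.single τ c) = c * f τ := by
  classical
  unfold ev
  rw [Finset.sum_eq_single τ]
  · simp
  · intro σ _ hσ
    have : (MonoidAlgebra.single τ c : QS n).coeff σ = 0 := by
      simp [MonoidAlgebra.coeff_single, hσ.symm]
    rw [this, zero_mul]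
  · intro h
    exact absurd (Finset.mem_univ _) h

theorem ev_sum {n : ℕ} {I : Type} (S : Finset I) (f : Equiv.Perm (Fin n) → ℚ) (x : I → QS n) :
    ev f (∑ i ∈ S, x i) = ∑ i ∈ S, ev f (x i) := by
  classical
  induction S using Finset.induction_on with
  | empty => simp [ev]
  | insert i S hi ih =>
    rw [Finset.sum_insert hi, Finset.sum_insert hi, ← ih]
    unfold ev
    rw [← Finset.sum_add_distrib]
    refine Finset.sum_congr rfl fun σ _ => ?_
    rw [MonoidAlgebra.coeff_add, Finsupp.add_apply, add_mul]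

section
variable (p m : ℕ)

/-- the row of a place -/
def rw' (k : Fin ((p + 1) * m)) : Fin (p + 1) := (finProdFinEquiv.symm k).1

/-- the column of a place -/
def cl' (k : Fin ((p + 1) * m)) : Fin m := (finProdFinEquiv.symm k).2

/-- the row permutations -/
def RR : Finset (Equiv.Perm (Fin ((p + 1) * m))) := univ.filter fun σ => ∀ k, rw' p m (σ k) = rw' p m k

/-- the column permutations -/
def CC : Finset (Equiv.Perm (Fin ((p + 1) * m))) := univ.filter fun σ => ∀ k, cl' p m (σ k) = cl' p m k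

/-- the product of the row symmetriser and the column antisymmetriser -/
noncomputable def xx : QS ((p + 1) * m) :=
  ∑ ρ ∈ RR p m, ∑ s ∈ CC p m, MonoidAlgebra.single (ρ * s) ((Equiv.Perm.sign s : ℤ) : ℚ)

theorem ev_xx (f : Equiv.Perm (Fin ((p + 1) * m)) → ℚ) :
    ev f (xx p m) = ∑ ρ ∈ RR p m, ∑ s ∈ CC p m, ((Equiv.Perm.sign s : ℤ) : ℚ) * f (ρ * s) := by
  unfold xx
  rw [ev_sum]
  refine Finset.sum_congr rfl fun ρ _ => ?_
  rw [ev_sum]
  exact Finset.sum_congr rfl fun s _ => ev_single _ _ _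

theorem sum_anti {N : ℕ} {S : Finset (Equiv.Perm (Fin N))} {τ : Equiv.Perm (Fin N)}
    (hS : ∀ σ ∈ S, τ * σ ∈ S) (hτ : τ * τ = 1) (g : Equiv.Perm (Fin N) → ℚ)
    (hg : ∀ σ ∈ S, g (τ * σ) = - g σ) : ∑ σ ∈ S, g σ = 0 := by
  have h1 : ∑ σ ∈ S, g σ = ∑ σ ∈ S, g (τ * σ) := by
    refine Finset.sum_nbij' (fun σ => τ * σ) (fun σ => τ * σ) hS hS ?_ ?_ ?_
    · intro σ _; rw [← mul_assoc, hτ, one_mul]
    · intro σ _; rw [← mul_assoc, hτ, one_mul]
    · intro σ _; rw [← mul_assoc, hτ, one_mul]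
  have h2 : ∑ σ ∈ S, g (τ * σ) = - ∑ σ ∈ S, g σ := by
    rw [← Finset.sum_neg_distrib]
    exact Finset.sum_congr rfl hg
  linarith

theorem swap_mem_RR {k l : Fin ((p + 1) * m)} (h : rw' p m k = rw' p m l)
    {σ : Equiv.Perm (Fin ((p + 1) * m))} (hσ : σ ∈ RR p m) : Equiv.swap k l * σ ∈ RR p m := by
  simp only [RR, Finset.mem_filter, Finset.mem_univ, true_and] at hσ ⊢
  intro x
  rw [Equiv.Perm.mul_apply, ← hσ x]
  rcases eq_or_ne (σ x) k with h1 | h1
  · rw [h1, Equiv.swap_apply_left, h]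
  · rcases eq_or_ne (σ x) l with h2 | h2
    · rw [h2, Equiv.swap_apply_right, h]
    · rw [Equiv.swap_apply_of_ne_of_ne h1 h2]

theorem swap_mem_CC {k l : Fin ((p + 1) * m)} (h : cl' p m k = cl' p m l)
    {σ : Equiv.Perm (Fin ((p + 1) * m))} (hσ : σ ∈ CC p m) : Equiv.swap k l * σ ∈ CC p m := by
  simp only [CC, Finset.mem_filter, Finset.mem_univ, true_and] at hσ ⊢
  intro x
  rw [Equiv.Perm.mul_apply, ← hσ x]
  rcases eq_or_ne (σ x) k with h1 | h1
  · rw [h1, Equiv.swap_apply_left, h]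
  · rcases eq_or_ne (σ x) l with h2 | h2
    · rw [h2, Equiv.swap_apply_right, h]
    · rw [Equiv.swap_apply_of_ne_of_ne h1 h2]

end

theorem comp_swap {N : ℕ} {A : Type} (w : Fin N → A) {k l : Fin N} (h : w k = w l) :
    w ∘ ⇑(Equiv.swap k l) = w := by
  funext x
  simp only [Function.comp_apply]
  rcases eq_or_ne x k with h1 | h1
  · rw [h1, Equiv.swap_apply_left, h]
  · rcases eq_or_ne x l with h2 | h2
    · rw [h2, Equiv.swap_apply_right, h]
    · rw [Equiv.swap_apply_of_ne_of_ne h1 h2]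

theorem kill (h : S_SGN) (p q m : ℕ) (hm : (p + 1) * (p + q) < m)
    (u : (Fin ((p + 1) * m) → Fin (p + q)) → ℚ) (w : Fin ((p + 1) * m) → Fin (p + q)) :
    ∑ ρ ∈ RR p m, ∑ s ∈ CC p m, ((Equiv.Perm.sign s : ℤ) : ℚ) *
      (sgnW ((fun l : Fin (p + q) => decide (p ≤ (l : ℕ))) ∘ w) (ρ * s) * u (w ∘ ⇑(ρ * s))) = 0 := by
  set o : Fin (p + q) → Bool := fun l => decide (p ≤ (l : ℕ)) with ho
  by_cases hA : ∃ k l, k ≠ l ∧ rw' p m k = rw' p m l ∧ w k = w l ∧ o (w k) = true
  · obtain ⟨k, l, hkl, hr, hw, hod⟩ := hA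
    refine sum_anti (τ := Equiv.swap k l) (fun σ hσ => swap_mem_RR p m hr hσ)
      (Equiv.swap_mul_self k l) _ ?_
    intro ρ _
    rw [← Finset.sum_neg_distrib]
    refine Finset.sum_congr rfl fun s _ => ?_
    have e1 : sgnW (o ∘ w) (Equiv.swap k l * ρ * s) = - sgnW (o ∘ w) (ρ * s) := by
      rw [mul_assoc, h.1, sgnW_swap h (o ∘ w) k l hkl (by simp only [Function.comp_apply, hw]),
        if_pos (show (o ∘ w) k = true from hod), Function.comp_assoc, comp_swap w hw]
      ring
    have e2 : w ∘ ⇑(Equiv.swap k l * ρ * s) = w ∘ ⇑(ρ * s) := by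
      rw [mul_assoc, Equiv.Perm.coe_mul, ← Function.comp_assoc, comp_swap w hw]
    rw [e1, e2]
    ring
  · push Not at hA
    refine Finset.sum_eq_zero fun ρ hρ => ?_
    have hρ' : ∀ k, rw' p m (ρ k) = rw' p m k := (Finset.mem_filter.1 hρ).2
    -- a column with even letters only
    obtain ⟨c, hc⟩ : ∃ c : Fin m, ∀ k, cl' p m k = c → o (w (ρ k)) = false := by
      by_contra hcon
      push Not at hcon
      choose f hf1 hf2 using hcon
      have hf2' : ∀ c, o (w (ρ (f c))) = true := fun c => by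
        simpa using hf2 c
      have hinj : Function.Injective (fun c : Fin m => (rw' p m (f c), w (ρ (f c)))) := by
        intro c c' hcc
        simp only [Prod.mk.injEq] at hcc
        by_contra hne
        have hfne : ρ (f c) ≠ ρ (f c') := by
          intro h1
          apply hne
          rw [← hf1 c, ← hf1 c', ρ.injective h1]
        have h2 := hA (ρ (f c)) (ρ (f c')) hfne (by rw [hρ', hρ', hcc.1]) hcc.2
        exact h2 (hf2' c)
      have h3 := Fintype.card_le_of_injective _ hinj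
      rw [Fintype.card_fin, Fintype.card_prod, Fintype.card_fin, Fintype.card_fin] at h3
      omega
    -- two equal letters in it
    let pl : Fin (p + 1) → Fin ((p + 1) * m) := fun r => finProdFinEquiv (r, c)
    have hpl : ∀ r, cl' p m (pl r) = c := by
      intro r
      simp [cl', pl]
    have hlt : ∀ r, ((w (ρ (pl r)) : Fin (p + q)) : ℕ) < p := by
      intro r
      have := hc (pl r) (hpl r)
      rw [ho] at this
      simpa using this
    obtain ⟨r, r', hrr, heq⟩ : ∃ r r' : Fin (p + 1), r ≠ r' ∧ w (ρ (pl r)) = w (ρ (pl r')) := by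
      have := Fintype.exists_ne_map_eq_of_card_lt
        (fun r : Fin (p + 1) => (⟨_, hlt r⟩ : Fin p)) (by simp)
      obtain ⟨r, r', h1, h2⟩ := this
      refine ⟨r, r', h1, ?_⟩
      simp only [Fin.mk.injEq] at h2
      exact Fin.ext h2
    have hplne : pl r ≠ pl r' := by
      intro h1
      apply hrr
      have := finProdFinEquiv.injective h1
      exact (Prod.mk.inj this).1
    have hcol : cl' p m (pl r) = cl' p m (pl r') := by rw [hpl, hpl]
    refine sum_anti (τ := Equiv.swap (pl r) (pl r')) (fun σ hσ => swap_mem_CC p m hcol hσ)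
      (Equiv.swap_mul_self _ _) _ ?_
    intro s _
    have heq' : (w ∘ ⇑ρ) (pl r) = (w ∘ ⇑ρ) (pl r') := heq
    have e1 : sgnW (o ∘ w) (ρ * (Equiv.swap (pl r) (pl r') * s)) = sgnW (o ∘ w) (ρ * s) := by
      rw [h.1, h.1 _ (o ∘ w) ρ s, h.1 _ ((o ∘ w) ∘ ⇑ρ) (Equiv.swap (pl r) (pl r')) s,
        sgnW_swap h ((o ∘ w) ∘ ⇑ρ) _ _ hplne (by simp only [Function.comp_apply, heq])]
      have h5 : ((o ∘ w) ∘ ⇑ρ) (pl r) = false := hc _ (hpl r)
      rw [h5, if_neg (by simp), one_mul]
      congr 2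
      rw [Function.comp_assoc, Function.comp_assoc, Function.comp_assoc, ← Function.comp_assoc w,
        comp_swap (w ∘ ⇑ρ) heq']
    have e2 : w ∘ ⇑(ρ * (Equiv.swap (pl r) (pl r') * s)) = w ∘ ⇑(ρ * s) := by
      rw [Equiv.Perm.coe_mul, Equiv.Perm.coe_mul, Equiv.Perm.coe_mul, ← Function.comp_assoc,
        ← Function.comp_assoc, comp_swap (w ∘ ⇑ρ) heq', ← Function.comp_assoc]
    rw [e1, e2, Equiv.Perm.sign_mul, Equiv.Perm.sign_swap hplne]
    push_cast
    ring

/-- piece KMIN -/
theorem t_KMIN : S_SGN → S_KMIN := by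
  intro h p q
  set m := (p + 1) * (p + q) + 1 with hm
  refine ⟨(p + 1) * m, xx p m, ?_, ?_⟩
  · intro u
    funext w
    have h1 : actS (fun l : Fin (p + q) => decide (p ≤ (l : ℕ))) (xx p m) u w =
        ev (fun σ => sgnW ((fun l : Fin (p + q) => decide (p ≤ (l : ℕ))) ∘ w) σ * u (w ∘ ⇑σ))
          (xx p m) := by
      unfold actS ev
      exact Finset.sum_congr rfl fun σ _ => by ring
    rw [h1, ev_xx, kill h p q m (by omega) u w]
    rfl
  · refine ⟨fun w => if w = rw' p m then 1 else 0, fun h0 => ?_⟩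
    have h1 : act0 (xx p m) (fun w => if w = rw' p m then (1 : ℚ) else 0) (rw' p m) = 0 :=
      congrFun h0 (rw' p m)
    have h2 : act0 (xx p m) (fun w => if w = rw' p m then (1 : ℚ) else 0) (rw' p m) =
        ev (fun σ => if rw' p m ∘ ⇑σ = rw' p m then (1 : ℚ) else 0) (xx p m) := rfl
    rw [h2, ev_xx] at h1
    have h3 : ∀ ρ ∈ RR p m, ∑ s ∈ CC p m, ((Equiv.Perm.sign s : ℤ) : ℚ) *
        (if rw' p m ∘ ⇑(ρ * s) = rw' p m then (1 : ℚ) else 0) = 1 := by
      intro ρ hρ
      have hρ' : ∀ k, rw' p m (ρ k) = rw' p m k := (Finset.mem_filter.1 hρ).2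
      rw [Finset.sum_eq_single (1 : Equiv.Perm (Fin ((p + 1) * m)))]
      · rw [if_pos]
        · simp
        · funext k
          rw [mul_one]
          exact hρ' k
      · intro s hs hs1
        have hs' : ∀ k, cl' p m (s k) = cl' p m k := (Finset.mem_filter.1 hs).2
        rw [if_neg, mul_zero]
        intro h4
        apply hs1
        ext k
        have h5 : rw' p m (s k) = rw' p m k := by
          have := congrFun h4 k
          simp only [Function.comp_apply, Equiv.Perm.mul_apply] at this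
          rw [← hρ' (s k)]
          exact this
        have h6 : finProdFinEquiv.symm (s k) = finProdFinEquiv.symm k := Prod.ext h5 (hs' k)
        rw [finProdFinEquiv.symm.injective h6]
        rfl
      · intro h4
        exfalso
        apply h4
        simp [CC]
    rw [Finset.sum_congr rfl h3, Finset.sum_const, nsmul_eq_mul, mul_one] at h1
    have h4 : (1 : Equiv.Perm (Fin ((p + 1) * m))) ∈ RR p m := by simp [RR]
    have h5 : (RR p m).card ≠ 0 := Finset.card_ne_zero_of_mem h4
    exact h5 (by exact_mod_cast h1)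

end Pool.Agent.H64ND
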