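import Pool.Agent.H64ND.Stm

/-!
# Project ND, piece NUMP (helper66)
-/

set_option autoImplicit false

open Finset

namespace Pool.Agent.H64ND

theorem t_NUMP : S_NUMP := by
  intro L d lam h hpos
  obtain ⟨M, hM⟩ : ∃ M : ℕ → ℤ, ∀ i, M i =
      ∑ j ∈ univ.filter (fun j : Fin L => i ≤ (j : ℕ)), (lam j : ℤ) := ⟨_, fun _ => rfl⟩
  have hstep : ∀ i (hi : i < L), M i = lam ⟨i, hi⟩ + M (i + 1) := by
    intro i hi
    rw [hM, hM]
    have : univ.filter (fun j : Fin L => i ≤ (j : ℕ)) =
        insert ⟨i, hi⟩ (univ.filter (fun j : Fin L => i + 1 ≤ (j : ℕ))) := by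
      ext j
      simp only [mem_filter, mem_univ, true_and, mem_insert, Fin.ext_iff]
      omega
    rw [this, sum_insert (by simp)]
  have hrel : ∀ i (hi : i < L), (lam ⟨i, hi⟩ : ℤ) * (lam ⟨i, hi⟩ + d - (i + 1)) = M (i + 1) := by
    intro i hi
    have h1 := h ⟨i, hi⟩
    rw [h1, hM]
    refine sum_congr ?_ fun _ _ => rfl
    ext j
    simp only [mem_filter, mem_univ, true_and, Fin.lt_def]
    omega
  have hM0 : M 0 = ∑ i, (lam i : ℤ) := by
    rw [hM]
    refine sum_congr ?_ fun _ _ => rfl
    ext j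
    simp
  have hML : M L = 0 := by
    rw [hM]
    refine sum_eq_zero fun j hj => ?_
    have := (mem_filter.1 hj).2
    have := j.2
    omega
  have hM0pos : 0 < M 0 := by
    rw [hM0]
    exact_mod_cast hpos
  have hL : 0 < L := by
    rcases Nat.eq_zero_or_pos L with h0 | h0
    · rw [h0] at hML
      omega
    · exact h0
  obtain ⟨b, hb⟩ : ∃ b : ℕ, b = lam ⟨0, hL⟩ := ⟨_, rfl⟩
  have hMb : M 0 = b * (b + d) := by
    rw [hstep 0 hL, ← hrel 0 hL, ← hb]
    push_cast
    ring
  have hb1 : 1 ≤ b := by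
    rcases Nat.eq_zero_or_pos b with h0 | h0
    · rw [hMb, h0] at hM0pos
      simp at hM0pos
    · exact h0
  have hbd : 0 < (b : ℤ) + d := by
    rw [hMb] at hM0pos
    exact (mul_pos_iff_of_pos_left (by exact_mod_cast hb1)).1 hM0pos
  obtain ⟨a, ha⟩ := Int.eq_ofNat_of_zero_le hbd.le
  have ha1 : 1 ≤ a := by omega
  have key : ∀ i : ℕ, i ≤ a → i ≤ L → M i = b * ((a : ℤ) - i) := by
    intro i
    induction i with
    | zero =>
      intro _ _
      rw [hMb, ha]
      simp
    | succ i ih =>
      intro hia hiL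
      have h1 := ih (by omega) (by omega)
      have h2 := hstep i (by omega)
      have h3 := hrel i (by omega)
      set x : ℤ := (lam ⟨i, by omega⟩ : ℤ) with hx
      have hx0 : 0 ≤ x := by rw [hx]; exact_mod_cast Nat.zero_le _
      have hd : d = (a : ℤ) - b := by
        have : (b : ℤ) + d = a := ha
        omega
      have h4 : (x - b) * (x + (a - i)) = 0 := by
        have : x * (x + d - (i + 1)) + x = b * ((a : ℤ) - i) := by
          rw [h3, ← h1, h2]; ring
        rw [hd] at this
        linarith [this, (by ring : (x - b) * (x + (a - i)) =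
          (x * (x + ((a : ℤ) - b) - (i + 1)) + x) - b * ((a : ℤ) - i))]
      have h5 : x + ((a : ℤ) - i) ≠ 0 := by omega
      have h6 : x = b := by
        have := (mul_eq_zero.1 h4).resolve_right h5
        linarith
      have h7 : M (i + 1) = M i - b := by rw [h2, h6]; ring
      rw [h7, h1]
      push_cast
      ring
  have hlam : ∀ i (hi : i < L), i < a → lam ⟨i, hi⟩ = b := by
    intro i hi hia
    have h1 := key i hia.le hi.le
    have h2 := key (i + 1) hia hi
    have h3 := hstep i hi
    rw [h1, h2] at h3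
    push_cast at h3
    have : (lam ⟨i, hi⟩ : ℤ) = b := by linarith
    exact_mod_cast this
  have haL : a ≤ L := by
    by_contra hcon
    push Not at hcon
    have h1 := key L hcon.le le_rfl
    rw [hML] at h1
    have h2 : 0 < (b : ℤ) * ((a : ℤ) - L) := mul_pos (by exact_mod_cast hb1) (by omega)
    omega
  have hMa : M a = 0 := by
    rw [key a le_rfl haL, sub_self, mul_zero]
  refine ⟨a, b, ha1, hb1, haL, ha.symm, ?_, ?_⟩
  · have h1 := key 0 (Nat.zero_le _) (Nat.zero_le _)
    rw [hM0] at h1
    have h2 : ((∑ i, lam i : ℕ) : ℤ) = ((a * b : ℕ) : ℤ) := by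
      push_cast
      rw [h1]
      push_cast
      ring
    exact_mod_cast h2
  · intro i
    split_ifs with hi
    · exact hlam i i.2 hi
    · rw [hM] at hMa
      have h1 := (sum_eq_zero_iff_of_nonneg (fun j _ => by exact_mod_cast Nat.zero_le (lam j))).1
        hMa i (by simp; omega)
      exact_mod_cast h1

end Pool.Agent.H64ND
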