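import Pool.Agent.H64ND.Stm

/-!
# Project ND (helper64), piece POS: positivity
-/

set_option autoImplicit false

open Finset

namespace Pool.Agent.H64ND

section GA

variable {G : Type} [Group G] [Fintype G]

/-- Products in the group algebra of a finite group. -/
lemma pos_coeff_mul (x y : MonoidAlgebra ℚ G) (s : G) :
    (x * y).coeff s = ∑ t : G, x.coeff t * y.coeff (t⁻¹ * s) := by
  rw [MonoidAlgebra.coeff_mul_apply_left]
  exact Finsupp.sum_fintype _ _ (fun _ => zero_mul _)

omit [Group G] in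
/-- The coefficients of an element given by a function. -/
lemma pos_coeff_sum_single (f : G → ℚ) (s : G) :
    (∑ t : G, MonoidAlgebra.single t (f t) : MonoidAlgebra ℚ G).coeff s = f s := by
  rw [MonoidAlgebra.coeff_sum, Finsupp.finsetSum_apply]
  rw [Finset.sum_eq_single s]
  · simp
  · intro t _ ht
    simp [ht]
  · intro h
    exact absurd (Finset.mem_univ _) h

lemma pos_eq_sum_single (x : MonoidAlgebra ℚ G) :
    x = ∑ t : G, MonoidAlgebra.single t (x.coeff t) := by
  rw [← MonoidAlgebra.coeff_inj]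
  ext s
  rw [pos_coeff_sum_single]

/-- Self-adjoint elements are self-adjoint operators. -/
lemma pos_adj (g x y : MonoidAlgebra ℚ G) (hg : ∀ s, g.coeff s⁻¹ = g.coeff s) :
    ∑ s : G, (g * x).coeff s * y.coeff s = ∑ s : G, x.coeff s * (g * y).coeff s := by
  have h1 : ∀ s : G, (g * x).coeff s * y.coeff s =
      ∑ t : G, g.coeff t * x.coeff (t⁻¹ * s) * y.coeff s := by
    intro s
    rw [pos_coeff_mul, Finset.sum_mul]
  have h2 : ∀ s : G, x.coeff s * (g * y).coeff s =
      ∑ t : G, g.coeff t * x.coeff s * y.coeff (t⁻¹ * s) := by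
    intro s
    rw [pos_coeff_mul, Finset.mul_sum]
    exact Finset.sum_congr rfl fun t _ => by ring
  rw [Finset.sum_congr rfl fun s _ => h1 s, Finset.sum_congr rfl fun s _ => h2 s,
    Finset.sum_comm, Finset.sum_comm (s := univ) (t := univ)
      (f := fun s t => g.coeff t * x.coeff s * y.coeff (t⁻¹ * s))]
  -- both sides: sum over `t` outside
  rw [← Equiv.sum_comp (Equiv.inv G)]
  refine Finset.sum_congr rfl fun t _ => ?_
  rw [← Equiv.sum_comp (Equiv.mulLeft t⁻¹)]
  refine Finset.sum_congr rfl fun s _ => ?_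
  simp only [Equiv.inv_apply, Equiv.coe_mulLeft, inv_inv, hg, mul_inv_cancel_left]

end GA

lemma exA_injective (m k : ℕ) : Function.Injective (exA m k) := by
  intro s t h
  ext i
  have := congrArg (fun f : Equiv.Perm (Fin (m + k)) => f (Fin.castAdd k i)) h
  simp only [exA_castAdd] at this
  have h2 := congrArg Fin.val this
  simpa using h2

/-- The stabiliser of the last place is the image of `exA n 1`. -/
lemma exists_exA_of_last (n : ℕ) (s : Equiv.Perm (Fin (n + 1)))
    (h : s (Fin.last n) = Fin.last n) : ∃ t, exA n 1 t = s := by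
  have hne : ∀ j : Fin n, s j.castSucc ≠ Fin.last n := by
    intro j hj
    have h1 : j.castSucc = Fin.last n := s.injective (hj.trans h.symm)
    exact (Fin.castSucc_lt_last j).ne h1
  have h' : s.symm (Fin.last n) = Fin.last n := by
    rw [Equiv.symm_apply_eq, h]
  have hne' : ∀ j : Fin n, s.symm j.castSucc ≠ Fin.last n := by
    intro j hj
    have h1 : j.castSucc = Fin.last n := s.symm.injective (hj.trans h'.symm)
    exact (Fin.castSucc_lt_last j).ne h1
  refine ⟨⟨fun j => (s j.castSucc).castPred (hne j), fun j => (s.symm j.castSucc).castPred (hne' j),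
    fun j => ?_, fun j => ?_⟩, ?_⟩
  · simp
  · simp
  · ext i
    refine congrArg Fin.val ?_
    refine Fin.lastCases ?_ (fun j => ?_) i
    · have : (Fin.last n : Fin (n + 1)) = Fin.natAdd n (0 : Fin 1) := by
        ext; simp
      rw [this, exA_natAdd, ← this, h]
    · have : (j.castSucc : Fin (n + 1)) = Fin.castAdd 1 j := rfl
      rw [this, exA_castAdd]
      rw [← this]
      simp
      rfl

lemma exA_last (n : ℕ) (t : Equiv.Perm (Fin n)) : exA n 1 t (Fin.last n) = Fin.last n := by
  have : (Fin.last n : Fin (n + 1)) = Fin.natAdd n (0 : Fin 1) := by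
    ext; simp
  rw [this, exA_natAdd]

lemma exQ_eq (n : ℕ) (x : QS n) :
    exQ n 1 x = ∑ t : Equiv.Perm (Fin n), MonoidAlgebra.single (exA n 1 t) (x.coeff t) := by
  conv_lhs => rw [pos_eq_sum_single x]
  rw [map_sum]
  refine Finset.sum_congr rfl fun t _ => ?_
  exact MonoidAlgebra.mapDomain_single

/-- The coefficient of `1` in `g * exQ u`. -/
lemma coeff_one_mul_exQ (n : ℕ) (g : QS (n + 1)) (hg : ∀ s, g.coeff s⁻¹ = g.coeff s) (u : QS n) :
    (g * exQ n 1 u).coeff 1 = ∑ t : Equiv.Perm (Fin n), g.coeff (exA n 1 t) * u.coeff t := by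
  rw [exQ_eq, Finset.mul_sum, MonoidAlgebra.coeff_sum, Finsupp.finsetSum_apply]
  refine Finset.sum_congr rfl fun t _ => ?_
  rw [MonoidAlgebra.coeff_mul_single_apply, one_mul, hg]

lemma tr_inv (n : ℕ) (i : Fin n) : (tr n i)⁻¹ = tr n i := Equiv.swap_inv _ _

lemma coeff_JM_inv (n : ℕ) (s : Equiv.Perm (Fin (n + 1))) :
    (JM n).coeff s⁻¹ = (JM n).coeff s := by
  unfold JM
  rw [MonoidAlgebra.coeff_sum, Finsupp.finsetSum_apply, Finsupp.finsetSum_apply]
  refine Finset.sum_congr rfl fun i _ => ?_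
  rw [MonoidAlgebra.coeff_single, Finsupp.single_apply, Finsupp.single_apply]
  have : tr n i = s⁻¹ ↔ tr n i = s := by
    constructor
    · intro h
      rw [← inv_inj, ← h, tr_inv]
    · intro h
      rw [← h, tr_inv]
  simp only [this]

/-- The element `d + JM n`. -/
noncomputable def TT (n : ℕ) (d : ℤ) : QS (n + 1) := (d : ℚ) • 1 + JM n

lemma coeff_TT_inv (n : ℕ) (d : ℤ) (s : Equiv.Perm (Fin (n + 1))) :
    (TT n d).coeff s⁻¹ = (TT n d).coeff s := by
  unfold TT
  rw [MonoidAlgebra.coeff_add, Finsupp.add_apply, Finsupp.add_apply, coeff_JM_inv,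
    MonoidAlgebra.coeff_smul_apply, MonoidAlgebra.coeff_smul_apply, MonoidAlgebra.one_def,
    MonoidAlgebra.coeff_single, Finsupp.single_apply, Finsupp.single_apply]
  have : (1 : Equiv.Perm (Fin (n + 1))) = s⁻¹ ↔ 1 = s := by
    constructor
    · intro h
      rw [← inv_inj, ← h, inv_one]
    · intro h
      rw [← h, inv_one]
  simp only [this]

lemma coeff_pt (n : ℕ) (d : ℤ) (x : QS (n + 1)) (t : Equiv.Perm (Fin n)) :
    (pt d x).coeff t = (x * TT n d).coeff (exA n 1 t) := by
  unfold pt TT JM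
  rw [pos_coeff_sum_single, mul_add, MonoidAlgebra.coeff_add, Finsupp.add_apply, mul_smul_comm,
    mul_one, MonoidAlgebra.coeff_smul_apply, smul_eq_mul, Finset.mul_sum, MonoidAlgebra.coeff_sum,
    Finsupp.finsetSum_apply]
  congr 1
  refine Finset.sum_congr rfl fun i _ => ?_
  rw [MonoidAlgebra.coeff_mul_single_apply, mul_one, tr_inv]

theorem t_POS : S_POS := by
  intro n d N g hg hN1 hN2
  obtain ⟨hgg, hgc, hgs⟩ := hg
  set T : QS (n + 1) := TT n d with hT
  set y : QS (n + 1) := g * T with hy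
  have hgy : g * y = y := by rw [hy, ← mul_assoc, hgg]
  -- `y` is self-adjoint
  have hys : ∀ s, y.coeff s⁻¹ = y.coeff s := by
    intro s
    have h1 : y.coeff s = (T * g).coeff s := by rw [hy, hgc]
    rw [h1, hy, pos_coeff_mul, pos_coeff_mul]
    rw [← Equiv.sum_comp (Equiv.mulLeft s⁻¹)]
    refine Finset.sum_congr rfl fun t _ => ?_
    simp only [Equiv.coe_mulLeft]
    rw [← hgs (s⁻¹ * t), ← coeff_TT_inv n d t]
    simp only [mul_inv_rev, inv_inv, ← hT]
    rw [mul_assoc t⁻¹ s s⁻¹, mul_inv_cancel, mul_one, mul_comm]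
  -- the partial trace
  have hyy : y * T = y * y := by
    rw [hy]
    calc g * T * T = g * g * T * T := by rw [hgg]
      _ = g * (g * T) * T := by rw [mul_assoc g g T]
      _ = g * (T * g) * T := by rw [hgc T]
      _ = g * T * (g * T) := by simp only [mul_assoc]
  have hu : ∀ t, (pt d y).coeff t = (y * y).coeff (exA n 1 t) := by
    intro t
    rw [coeff_pt, ← hT, hyy]
  have h0 : (g * exQ n 1 (pt d y)).coeff 1 = 0 := by
    rw [hN1 _ (hN2 y hgy)]
    rfl
  rw [coeff_one_mul_exQ n g hgs] at h0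
  -- the parts of `y`
  set yc : Fin (n + 1) → QS (n + 1) := fun c => ∑ s : Equiv.Perm (Fin (n + 1)),
    MonoidAlgebra.single s (if s⁻¹ (Fin.last n) = c then y.coeff s else 0) with hyc
  have hycc : ∀ c s, (yc c).coeff s = if s⁻¹ (Fin.last n) = c then y.coeff s else 0 := by
    intro c s
    rw [hyc]
    exact pos_coeff_sum_single _ s
  have hsum : ∑ c, yc c = y := by
    rw [← MonoidAlgebra.coeff_inj]
    ext s
    rw [MonoidAlgebra.coeff_sum, Finsupp.finsetSum_apply]
    simp only [hycc]
    simp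
  -- the sum of the squares
  have key : ∑ c, ∑ s : Equiv.Perm (Fin (n + 1)), (yc c).coeff s * (g * yc c).coeff s = 0 := by
    rw [← h0]
    have e1 : ∀ c s, (yc c).coeff s * (g * yc c).coeff s =
        ∑ t : Equiv.Perm (Fin (n + 1)), (if s⁻¹ (Fin.last n) = c ∧ (t⁻¹ * s)⁻¹ (Fin.last n) = c then
          y.coeff s * (g.coeff t * y.coeff (t⁻¹ * s)) else 0) := by
      intro c s
      rw [pos_coeff_mul, Finset.mul_sum]
      refine Finset.sum_congr rfl fun t _ => ?_
      rw [hycc, hycc]
      by_cases h1 : s⁻¹ (Fin.last n) = c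
      · by_cases h2 : (t⁻¹ * s)⁻¹ (Fin.last n) = c
        · rw [if_pos h1, if_pos h2, if_pos ⟨h1, h2⟩]
        · have h3 : ¬ (s⁻¹ (Fin.last n) = c ∧ (t⁻¹ * s)⁻¹ (Fin.last n) = c) := fun h => h2 h.2
          rw [if_neg h2, if_neg h3, mul_zero, mul_zero]
      · have h3 : ¬ (s⁻¹ (Fin.last n) = c ∧ (t⁻¹ * s)⁻¹ (Fin.last n) = c) := fun h => h1 h.1
        rw [if_neg h1, if_neg h3, zero_mul]
    have e2 : ∀ s t : Equiv.Perm (Fin (n + 1)),
        ∑ c, (if s⁻¹ (Fin.last n) = c ∧ (t⁻¹ * s)⁻¹ (Fin.last n) = c then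
          y.coeff s * (g.coeff t * y.coeff (t⁻¹ * s)) else 0) =
        if t (Fin.last n) = Fin.last n then y.coeff s * (g.coeff t * y.coeff (t⁻¹ * s)) else 0 := by
      intro s t
      rw [Finset.sum_eq_single (s⁻¹ (Fin.last n))]
      · have : (s⁻¹ (Fin.last n) = s⁻¹ (Fin.last n) ∧
            (t⁻¹ * s)⁻¹ (Fin.last n) = s⁻¹ (Fin.last n)) ↔ t (Fin.last n) = Fin.last n := by
          rw [mul_inv_rev, inv_inv, Equiv.Perm.mul_apply]
          constructor
          · intro h
            exact s⁻¹.injective h.2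
          · intro h
            exact ⟨rfl, by rw [h]⟩
        by_cases h : t (Fin.last n) = Fin.last n
        · rw [if_pos (this.2 h), if_pos h]
        · rw [if_neg (fun h' => h (this.1 h')), if_neg h]
      · intro c _ hc
        rw [if_neg]
        intro h
        exact hc h.1.symm
      · intro h
        exact absurd (Finset.mem_univ _) h
    have e3 : ∑ c, ∑ s : Equiv.Perm (Fin (n + 1)), (yc c).coeff s * (g * yc c).coeff s =
        ∑ s : Equiv.Perm (Fin (n + 1)), ∑ t : Equiv.Perm (Fin (n + 1)),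
          if t (Fin.last n) = Fin.last n then y.coeff s * (g.coeff t * y.coeff (t⁻¹ * s)) else 0 := by
      rw [Finset.sum_comm]
      refine Finset.sum_congr rfl fun s _ => ?_
      rw [Finset.sum_congr rfl fun c _ => e1 c s, Finset.sum_comm]
      exact Finset.sum_congr rfl fun t _ => e2 s t
    rw [e3, Finset.sum_comm]
    -- the right-hand side
    have e4 : ∀ t : Equiv.Perm (Fin (n + 1)),
        (∑ s : Equiv.Perm (Fin (n + 1)),
          if t (Fin.last n) = Fin.last n then y.coeff s * (g.coeff t * y.coeff (t⁻¹ * s)) else 0) =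
        if t (Fin.last n) = Fin.last n then g.coeff t * (y * y).coeff t else 0 := by
      intro t
      by_cases h : t (Fin.last n) = Fin.last n
      · simp only [if_pos h]
        rw [pos_coeff_mul, Finset.mul_sum]
        refine Finset.sum_congr rfl fun s _ => ?_
        rw [← hys (t⁻¹ * s), mul_inv_rev, inv_inv]
        ring
      · simp only [if_neg h]
        exact Finset.sum_const_zero
    rw [Finset.sum_congr rfl fun t _ => e4 t, ← Finset.sum_filter]
    symm
    refine Finset.sum_bij (fun t _ => exA n 1 t) ?_ ?_ ?_ ?_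
    · intro t _
      rw [Finset.mem_filter]
      exact ⟨Finset.mem_univ _, exA_last n t⟩
    · intro t _ t' _ h
      exact exA_injective n 1 h
    · intro s hs
      rw [Finset.mem_filter] at hs
      obtain ⟨t, ht⟩ := exists_exA_of_last n s hs.2
      exact ⟨t, Finset.mem_univ _, ht⟩
    · intro t _
      rw [hu]
  have key2 : ∀ c, ∑ s : Equiv.Perm (Fin (n + 1)), (yc c).coeff s * (g * yc c).coeff s =
      ∑ s : Equiv.Perm (Fin (n + 1)), (g * yc c).coeff s ^ 2 := by
    intro c
    have h1 := pos_adj g (yc c) (g * yc c) hgs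
    rw [← mul_assoc, hgg] at h1
    rw [← h1]
    exact Finset.sum_congr rfl fun s _ => by ring
  have hz : ∀ c, g * yc c = 0 := by
    intro c
    have h1 : ∀ c ∈ (univ : Finset (Fin (n + 1))),
        0 ≤ ∑ s : Equiv.Perm (Fin (n + 1)), (yc c).coeff s * (g * yc c).coeff s := by
      intro c _
      rw [key2]
      exact Finset.sum_nonneg fun s _ => sq_nonneg _
    have h2 := (Finset.sum_eq_zero_iff_of_nonneg h1).1 key c (Finset.mem_univ _)
    rw [key2, Finset.sum_eq_zero_iff_of_nonneg (fun s _ => sq_nonneg _)] at h2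
    rw [← MonoidAlgebra.coeff_inj]
    ext s
    exact pow_eq_zero_iff (two_ne_zero) |>.1 (h2 s (Finset.mem_univ _))
  have : y = 0 := by
    rw [← hgy, ← hsum, Finset.mul_sum]
    exact Finset.sum_eq_zero fun c _ => hz c
  exact this

end Pool.Agent.H64ND
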