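import Pool.Agent.H64ND.Act66

/-!
# Project ND, piece QUAD (helper66)
-/

set_option autoImplicit false
set_option linter.unusedSectionVars false
set_option linter.unusedVariables false

open Finset

namespace Pool.Agent.H64ND

namespace Quad66

open Act66

variable {n : ℕ} {B : Type} [DecidableEq B]

lemma act0_JM (u : (Fin (n + 1) → B) → ℚ) (w : Fin (n + 1) → B) :
    act0 (JM n) u w = ∑ i : Fin n, u (w ∘ tr n i) := by
  have h : ∀ s : Finset (Fin n), act0 (∑ i ∈ s, MonoidAlgebra.single (tr n i) (1 : ℚ)) u w =
      ∑ i ∈ s, u (w ∘ tr n i) := by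
    intro s
    induction s using Finset.induction_on with
    | empty => rw [sum_empty, sum_empty, act0_zero]; rfl
    | insert a s ha ih =>
      rw [sum_insert ha, sum_insert ha, act0_add, Pi.add_apply, act0_single, one_mul, ih]
  exact h univ

/-- the equation at the place `k` -/
lemma place {d : ℤ} {e : QS (n + 1)} (he : CI e) (h : e * ((d : ℚ) • 1 + JM n) = 0)
    {u : (Fin (n + 1) → B) → ℚ} (hu : act0 e u = u) (w : Fin (n + 1) → B) (k : Fin (n + 1)) :
    (d : ℚ) * u w + ∑ l ∈ univ.erase k, u (w ∘ Equiv.swap k l) = 0 := by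
  set s : Equiv.Perm (Fin (n + 1)) := Equiv.swap k (Fin.last n) with hs
  have hss : s * s = 1 := by rw [hs, Equiv.swap_mul_self]
  -- the rotated function
  set u' : (Fin (n + 1) → B) → ℚ := act0 (MonoidAlgebra.single s (1 : ℚ)) u with hu'
  have hu'w : ∀ w, u' w = u (w ∘ s) := fun w => by rw [hu', act0_single, one_mul]
  have h1 : act0 e u' = u' := by
    rw [hu', ← act0_mul, he.2.1, act0_mul, hu]
  have h2 : act0 ((d : ℚ) • (1 : QS (n + 1)) + JM n) u' = 0 := by
    have h3 : ((d : ℚ) • (1 : QS (n + 1)) + JM n) * e = 0 := by rw [← he.2.1, h]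
    rw [← h1, ← act0_mul, h3, act0_zero]
  have h3 := congrFun h2 (w ∘ s)
  rw [act0_add, act0_smul, act0_one, Pi.add_apply, Pi.smul_apply, act0_JM, smul_eq_mul, hu'w] at h3
  have h4 : (w ∘ s) ∘ s = w := by
    funext x
    show w ((s * s) x) = w x
    rw [hss]; rfl
  rw [h4] at h3
  have h5 : ∑ i : Fin n, u' ((w ∘ s) ∘ tr n i) = ∑ l ∈ univ.erase k, u (w ∘ Equiv.swap k l) := by
    refine sum_bij (fun i _ => s i.castSucc) ?_ ?_ ?_ ?_
    · intro i _
      rw [mem_erase]
      refine ⟨?_, mem_univ _⟩
      intro h'
      have : i.castSucc = s k := by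
        rw [← h']
        show i.castSucc = (s * s) i.castSucc
        rw [hss]; rfl
      rw [hs, Equiv.swap_apply_left] at this
      exact absurd this (Fin.castSucc_lt_last i).ne
    · intro i _ j _ hij
      exact Fin.castSucc_injective n (s.injective hij)
    · intro l hl
      have hl' : s l ≠ Fin.last n := by
        intro h'
        have : l = s (Fin.last n) := by
          rw [← h']
          show l = (s * s) l
          rw [hss]; rfl
        rw [hs, Equiv.swap_apply_right] at this
        exact (ne_of_mem_erase hl) this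
      refine ⟨(s l).castPred hl', mem_univ _, ?_⟩
      rw [Fin.castSucc_castPred]
      show (s * s) l = l
      rw [hss]; rfl
    · intro i _
      rw [hu'w]
      congr 1
      have h6 : s * tr n i * s = Equiv.swap k (s i.castSucc) := by
        have h7 : s * tr n i * s⁻¹ = Equiv.swap (s i.castSucc) (s (Fin.last n)) := by
          rw [tr, Equiv.mul_swap_eq_swap_mul, mul_assoc, mul_inv_cancel, mul_one]
        have h8 : s⁻¹ = s := by rw [hs, Equiv.swap_inv]
        rw [h8] at h7
        rw [h7, Equiv.swap_comm]
        congr 1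
        rw [hs, Equiv.swap_apply_right]
      rw [← h6]
      rfl
  rw [h5] at h3
  exact h3

lemma upd_swap (w : Fin (n + 1) → B) {k l : Fin (n + 1)} {i j : B} (hk : w k = i) (hl : w l = j)
    (hkl : k ≠ l) : Function.update (Function.update w k j) l i = w ∘ Equiv.swap k l := by
  funext x
  rw [Function.comp_apply]
  by_cases h1 : x = l
  · rw [h1, Function.update_self, Equiv.swap_apply_right, hk]
  · rw [Function.update_of_ne h1]
    by_cases h2 : x = k
    · rw [h2, Function.update_self, Equiv.swap_apply_left, hl]
    · rw [Function.update_of_ne h2, Equiv.swap_apply_of_ne_of_ne h2 h1]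

/-- the exchange sum of two letters -/
def AA (u : (Fin (n + 1) → B) → ℚ) (w : Fin (n + 1) → B) (i j : B) : ℚ :=
  ∑ k ∈ univ.filter (fun k => w k = i), ∑ l ∈ univ.filter (fun l => w l = j),
    u (w ∘ Equiv.swap k l)

lemma AA_comm (u : (Fin (n + 1) → B) → ℚ) (w : Fin (n + 1) → B) (i j : B) :
    AA u w i j = AA u w j i := by
  unfold AA
  rw [sum_comm]
  refine sum_congr rfl fun k _ => sum_congr rfl fun l _ => ?_
  rw [Equiv.swap_comm]

lemma EE (u : (Fin (n + 1) → B) → ℚ) (w : Fin (n + 1) → B) {i j : B} (hij : i ≠ j) :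
    E i j (E j i u) w = wt w i * u w + AA u w i j := by
  unfold E AA wt
  rw [card_eq_sum_ones, Nat.cast_sum, sum_mul, ← sum_add_distrib]
  refine sum_congr rfl fun k hk => ?_
  have hk' : w k = i := (mem_filter.1 hk).2
  have h1 : univ.filter (fun l => Function.update w k j l = j) =
      insert k (univ.filter (fun l => w l = j)) := by
    ext l
    simp only [mem_filter, mem_univ, true_and, mem_insert]
    by_cases h : l = k
    · rw [h]; simp
    · rw [Function.update_of_ne h]
      constructor
      · exact fun h' => Or.inr h'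
      · rintro (h' | h')
        · exact absurd h' h
        · exact h'
  have h2 : k ∉ univ.filter (fun l => w l = j) := by
    rw [mem_filter]
    rintro ⟨-, h'⟩
    exact hij (hk'.symm.trans h')
  rw [h1, sum_insert h2]
  congr 1
  · rw [Function.update_idem, ← hk', Function.update_eq_self]
    simp
  · refine sum_congr rfl fun l hl => ?_
    have hl' : w l = j := (mem_filter.1 hl).2
    have hkl : k ≠ l := by
      rintro rfl
      exact hij (hk'.symm.trans hl')
    rw [upd_swap w hk' hl' hkl]

lemma swap_same (w : Fin (n + 1) → B) {k l : Fin (n + 1)} (h : w k = w l) :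
    w ∘ Equiv.swap k l = w := by
  funext x
  rw [Function.comp_apply]
  by_cases h1 : x = k
  · rw [h1, Equiv.swap_apply_left, h]
  · by_cases h2 : x = l
    · rw [h2, Equiv.swap_apply_right, h]
    · rw [Equiv.swap_apply_of_ne_of_ne h1 h2]

end Quad66

open Act66 Quad66 in
theorem t_QUAD : S_QUAD := by
  intro n L d e he hed u lam hu0 hu hwt hE i
  obtain ⟨w, hw⟩ := Function.ne_iff.1 hu0
  rw [Pi.zero_apply] at hw
  have hlam : ∀ j, wt w j = lam j := fun j => hwt w hw j
  have hE0 : ∀ a b : Fin L, a < b → E a b u = 0 := fun a b hab => funext fun w => hE a b hab w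
  -- values of the exchange sums
  have hA1 : ∀ j, i < j → AA u w i j = -(lam j * u w) := by
    intro j hij
    have h1 := EE u w hij.ne'
    rw [hE0 i j hij] at h1
    have h2 : E j i (0 : (Fin (n + 1) → Fin L) → ℚ) w = 0 := by simp [E]
    rw [h2, hlam, AA_comm] at h1
    linarith
  have hA2 : ∀ j, j < i → AA u w i j = -(lam i * u w) := by
    intro j hij
    have h1 := EE u w hij.ne'
    rw [hE0 j i hij] at h1
    have h2 : E i j (0 : (Fin (n + 1) → Fin L) → ℚ) w = 0 := by simp [E]
    rw [h2, hlam] at h1
    linarith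
  -- the sum over the places of the letter `i`
  have hsum : ∑ k ∈ univ.filter (fun k => w k = i), ((d : ℚ) * u w +
      ∑ l ∈ univ.erase k, u (w ∘ Equiv.swap k l)) = 0 :=
    sum_eq_zero fun k _ => place he hed hu w k
  have hinner : ∀ k ∈ univ.filter (fun k => w k = i), ∑ l ∈ univ.erase k, u (w ∘ Equiv.swap k l) =
      ((lam i : ℚ) - 1) * u w + ∑ j ∈ univ.erase i, ∑ l ∈ univ.filter (fun l => w l = j),
        u (w ∘ Equiv.swap k l) := by
    intro k hk
    have hk' : w k = i := (mem_filter.1 hk).2
    rw [← sum_fiberwise (univ.erase k) w, ← add_sum_erase univ _ (mem_univ i)]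
    congr 1
    · have h1 : ∀ l ∈ (univ.erase k).filter (fun l => w l = i), u (w ∘ Equiv.swap k l) = u w := by
        intro l hl
        rw [swap_same w (hk'.trans (mem_filter.1 hl).2.symm)]
      rw [sum_congr rfl h1, sum_const, nsmul_eq_mul]
      congr 1
      have h2 : (univ.erase k).filter (fun l => w l = i) = (univ.filter (fun l => w l = i)).erase k := by
        rw [filter_erase]
      rw [h2, card_erase_of_mem hk]
      have h3 : (univ.filter (fun l => w l = i)).card = lam i := hlam i
      have h4 : 0 < lam i := h3 ▸ card_pos.2 ⟨k, hk⟩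
      rw [h3, Nat.cast_sub h4]
      simp
    · refine sum_congr rfl fun j hj => ?_
      refine sum_congr ?_ fun _ _ => rfl
      ext l
      simp only [mem_filter, mem_erase, mem_univ, and_true, true_and]
      constructor
      · exact fun h => h.2
      · intro h
        refine ⟨?_, h⟩
        rintro rfl
        exact (ne_of_mem_erase hj) (h.symm.trans hk')
  rw [sum_congr rfl (fun k hk => by rw [hinner k hk] :
    ∀ k ∈ univ.filter (fun k => w k = i), _ = (d : ℚ) * u w + (((lam i : ℚ) - 1) * u w +
      ∑ j ∈ univ.erase i, ∑ l ∈ univ.filter (fun l => w l = j), u (w ∘ Equiv.swap k l)))] at hsum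
  rw [sum_add_distrib, sum_add_distrib, sum_const, sum_const, sum_comm] at hsum
  have hcard : (univ.filter (fun l => w l = i)).card = lam i := hlam i
  rw [hcard, nsmul_eq_mul, nsmul_eq_mul] at hsum
  have hAA : ∑ j ∈ univ.erase i, ∑ k ∈ univ.filter (fun k => w k = i),
      ∑ l ∈ univ.filter (fun l => w l = j), u (w ∘ Equiv.swap k l) =
      ∑ j ∈ univ.erase i, AA u w i j := rfl
  rw [hAA] at hsum
  -- split into larger and smaller letters
  have hsplit : (univ.erase i : Finset (Fin L)) =
      univ.filter (fun j => i < j) ∪ univ.filter (fun j => j < i) := by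
    ext j
    simp only [mem_erase, mem_univ, and_true, mem_union, mem_filter, true_and]
    constructor
    · intro h
      rcases lt_trichotomy i j with h' | h' | h'
      · exact Or.inl h'
      · exact absurd h'.symm h
      · exact Or.inr h'
    · rintro (h | h)
      · exact h.ne'
      · exact h.ne
  have hdisj : Disjoint (univ.filter (fun j => i < j)) (univ.filter (fun j : Fin L => j < i)) := by
    rw [disjoint_left]
    intro j hj hj'
    exact absurd ((mem_filter.1 hj).2.trans (mem_filter.1 hj').2) (lt_irrefl _)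
  rw [hsplit, sum_union hdisj, sum_congr rfl (fun j hj => hA1 j (mem_filter.1 hj).2),
    sum_congr rfl (fun j hj => hA2 j (mem_filter.1 hj).2), sum_const, nsmul_eq_mul,
    sum_neg_distrib, ← sum_mul] at hsum
  have hci : (univ.filter (fun j : Fin L => j < i)).card = (i : ℕ) := by
    have h8 : univ.filter (fun j : Fin L => j < i) = Finset.Iio i := by
      ext j
      simp
    rw [h8, Fin.card_Iio]
  rw [hci] at hsum
  have h9 : u w * ((lam i : ℚ) * (lam i + d - ((i : ℕ) + 1)) -
      ∑ j ∈ univ.filter (fun j => i < j), (lam j : ℚ)) = 0 := by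
    rw [← hsum]
    ring
  have h10 := (mul_eq_zero.1 h9).resolve_left hw
  have h11 : (lam i : ℚ) * (lam i + d - ((i : ℕ) + 1)) =
      ∑ j ∈ univ.filter (fun j => i < j), (lam j : ℚ) := by linarith
  exact_mod_cast h11

end Pool.Agent.H64ND
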