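import Pool.Agent.H64ND.Stm

/-!
Piece SGN of project ND (helper64): the sign of a permutation on the odd places.
-/

set_option autoImplicit false

open Finset

namespace Pool.Agent.H64ND

namespace SG

/-- The pairs of places. -/
def prs (n : ℕ) : Finset (Fin n × Fin n) := univ.filter fun p => p.1 < p.2

lemma sgnW_eq {n : ℕ} (o : Fin n → Bool) (σ : Equiv.Perm (Fin n)) :
    sgnW o σ = ∏ p ∈ prs n, if σ p.2 < σ p.1 ∧ o (σ p.1) = true ∧ o (σ p.2) = true then (-1 : ℚ)
      else 1 := by
  unfold sgnW prs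
  rw [Finset.prod_filter, ← Finset.univ_product_univ, Finset.prod_product]
  refine Finset.prod_congr rfl fun i _ => Finset.prod_congr rfl fun j _ => ?_
  rw [ite_and]

/-- Reindexing with a permutation. -/
lemma prod_perm {n : ℕ} (τ : Equiv.Perm (Fin n)) (g : Fin n → Fin n → ℚ)
    (hg : ∀ a b, g a b = g b a) : ∏ p ∈ prs n, g (τ p.1) (τ p.2) = ∏ p ∈ prs n, g p.1 p.2 := by
  unfold prs
  refine Finset.prod_bij' (fun p _ => (min (τ p.1) (τ p.2), max (τ p.1) (τ p.2)))
    (fun p _ => (min (τ.symm p.1) (τ.symm p.2), max (τ.symm p.1) (τ.symm p.2))) ?_ ?_ ?_ ?_ ?_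
  · rintro ⟨i, j⟩ h
    simp only [mem_filter, mem_univ, true_and] at h ⊢
    have h1 : τ i ≠ τ j := fun h2 => h.ne (τ.injective h2)
    exact min_lt_max.2 h1
  · rintro ⟨i, j⟩ h
    simp only [mem_filter, mem_univ, true_and] at h ⊢
    have h1 : τ.symm i ≠ τ.symm j := fun h2 => h.ne (τ.symm.injective h2)
    exact min_lt_max.2 h1
  · rintro ⟨i, j⟩ h
    simp only [mem_filter, mem_univ, true_and] at h ⊢
    rcases le_total (τ i) (τ j) with h1 | h1
    · rw [min_eq_left h1, max_eq_right h1, τ.symm_apply_apply, τ.symm_apply_apply,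
        min_eq_left h.le, max_eq_right h.le]
    · rw [min_eq_right h1, max_eq_left h1, τ.symm_apply_apply, τ.symm_apply_apply,
        min_eq_right h.le, max_eq_left h.le]
  · rintro ⟨i, j⟩ h
    simp only [mem_filter, mem_univ, true_and] at h ⊢
    rcases le_total (τ.symm i) (τ.symm j) with h1 | h1
    · rw [min_eq_left h1, max_eq_right h1, τ.apply_symm_apply, τ.apply_symm_apply,
        min_eq_left h.le, max_eq_right h.le]
    · rw [min_eq_right h1, max_eq_left h1, τ.apply_symm_apply, τ.apply_symm_apply,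
        min_eq_right h.le, max_eq_left h.le]
  · rintro ⟨i, j⟩ h
    rcases le_total (τ i) (τ j) with h1 | h1
    · simp only [min_eq_left h1, max_eq_right h1]
    · simp only [min_eq_right h1, max_eq_left h1]
      exact hg _ _

lemma part1 (n : ℕ) (o : Fin n → Bool) (σ τ : Equiv.Perm (Fin n)) :
    sgnW o (σ * τ) = sgnW o σ * sgnW (o ∘ σ) τ := by
  classical
  let g : Fin n → Fin n → ℚ := fun a b =>
    if ((a < b ∧ σ b < σ a) ∨ (b < a ∧ σ a < σ b)) ∧ o (σ a) = true ∧ o (σ b) = true then -1 else 1
  have hg : ∀ a b, g a b = g b a := by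
    intro a b
    simp only [g]
    congr 1
    exact propext ⟨fun h => ⟨h.1.symm, h.2.2, h.2.1⟩, fun h => ⟨h.1.symm, h.2.2, h.2.1⟩⟩
  have h1 : sgnW o σ = ∏ p ∈ prs n, g p.1 p.2 := by
    rw [sgnW_eq]
    refine Finset.prod_congr rfl fun p hp => ?_
    have hlt : p.1 < p.2 := (mem_filter.1 hp).2
    simp only [g]
    congr 1
    refine propext ⟨fun h => ⟨Or.inl ⟨hlt, h.1⟩, h.2⟩, fun h => ⟨?_, h.2⟩⟩
    rcases h.1 with h2 | h2
    · exact h2.2
    · exact absurd h2.1 (not_lt.2 hlt.le)
  rw [h1, ← prod_perm τ g hg, sgnW_eq, sgnW_eq, ← Finset.prod_mul_distrib]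
  refine Finset.prod_congr rfl fun p hp => ?_
  have hlt : p.1 < p.2 := (mem_filter.1 hp).2
  have hne : τ p.1 ≠ τ p.2 := fun h => hlt.ne (τ.injective h)
  have hne' : σ (τ p.1) ≠ σ (τ p.2) := fun h => hne (σ.injective h)
  have key : ∀ a b : Fin n, a ≠ b → σ a ≠ σ b →
      (if σ b < σ a ∧ o (σ a) = true ∧ o (σ b) = true then (-1 : ℚ) else 1) =
      (if ((a < b ∧ σ b < σ a) ∨ (b < a ∧ σ a < σ b)) ∧ o (σ a) = true ∧ o (σ b) = true
        then -1 else 1) *
      (if b < a ∧ o (σ a) = true ∧ o (σ b) = true then -1 else 1) := by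
    intro a b hne hne'
    by_cases ho : o (σ a) = true ∧ o (σ b) = true
    · simp only [ho.1, ho.2, and_true]
      rcases lt_or_gt_of_ne hne with h2 | h2 <;> rcases lt_or_gt_of_ne hne' with h3 | h3
      · simp [h2, h3, h2.le, h3.le, not_lt.2 h2.le, not_lt.2 h3.le]
      · simp [h2, h3, h2.le, h3.le, not_lt.2 h2.le, not_lt.2 h3.le]
      · simp [h2, h3, h2.le, h3.le, not_lt.2 h2.le, not_lt.2 h3.le]
      · simp [h2, h3, h2.le, h3.le, not_lt.2 h2.le, not_lt.2 h3.le]
    · have k1 : ¬ (σ b < σ a ∧ o (σ a) = true ∧ o (σ b) = true) := fun h => ho h.2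
      have k2 : ¬ (((a < b ∧ σ b < σ a) ∨ (b < a ∧ σ a < σ b)) ∧ o (σ a) = true ∧ o (σ b) = true) :=
        fun h => ho h.2
      have k3 : ¬ (b < a ∧ o (σ a) = true ∧ o (σ b) = true) := fun h => ho h.2
      rw [if_neg k1, if_neg k2, if_neg k3, mul_one]
  exact key _ _ hne hne'

lemma part2 (n : ℕ) (o : Fin (n + 1) → Bool) (i : Fin n) (hi : o i.castSucc = o (Fin.last n)) :
    sgnW o (tr n i) = if o (Fin.last n) = true then -1 else 1 := by
  classical
  set z : Fin (n + 1) := i.castSucc with hz
  set l : Fin (n + 1) := Fin.last n with hl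
  have hzl : z < l := Fin.castSucc_lt_last i
  by_cases hol : o l = true
  swap
  · rw [if_neg hol]
    have hoz : ¬ o z = true := by rw [hi]; exact hol
    unfold sgnW
    refine Finset.prod_eq_one fun x _ => Finset.prod_eq_one fun y _ => ?_
    rw [if_neg]
    rintro ⟨h1, h2, h3, h4⟩
    have hx : tr n i x ≠ l ∧ tr n i x ≠ z := ⟨fun h => hol (h ▸ h3), fun h => hoz (h ▸ h3)⟩
    have hy : tr n i y ≠ l ∧ tr n i y ≠ z := ⟨fun h => hol (h ▸ h4), fun h => hoz (h ▸ h4)⟩
    have hx' : tr n i x = x := by
      unfold tr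
      refine Equiv.swap_apply_of_ne_of_ne ?_ ?_
      · rintro rfl
        exact hx.1 (by unfold tr; rw [Equiv.swap_apply_left])
      · rintro rfl
        exact hx.2 (by unfold tr; rw [Equiv.swap_apply_right])
    have hy' : tr n i y = y := by
      unfold tr
      refine Equiv.swap_apply_of_ne_of_ne ?_ ?_
      · rintro rfl
        exact hy.1 (by unfold tr; rw [Equiv.swap_apply_left])
      · rintro rfl
        exact hy.2 (by unfold tr; rw [Equiv.swap_apply_right])
    rw [hx', hy'] at h2
    exact absurd h1 (not_lt.2 h2.le)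
  · rw [if_pos hol]
    have hoz : o z = true := by rw [hi]; exact hol
    let f : Fin (n + 1) → ℚ := fun y => if z < y ∧ y ≠ l ∧ o y = true then -1 else 1
    let A : Fin (n + 1) → Fin (n + 1) → ℚ := fun x y => if x = z then f y else 1
    let B : Fin (n + 1) → Fin (n + 1) → ℚ := fun x y => if y = l then f x else 1
    let C : Fin (n + 1) → Fin (n + 1) → ℚ := fun x y => if x = z then (if y = l then -1 else 1) else 1
    have hF : ∀ x y : Fin (n + 1), (if x < y ∧ tr n i y < tr n i x ∧ o (tr n i x) = true ∧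
        o (tr n i y) = true then (-1 : ℚ) else 1) = A x y * B x y * C x y := by
      intro x y
      have tz : tr n i z = l := by unfold tr; rw [Equiv.swap_apply_left]
      have tl : tr n i l = z := by unfold tr; rw [Equiv.swap_apply_right]
      have tother : ∀ w, w ≠ z → w ≠ l → tr n i w = w := by
        intro w h1 h2
        unfold tr
        exact Equiv.swap_apply_of_ne_of_ne h1 h2
      have hle : ∀ w : Fin (n + 1), w ≤ l := fun w => Fin.le_last w
      simp only [A, B, C, f]
      by_cases hxz : x = z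
      · subst hxz
        by_cases hyl : y = l
        · subst hyl
          simp [tz, tl, hzl, hol, hoz]
        · by_cases hyz : y = z
          · subst hyz
            simp [hyl]
          · rw [tz, tother y hyz hyl]
            have hyl' : y < l := lt_of_le_of_ne (hle y) hyl
            simp [hyl, hyl', hol]
      · by_cases hxl : x = l
        · subst hxl
          have : ¬ l < y := not_lt.2 (hle y)
          simp [hxz, this]
        · rw [tother x hxz hxl]
          by_cases hyl : y = l
          · subst hyl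
            have hxl' : x < l := lt_of_le_of_ne (hle x) hxl
            simp [tl, hxz, hxl, hxl', hoz]
          · by_cases hyz : y = z
            · subst hyz
              have : ¬ l < x := not_lt.2 (hle x)
              simp [tz, hxz, hyl, this]
            · rw [tother y hyz hyl]
              simp only [if_neg hxz, if_neg hyl, mul_one]
              rw [if_neg]
              rintro ⟨h1, h2, -⟩
              exact absurd h1 (not_lt.2 h2.le)
    unfold sgnW
    simp only [hF, Finset.prod_mul_distrib]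
    have hA : ∏ x, ∏ y, A x y = ∏ y, f y := by
      rw [Finset.prod_eq_single z]
      · simp [A]
      · intro x _ hx
        simp [A, hx]
      · intro h
        exact absurd (mem_univ _) h
    have hB : ∏ x, ∏ y, B x y = ∏ x, f x := by
      refine Finset.prod_congr rfl fun x _ => ?_
      rw [Finset.prod_eq_single l]
      · simp [B]
      · intro y _ hy
        simp [B, hy]
      · intro h
        exact absurd (mem_univ _) h
    have hC : ∏ x, ∏ y, C x y = -1 := by
      rw [Finset.prod_eq_single z]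
      · simp [C]
      · intro x _ hx
        simp [C, hx]
      · intro h
        exact absurd (mem_univ _) h
    rw [hA, hB, hC, ← Finset.prod_mul_distrib]
    have hff : ∀ y, f y * f y = 1 := by
      intro y
      simp only [f]
      split_ifs <;> norm_num
    rw [Finset.prod_congr rfl fun y _ => hff y, Finset.prod_const_one, one_mul]

lemma part3 (n : ℕ) (o : Fin (n + 1) → Bool) (τ : Equiv.Perm (Fin n)) :
    sgnW o (exA n 1 τ) = sgnW (fun i => o i.castSucc) τ := by
  unfold sgnW
  have h1 : ∀ i : Fin n, exA n 1 τ i.castSucc = (τ i).castSucc := fun i => exA_castAdd n 1 τ i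
  have h2 : exA n 1 τ (Fin.last n) = Fin.last n := exA_natAdd n 1 τ 0
  rw [Fin.prod_univ_castSucc]
  have h3 : ∏ j : Fin (n + 1), (if Fin.last n < j ∧ exA n 1 τ j < exA n 1 τ (Fin.last n) ∧
      o (exA n 1 τ (Fin.last n)) = true ∧ o (exA n 1 τ j) = true then (-1 : ℚ) else 1) = 1 := by
    refine Finset.prod_eq_one fun j _ => if_neg ?_
    rintro ⟨h, -⟩
    exact absurd h (not_lt.2 (Fin.le_last j))
  rw [h3, mul_one]
  refine Finset.prod_congr rfl fun i _ => ?_
  rw [Fin.prod_univ_castSucc]
  have h4 : ¬ (i.castSucc < Fin.last n ∧ exA n 1 τ (Fin.last n) < exA n 1 τ i.castSucc ∧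
      o (exA n 1 τ i.castSucc) = true ∧ o (exA n 1 τ (Fin.last n)) = true) := by
    rintro ⟨-, h, -⟩
    rw [h2] at h
    exact absurd h (not_lt.2 (Fin.le_last _))
  rw [if_neg h4, mul_one]
  refine Finset.prod_congr rfl fun j _ => ?_
  simp only [h1, Fin.castSucc_lt_castSucc_iff]

lemma part4 (n : ℕ) (o : Fin (n + 2) → Bool) : sgnW o (tr (n + 1) (Fin.last n)) =
    if o (Fin.last n).castSucc = true ∧ o (Fin.last (n + 1)) = true then -1 else 1 := by
  classical
  set z : Fin (n + 2) := (Fin.last n).castSucc with hz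
  set l : Fin (n + 2) := Fin.last (n + 1) with hl
  have hzl : z < l := Fin.castSucc_lt_last _
  have tz : tr (n + 1) (Fin.last n) z = l := by unfold tr; rw [Equiv.swap_apply_left]
  have tl : tr (n + 1) (Fin.last n) l = z := by unfold tr; rw [Equiv.swap_apply_right]
  have tother : ∀ w, w ≠ z → w ≠ l → tr (n + 1) (Fin.last n) w = w := by
    intro w h1 h2
    unfold tr
    exact Equiv.swap_apply_of_ne_of_ne h1 h2
  have hle : ∀ w : Fin (n + 2), w ≤ l := fun w => Fin.le_last w
  have hlt : ∀ w : Fin (n + 2), w ≠ z → w ≠ l → w < z := by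
    intro w h1 h2
    rw [Fin.lt_def]
    have h3 : (w : ℕ) ≠ n := fun h => h1 (Fin.ext (by rw [hz]; simpa using h))
    have h4 : (w : ℕ) ≠ n + 1 := fun h => h2 (Fin.ext (by rw [hl]; simpa using h))
    have h5 := w.2
    have h6 : (z : ℕ) = n := by rw [hz]; simp
    omega
  unfold sgnW
  rw [Finset.prod_eq_single z]
  · rw [Finset.prod_eq_single l]
    · rw [tz, tl]
      congr 1
      exact propext ⟨fun h => ⟨h.2.2.2, h.2.2.1⟩, fun h => ⟨hzl, hzl, h.2, h.1⟩⟩
    · intro y _ hy
      refine if_neg ?_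
      rintro ⟨h1, -⟩
      exact absurd h1 (not_lt.2 (hlt y h1.ne' hy).le)
    · intro h
      exact absurd (mem_univ _) h
  · intro x _ hx
    refine Finset.prod_eq_one fun y _ => if_neg ?_
    rintro ⟨h1, h2, -⟩
    have hxl : x ≠ l := fun h => absurd (h ▸ h1) (not_lt.2 (hle y))
    rw [tother x hx hxl] at h2
    by_cases hyz : y = z
    · rw [hyz, tz] at h2
      exact absurd h2 (not_lt.2 (hle x))
    · by_cases hyl : y = l
      · rw [hyl, tl] at h2
        exact absurd h2 (not_lt.2 (hlt x hx hxl).le)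
      · rw [tother y hyz hyl] at h2
        exact absurd h1 (not_lt.2 h2.le)
  · intro h
    exact absurd (mem_univ _) h

end SG

open SG in
theorem t_SGN : S_SGN := by
  refine ⟨part1, part2, part3, part4, ?_, ?_⟩
  · intro n o σ h
    unfold sgnW
    refine Finset.prod_eq_one fun i _ => Finset.prod_eq_one fun j _ => if_neg ?_
    rintro ⟨-, -, h1, -⟩
    rw [h] at h1
    exact absurd h1 (by decide)
  · intro n o σ
    unfold sgnW
    have hmul : ∀ a b : ℚ, (a = 1 ∨ a = -1) → (b = 1 ∨ b = -1) → (a * b = 1 ∨ a * b = -1) := by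
      rintro a b (rfl | rfl) (rfl | rfl) <;> norm_num
    refine Finset.prod_induction _ (fun x : ℚ => x = 1 ∨ x = -1) hmul (Or.inl rfl) fun i _ => ?_
    refine Finset.prod_induction _ (fun x : ℚ => x = 1 ∨ x = -1) hmul (Or.inl rfl) fun j _ => ?_
    split_ifs
    · exact Or.inr rfl
    · exact Or.inl rfl

end Pool.Agent.H64ND
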