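import Pool.Agent.H64ND.Stm
import Pool.Agent.H64NC.Count

/-!
# Project ND, piece UB1
-/

set_option autoImplicit false

open Finset

namespace Pool.Agent.H64ND

namespace UB1x

theorem coeff_one {n : ℕ} (c : QS n) (hc : CI c) : ∑ σ, c.coeff σ ^ 2 = c.coeff 1 := by
  classical
  have h1 : (c * c).coeff 1 = ∑ σ, ∑ τ, if σ * τ = 1 then c.coeff σ * c.coeff τ else 0 := by
    rw [MonoidAlgebra.coeff_mul, Finsupp.sum_fintype]
    · refine sum_congr rfl fun σ _ => ?_
      rw [Finsupp.sum_fintype]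
      intro τ
      simp
    · intro σ
      simp
  rw [hc.1] at h1
  rw [h1]
  refine sum_congr rfl fun σ _ => ?_
  rw [sum_eq_single σ⁻¹]
  · rw [if_pos (mul_inv_cancel σ), hc.2.2 σ, sq]
  · intro τ _ hτ
    rw [if_neg]
    intro h
    exact hτ (eq_inv_of_mul_eq_one_right h)
  · intro h
    exact absurd (mem_univ _) h

end UB1x

open UB1x in
theorem t_UB1 : S_UB1 := by
  classical
  intro n D c hc χ hχ
  have h1 := sum_mul_sq_le_sq_mul_sq (univ : Finset (Equiv.Perm (Fin n))) (fun σ => c.coeff σ) χ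
  rw [coeff_one c hc] at h1
  have h0 : 0 ≤ c.coeff 1 := by
    rw [← coeff_one c hc]
    exact sum_nonneg fun σ _ => sq_nonneg _
  have h2 : ∑ σ, χ σ ^ 2 ≤ ((n.factorial * (n + 1) ^ (D ^ 2) : ℕ) : ℚ) := by
    have h3 : ∀ σ : Equiv.Perm (Fin n), χ σ ^ 2 ≤
        (((univ.filter fun L : Fin n → Fin D × Fin D =>
          L ∘ σ = L ∘ (1 : Equiv.Perm (Fin n))).card : ℕ) : ℚ) := by
      intro σ
      have h4 := Pool.Agent.H64NC.Count.count_sq (n := n) (D := D) σ 1
      have h5 := hχ σ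
      calc χ σ ^ 2 = |χ σ| ^ 2 := (sq_abs _).symm
        _ ≤ (((univ.filter fun w : Fin n → Fin D => w ∘ σ = w).card : ℕ) : ℚ) ^ 2 := by
          gcongr
        _ ≤ _ := by exact_mod_cast h4
    refine (sum_le_sum fun σ _ => h3 σ).trans ?_
    have h6 := Pool.Agent.H64NC.Count.count (α := Fin D × Fin D) (1 : Equiv.Perm (Fin n))
    rw [Fintype.card_prod, Fintype.card_fin, ← sq] at h6
    exact_mod_cast h6
  calc (∑ σ, c.coeff σ * χ σ) ^ 2 ≤ c.coeff 1 * ∑ σ, χ σ ^ 2 := h1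
    _ ≤ c.coeff 1 * ((n.factorial * (n + 1) ^ (D ^ 2) : ℕ) : ℚ) :=
        mul_le_mul_of_nonneg_left h2 h0
    _ = _ := by
        push_cast
        ring

end Pool.Agent.H64ND
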