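import Pool.Agent.H64ND.Stm

/-!
# Project ND (helper64), piece UB2: the dimension of the ideal generated by an idempotent
-/

set_option autoImplicit false
set_option linter.all false

open Finset

namespace Pool.Agent.H64ND

namespace Ub2P

/-- The matrix of the action. -/
noncomputable def Phi (n L : ℕ) (o : Fin L → Bool) :
    QS n →ₗ[ℚ] Matrix (Fin n → Fin L) (Fin n → Fin L) ℚ where
  toFun x := Matrix.of fun w w' => ∑ σ : Equiv.Perm (Fin n), if w ∘ σ = w' then x.coeff σ * sgnW (o ∘ w) σ else 0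
  map_add' x y := by
    ext w w'
    simp only [Matrix.of_apply, Matrix.add_apply, MonoidAlgebra.coeff_add, Finsupp.coe_add, Pi.add_apply,
      ← Finset.sum_add_distrib]
    refine Finset.sum_congr rfl fun σ _ => ?_
    split_ifs <;> ring
  map_smul' c x := by
    ext w w'
    simp only [Matrix.of_apply, Matrix.smul_apply, MonoidAlgebra.coeff_smul, Finsupp.coe_smul, Pi.smul_apply,
      smul_eq_mul, RingHom.id_apply, Finset.mul_sum]
    refine Finset.sum_congr rfl fun σ _ => ?_
    split_ifs <;> ring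

theorem Phi_apply (n L : ℕ) (o : Fin L → Bool) (x : QS n) (w w' : Fin n → Fin L) :
    Phi n L o x w w' = ∑ σ : Equiv.Perm (Fin n), if w ∘ σ = w' then x.coeff σ * sgnW (o ∘ w) σ else 0 := rfl

theorem mem_ker (n L : ℕ) (o : Fin L → Bool) (x : QS n) (h : Phi n L o x = 0) : x ∈ Ker o n := by
  intro u
  funext w
  have h1 : ∀ w', ∑ σ : Equiv.Perm (Fin n), (if w ∘ σ = w' then x.coeff σ * sgnW (o ∘ w) σ else 0) * u w' = 0 := by
    intro w'
    rw [← Finset.sum_mul, ← Phi_apply, h]
    simp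
  have h2 : ∑ w', ∑ σ : Equiv.Perm (Fin n), (if w ∘ σ = w' then x.coeff σ * sgnW (o ∘ w) σ else 0) * u w' = 0 :=
    Finset.sum_eq_zero fun w' _ => h1 w'
  rw [Finset.sum_comm] at h2
  show ∑ σ, x.coeff σ * sgnW (o ∘ w) σ * u (w ∘ σ) = 0
  rw [← h2]
  refine Finset.sum_congr rfl fun σ _ => ?_
  rw [Finset.sum_eq_single (w ∘ σ)]
  · rw [if_pos rfl]
  · intro w' _ hw'
    rw [if_neg (Ne.symm hw'), zero_mul]
  · intro hh
    exact absurd (mem_univ _) hh

theorem trace_mul (n : ℕ) (c : QS n) :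
    LinearMap.trace ℚ (QS n) (LinearMap.mulLeft ℚ c) = (n.factorial : ℚ) * c.coeff 1 := by
  rw [LinearMap.trace_eq_matrix_trace ℚ (MonoidAlgebra.basis (Equiv.Perm (Fin n)) ℚ), Matrix.trace]
  have h : ∀ σ : Equiv.Perm (Fin n), (LinearMap.toMatrix (MonoidAlgebra.basis (Equiv.Perm (Fin n)) ℚ)
      (MonoidAlgebra.basis (Equiv.Perm (Fin n)) ℚ) (LinearMap.mulLeft ℚ c)).diag σ = c.coeff 1 := by
    intro σ
    rw [Matrix.diag_apply, LinearMap.toMatrix_apply, MonoidAlgebra.basis_apply, LinearMap.mulLeft_apply]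
    show (c * MonoidAlgebra.single σ 1).coeff σ = c.coeff 1
    rw [MonoidAlgebra.coeff_mul_single_apply, mul_inv_cancel, mul_one]
  rw [Finset.sum_congr rfl fun σ _ => h σ, Finset.sum_const, nsmul_eq_mul, Finset.card_univ,
    Fintype.card_perm, Fintype.card_fin]

end Ub2P

open Ub2P in
/-- **UB2.** -/
theorem t_UB2 : S_UB2 := by
  intro n L o c hcc hc
  haveI : Module.Finite ℚ (QS n) := Module.Finite.of_basis (MonoidAlgebra.basis (Equiv.Perm (Fin n)) ℚ)
  set f : QS n →ₗ[ℚ] QS n := LinearMap.mulLeft ℚ c with hf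
  have hid : IsIdempotentElem f := by
    show f * f = f
    refine LinearMap.ext fun x => ?_
    show c * (c * x) = c * x
    rw [← mul_assoc, hcc]
  have h1 := (LinearMap.IsIdempotentElem.isProj_range f hid).trace
  rw [hf, trace_mul] at h1
  rw [h1]
  have h2 : Module.finrank ℚ (LinearMap.range (LinearMap.mulLeft ℚ c)) ≤
      Module.finrank ℚ (Matrix (Fin n → Fin L) (Fin n → Fin L) ℚ) := by
    apply LinearMap.finrank_le_finrank_of_injective
      (f := (Phi n L o).comp (LinearMap.range (LinearMap.mulLeft ℚ c)).subtype)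
    rw [injective_iff_map_eq_zero]
    rintro ⟨x, y, rfl⟩ hx
    have h3 := mem_ker n L o _ hx
    have h4 := hc _ h3
    apply Subtype.ext
    show c * y = 0
    have h5 : c * (c * y) = 0 := h4
    rwa [← mul_assoc, hcc] at h5
  rw [Module.finrank_matrix, Module.finrank_self, mul_one, Fintype.card_fun, Fintype.card_fin,
    Fintype.card_fin] at h2
  have h3 : ((Module.finrank ℚ (LinearMap.range (LinearMap.mulLeft ℚ c)) : ℕ) : ℚ) ≤ ((L ^ n * L ^ n : ℕ) : ℚ) :=
    Nat.cast_le.2 h2
  refine h3.trans (le_of_eq ?_)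
  push_cast
  ring

end Pool.Agent.H64ND
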