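import Pool.Agent.H64ND.FinN
import Pool.Agent.H64ND.Ga
import Pool.Agent.H64ND.Pos
import Pool.Agent.H64ND.Quad
import Pool.Agent.H64ND.Nump
import Pool.Agent.H64ND.Hw
import Pool.Agent.H64ND.Cap
import Pool.Agent.H64ND.Det
import Pool.Agent.H64ND.Factb
import Pool.Agent.H64ND.Sgn
import Pool.Agent.H64ND.Ktid
import Pool.Agent.H64ND.Kmin
import Pool.Agent.H64ND.Ub1
import Pool.Agent.H64ND.Ub2
import Pool.Agent.H64ND.Cperm
import Pool.Agent.H64ND.Cpt
import Pool.Agent.H64ND.Cnum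
import Pool.Agent.H64ND.Cub
import Pool.Agent.H64ND.Cen
import Pool.Agent.H64ND.Desc

/-!
# The numerical Betti number and the numerical sign conjecture, for all objects
-/

set_option autoImplicit false
set_option linter.unusedSectionVars false

open CategoryTheory Limits MonoidalCategory Filter Topology
open Pool.Agent.Y112.SR Pool.Agent.Y112.KD Pool.Agent.Y112.SC Pool.Agent.R484.NC Pool.Agent.H64NC

namespace Pool.Agent.H64ND

universe u v w

theorem allC : AllC.{u, v, w} :=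
  { all := ⟨t_GA, t_POS, t_QUAD, t_NUMP, t_HW, t_CAP, t_DET, t_FACTB⟩
    sgn := t_SGN
    ktid := t_KTID t_SGN
    kmin := t_KMIN t_SGN
    ub1 := t_UB1
    ub2 := t_UB2
    cperm := t_CPERM t_SGN
    cpt := t_CPT t_SGN (t_CPERM t_SGN)
    cnum := t_CNUM
    cub := t_CUB
    cen := t_CEN }

section

variable {C : Type u} [Category.{v} C] [Preadditive C] [Linear ℚ C] [MonoidalCategory C]
  [MonoidalPreadditive C] [MonoidalLinear ℚ C] [SymmetricCategory C] [RightRigidCategory C]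

/-- The parity indices and the numerical Betti numbers of all objects. -/
structure BD (hU : UnitQ C) (ρ β : C → ℕ) : Prop where
  idx : ∀ X, IsIdx hU X (ρ X)
  mul : ∀ M N, ρ M * ρ N ≤ ρ (M ⊗ N)
  sum : ∀ M N S, IsSum M N S → ρ S = ρ M + ρ N
  pow : ∀ M n, ρ (tp M n) ≤ β M ^ n
  low : ∀ M n, β M ^ (2 * n) ≤ ρ (tp M n) ^ 2 * (n + 1) ^ (β M ^ 2)
  bmul : ∀ M N, β (M ⊗ N) = β M * β N
  bsum : ∀ M N S, IsSum M N S → β S = β M + β N
  bzero : ∀ M, β M = 0 ↔ NumZero hU (𝟙 M)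
  cp : ∀ (M : C) {K : Type w} [Field K] (R : SuperRealisation C K), β M ≤ totalDim R M ∧
    Even (totalDim R M - β M) ∧ (β M = totalDim R M ↔ Nil R hU M) ∧
    Even (totalDim R M - ρ M) ∧ ρ M ≤ totalDim R M ∧ (R.CPlus M ↔ totalDim R M = ρ M)

theorem exists_BD (hU : UnitQ C) {K₀ : Type w} [Field K₀] (R₀ : SuperRealisation C K₀) :
    ∃ ρ β : C → ℕ, BD.{u, v, w} hU ρ β := by
  obtain ⟨β, h1, -, h3, h4, h5, h6⟩ := betti allC.{u, v, w} hU R₀
  obtain ⟨ρ, hρ, hP, hmul, hadd⟩ := exists_index hU R₀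
  refine ⟨ρ, β, hρ, hmul, fun M N S hS => ?_, fun M n => (h1 M n _ (hρ _)).1,
    fun M n => (h1 M n _ (hρ _)).2, h3, h4, h5, fun M K _ R => ?_⟩
  · exact le_antisymm (idx_sub R₀ t_CEN hS (hρ M) (hρ N) (hρ S)) (hadd M N S hS)
  · obtain ⟨h7, h8, h9⟩ := h6 M R
    obtain ⟨P, hP'⟩ := hP M
    obtain ⟨h10, h11, htf⟩ := hP' R
    exact ⟨h7, h8, h9, h11, h10, htf.out 0 2⟩

variable {hU : UnitQ C} {K₀ : Type w} [Field K₀] (R₀ : SuperRealisation C K₀) {ρ β : C → ℕ}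
  (h : BD.{u, v, w} hU ρ β)

/-- The numerical sign conjecture for `M`: the parity indices of the tensor powers are the powers of a number. -/
def NumSign (hU : UnitQ C) (M : C) : Prop := ∃ r : ℕ, ∀ n : ℕ, IsIdx hU (tp M n) (r ^ n)

include h in
lemma BD.uniq {X : C} {r : ℕ} (hr : IsIdx hU X r) : r = ρ X := by
  have := IsGreatest.unique hr (h.idx X)
  exact_mod_cast this

include R₀ h in
lemma BD.iso {X Y : C} (e : X ≅ Y) : ρ X = ρ Y := rho_iso R₀ h.idx e

include R₀ h in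
lemma BD.tp1 (M : C) : ρ (tp M 1) = ρ M := h.iso R₀ (λ_ M)

include R₀ h in
lemma BD.le (M : C) : ρ M ≤ β M := by
  have h1 := h.pow M 1
  rwa [h.tp1 R₀, pow_one] at h1

include R₀ h in
lemma BD.pow_le (M : C) (n : ℕ) : ρ M ^ n ≤ ρ (tp M n) := by
  induction n with
  | zero =>
    rw [pow_zero]
    have h1 := h.low M 0
    rw [mul_zero, pow_zero, zero_add, one_pow, mul_one] at h1
    rcases Nat.eq_zero_or_pos (ρ (tp M 0)) with h0 | h0
    · rw [h0] at h1; norm_num at h1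
    · exact h0
  | succ n ih =>
    rw [pow_succ]
    exact (Nat.mul_le_mul_right _ ih).trans (h.mul (tp M n) M)

include R₀ h in
/-- the numerical sign conjecture says that the parity index is the numerical Betti number -/
theorem BD.numSign_iff (M : C) : NumSign hU M ↔ ρ M = β M := by
  constructor
  · rintro ⟨r, hr⟩
    have h1 : r = ρ M := by
      have h2 := h.uniq (hr 1)
      rw [pow_one, h.tp1 R₀] at h2
      exact h2
    apply le_antisymm (h.le R₀ M)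
    rw [← h1]
    apply sq_le_sq_nat
    apply le_of_pow_poly (n := 1) (E := β M ^ 2)
    intro k _
    have h2 := h.low M k
    rw [← h.uniq (hr k)] at h2
    rw [one_mul]
    calc (β M ^ 2) ^ k = β M ^ (2 * k) := (pow_mul _ _ _).symm
      _ ≤ (r ^ k) ^ 2 * (k + 1) ^ (β M ^ 2) := h2
      _ = _ := by rw [← pow_mul, ← pow_mul, mul_comm k 2]
  · intro h1
    refine ⟨ρ M, fun n => ?_⟩
    have h2 : ρ M ^ n = ρ (tp M n) :=
      le_antisymm (h.pow_le R₀ M n) (by rw [h1]; exact h.pow M n)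
    rw [h2]
    exact h.idx _

include R₀ h in
/-- growth formulation -/
theorem BD.growth (M : C) : NumSign hU M ↔ ∀ ρ' : ℕ → ℕ, (∀ n, IsIdx hU (tp M n) (ρ' n)) →
    Tendsto (fun n : ℕ => (ρ' n : ℝ) ^ ((1 : ℝ) / n)) atTop (𝓝 (ρ' 1 : ℝ)) := by
  have key : Tendsto (fun n : ℕ => (ρ (tp M n) : ℝ) ^ ((1 : ℝ) / n)) atTop (𝓝 (β M : ℝ)) :=
    lim_root (fun n => h.pow M n) (fun n => h.low M n)
  rw [h.numSign_iff R₀]
  constructor
  · intro h1 ρ' hρ'
    have h2 : ρ' = fun n => ρ (tp M n) := funext fun n => h.uniq (hρ' n)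
    rw [h2]
    simp only
    rw [h.tp1 R₀, h1]
    exact key
  · intro h1
    have h2 := h1 (fun n => ρ (tp M n)) (fun n => h.idx _)
    have h3 := tendsto_nhds_unique h2 key
    have h4 : ρ (tp M 1) = β M := by exact_mod_cast h3
    rw [← h4, h.tp1 R₀]

include R₀ h in
/-- one tensor power is enough -/
theorem BD.single {M : C} {K : Type w} [Field K] (R : SuperRealisation C K) {r n : ℕ}
    (hr : IsIdx hU M r)
    (hn : (n + 1) ^ (totalDim R M ^ 2) * r ^ (2 * n) < (r + 2) ^ (2 * n)) :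
    NumSign hU M ↔ IsIdx hU (tp M n) (r ^ n) := by
  have hr' := h.uniq hr
  constructor
  · rintro ⟨s, hs⟩
    have h1 : s = r := by
      have h2 := h.uniq (hs 1)
      rw [pow_one, h.tp1 R₀] at h2
      rw [h2, hr']
    rw [← h1]
    exact hs n
  · intro h1
    rw [h.numSign_iff R₀]
    obtain ⟨c1, c2, -, c3, c4, -⟩ := h.cp M R
    have h2 := h.low M n
    rw [← h.uniq h1] at h2
    have h3 : β M ^ (2 * n) < (r + 2) ^ (2 * n) := by
      refine lt_of_le_of_lt h2 (lt_of_le_of_lt ?_ hn)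
      rw [← pow_mul, mul_comm n 2, mul_comm]
      exact Nat.mul_le_mul_right _ (Nat.pow_le_pow_right (by omega) (Nat.pow_le_pow_left c1 2))
    have h4 : β M < r + 2 := lt_of_pow_lt_pow_left₀ (2 * n) (by omega) h3
    have h5 := h.le R₀ M
    obtain ⟨x, hx⟩ := c2
    obtain ⟨y, hy⟩ := c3
    omega

include R₀ in
lemma tpm_sign {M : C} {v : M ⟶ M} (hv : NumInvolution hU v) (n : ℕ) :
    NumInvolution hU (tpm v n) ∧ ctr hU (tpm v n) = ctr hU v ^ n := by
  induction n with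
  | zero =>
    constructor
    · show NE hU (𝟙 _ ≫ 𝟙 _) (𝟙 _)
      rw [Category.comp_id]
      exact NE.rfl' _
    · rw [pow_zero]
      exact ctr_unit R₀ hU
  | succ n ih =>
    constructor
    · exact inv_tensor R₀ ih.1 hv
    · have h1 : ctr hU (tpm v n ⊗ₘ v) = _ := ctr_tensor R₀ hU _ _
      rw [pow_succ, ← ih.2]
      exact h1

include R₀ h in
theorem BD.powers {M : C} {v : M ⟶ M} (hv : IsSign hU v) :
    NumSign hU M ↔ ∀ n, IsSign hU (tpm v n) := by
  have h1 := (isSign_iff R₀ (h.idx M) v).1 hv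
  constructor
  · rintro ⟨r, hr⟩ n
    have h2 : r = ρ M := by
      have h2 := h.uniq (hr 1)
      rw [pow_one, h.tp1 R₀] at h2
      exact h2
    have h3 := tpm_sign R₀ hv.1 n
    refine (isSign_iff R₀ (hr n) _).2 ⟨h3.1, ?_⟩
    rw [h3.2, h1.2, h2]
    push_cast
    rfl
  · intro h2
    refine ⟨ρ M, fun n => ?_⟩
    have h3 := (isSign_iff R₀ (h.idx (tp M n)) _).1 (h2 n)
    have h4 := tpm_sign R₀ hv.1 n
    have h5 : ((ρ M ^ n : ℕ) : ℚ) = ρ (tp M n) := by
      rw [← h3.2, h4.2, h1.2]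
      push_cast
      rfl
    have h6 : ρ M ^ n = ρ (tp M n) := by exact_mod_cast h5
    rw [h6]
    exact h.idx _

include R₀ h in
lemma BD.tensor_sign {M N : C} {v : M ⟶ M} {v' : N ⟶ N} (hv : IsSign hU v) (hv' : IsSign hU v') :
    IsSign hU (v ⊗ₘ v') ↔ ρ (M ⊗ N) = ρ M * ρ N := by
  have h1 := (isSign_iff R₀ (h.idx M) v).1 hv
  have h2 := (isSign_iff R₀ (h.idx N) v').1 hv'
  rw [isSign_iff R₀ (h.idx (M ⊗ N)), ctr_tensor R₀ hU, h1.2, h2.2]
  constructor
  · rintro ⟨-, h3⟩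
    have : ρ M * ρ N = ρ (M ⊗ N) := by exact_mod_cast h3
    exact this.symm
  · intro h3
    refine ⟨inv_tensor R₀ h1.1 h2.1, ?_⟩
    rw [h3]
    push_cast
    rfl

/-- the isomorphism used in the descent -/
def isoY (M N : C) : (M ⊗ N) ⊗ (M ⊗ N) ≅ ((M ⊗ N) ⊗ N) ⊗ M :=
  whiskerLeftIso (M ⊗ N) (β_ M N) ≪≫ (α_ (M ⊗ N) N M).symm

include R₀ h in
theorem BD.desc_le {M N : C} (h1 : ρ ((M ⊗ N) ⊗ (M ⊗ N)) = ρ (M ⊗ N) * ρ (M ⊗ N)) :
    ρ (M ⊗ N) = ρ M * ρ N := by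
  refine le_antisymm ?_ (h.mul M N)
  have h2 : IsIdx hU (((M ⊗ N) ⊗ N) ⊗ M) (ρ (M ⊗ N) * ρ (M ⊗ N)) := by
    rw [← h1, h.iso R₀ (isoY M N)]
    exact h.idx _
  exact desc R₀ (h.idx _) h2 (h.idx _) (h.idx _)

include R₀ h in
theorem BD.tensor_iff {M N : C} (hne : ¬ NumZero hU (𝟙 (M ⊗ N))) :
    NumSign hU (M ⊗ N) ↔ NumSign hU M ∧ NumSign hU N := by
  rw [h.numSign_iff R₀, h.numSign_iff R₀, h.numSign_iff R₀]
  have hb : β (M ⊗ N) ≠ 0 := fun h0 => hne ((h.bzero _).1 h0)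
  have hb' := h.bmul M N
  constructor
  · intro h1
    have h2 : ρ ((M ⊗ N) ⊗ (M ⊗ N)) = ρ (M ⊗ N) * ρ (M ⊗ N) := by
      refine le_antisymm ?_ (h.mul _ _)
      refine (h.le R₀ _).trans (le_of_eq ?_)
      rw [h.bmul (M ⊗ N) (M ⊗ N), h1]
    have h3 := h.desc_le R₀ h2
    have h4 := h.le R₀ M
    have h5 := h.le R₀ N
    have h6 : ρ M * ρ N = β M * β N := by rw [← h3, h1, hb']
    rw [hb'] at hb
    have hM0 : 0 < β M := Nat.pos_of_ne_zero (left_ne_zero_of_mul hb)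
    have hN0 : 0 < β N := Nat.pos_of_ne_zero (right_ne_zero_of_mul hb)
    constructor
    · by_contra hlt
      have h7 : ρ M < β M := by omega
      have h8 : ρ M * ρ N < β M * β N :=
        lt_of_le_of_lt (Nat.mul_le_mul_left _ h5) (Nat.mul_lt_mul_of_pos_right h7 hN0)
      omega
    · by_contra hlt
      have h7 : ρ N < β N := by omega
      have h8 : ρ M * ρ N < β M * β N :=
        lt_of_le_of_lt (Nat.mul_le_mul_right _ h4) (Nat.mul_lt_mul_of_pos_left h7 hM0)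
      omega
  · rintro ⟨h1, h2⟩
    refine le_antisymm (h.le R₀ _) ?_
    rw [hb', ← h1, ← h2]
    exact h.mul M N

include R₀ h in
theorem BD.sum_iff {M N S : C} (hS : IsSum M N S) :
    NumSign hU S ↔ NumSign hU M ∧ NumSign hU N := by
  rw [h.numSign_iff R₀, h.numSign_iff R₀, h.numSign_iff R₀, h.sum M N S hS, h.bsum M N S hS]
  have h4 := h.le R₀ M
  have h5 := h.le R₀ N
  omega

include R₀ h in
/-- the whole category -/
theorem BD.all_iff : List.TFAE [∀ M : C, NumSign hU M,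
    ∀ (M N : C) (v : M ⟶ M) (v' : N ⟶ N), IsSign hU v → IsSign hU v' → IsSign hU (v ⊗ₘ v'),
    ∀ (M : C) (v : M ⟶ M), IsSign hU v → IsSign hU (v ⊗ₘ v)] := by
  have hall : ∀ X : C, ∃ v : X ⟶ X, IsSign hU v := fun X => by
    obtain ⟨v, hv, -⟩ := exists_isSign (hU := hU) R₀ X
    exact ⟨v, hv⟩
  tfae_have 1 → 2 := by
    intro h1 M N v v' hv hv'
    rw [h.tensor_sign R₀ hv hv']
    have h2 := (h.numSign_iff R₀ M).1 (h1 M)
    have h3 := (h.numSign_iff R₀ N).1 (h1 N)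
    have h4 := (h.numSign_iff R₀ (M ⊗ N)).1 (h1 (M ⊗ N))
    rw [h4, h.bmul, h2, h3]
  tfae_have 2 → 3 := fun h1 M v hv => h1 M M v v hv hv
  tfae_have 3 → 1 := by
    intro h1 M
    have h2 : ∀ X : C, ρ (X ⊗ X) = ρ X * ρ X := by
      intro X
      obtain ⟨v, hv⟩ := hall X
      exact (h.tensor_sign R₀ hv hv).1 (h1 X v hv)
    have h3 : ∀ k : ℕ, ρ (tp M (2 ^ k)) = ρ M ^ (2 ^ k) := by
      intro k
      induction k with
      | zero => rw [pow_zero, pow_one, h.tp1 R₀]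
      | succ k ih =>
        obtain ⟨e⟩ := tp_add M (2 ^ k) (2 ^ k)
        have e1 : 2 ^ (k + 1) = 2 ^ k + 2 ^ k := by ring
        rw [e1, h.iso R₀ e, h2, ih, ← pow_add]
    rcases Nat.eq_zero_or_pos (ρ M) with h0 | h0
    · rw [h.numSign_iff R₀, h0]
      have h4 := h.low M 1
      rw [h.tp1 R₀, h0] at h4
      norm_num at h4
      exact h4.symm
    · refine ⟨ρ M, fun n => ?_⟩
      have h4 : ρ (tp M n) ≤ ρ M ^ n := by
        have h5 : n < 2 ^ n := Nat.lt_two_pow_self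
        obtain ⟨m, hm⟩ := Nat.exists_eq_add_of_lt h5
        obtain ⟨e⟩ := tp_add M n (m + 1)
        have h6 : ρ (tp M n) * ρ (tp M (m + 1)) ≤ ρ M ^ (2 ^ n) := by
          rw [← h3 n, hm, Nat.add_assoc, h.iso R₀ e]
          exact h.mul _ _
        have h7 : ρ (tp M n) * ρ M ^ (m + 1) ≤ ρ M ^ n * ρ M ^ (m + 1) := by
          refine (Nat.mul_le_mul_left _ (h.pow_le R₀ M (m + 1))).trans (h6.trans (le_of_eq ?_))
          rw [← pow_add, ← Nat.add_assoc, ← hm]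
        exact Nat.le_of_mul_le_mul_right h7 (pow_pos h0 _)
      have h8 : ρ M ^ n = ρ (tp M n) := le_antisymm (h.pow_le R₀ M n) h4
      rw [h8]
      exact h.idx _
  tfae_finish

include R₀ h in
/-- realisations -/
theorem BD.real_iff {K : Type w} [Field K] (R : SuperRealisation C K) :
    (∀ M : C, R.CPlus M) ↔ (∀ M : C, NumSign hU M) ∧
      ∀ (M : C) (f : M ⟶ M), NumZero hU f → IsNilpotent (R.H.map f).hom := by
  constructor
  · intro h1
    refine ⟨fun M => ?_, fun M f hf => nil_of_cplus_obj R (h1 M) f hf⟩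
    rw [h.numSign_iff R₀]
    obtain ⟨c1, -, -, -, -, c5⟩ := h.cp M R
    have h2 := h.le R₀ M
    have h3 := c5.1 (h1 M)
    omega
  · rintro ⟨h1, h2⟩ M
    obtain ⟨-, -, c3, -, -, c5⟩ := h.cp M R
    have h3 := (h.numSign_iff R₀ M).1 (h1 M)
    rw [c5, h3]
    exact (c3.2 (fun n f hf => h2 (tp M n) f hf)).symm

end

end Pool.Agent.H64ND
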