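import Pool.Agent.H64ND.Act

/-!
# Project ND (helper64): the minimal ideals with zero partial traces
-/

set_option autoImplicit false

open Finset

namespace Pool.Agent.H64ND

lemma exists_act_ne {n : ℕ} (e : QS n) (he : e ≠ 0) :
    ∃ u : (Fin n → Fin n) → ℚ, act0 e u ≠ 0 := by
  classical
  have h1 : ∃ σ, e.coeff σ ≠ 0 := by
    by_contra h
    push Not at h
    apply he
    ext σ
    rw [h σ]
    rfl
  obtain ⟨σ, hσ⟩ := h1
  refine ⟨fun w => if w = id then 1 else 0, fun h => hσ ?_⟩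
  have h2 := congrFun h ((σ⁻¹ : Equiv.Perm (Fin n)) : Fin n → Fin n)
  simp only [act0, Pi.zero_apply] at h2
  rw [Finset.sum_eq_single σ] at h2
  · rw [if_pos, mul_one] at h2
    · exact h2
    · funext i
      simp
  · intro τ _ hτ
    rw [if_neg, mul_zero]
    intro h3
    apply hτ
    have h4 : (σ⁻¹ * τ : Equiv.Perm (Fin n)) = 1 := by
      ext i
      have h5 := congrFun h3 i
      exact congrArg Fin.val h5
    rw [inv_mul_eq_one] at h4
    exact h4.symm
  · intro h3
    exact absurd (Finset.mem_univ _) h3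

lemma dv_conj {n a b : ℕ} (t t' : Fin n ≃ Fin b × Fin a) :
    (dv t' : (Fin n → Fin a) → ℚ) = act0 (MonoidAlgebra.single (t.trans t'.symm) 1) (dv t) := by
  funext w
  rw [act0_single]
  simp only [dv]
  refine Finset.prod_congr rfl fun c _ => ?_
  congr 1
  funext r
  simp

lemma fix_all {n a b : ℕ} (t t' : Fin n ≃ Fin b × Fin a) {e : QS n}
    (he : ∀ x, e * x = x * e) (h : act0 e (dv t) = dv t) : act0 e (dv t') = dv t' := by
  rw [dv_conj t t', ← act0_mul, he, act0_mul, h]

lemma sum_lam {n L : ℕ} {u : (Fin n → Fin L) → ℚ} {lam : Fin L → ℕ} (hu : u ≠ 0)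
    (hw : ∀ w, u w ≠ 0 → ∀ i, (univ.filter fun k => w k = i).card = lam i) :
    ∑ i, lam i = n := by
  obtain ⟨w, hw0⟩ := Function.ne_iff.1 hu
  have h1 := hw w hw0
  have h2 : ∑ i, (univ.filter fun k => w k = i).card = (univ : Finset (Fin n)).card :=
    (Finset.card_eq_sum_card_fiberwise (f := w) (t := univ) (fun _ _ => Finset.mem_univ _)).symm
  rw [Finset.card_univ, Fintype.card_fin] at h2
  rw [← h2]
  exact Finset.sum_congr rfl fun i _ => (h1 i).symm

/-- The numbers of a self-adjoint central idempotent with vanishing partial traces which acts nontrivially on words with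
`L` letters. -/
theorem kl_aux (hQ : S_QUAD) (hN : S_NUMP) (hH : S_HW) {n L : ℕ} {d : ℤ} {e : QS (n + 1)}
    (he : CI e) (hd : e * ((d : ℚ) • 1 + JM n) = 0)
    (h0 : ∃ u : (Fin (n + 1) → Fin L) → ℚ, act0 e u ≠ 0) :
    ∃ (a b : ℕ) (u : (Fin (n + 1) → Fin L) → ℚ), 1 ≤ a ∧ 1 ≤ b ∧ a ≤ L ∧ (a : ℤ) = b + d ∧
      n + 1 = b * a ∧ u ≠ 0 ∧ act0 e u = u ∧
      (∀ w, u w ≠ 0 → ∀ i : Fin L, (univ.filter fun k => w k = i).card =
        if (i : ℕ) < a then b else 0) ∧
      (∀ i j : Fin L, i < j → ∀ w, ∑ k ∈ univ.filter (fun k => w k = i),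
        u (Function.update w k j) = 0) := by
  obtain ⟨u, lam, hu, heu, hlam, hE⟩ := hH (n + 1) L e he h0
  have h1 := hQ n L d e he hd u lam hu heu hlam hE
  have h2 := sum_lam hu hlam
  obtain ⟨a, b, ha, hb, haL, had, hab, hl⟩ := hN L d lam h1 (by omega)
  refine ⟨a, b, u, ha, hb, haL, had, by rw [← h2, hab, mul_comm], hu, heu, ?_, hE⟩
  intro w hw i
  rw [hlam w hw i, hl i]

/-- **The minimal ideals.** -/
theorem kl (hQ : S_QUAD) (hN : S_NUMP) (hH : S_HW) (hC : S_CAP) (hD : S_DET) {n : ℕ} {d : ℤ}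
    {e : QS (n + 1)} (he : CI e) (h0 : e ≠ 0) (hd : e * ((d : ℚ) • 1 + JM n) = 0) :
    ∃ a b : ℕ, 1 ≤ a ∧ 1 ≤ b ∧ (a : ℤ) = b + d ∧ n + 1 = b * a ∧
      ∀ t : Fin (n + 1) ≃ Fin b × Fin a, act0 e (dv t) = dv t := by
  classical
  obtain ⟨a, b, u, ha, hb, haL, had, hab, hu, heu, hlam, hE⟩ :=
    kl_aux hQ hN hH he hd (exists_act_ne e h0)
  refine ⟨a, b, ha, hb, had, hab, ?_⟩
  set u' : (Fin (n + 1) → Fin a) → ℚ := fun w => u (fun k => Fin.castLE haL (w k)) with hu'
  have hinj : Function.Injective (Fin.castLE haL) := Fin.castLE_injective haL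
  have hfil : ∀ (w : Fin (n + 1) → Fin a) (i : Fin a),
      (univ.filter fun k => (fun k => Fin.castLE haL (w k)) k = Fin.castLE haL i) =
        univ.filter fun k => w k = i := by
    intro w i
    ext k
    simp only [mem_filter, mem_univ, true_and]
    exact hinj.eq_iff
  have h1 : u' ≠ 0 := by
    obtain ⟨w, hw0⟩ := Function.ne_iff.1 hu
    have h2 : ∀ k, ((w k : Fin (n + 1)) : ℕ) < a := by
      intro k
      by_contra hk
      have h3 := hlam w hw0 (w k)
      rw [if_neg hk, Finset.card_eq_zero] at h3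
      have h4 : k ∈ (univ.filter fun k' => w k' = w k) := by simp
      rw [h3] at h4
      exact absurd h4 (Finset.notMem_empty _)
    intro h5
    apply hw0
    have h6 := congrFun h5 (fun k => ⟨w k, h2 k⟩)
    exact h6
  have h2 : ∀ w, u' w ≠ 0 → ∀ i, (univ.filter fun k => w k = i).card = b := by
    intro w hw i
    have h3 := hlam _ hw (Fin.castLE haL i)
    rw [hfil w i, if_pos (by rw [Fin.val_castLE]; exact i.2)] at h3
    exact h3
  have h3 : ∀ i j : Fin a, i < j → ∀ w, ∑ k ∈ univ.filter (fun k => w k = i),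
      u' (Function.update w k j) = 0 := by
    intro i j hij w
    have h4 := hE (Fin.castLE haL i) (Fin.castLE haL j) hij (fun k => Fin.castLE haL (w k))
    rw [hfil w i] at h4
    rw [← h4]
    refine Finset.sum_congr rfl fun k _ => ?_
    have e1 : (fun l => Fin.castLE haL (Function.update w k j l)) =
        Function.update (fun k => Fin.castLE haL (w k)) k (Fin.castLE haL j) := by
      funext l
      by_cases hl : l = k
      · rw [hl]; simp
      · simp [Function.update_of_ne hl]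
    rw [← e1]
  have h4 : act0 e u' = u' := by
    funext w
    have h5 := congrFun heu (fun k => Fin.castLE haL (w k))
    exact h5
  obtain ⟨t, ht⟩ := hC a b (Fin (n + 1)) (by rw [Fintype.card_fin]; exact hab) u' h1 h2 h3
  obtain ⟨c, hc⟩ := hD (n + 1) a b t e he.2.1
  have h5 : ∑ w, dv t w * u' w = c * ∑ w, dv t w * u' w := by
    conv_lhs => rw [← h4]
    rw [act0_adj e he.2.2, hc, Finset.mul_sum]
    exact Finset.sum_congr rfl fun w _ => by rw [Pi.smul_apply, smul_eq_mul, mul_assoc]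
  have h6 : c = 1 := by
    have h7 : (1 - c) * ∑ w, dv t w * u' w = 0 := by linarith
    rcases mul_eq_zero.1 h7 with h | h
    · linarith
    · exact absurd h ht
  rw [h6, one_smul] at hc
  exact fun t' => fix_all t t' he.2.1 hc

end Pool.Agent.H64ND
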