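import Pool.Agent.H64ND.Full
import Pool.Agent.H64ND.Dual

/-!
# The growth of the ranks of the trace forms
-/

set_option autoImplicit false
set_option linter.unusedSectionVars false

open CategoryTheory Limits MonoidalCategory Finset Filter Topology
open Pool.Agent.Y112.SR Pool.Agent.Y112.KD Pool.Agent.Y112.SC Pool.Agent.R484.NC Pool.Agent.H64NC

namespace Pool.Agent.H64ND

universe u v w

section

variable {C : Type u} [Category.{v} C] [Preadditive C] [Linear ℚ C] [MonoidalCategory C]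
  [MonoidalPreadditive C] [MonoidalLinear ℚ C] [SymmetricCategory C] [RightRigidCategory C]
  {K : Type w} [Field K] (R : SuperRealisation C K) {M : C} {D : ℕ}
  {v : Module.Basis (Fin D) K (R.H.obj M)} {η : Fin D → Bool}
  {s : ∀ (n : ℕ) (_ : Equiv.Perm (Fin n)), (tp M n ⟶ tp M n)} {hU : UnitQ C}

/-- The lower bound for the number of numerically independent endomorphisms. -/
theorem lowerR (hS : S_SGN) (hN : S_CNUM.{u, v, w}) {n L : ℕ} {o : Fin L → Bool}
    (h : NZ R s hU hN n ≤ Ker o n) :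
    ∃ (r : ℕ) (f : Fin r → (tp M n ⟶ tp M n)), L ^ (2 * n) ≤ r * (n + 1) ^ (L ^ 2) ∧
      ∀ a : Fin r → ℚ, NumZero hU (∑ i, a i • f i) → a = 0 := by
  classical
  obtain ⟨r, g, hli, hle⟩ := t_COUNT n L (fun σ I => sgnW (o ∘ I) σ)
    (fun σ I => hS.2.2.2.2.2 n (o ∘ I) σ)
  refine ⟨r, fun i => s n (g i), hle, ?_⟩
  intro a ha
  have h1 : (∑ i, a i • (MonoidAlgebra.single (g i) 1 : QS n)) ∈ Ker o n := by
    apply h
    rw [mem_NZ, Ph, coeff_sum_single]
    exact ha
  rw [Fintype.linearIndependent_iff] at hli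
  funext i
  refine hli a ?_ i
  ext J I
  rw [Matrix.sum_apply, Matrix.zero_apply]
  have h2 := congrFun (h1 fun w => if w = J then 1 else 0) I
  simp only [actS, Pi.zero_apply] at h2
  have h3 := coeff_sum_single g a (fun σ => sgnW (o ∘ I) σ * (if I ∘ σ = J then 1 else 0) : _ → ℚ)
  simp only [smul_eq_mul, ← mul_assoc] at h3
  rw [h2] at h3
  rw [h3]
  refine Finset.sum_congr rfl fun j _ => ?_
  rw [Matrix.smul_apply, sgm, Matrix.of_apply, smul_eq_mul, mul_assoc]
  congr 1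
  by_cases hj : J = I ∘ (g j)
  · rw [if_pos hj, if_pos hj.symm, mul_one]
  · rw [if_neg hj, if_neg (fun h => hj h.symm), mul_zero]

variable (hU) in
include R in
/-- **The numerical dimension**, with the ranks. -/
theorem exists_numR (A : AllC.{u, v, w}) (M : C) : ∃ L : ℕ,
    (∀ n, ∃ (r : ℕ) (f : Fin r → (tp M n ⟶ tp M n)), L ^ (2 * n) ≤ r * (n + 1) ^ (L ^ 2) ∧
      ∀ a : Fin r → ℚ, NumZero hU (∑ i, a i • f i) → a = 0) ∧
    ∀ n, ∃ T : ℕ, Cutb R hU (tp M n) T ∧
      T ^ 2 ≤ L ^ (2 * n) * (n + 1) ^ (totalDim R M ^ 2) := by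
  classical
  have hK := R_charZero R
  have hb := exists_hb R M
  generalize evenDim R M = p at hb ⊢
  obtain ⟨q, v, hv, hpq⟩ := hb
  have hv' : Hom' R v (par p q) := by
    intro i
    have h1 := hv i
    rw [et] at h1
    rw [h1]
    by_cases h : (i : ℕ) < p
    · rw [if_pos h]
      have h2 : par p q i = false := by simp [par, h]
      rw [h2]
      simp
    · rw [if_neg h]
      have h2 : par p q i = true := by simp [par]; omega
      rw [h2]
      simp
  choose s hs using fun (n : ℕ) (σ : Equiv.Perm (Fin n)) => A.cperm R M (p + q) v (par p q) hv' n σ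
  have hpt : ∀ n, ∀ x ∈ NZ R s hU A.cnum (n + 1), pt ((p : ℤ) - q) x ∈ NZ R s hU A.cnum n := by
    intro n x hx
    have h1 := pt_NZ A.cpt A.cnum hv' hs n x hx
    rw [card_even, card_odd] at h1
    exact h1
  obtain ⟨p', q', hp', hd, hEq⟩ := ideal_eq_ker A.all A.sgn A.ktid A.kmin
    (N := fun n => NZ R s hU A.cnum n) (p := p) (q := q)
    (fun n => two_NZ A.sgn A.cnum hs n) (fun n x hx => ex_NZ A.sgn A.cnum hs n x hx) hpt
    (zero_NZ A.cnum hs A.sgn) (fun n => ker_le_NZ A.cnum hs n)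
  refine ⟨p' + q', ?_, ?_⟩
  · intro n
    exact lowerR R (o := par p' q') A.sgn A.cnum (hEq n).le
  · intro n
    obtain ⟨T, hT, hT2⟩ := cutN (L := p' + q') (o := par p' q') A.sgn A.cnum A.all.ga A.ub1 A.ub2 hs
      (n := n) (hU := hU) (hEq n).ge
    exact ⟨T, hT, by rw [← hpq]; exact hT2⟩

/-- `m` is the number of numerically independent endomorphisms of `X`, that is, the rank of the form `ctr (f ≫ g)`. -/
def IsRk (hU : UnitQ C) (X : C) (m : ℕ) : Prop := ∃ f g : Fin m → (X ⟶ X), DualBases hU f g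

include R in
lemma rk_ge {X : C} {m r : ℕ} (hm : IsRk hU X m) (f : Fin r → (X ⟶ X))
    (hf : ∀ a : Fin r → ℚ, NumZero hU (∑ i, a i • f i) → a = 0) : r ≤ m := by
  obtain ⟨e, g, -, hg⟩ := hm
  have hc0 : ∀ z : X ⟶ X, (∀ j, ctr hU (z ≫ g j) = 0) → NumZero hU z := by
    intro z hz
    have h1 := hg z
    simp only [hz, zero_smul, Finset.sum_const_zero, sub_zero] at h1
    exact h1
  -- the linear map `a ↦ (ctr (x_a ≫ g j))_j`
  let F : (Fin r → ℚ) →ₗ[ℚ] (Fin m → ℚ) :=
    { toFun := fun a j => ctr hU ((∑ i, a i • f i) ≫ g j)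
      map_add' := fun a b => by
        funext j
        simp only [Pi.add_apply, add_smul, Finset.sum_add_distrib, Preadditive.add_comp]
        exact ctr_add hU _ _
      map_smul' := fun c a => by
        funext j
        simp only [Pi.smul_apply, smul_eq_mul, mul_smul, ← Finset.smul_sum, Linear.smul_comp,
          RingHom.id_apply]
        exact ctr_smul hU _ _ }
  have hF : Function.Injective F := by
    rw [← LinearMap.ker_eq_bot, LinearMap.ker_eq_bot']
    intro a ha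
    exact hf a (hc0 _ fun j => congrFun ha j)
  have h1 := LinearMap.finrank_le_finrank_of_injective hF
  rwa [Module.finrank_fin_fun, Module.finrank_fin_fun] at h1

include R in
lemma rk_le {X : C} {m ρ : ℕ} (hm : IsRk hU X m) (hρ : IsIdx hU X ρ) : m ≤ ρ ^ 2 := by
  obtain ⟨e, g, h1, -⟩ := hm
  refine rank_le R hρ m e fun a ha => ?_
  funext j
  have h2 := ha (g j)
  rw [Preadditive.sum_comp] at h2
  have h3 : ctr hU (∑ i, (a i • e i) ≫ g j) = ∑ i, ctr hU ((a i • e i) ≫ g j) :=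
    map_sum (trq hU X) _ _
  rw [h3] at h2
  simp only [Linear.smul_comp, ctr_smul, h1] at h2
  simpa using h2

variable {ρ β : C → ℕ} (h : BD.{u, v, w} hU ρ β)

include R h in
/-- **The growth of the ranks.** -/
theorem BD.rank_low (M : C) (n m : ℕ) (hm : IsRk hU (tp M n) m) :
    β M ^ (2 * n) ≤ m * (n + 1) ^ (β M ^ 2) := by
  obtain ⟨L, hL1, hL2⟩ := exists_numR R hU allC.{u, v, w} M
  have e1 : L ≤ β M := by
    apply sq_le_sq_nat
    apply le_of_pow_poly (n := 1) (E := L ^ 2)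
    intro k _
    obtain ⟨r, f, h1, h2⟩ := hL1 k
    have h3 := rank_le R (h.idx (tp M k)) r f h2
    rw [one_mul]
    calc (L ^ 2) ^ k = L ^ (2 * k) := (pow_mul _ _ _).symm
      _ ≤ r * (k + 1) ^ (L ^ 2) := h1
      _ ≤ ρ (tp M k) ^ 2 * (k + 1) ^ (L ^ 2) := Nat.mul_le_mul_right _ h3
      _ ≤ (β M ^ k) ^ 2 * (k + 1) ^ (L ^ 2) :=
        Nat.mul_le_mul_right _ (Nat.pow_le_pow_left (h.pow M k) 2)
      _ = _ := by rw [← pow_mul, ← pow_mul, mul_comm k 2]
  have e2 : β M ≤ L := by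
    apply sq_le_sq_nat
    apply le_of_pow_poly (n := 1) (E := totalDim R M ^ 2 + β M ^ 2)
    intro k _
    obtain ⟨T, hT, hT2⟩ := hL2 k
    have h3 : ρ (tp M k) ≤ T := cutb_le t_CUB hT (h.idx _)
    rw [one_mul]
    calc (β M ^ 2) ^ k = β M ^ (2 * k) := (pow_mul _ _ _).symm
      _ ≤ ρ (tp M k) ^ 2 * (k + 1) ^ (β M ^ 2) := h.low M k
      _ ≤ T ^ 2 * (k + 1) ^ (β M ^ 2) := Nat.mul_le_mul_right _ (Nat.pow_le_pow_left h3 2)
      _ ≤ (L ^ (2 * k) * (k + 1) ^ (totalDim R M ^ 2)) * (k + 1) ^ (β M ^ 2) :=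
        Nat.mul_le_mul_right _ hT2
      _ = _ := by rw [pow_add, mul_assoc, ← pow_mul]
  have e3 : L = β M := le_antisymm e1 e2
  obtain ⟨r, f, h1, h2⟩ := hL1 n
  rw [e3] at h1
  exact h1.trans (Nat.mul_le_mul_right _ (rk_ge R hm f h2))

include R h in
theorem BD.rank_up (M : C) (n m : ℕ) (hm : IsRk hU (tp M n) m) :
    m ≤ ρ (tp M n) ^ 2 := rk_le R hm (h.idx _)

include R h in
/-- one rank is enough for nilpotence -/
theorem BD.nil_of_rank {M : C} {n m : ℕ} (hm : IsRk hU (tp M n) m)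
    (hlt : (totalDim R M - 2) ^ (2 * n) < m) : β M = totalDim R M := by
  obtain ⟨c1, c2, -, -, -, -⟩ := h.cp M R
  have h1 : m ≤ β M ^ (2 * n) := by
    refine (h.rank_up R M n m hm).trans ?_
    rw [mul_comm, pow_mul]
    exact Nat.pow_le_pow_left (h.pow M n) 2
  have h2 : totalDim R M - 2 < β M := lt_of_pow_lt_pow_left₀ (2 * n) (by omega)
    (lt_of_lt_of_le hlt h1)
  obtain ⟨x, hx⟩ := c2
  omega

end

end Pool.Agent.H64ND
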