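import Pool.Agent.H64ND.Sig

/-!
# Operators whose square is a scalar, in the sense of supertraces
-/

set_option autoImplicit false
set_option linter.unusedSectionVars false

open CategoryTheory Limits MonoidalCategory Polynomial TensorProduct
open Pool.Agent.Y112.SR Pool.Agent.Y112.KD Pool.Agent.Y112.SC Pool.Agent.R484.NC Pool.Agent.H64NC

namespace Pool.Agent.H64ND

universe u v w

section lin

open Pool.Agent.H64NC.Str2 Pool.Agent.H447 Pool.Agent.H914

variable {K : Type w} [Field K] {V : Type w} [AddCommGroup V] [Module K V]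

lemma str_poly {S T : Module.End K V} {c χ : K}
    (hodd : ∀ k : ℕ, LinearMap.trace K V (S * T ^ (2 * k + 1)) = c)
    (heven : ∀ k : ℕ, LinearMap.trace K V (S * T ^ (2 * k)) = χ) (g : K[X]) (h2 : (2 : K) ≠ 0) :
    LinearMap.trace K V (S * aeval T g) =
      χ * ((g.eval 1 + g.eval (-1)) / 2) + c * ((g.eval 1 - g.eval (-1)) / 2) := by
  induction g using Polynomial.induction_on' with
  | add p q hp hq => rw [map_add, mul_add, map_add, hp, hq, eval_add, eval_add]; ring
  | monomial r a =>
    rw [aeval_monomial]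
    have e : S * ((algebraMap K (Module.End K V)) a * T ^ r) = a • (S * T ^ r) := by
      rw [Algebra.algebraMap_eq_smul_one, smul_mul_assoc, one_mul, mul_smul_comm]
    rw [e, map_smul, eval_monomial, eval_monomial, one_pow, mul_one, smul_eq_mul]
    rcases Nat.even_or_odd' r with ⟨k, rfl | rfl⟩
    · rw [heven, pow_mul]
      have e2 : (-1 : K) ^ 2 = 1 := by norm_num
      rw [e2, one_pow]
      field_simp
      ring
    · rw [hodd, pow_succ, pow_mul]
      have e2 : (-1 : K) ^ 2 = 1 := by norm_num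
      rw [e2, one_pow]
      field_simp
      ring

/-- the same over an algebraically closed field -/
theorem sq_int_closed [CharZero K] [IsAlgClosed K] [Module.Finite K V] {p T : Module.End K V}
    (hp : p * p = p) (hT : Commute T p) {c χ σ : K} (hσ : σ ≠ 0)
    (hodd : ∀ k : ℕ, LinearMap.trace K V ((p - (1 - p)) * T ^ (2 * k + 1)) = σ ^ k * c)
    (heven : ∀ k : ℕ, LinearMap.trace K V ((p - (1 - p)) * T ^ (2 * k)) = σ ^ k * χ) :
    ∃ m : ℤ, c ^ 2 = σ * m ^ 2 := by
  obtain ⟨θ, hθ⟩ := IsAlgClosed.exists_pow_nat_eq σ (n := 2) (by norm_num)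
  have hθ0 : θ ≠ 0 := by
    rintro rfl
    apply hσ
    rw [← hθ]
    simp
  have h2 : (2 : K) ≠ 0 := two_ne_zero
  set T' : Module.End K V := θ⁻¹ • T with hT'
  have e1 : ∀ k : ℕ, LinearMap.trace K V ((p - (1 - p)) * T' ^ (2 * k + 1)) = c / θ := by
    intro k
    rw [hT', _root_.smul_pow, mul_smul_comm, map_smul, hodd, smul_eq_mul, ← hθ, ← pow_mul, pow_succ,
      inv_pow]
    field_simp
  have e2 : ∀ k : ℕ, LinearMap.trace K V ((p - (1 - p)) * T' ^ (2 * k)) = χ := by
    intro k
    rw [hT', _root_.smul_pow, mul_smul_comm, map_smul, heven, smul_eq_mul, ← hθ, ← pow_mul,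
      inv_pow]
    field_simp
  set g : K[X] := C (2⁻¹ : K) * (X + X ^ 2) with hg
  have hcomm : Commute (aeval T' g) p := by
    have h3 : Commute T' p := by
      rw [hT']
      exact (Commute.smul_left hT _)
    exact (Pool.Agent.H447.comm_aeval h3.symm g).symm
  obtain ⟨a, b, -, h3, -, -⟩ := Pool.Agent.H578R3.Sgn.main (d := χ / 2 + c / θ / 2) hp hcomm
    (fun r => by
      rw [← map_pow, str_poly e1 e2 _ h2]
      have h4 : (g ^ (r + 1)).eval 1 = 1 := by
        rw [eval_pow, hg]
        simp only [eval_mul, eval_C, eval_add, eval_X, eval_pow]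
        norm_num
      have h5 : (g ^ (r + 1)).eval (-1) = 0 := by
        rw [eval_pow, hg]
        simp only [eval_mul, eval_C, eval_add, eval_X, eval_pow]
        norm_num
      rw [h4, h5]
      ring)
  obtain ⟨a', b', -, h6, -, -⟩ := Pool.Agent.H578R3.Sgn.main (T := 1) (d := χ) hp
    (Commute.one_left p) (fun r => by
      have := e2 0
      rw [mul_zero, pow_zero] at this
      rw [one_pow, this])
  have h7 : c / θ = ((2 * (a - b) - (a' - b') : ℤ) : K) := by
    have h8 : c / θ = 2 * (χ / 2 + c / θ / 2) - χ := by ring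
    rw [h8, h3, h6]
    push_cast
    ring
  refine ⟨2 * (a - b) - (a' - b'), ?_⟩
  rw [← h7, div_pow, hθ]
  field_simp

theorem sq_int [CharZero K] [Module.Finite K V] {p T : Module.End K V}
    (hp : p * p = p) (hT : Commute T p) {c χ σ : K} (hσ : σ ≠ 0)
    (hodd : ∀ k : ℕ, LinearMap.trace K V ((p - (1 - p)) * T ^ (2 * k + 1)) = σ ^ k * c)
    (heven : ∀ k : ℕ, LinearMap.trace K V ((p - (1 - p)) * T ^ (2 * k)) = σ ^ k * χ) :
    ∃ m : ℤ, c ^ 2 = σ * m ^ 2 := by
  set Kb := AlgebraicClosure K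
  have hbt : ∀ T : Module.End K V, LinearMap.trace Kb (Kb ⊗[K] V)
      ((p.baseChange Kb - (1 - p.baseChange Kb)) * T.baseChange Kb) =
      algebraMap K Kb (LinearMap.trace K V ((p - (1 - p)) * T)) := by
    intro T
    have e : (p.baseChange Kb - (1 - p.baseChange Kb)) * T.baseChange Kb =
        ((p - (1 - p)) * T).baseChange Kb := by
      rw [bc_mul, bc_sub, bc_sub, bc_one]
    rw [e, LinearMap.trace_baseChange]
  have hpow : ∀ n : ℕ, T.baseChange Kb ^ n = (T ^ n).baseChange Kb := by
    intro n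
    induction n with
    | zero => rw [pow_zero, pow_zero, bc_one]
    | succ n ih => rw [pow_succ, ih, pow_succ, bc_mul]
  obtain ⟨m, hm⟩ := sq_int_closed (K := Kb) (V := Kb ⊗[K] V) (p := p.baseChange Kb)
    (T := T.baseChange Kb) (c := algebraMap K Kb c) (χ := algebraMap K Kb χ)
    (σ := algebraMap K Kb σ) (by rw [← bc_mul, hp])
    (by rw [Commute, SemiconjBy, ← bc_mul, ← bc_mul, hT.eq])
    (by rwa [Ne, FaithfulSMul.algebraMap_eq_zero_iff])
    (fun k => by rw [hpow, hbt, hodd, map_mul, map_pow])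
    (fun k => by rw [hpow, hbt, heven, map_mul, map_pow])
  refine ⟨m, ?_⟩
  apply FaithfulSMul.algebraMap_injective K Kb
  rw [map_pow, hm, map_mul, map_pow, map_intCast]

end lin

section

variable {C : Type u} [Category.{v} C] [Preadditive C] [Linear ℚ C] [MonoidalCategory C]
  [MonoidalPreadditive C] [MonoidalLinear ℚ C] [SymmetricCategory C] [RightRigidCategory C]
  {hU : UnitQ C} {K : Type w} [Field K] (R : SuperRealisation C K)

include R in
/-- If the square of `t` is numerically the scalar `σ`, the square of its trace is `σ` times a square. -/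
theorem ctr_sq {X : C} {t : X ⟶ X} {σ : ℚ} (hσ : σ ≠ 0) (h : NE hU (t ≫ t) (σ • 𝟙 X)) :
    ∃ m : ℤ, ctr hU t ^ 2 = σ * m ^ 2 := by
  have hK := R_charZero R
  have h0 := R.finite X
  have hpw : ∀ k : ℕ, NE hU (pw t (2 * k)) (σ ^ k • 𝟙 X) := by
    intro k
    induction k with
    | zero => rw [mul_zero, pw, pow_zero, one_smul]; exact NE.rfl' _
    | succ k ih =>
      have e1 : pw t (2 * (k + 1)) = (t ≫ t) ≫ pw t (2 * k) := by
        show pw t (2 * k + 1 + 1) = _
        rw [pw, pw, Category.assoc]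
      have h1 := NE.comp R h ih
      rw [e1]
      have e2 : (σ • 𝟙 X) ≫ (σ ^ k • 𝟙 X) = σ ^ (k + 1) • 𝟙 X := by
        rw [Linear.smul_comp, Linear.comp_smul, Category.comp_id, smul_smul, pow_succ']
      rw [e2] at h1
      exact h1
  have hodd : ∀ k : ℕ, NE hU (pw t (2 * k + 1)) (σ ^ k • t) := by
    intro k
    rw [pw]
    have h1 := NE.comp R (NE.rfl' t) (hpw k)
    rw [Linear.comp_smul, Category.comp_id] at h1
    exact h1
  have hs : ∀ f : X ⟶ X, LinearMap.trace K (R.H.obj X) ((evp R X - (1 - evp R X)) * op R f) =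
      ((ctr hU f : ℚ) : K) := by
    intro f
    have h1 := ctr_eq R hU (M := X) f
    rw [str_eq] at h1
    exact h1.symm
  obtain ⟨m, hm⟩ := sq_int (K := K) (V := R.H.obj X) (p := evp R X) (T := op R t)
    (c := ((ctr hU t : ℚ) : K)) (χ := ((ctr hU (𝟙 X) : ℚ) : K)) (σ := (σ : K)) (evp_idem R X)
    (op_comm R t) (by exact_mod_cast hσ)
    (fun k => by
      rw [← op_pw, hs, (hodd k).ctr_eq, ctr_smul]
      push_cast
      rfl)
    (fun k => by
      rw [← op_pw, hs, (hpw k).ctr_eq, ctr_smul]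
      push_cast
      rfl)
  exact ⟨m, by exact_mod_cast hm⟩

end

end Pool.Agent.H64ND
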