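import Mathlib

/-!
# Project ND (helper64): numerical dimension, part 1 (pure algebra and combinatorics)

Group algebras `QS n = ℚ[S_n]`, partial traces with loop value `d`, and their action on functions of words `w : Fin n → A`
(`A` a set of letters, with an optional parity `o : A → Bool`, `true` = odd).

Each `S_…` is one independent piece, to be proved in the file named there as `theorem t_… : S_…`. Only Mathlib is needed in this part.
In this Mathlib `MonoidAlgebra` is a structure: coefficients are `x.coeff σ`; products `MonoidAlgebra.coeff_mul`,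
`coeff_single_mul_apply`, `coeff_mul_single_apply`, induction `MonoidAlgebra.induction_on`, `mapDomainRingHom`.
-/

set_option autoImplicit false

open Finset

namespace Pool.Agent.H64ND

/-- The group algebra of the symmetric group. -/
abbrev QS (n : ℕ) : Type := MonoidAlgebra ℚ (Equiv.Perm (Fin n))

/-- The extension of a permutation of the first `m` places to `m + k` places, as a function. -/
def exF (m k : ℕ) (f : Fin m → Fin m) : Fin (m + k) → Fin (m + k) :=
  fun i => Fin.addCases (fun j => Fin.castAdd k (f j)) (fun j => Fin.natAdd m j) i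

@[simp] lemma exF_castAdd (m k : ℕ) (f : Fin m → Fin m) (j : Fin m) :
    exF m k f (Fin.castAdd k j) = Fin.castAdd k (f j) := by simp [exF]

@[simp] lemma exF_natAdd (m k : ℕ) (f : Fin m → Fin m) (j : Fin k) :
    exF m k f (Fin.natAdd m j) = Fin.natAdd m j := by simp [exF]

lemma exF_comp (m k : ℕ) (f g : Fin m → Fin m) (i : Fin (m + k)) :
    exF m k f (exF m k g i) = exF m k (f ∘ g) i := by
  refine Fin.addCases (fun j => ?_) (fun j => ?_) i <;> simp

lemma exF_id (m k : ℕ) (i : Fin (m + k)) : exF m k (fun j => j) i = i := by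
  refine Fin.addCases (fun j => ?_) (fun j => ?_) i <;> simp

/-- The extension of a permutation of the first `m` places to `m + k` places. -/
def exA (m k : ℕ) : Equiv.Perm (Fin m) →* Equiv.Perm (Fin (m + k)) where
  toFun σ :=
    { toFun := exF m k σ
      invFun := exF m k σ.symm
      left_inv := fun i => by
        rw [exF_comp]
        have : ((σ.symm : Fin m → Fin m) ∘ σ) = fun j => j := by funext j; simp
        rw [this, exF_id]
      right_inv := fun i => by
        rw [exF_comp]
        have : ((σ : Fin m → Fin m) ∘ σ.symm) = fun j => j := by funext j; simp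
        rw [this, exF_id] }
  map_one' := by ext i; exact congrArg _ (exF_id m k i)
  map_mul' σ τ := by
    ext i
    exact congrArg _ (exF_comp m k σ τ i).symm

@[simp] lemma exA_castAdd (m k : ℕ) (σ : Equiv.Perm (Fin m)) (j : Fin m) :
    exA m k σ (Fin.castAdd k j) = Fin.castAdd k (σ j) := exF_castAdd m k σ j

@[simp] lemma exA_natAdd (m k : ℕ) (σ : Equiv.Perm (Fin m)) (j : Fin k) :
    exA m k σ (Fin.natAdd m j) = Fin.natAdd m j := exF_natAdd m k σ j

/-- The inclusion `ℚ[S_m] → ℚ[S_(m+k)]`. -/
noncomputable def exQ (m k : ℕ) : QS m →+* QS (m + k) :=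
  MonoidAlgebra.mapDomainRingHom ℚ (exA m k)

/-- The transposition of the place `i` and the last place. -/
def tr (n : ℕ) (i : Fin n) : Equiv.Perm (Fin (n + 1)) := Equiv.swap i.castSucc (Fin.last n)

/-- The sum of the transpositions which move the last place (Jucys-Murphy element). -/
noncomputable def JM (n : ℕ) : QS (n + 1) := ∑ i : Fin n, MonoidAlgebra.single (tr n i) 1

/-- The partial trace with loop value `d`: `(pt x)(τ) = d x(τ) + ∑ i, x(τ (i n))`. -/
noncomputable def pt {n : ℕ} (d : ℤ) (x : QS (n + 1)) : QS n :=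
  ∑ τ : Equiv.Perm (Fin n), MonoidAlgebra.single τ
    ((d : ℚ) * x.coeff (exA n 1 τ) + ∑ i : Fin n, x.coeff (exA n 1 τ * tr n i))

/-- Two-sided ideals. -/
def Two {n : ℕ} (N : Submodule ℚ (QS n)) : Prop := ∀ x ∈ N, ∀ y, x * y ∈ N ∧ y * x ∈ N

/-- Self-adjoint central idempotents. -/
def CI {n : ℕ} (e : QS n) : Prop :=
  e * e = e ∧ (∀ x, e * x = x * e) ∧ ∀ σ, e.coeff σ⁻¹ = e.coeff σ

/-- The action on functions of words. -/
noncomputable def act0 {n : ℕ} {A : Type} (x : QS n) (u : (Fin n → A) → ℚ) : (Fin n → A) → ℚ :=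
  fun w => ∑ σ, x.coeff σ * u (w ∘ σ)

/-- The sign of a permutation on the odd places. -/
def sgnW {n : ℕ} (o : Fin n → Bool) (σ : Equiv.Perm (Fin n)) : ℚ :=
  ∏ i : Fin n, ∏ j : Fin n,
    if i < j ∧ σ j < σ i ∧ o (σ i) = true ∧ o (σ j) = true then -1 else 1

/-- The action on functions of words with even and odd letters. -/
noncomputable def actS {n : ℕ} {A : Type} (o : A → Bool) (x : QS n) (u : (Fin n → A) → ℚ) :
    (Fin n → A) → ℚ :=
  fun w => ∑ σ, x.coeff σ * sgnW (o ∘ w) σ * u (w ∘ σ)

/-- The determinant of the letters of a column. -/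
def detw {a : ℕ} (f : Fin a → Fin a) : ℚ :=
  (Matrix.of fun r s => if f r = s then (1 : ℚ) else 0).det

/-- The product of the determinants of the columns; `t` maps a place to (column, row). -/
def dv {P : Type} {a b : ℕ} (t : P ≃ Fin b × Fin a) (w : P → Fin a) : ℚ :=
  ∏ c : Fin b, detw fun r => w (t.symm (c, r))

/-- **Piece GA** (file `Pool/Agent/H64ND/Ga.lean`, `theorem t_GA : S_GA`): two-sided ideals of `ℚ[S_n]` are generated by self-adjoint
central idempotents.

Proof. Let `x* = ∑ σ, x(σ⁻¹) σ`, `⟨x, y⟩ = ∑ σ, x σ * y σ` = coefficient of `1` in `x y*`. `N^⊥ = {y | ∀ x ∈ N, ⟨x, y⟩ = 0}` is again two-sided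
(`⟨x, y s⟩ = ⟨x s⁻¹, y⟩`) and `N ∩ N^⊥ = 0`, `N + N^⊥ = ⊤` (positive definite form; e.g. `LinearMap.BilinForm.isCompl_orthogonal_of_restrict_nondegenerate`,
or through `EuclideanSpace`). Write `1 = e + e'`. For `x ∈ N`: `x e' ∈ N ∩ N^⊥ = 0` and `e' x = 0`, so `x e = x = e x`; for `y ∈ N^⊥`: `y e = 0 = e y`. So
`e` is central (`x = x e + x e'`), idempotent. For `x ∈ N`, `y ∈ N^⊥` all coefficients of `y* x` vanish (`(y* x)(s⁻¹) = ⟨x s, y⟩ = 0`), in particular
`e'* e = 0`, i.e. `e = e* e`, so `e* = e`. -/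
def S_GA : Prop :=
  ∀ (n : ℕ) (N : Submodule ℚ (QS n)), Two N →
    ∃ e : QS n, CI e ∧ e ∈ N ∧ ∀ x ∈ N, e * x = x

/-- **Piece POS** (file `Pool/Agent/H64ND/Pos.lean`, `theorem t_POS : S_POS`): positivity.

Proof. `T = d + JM n` is self-adjoint and `pt d x = res (x T)` where `res : QS (n+1) → QS n`, `(res x)(τ) = x (exA n 1 τ)`
(`(x T)(exA τ) = d x(exA τ) + ∑ i, x (exA τ * (tr i)⁻¹)`). Put `y = g T = T g`; then `g y = y`, `y* = y`, `y y = g T T`, so
`u = pt d y = res (y T) = res (y y*)`, `u ∈ N` and `g * exQ u = 0`. Let `H = exA (S_n)`, and for a right coset `c` of `H` (the class of `σ` is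
determined by `σ⁻¹ (Fin.last n)`; so `c : Fin (n+1)`) let `y_c` be the part of `y` supported on the `σ` with `σ⁻¹ (last) = c`. Then
`exQ (res (y y*)) = ∑ c, y_c y_c*` (`σ τ⁻¹ ∈ H` if and only if `σ⁻¹ last = τ⁻¹ last`), so the coefficient of `1` in `0 = g * exQ u = ∑ c, g y_c y_c*`
is `∑ c, ∑ σ, ((g y_c) σ)²` (`g = g g*` and traciality of the coefficient of `1`). Hence `g y_c = 0` for all `c` and `y = g y = ∑ c, g y_c = 0`. -/
def S_POS : Prop :=
  ∀ (n : ℕ) (d : ℤ) (N : Submodule ℚ (QS n)) (g : QS (n + 1)), CI g →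
    (∀ x ∈ N, g * exQ n 1 x = 0) → (∀ x, g * x = x → pt d x ∈ N) →
    g * ((d : ℚ) • 1 + JM n) = 0

/-- **Piece QUAD** (file `Pool/Agent/H64ND/Quad.lean`, `theorem t_QUAD : S_QUAD`): the equations for highest weights.

Proof. `e` is central, so `e (d + J_k) = 0` for all places `k`, where `J_k = ∑ l ≠ k, (k l)` (conjugate `JM n` with `swap k (last)`); as `u = e u`,
`d u(w) + ∑ l ≠ k, u (w ∘ swap k l) = 0` for all `w`, `k`. Let `u w ≠ 0`, fix the letter `i` and sum over all places `k` with `w k = i`. The `l ≠ k` with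
`w l = i` give `λ i (λ i - 1) u(w)`. For a letter `j ≠ i` put `A_ij = ∑ k with w k = i, ∑ l with w l = j, u (w[k ↦ j, l ↦ i])`, and
`(E_ij v)(w) = ∑ k with w k = i, v (w[k ↦ j])`. Then `(E_ij (E_ji u))(w) = λ i u(w) + A_ij`, and in the same way (exchanging the names)
`(E_ji (E_ij u))(w) = λ j u(w) + A_ij`. If `i < j` then `E_ij u = 0`, so `A_ij = - λ j u(w)`; if `j < i` then `E_ji u = 0` and `A_ij = - λ i u(w)`. So
`d λ i + λ i (λ i - 1) - ∑_{j > i} λ j - i λ i = 0`. -/
def S_QUAD : Prop :=
  ∀ (n L : ℕ) (d : ℤ) (e : QS (n + 1)), CI e → e * ((d : ℚ) • 1 + JM n) = 0 →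
    ∀ (u : (Fin (n + 1) → Fin L) → ℚ) (lam : Fin L → ℕ), u ≠ 0 → act0 e u = u →
    (∀ w, u w ≠ 0 → ∀ i, (univ.filter fun k => w k = i).card = lam i) →
    (∀ i j : Fin L, i < j → ∀ w, ∑ k ∈ univ.filter (fun k => w k = i),
      u (Function.update w k j) = 0) →
    ∀ i : Fin L, (lam i : ℤ) * (lam i + d - ((i : ℕ) + 1)) =
      ∑ j ∈ univ.filter (fun j => i < j), (lam j : ℤ)

/-- **Piece NUMP** (file `Pool/Agent/H64ND/Nump.lean`, `theorem t_NUMP : S_NUMP`): integers.

Proof. Put `m i = ∑_{j ≥ i} lam j`; the relation says `lam i (lam i + d - i) = m i` (`i` counted from `0`). Put `b = lam 0` (`L > 0` as the sum is positive) and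
`a = b + d`; `m 0 = b (b + d) > 0` so `b ≥ 1`, `a ≥ 1`. By induction on `i`: if `i ≤ a` and `i ≤ L` then `m i = b (a - i)` (put `m L = 0`), and `lam i = b` if moreover
`i < a`, `i < L`: `lam i = x ≥ 0` has `x (x + d - i) = b (b + d - i)`, i.e. `(x - b) (x + a - i) = 0`, and `x + a - i > 0`.
So if `L < a` then `0 = m L = b (a - L) > 0`, a contradiction; so `a ≤ L`, `m a = 0` and `lam i = 0` for `i ≥ a`. -/
def S_NUMP : Prop :=
  ∀ (L : ℕ) (d : ℤ) (lam : Fin L → ℕ),
    (∀ i : Fin L, (lam i : ℤ) * (lam i + d - ((i : ℕ) + 1)) =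
      ∑ j ∈ univ.filter (fun j => i < j), (lam j : ℤ)) →
    0 < ∑ i, lam i →
    ∃ a b : ℕ, 1 ≤ a ∧ 1 ≤ b ∧ a ≤ L ∧ (a : ℤ) = b + d ∧ ∑ i, lam i = a * b ∧
      ∀ i : Fin L, lam i = if (i : ℕ) < a then b else 0

/-- **Piece HW** (file `Pool/Agent/H64ND/Hw.lean`, `theorem t_HW : S_HW`): highest weight vectors.

Proof. Let `U = {u | act0 e u = u}`, a subspace, not zero (it contains `act0 e u₀`, as `act0 (x * y) u = act0 x (act0 y u)`). For `v ∈ U` and a function
`lam`, the restriction of `v` to the words with `card {k | w k = i} = lam i` for all `i` is in `U` (`w ∘ σ` has the same numbers as `w`), and `E_ij v ∈ U`, where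
`(E_ij v)(w) = ∑ k with w k = i, v (w[k ↦ j])` (it commutes with `act0 x`: `(w ∘ σ)[k ↦ j] = w[σ k ↦ j] ∘ σ`). Put `h(w) = ∑ k, (L - w k)`. Among the nonzero
`v ∈ U` which are supported on words with one `lam`, choose one for which `h` (constant on the support) is maximal (`h ≤ n L`).
For `i < j` the function `E_ij v ∈ U` is supported on words `w` for which `w[k ↦ j]`, `w k = i`, is in the support of `v`: these have one `lam'` and bigger `h`;
so `E_ij v = 0`. -/
def S_HW : Prop :=
  ∀ (n L : ℕ) (e : QS n), CI e → (∃ u : (Fin n → Fin L) → ℚ, act0 e u ≠ 0) →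
    ∃ (u : (Fin n → Fin L) → ℚ) (lam : Fin L → ℕ), u ≠ 0 ∧ act0 e u = u ∧
      (∀ w, u w ≠ 0 → ∀ i, (univ.filter fun k => w k = i).card = lam i) ∧
      (∀ i j : Fin L, i < j → ∀ w, ∑ k ∈ univ.filter (fun k => w k = i),
        u (Function.update w k j) = 0)

/-- **Piece CAP** (file `Pool/Agent/H64ND/Cap.lean`, `theorem t_CAP : S_CAP`): a highest weight vector with all weights equal is not orthogonal to all products of
column determinants (first fundamental theorem for `SL`, by a Capelli type identity).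

Proof. 0. `(E_ij v)(w) = ∑ k with w k = i, v (w[k ↦ j])`. For `i < j`: `E_ij u = 0` is given, and `E_ij (E_ji u) = E_ji (E_ij u) + (b - b) u = 0` on the words of weight `(b, …, b)`
(see QUAD), while `⟨E_ji u, E_ji u⟩ = ⟨u, E_ij (E_ji u)⟩` (`E_ij` is the transposed of `E_ji`; `u` is supported on that weight), so `E_ji u = 0` as well. So `E_ij u = 0` for
all `i ≠ j`.
1. Induction on `b`; `b = 0`: `P` is empty, the sum is `u(∅) ≠ 0`. Let `b ≥ 1`, and `u W ≠ 0`. For `π : Perm (Fin a)` put
`F(π) = ∑ κ, u (W[κ i ↦ π i])`, the sum over all `κ : Fin a → P` with `W (κ i) = i` for all `i` (then `κ` is injective). Claim: `F(π) = sign π * b^(number of cycles of π, fixed points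
included) * u W`, more precisely (this is what the induction gives) `sign π * F(π) = c(π) * u W` with `c(π) > 0`. Proof of the claim, letter by letter: for a set `S` of letters, `π` with support in `S`
and `κ : S → P`, `F_S(π) = ∑ κ, u (W[κ i ↦ π i, i ∈ S])`. Take `s ∈ S`. If `π s = s` the sum over `κ s` gives the factor `b`:
`F_S(π) = b F_{S - s}(π)`. If `π s = j ≠ s`, fix the other `κ i` and let `W' = W[κ i ↦ π i, i ∈ S - s]`; the places of `W'` with letter `s` are the `k` with `W k = s` and the
place `κ (π⁻¹ s)`; `(E_sj u)(W') = 0` says that the sum over `κ s` of `u (W'[κ s ↦ j])` is `- u (W'[κ (π⁻¹ s) ↦ j])`; so `F_S(π) = - F_{S - s}(π')` with `π' = swap s j * π`,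
which fixes `s` and has the opposite sign.
2. So `∑ π, sign π * F(π) = (positive number) * u W ≠ 0`, hence there is a `κ` with `∑ π, sign π * u (W[κ i ↦ π i]) ≠ 0`. Let `P' = {k // k ∉ range κ}` and for `w' : P' → Fin a`
`u'(w') = ∑ π, sign π * u (w' on P', κ i ↦ π i)`. Then `u' ≠ 0`, it is supported on words in which each letter occurs `b - 1` times, and `E_ij u' = 0` (`∑ π, sign π * (…)` of the terms of
`(E_ij u)` in which a place of `range κ` is changed cancels: the word would have the letter `j` twice in the column). By induction there is `t' : P' ≃ Fin (b - 1) × Fin a`;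
add the column `κ`. -/
def S_CAP : Prop :=
  ∀ (a b : ℕ) (P : Type) [Fintype P] [DecidableEq P], Fintype.card P = b * a →
    ∀ u : (P → Fin a) → ℚ, u ≠ 0 →
    (∀ w, u w ≠ 0 → ∀ i, (univ.filter fun k => w k = i).card = b) →
    (∀ i j : Fin a, i < j → ∀ w, ∑ k ∈ univ.filter (fun k => w k = i),
      u (Function.update w k j) = 0) →
    ∃ t : P ≃ Fin b × Fin a, ∑ w, dv t w * u w ≠ 0

/-- **Piece DET** (file `Pool/Agent/H64ND/Det.lean`, `theorem t_DET : S_DET`): central elements act on `dv t` by a scalar.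

Proof. Call `s : Perm (Fin n)` a column permutation if `t (s k)` and `t k` are in the same column for all `k`. `dv t (w ∘ s) = sign s * dv t w`, (it suffices to take for `s` the
permutations of a single column `c`, given by `π : Perm (Fin a)`: `detw (f ∘ π) = sign π * detw f`, `Matrix.det_permute`). As `e` is central, `v = act0 e (dv t)` has the same
property `v (w ∘ s) = sign s * v w`. If `w` has equal letters at two places `k, l` of a column then `v w = 0` (`s = swap k l`, `w ∘ s = w`).
Otherwise each column of `w` is a permutation `π_c` of `Fin a`, and `w = w_t ∘ s` with `w_t k = (t k).2` and the column permutation `s` with columns `π_c`; so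
`v w = sign s * v w_t`. The same for `dv t`, with `dv t w_t = 1`. So `v = v w_t • dv t`. -/
def S_DET : Prop :=
  ∀ (n a b : ℕ) (t : Fin n ≃ Fin b × Fin a) (e : QS n), (∀ x, e * x = x * e) →
    ∃ c : ℚ, act0 e (dv t) = c • dv t

/-- **Piece FACTB** (file `Pool/Agent/H64ND/Factb.lean`, `theorem t_FACTB : S_FACTB`).

Proof. Choose `t : Fin n ≃ Fin b × Fin a` (`n = b * a`, `finProdFinEquiv`) and `t' : Fin (n + k) ≃ Fin b' × Fin a'` with `t' (castAdd k j) = (castLE (t j).1, castLE (t j).2)` (extend the injection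
`Fin n → Fin b' × Fin a'` to an equivalence, the complements have equally many elements). Let `W : Fin (n + k) → Fin a'`, `W k = (t' k).2`. It is enough that
`act0 (exQ n k e) (dv t') W ≠ 0` (as `act0 (x * y) u = act0 x (act0 y u)` and `act0 e' (dv t') = dv t'`). It is
`∑ σ, e σ * dv t' (W ∘ exA n k σ)`. For a word `w : Fin n → Fin a'` let `w^` be the word `w` on the first `n` places, `W` on the others. Then
`dv t' (w^) = dv t w` if all letters of `w` are `< a` and `0` otherwise: the columns `c ≥ b` are identities; a column `c < b` has the letters `a, …, a' - 1` in the rows `≥ a`, so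
its determinant is zero unless the letters in the rows `< a` are a permutation of `0, …, a - 1`, and then it is the determinant of this block.
For `w = W ∘ σ` restricted to the first places, the letters are `< a`: so the sum is `act0 e (dv t) w_t = dv t w_t = 1`, `w_t j = (t j).2`. -/
def S_FACTB : Prop :=
  ∀ (a b a' b' n k : ℕ), a ≤ a' → b ≤ b' → n = b * a → n + k = b' * a' →
    ∀ (e : QS n) (e' : QS (n + k)),
    (∀ t : Fin n ≃ Fin b × Fin a, act0 e (dv t) = dv t) →
    (∀ t : Fin (n + k) ≃ Fin b' × Fin a', act0 e' (dv t) = dv t) →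
    exQ n k e * e' ≠ 0

/-- **Piece SGN** (file `Pool/Agent/H64ND/Sgn.lean`, `theorem t_SGN : S_SGN`): the sign of a permutation on the odd places.

Proof. (1) For `i < j` put `s(σ, o; i, j) = -1` if `σ j < σ i` and `σ i`, `σ j` are odd. The factor for the pair `{i, j}` in `sgnW o (σ * τ)` is the product of the factor for
`{i, j}` in `sgnW (o ∘ σ) τ` and the factor for the pair `{τ i, τ j}` in `sgnW o σ`; reindex the product over pairs with `τ` (compare `Equiv.Perm.signAux_mul`,
`Equiv.Perm.sign_eq_prod_prod_Ioi` or use `Finset.prod_bij` on the pairs `i < j`; or write `sgnW` as a product over all ordered pairs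
`i ≠ j` of square roots… ; another way: prove it for adjacent transpositions `τ` and use `Equiv.Perm.mclosure_swap_castSucc_succ`). (3), (4), (5), (6) are direct. (2): the inversions of `tr n i` are the pairs
`(i, j)`, `(j, last)` for `i < j < last` and `(i, last)`; if `o (i) = o (last)` is false there is no factor, if it is true the factors for `(i, j)` and `(j, last)` are equal and the last one is `-1`. -/
def S_SGN : Prop :=
  (∀ (n : ℕ) (o : Fin n → Bool) (σ τ : Equiv.Perm (Fin n)),
    sgnW o (σ * τ) = sgnW o σ * sgnW (o ∘ σ) τ) ∧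
  (∀ (n : ℕ) (o : Fin (n + 1) → Bool) (i : Fin n), o i.castSucc = o (Fin.last n) →
    sgnW o (tr n i) = if o (Fin.last n) = true then -1 else 1) ∧
  (∀ (n : ℕ) (o : Fin (n + 1) → Bool) (τ : Equiv.Perm (Fin n)),
    sgnW o (exA n 1 τ) = sgnW (fun i => o i.castSucc) τ) ∧
  (∀ (n : ℕ) (o : Fin (n + 2) → Bool), sgnW o (tr (n + 1) (Fin.last n)) =
    if o (Fin.last n).castSucc = true ∧ o (Fin.last (n + 1)) = true then -1 else 1) ∧
  (∀ (n : ℕ) (o : Fin n → Bool) (σ : Equiv.Perm (Fin n)), (∀ i, o i = false) → sgnW o σ = 1) ∧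
  (∀ (n : ℕ) (o : Fin n → Bool) (σ : Equiv.Perm (Fin n)), sgnW o σ = 1 ∨ sgnW o σ = -1)

/-- The kernel of the action on words with even and odd letters. -/
def Ker {A : Type} (o : A → Bool) (n : ℕ) : Submodule ℚ (QS n) where
  carrier := {x | ∀ u, actS o x u = 0}
  add_mem' := by
    intro x y hx hy u
    funext w
    have h1 := congrFun (hx u) w
    have h2 := congrFun (hy u) w
    simp only [actS, Pi.zero_apply] at h1 h2 ⊢
    simp only [MonoidAlgebra.coeff_add, Finsupp.coe_add, Pi.add_apply, add_mul,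
      Finset.sum_add_distrib, h1, h2, add_zero]
  zero_mem' := by
    intro u
    funext w
    simp [actS]
  smul_mem' := by
    intro c x hx u
    funext w
    have h1 := congrFun (hx u) w
    simp only [actS, Pi.zero_apply] at h1 ⊢
    have e : ∀ σ : Equiv.Perm (Fin n), (c • x).coeff σ * sgnW (o ∘ w) σ * u (w ∘ σ) =
        c * (x.coeff σ * sgnW (o ∘ w) σ * u (w ∘ σ)) := by
      intro σ
      simp only [MonoidAlgebra.coeff_smul, Finsupp.coe_smul, Pi.smul_apply, smul_eq_mul]
      ring
    simp only [e, ← Finset.mul_sum, h1, mul_zero]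

/-- **Piece KTID** (file `Pool/Agent/H64ND/Ktid.lean`, `theorem t_KTID : S_SGN → S_KTID`): the kernels are tensor ideals.

Proof. (1) `actS o (x * y) u = actS o x (actS o y u)` by the cocycle rule, so `Ker` is two-sided. (2) `actS o (exQ n 1 x) u` at the word `w a` (last letter `a`) is
`actS o x (u (· a)) w`. (3) For `x ∈ Ker o (n + 1)`, `v : (Fin n → A) → ℚ` and a letter `a` let `u_(a)` be the function of words `w'` on `n + 1` places which is
`v (w' restricted to the first n places)` if the last letter of `w'` is `a` and `0` otherwise. Then `∑ a, (-1)^{o a} * actS o x u_(a) (w a) = 0`. The term of `σ = exA n 1 τ` is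
`(#even - #odd) x(σ) sgnW (o ∘ w) τ v (w ∘ τ)`. The term of `σ = exA n 1 τ * tr n i`: the last letter of `(w a) ∘ σ` is `w (τ i)`, so only `a = w (τ i)` counts; then the restriction of
`(w a) ∘ σ` is `w ∘ τ`, and `sgnW (o ∘ (w a)) σ = sgnW (o ∘ w) τ * sgnW (o ∘ ((w ∘ τ) a)) (tr n i) = sgnW (o ∘ w) τ * (-1)^{o a}`. All `σ : Perm (Fin (n + 1))` are of exactly one of these two kinds.
So the sum is `actS o (pt d x) v w`. -/
def S_KTID : Prop :=
  ∀ (A : Type) [Fintype A] [DecidableEq A] (o : A → Bool) (n : ℕ),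
    Two (Ker o n) ∧ (∀ x ∈ Ker o n, exQ n 1 x ∈ Ker o (n + 1)) ∧
    (∀ x ∈ Ker o (n + 1), pt ((univ.filter fun a => o a = false).card -
      (univ.filter fun a => o a = true).card : ℤ) x ∈ Ker o n)

/-- **Piece KMIN** (file `Pool/Agent/H64ND/Kmin.lean`, `theorem t_KMIN : S_SGN → S_KMIN`): an element which kills the words with `p` even and `q` odd letters, but not the words with
`p + 1` even letters.

Proof. Let `m = (p + 1) q + 1`, `n = (p + 1) m`, the places are the pairs (row, column) in `Fin (p + 1) × Fin m` (`finProdFinEquiv`). Let `R = ∑ s` over the row permutations (those which preserve each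
row), `C = ∑ sign s * s` over the column permutations, and `x = C * R`. (i) On `p | q`: `actS o x u w = actS o C (actS o R u) w`; equivalently use the transposed action: the basis
function of a word `w` is mapped to `∑ σ, x(σ) (±) (basis function of w ∘ σ⁻¹)`. First `R`: if in a row of `w` some odd letter occurs twice, then `R` kills it (the
transposition of the two places acts with sign `-1`). So each row has at most `q` odd letters, there are at most `(p + 1) q < m` odd letters, and in all words
`w ∘ σ` (same letters) there is a column with even letters only, `p + 1` letters out of `p`: two are equal, and `C` kills the word (the transposition of these two places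
acts with sign `+1`, and has coefficient `-1`). (ii) On `p + 1` even letters: for the word `w (r, c) = r`: `∑ σ, x(σ) [w ∘ σ = w]`: with `σ = s s'`, `s` column, `s'` row permutation,
`w ∘ s ∘ s' = w` iff `w ∘ s = w ∘ s'⁻¹ = w` iff `s = 1`; so the coefficient of `w` in the image of `w` is the number of row permutations, not zero. -/
def S_KMIN : Prop :=
  ∀ (p q : ℕ), ∃ (n : ℕ) (x : QS n),
    x ∈ Ker (fun l : Fin (p + q) => decide (p ≤ (l : ℕ))) n ∧
    ∃ v : (Fin n → Fin (p + 1)) → ℚ, act0 x v ≠ 0

/-- **Piece UB1** (file `Pool/Agent/H64ND/Ub1.lean`, `theorem t_UB1 : S_UB1`).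

Proof. Cauchy-Schwarz: the square is at most `(∑ σ, c(σ)²) (∑ σ, χ(σ)²)`. The first factor is the coefficient of `1` in `c c* = c c = c`, i.e. `c(1)`. The second is at most
`∑ σ, #{w | w ∘ σ = w}² = ∑ σ, #{L : Fin n → D × D | L ∘ σ = L} = n! * #orbits ≤ n! (n + 1)^(D²)` (Burnside; this is in `Pool/Agent/H64NC/Count.lean`, see there `ct`, `exists_perm`, and the
sum over `σ` in `t_COUNT`). -/
def S_UB1 : Prop :=
  ∀ (n D : ℕ) (c : QS n), CI c → ∀ χ : Equiv.Perm (Fin n) → ℚ,
    (∀ σ, |χ σ| ≤ (univ.filter fun w : Fin n → Fin D => w ∘ σ = w).card) →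
    (∑ σ, c.coeff σ * χ σ) ^ 2 ≤ (n.factorial * c.coeff 1) * (n + 1) ^ (D ^ 2)

/-- **Piece UB2** (file `Pool/Agent/H64ND/Ub2.lean`, `theorem t_UB2 : S_UB2`).

Proof. The left multiplication by `c` on `QS n` (dimension `n!`) is a projection with trace `∑ σ, (c * σ)(σ) = n! c(1)`; so `n! c(1)` is the dimension of its range `c QS n`
(`LinearMap.IsProj.trace` / `trace_eq_finrank_of_isIdempotent…`). The linear map `x ↦ (w, w') ↦ ∑ σ with w ∘ σ = w', x(σ) sgnW (o ∘ w) σ` (the matrix of `actS o x`, so that it vanishes iff `x ∈ Ker o n`)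
is injective on `c QS n`: if it vanishes on `x = c x`, then `x ∈ Ker o n`, so `x = c x = 0`. The space of matrices has the dimension `(L ^ n)²`. -/
def S_UB2 : Prop :=
  ∀ (n L : ℕ) (o : Fin L → Bool) (c : QS n), c * c = c → (∀ x ∈ Ker o n, c * x = 0) →
    (n.factorial : ℚ) * c.coeff 1 ≤ (L : ℚ) ^ (2 * n)

end Pool.Agent.H64ND
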