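import Pool.Agent.H64NC.Clo
import Pool.Agent.H64NC.Perm
import Pool.Agent.H64ND.Stm

/-!
# Project ND (helper64): numerical dimension, part 2 (tensor category side)

Useful: `Pool/Agent/H64NC/Perm.lean` (basis `Perm.bs R v n` of the tensor power, `mu_right`, `last_sw`, `Good.mul`, `Good.lift`, `good_all`),
`Pool/Agent/H64NC/Asm.lean` (`rank_le`, `opHom`), `Pool/Agent/R484/NCa.lean, NCb.lean` (`op`, `op_comp`, `op_add`, `op_smul`, `ctr_eq`, `ctr_comm`, `str_eq`),
`Pool/Agent/Y112/KD/Contr.lean` (`ptr_comp`, `ptr_sw`, `ptr_tensor`, `ptr_comp_left`, `ptr_add`, `ptr_smul`), `trq_ptr` (`Y112/KD/Real.lean`),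
`PT_map : PT R (R.H.map y) = R.H.map (ptr y)` (`Y112/SC/Box.lean`), `Pool/Agent/H64NC/Grp.lean` (`ptr_wh`, `ptr_DC`).
-/

set_option autoImplicit false

open CategoryTheory Limits MonoidalCategory
open Pool.Agent.Y112.SR Pool.Agent.Y112.KD Pool.Agent.Y112.SC Pool.Agent.R484.NC Pool.Agent.H64NC

namespace Pool.Agent.H64ND

universe u v w

section

variable {C : Type u} [Category.{v} C] [Preadditive C] [Linear ℚ C] [MonoidalCategory C]
  [MonoidalPreadditive C] [MonoidalLinear ℚ C] [SymmetricCategory C] [RightRigidCategory C]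
  {K : Type w} [Field K] (R : SuperRealisation C K) {M : C} {D : ℕ}

/-- `v` is a basis of homogeneous vectors, `η i` is the parity of `v i` (`true` = odd). -/
def Hom' (v : Module.Basis (Fin D) K (R.H.obj M)) (η : Fin D → Bool) : Prop :=
  ∀ i, (R.par M).hom (v i) = (if η i then (-1 : K) else 1) • v i

/-- The endomorphism `s` of the tensor power acts in the basis `Perm.bs R v n` as the permutation `σ` of the places, with the
sign of `σ` on the odd places. -/
def Rp (v : Module.Basis (Fin D) K (R.H.obj M)) (η : Fin D → Bool) {n : ℕ}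
    (σ : Equiv.Perm (Fin n)) (s : tp M n ⟶ tp M n) : Prop :=
  ∀ I, op R s (Perm.bs R v n I) = ((sgnW (η ∘ I) σ : ℚ) : K) • Perm.bs R v n (I ∘ σ)

/-- **Piece CPERM** (file `Pool/Agent/H64ND/Cperm.lean`, `theorem t_CPERM : S_SGN → S_CPERM.{u, v, w}`).

Proof. As `Perm.good_all` in `Pool/Agent/H64NC/Perm.lean`, with the sign now specified: `{σ | ∃ s, Rp R v η σ s}` contains `1` (`s = 𝟙`, sign `1`: it follows from the
cocycle rule, or from the definition of `sgnW`) and is closed under products (`s ≫ t`, `sgnW o (σ * τ) = sgnW o σ * sgnW (o ∘ σ) τ`); under extensions `exA n 1 τ` (`s ▷ M`, third part of `S_SGN`);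
it contains the transposition of the last two places (`sw (tp M n) M`; `last_sw` gives an unspecified `ε`, but in its proof `ε I = -1` iff both letters are odd: fourth part of `S_SGN`).
The group is generated by adjacent transpositions (`Equiv.Perm.mclosure_swap_castSucc_succ`; those not at the end are extensions). -/
def S_CPERM : Prop :=
  ∀ {C : Type u} [Category.{v} C] [Preadditive C] [Linear ℚ C] [MonoidalCategory C]
    [MonoidalPreadditive C] [MonoidalLinear ℚ C] [SymmetricCategory C] [RightRigidCategory C]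
    {K : Type w} [Field K] (R : SuperRealisation C K) (M : C) (D : ℕ)
    (v : Module.Basis (Fin D) K (R.H.obj M)) (η : Fin D → Bool), Hom' R v η →
    ∀ (n : ℕ) (σ : Equiv.Perm (Fin n)), ∃ s : tp M n ⟶ tp M n, Rp R v η σ s

/-- **Piece CPT** (file `Pool/Agent/H64ND/Cpt.lean`, `theorem t_CPT : S_SGN → S_CPERM.{u, v, w} → S_CPT.{u, v, w}`): the partial trace of the last factor.

Proof. `op R (ptr s)` depends only on `op R s` (`PT_map`: `R.H.map (ptr s) = PT R (R.H.map s)`; `R.H.map s` is determined by `op R s = (R.H.map s).hom`). Let `S_CPERM` give `s_τ` for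
all permutations `τ` of `n` places. (a) `s_τ ▷ M` acts as `exA n 1 τ` (`bs_succ`, `mu_right`, third part of `S_SGN`), so `op R s = op R (s_τ ▷ M)` (they agree on a basis) and `ptr (s_τ ▷ M) = ctr(𝟙 M) • s_τ`
(`ptr_tensor` with `q = 𝟙`, see `ptr_wh` in `Pool/Agent/H64NC/Grp.lean`); `ctr hU (𝟙 M) = 2 evenDim - totalDim` = (number of even) - (number of odd) basis vectors (or: the supertrace of `1` in the basis `v`).
(b) `n = m + 1` (as `i : Fin n`). `tr n i = exA π * tr (m+1) (last m) * exA π`, `π = swap i (last m)` (`= 1` if `i = last m`), so `exA τ * tr n i = exA (τ π) * tr (m+1) (last m) * exA π` acts as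
`(s_{τ π} ▷ M) ≫ sw (tp M m) M ≫ (s_π ▷ M)` and `ptr` of it is `s_{τ π} ≫ s_π` (`ptr_comp`, `ptr_sw`), which acts as `τ π π = τ` (cocycle rule). -/
def S_CPT : Prop :=
  ∀ {C : Type u} [Category.{v} C] [Preadditive C] [Linear ℚ C] [MonoidalCategory C]
    [MonoidalPreadditive C] [MonoidalLinear ℚ C] [SymmetricCategory C] [RightRigidCategory C]
    (_ : UnitQ C)
    {K : Type w} [Field K] (R : SuperRealisation C K) (M : C) (D : ℕ)
    (v : Module.Basis (Fin D) K (R.H.obj M)) (η : Fin D → Bool), Hom' R v η →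
    ∀ (n : ℕ) (τ : Equiv.Perm (Fin n)),
      (∀ s : tp M (n + 1) ⟶ tp M (n + 1), Rp R v η (exA n 1 τ) s → ∀ I,
        op R (ptr s : tp M n ⟶ tp M n) (Perm.bs R v n I) =
          ((((Finset.univ.filter fun a => η a = false).card -
            (Finset.univ.filter fun a => η a = true).card : ℤ) * sgnW (η ∘ I) τ : ℚ) : K) •
            Perm.bs R v n (I ∘ τ)) ∧
      (∀ (i : Fin n) (s : tp M (n + 1) ⟶ tp M (n + 1)), Rp R v η (exA n 1 τ * tr n i) s → ∀ I,
        op R (ptr s : tp M n ⟶ tp M n) (Perm.bs R v n I) =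
          ((sgnW (η ∘ I) τ : ℚ) : K) • Perm.bs R v n (I ∘ τ))

end

/-- **Piece CEN** (file `Pool/Agent/H64ND/Cen.lean`, `theorem t_CEN : S_CEN.{u, v, w}`): a central numerical involution of maximal trace.

Proof. Copy `Pool/Agent/H64NC/Str1.lean`, `Str2.lean` and `rank_le` (in `Asm.lean`) with a stronger conclusion. In `S_STR1` (`Q = ∏ Mat_{n i}(K)`, `s = ∑ i, c i tr`, `c i ≠ 0` rational integers) the element `x` is a
rational polynomial in the Casimir element, with `κ x` the element with components `sign (c i) · 1`. So: `κ x` is central in `Q`; and if `y ∈ E` has `κ y * κ y = κ y`, with `r i` the rank of the `i`-th component of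
`κ y`, then `τ (x y) = ∑ i, |c i| r i ≥ |∑ i, c i r i| = |τ y|`. Add to the conclusions of `S_STR1`: `∀ g, κ x * κ g = κ g * κ x` and `∀ y, κ y * κ y = κ y → |τ y| ≤ τ (x * y)`; translate as in
`Str2.lean`: `κ a = 0` iff `τ (a g) = 0` for all `g`. If the objects of `Str1` allow only part of it: it is enough to have the statement below. -/
def S_CEN : Prop :=
  ∀ {C : Type u} [Category.{v} C] [Preadditive C] [Linear ℚ C] [MonoidalCategory C]
    [MonoidalPreadditive C] [MonoidalLinear ℚ C] [SymmetricCategory C] [RightRigidCategory C]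
    (hU : UnitQ C) {K : Type w} [Field K] (_ : SuperRealisation C K) (X : C),
    ∃ x : X ⟶ X, NumInvolution hU x ∧ (∀ g : X ⟶ X, NumZero hU (x ≫ g - g ≫ x)) ∧
      ∀ y : X ⟶ X, NumZero hU (y ≫ y - y) → |ctr hU y| ≤ ctr hU (x ≫ y)

/-- **Piece CNUM** (file `Pool/Agent/H64ND/Cnum.lean`, `theorem t_CNUM : S_CNUM.{u, v, w}`).

Proof. (c) `ctr_eq`, `str_eq`: `ctr hU (f ≫ g)` is determined by `op R f`, `op R g`. (b) `ctr (ptr z ≫ g) = ctr (z ≫ (g ▷ Y))` (`ptr_comp_left` or `ptr_comp_right`, `trq_ptr`).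
(a) `f ⊗ₘ g = (f ▷ Y) ≫ (X ◁ g)`, so `ctr ((f ⊗ₘ g) ≫ h) = ctr (f ≫ ptr ((X ◁ g) ≫ h)) = 0` (`ptr_comp_left`, `trq_ptr`). The same for `g ⊗ₘ f` by conjugation with the braiding
(`β ≫ (f ⊗ₘ g) ≫ β⁻¹`, `ctr_comm R`). -/
def S_CNUM : Prop :=
  ∀ {C : Type u} [Category.{v} C] [Preadditive C] [Linear ℚ C] [MonoidalCategory C]
    [MonoidalPreadditive C] [MonoidalLinear ℚ C] [SymmetricCategory C] [RightRigidCategory C]
    (hU : UnitQ C) {K : Type w} [Field K] (R : SuperRealisation C K),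
    (∀ (X Y : C) (f : X ⟶ X) (g : Y ⟶ Y), NumZero hU f →
      NumZero hU (f ⊗ₘ g) ∧ NumZero hU (g ⊗ₘ f)) ∧
    (∀ (X Y : C) (z : X ⊗ Y ⟶ X ⊗ Y), NumZero hU z → NumZero hU (ptr z : X ⟶ X)) ∧
    (∀ (X : C) (f g : X ⟶ X), op R f = op R g → NumZero hU f → NumZero hU g) ∧
    (∀ (X : C) (f g : X ⟶ X), NumZero hU f → NumZero hU g → NumZero hU (f + g)) ∧
    (∀ (X : C) (c : ℚ) (f : X ⟶ X), NumZero hU f → NumZero hU (c • f)) ∧
    (∀ (X : C) (f g : X ⟶ X), NumZero hU f → NumZero hU (f ≫ g) ∧ NumZero hU (g ≫ f))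

/-- **Piece CUB** (file `Pool/Agent/H64ND/Cub.lean`, `theorem t_CUB : S_CUB.{u, v, w}`): a cutting idempotent bounds the parity index.

Proof. `t_CUT` (`Pool/Agent/H64NC/Cut.lean`) with `V = R.H.obj X`, `p = evp R X`, `A = range (op R)`, `c = op R c`, `z = op R ((1/2) • (𝟙 + x))` for a numerical involution `x` with `ctr x = r`; the hypotheses are
`ctr ((c - 𝟙) ≫ y) = 0` and `ctr ((z ≫ z - z) ≫ y) = 0`, `z ≫ z - z = (1/4) (x ≫ x - 𝟙)`; `str (2 z - 1) = ctr x`. -/
def S_CUB : Prop :=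
  ∀ {C : Type u} [Category.{v} C] [Preadditive C] [Linear ℚ C] [MonoidalCategory C]
    [MonoidalPreadditive C] [MonoidalLinear ℚ C] [SymmetricCategory C] [RightRigidCategory C]
    (hU : UnitQ C) {K : Type w} [Field K] (R : SuperRealisation C K) (X : C) (c : X ⟶ X),
    op R c * op R c = op R c → NumZero hU (c - 𝟙 X) →
    ∀ r N : ℕ, IsIdx hU X r → LinearMap.trace K (R.H.obj X) (op R c) = N → r ≤ N

end Pool.Agent.H64ND
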