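import Pool.Agent.H64ND.Cen

/-!
# Project NS (helper64): signs of numerical motives, pieces
-/

set_option autoImplicit false

open CategoryTheory Limits MonoidalCategory
open Pool.Agent.Y112.SR Pool.Agent.Y112.KD Pool.Agent.Y112.SC Pool.Agent.R484.NC Pool.Agent.H64NC

namespace Pool.Agent.H64ND

universe u v w

/-- Exchange of the last two factors. -/
def exch {C : Type u} [Category.{v} C] [MonoidalCategory C] [SymmetricCategory C] (M P N : C) :
    (M ⊗ P) ⊗ N ⟶ (M ⊗ N) ⊗ P :=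
  (α_ M P N).hom ≫ M ◁ (β_ P N).hom ≫ (α_ M N P).inv

/-- **Piece SLIDE** (file `Pool/Agent/H64ND/Slide.lean`, `theorem t_SLIDE : S_SLIDE.{u, v}`).

Proof (string diagrams, as for `ptr_symm` in `Pool/Agent/Y112/SR/PTr.lean`, which does a similar computation): `ptr z` for `z` on `(M ⊗ P) ⊗ N` is
`ρ⁻¹ ≫ (M ⊗ P) ◁ η ≫ α⁻¹ ≫ z ▷ Nᘁ ≫ α ≫ (M ⊗ P) ◁ (β ≫ ε) ≫ ρ`. By naturality of the braiding `β_ P (N ⊗ Nᘁ)` with respect to `η_ N Nᘁ : 𝟙_ ⟶ N ⊗ Nᘁ`, and the hexagon
`β_ P (N ⊗ Nᘁ) = (β_ P N) ▷ Nᘁ` then `N ◁ (β_ P Nᘁ)` (up to associators), the exchange of `P` and `N` after `η` is: `η` to the left of `P`, followed by the exchange of `Nᘁ` and `P`; this last exchange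
commutes with `x ▷ P ▷ Nᘁ` and cancels with the one which comes from the other end (naturality for `ε`). -/
def S_SLIDE : Prop :=
  ∀ {C : Type u} [Category.{v} C] [MonoidalCategory C] [SymmetricCategory C]
    [RightRigidCategory C] (M P N : C) (x : M ⊗ N ⟶ M ⊗ N),
    ptr (exch M P N ≫ (x ▷ P) ≫ exch M N P) = ptr x ▷ P

/-- `f`, `g` are dual bases of the endomorphisms of `X` modulo numerical equivalence. -/
def DualBases {C : Type u} [Category.{v} C] [Preadditive C] [Linear ℚ C] [MonoidalCategory C]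
    [MonoidalPreadditive C] [MonoidalLinear ℚ C] [SymmetricCategory C] [RightRigidCategory C]
    (hU : UnitQ C) {X : C} {m : ℕ} (f g : Fin m → (X ⟶ X)) : Prop :=
  (∀ i j, ctr hU (f i ≫ g j) = if i = j then 1 else 0) ∧
  ∀ h : X ⟶ X, NumZero hU (h - ∑ i, ctr hU (h ≫ g i) • f i)

/-- **Piece CAS** (file `Pool/Agent/H64ND/Cas.lean`, `theorem t_CAS : S_CAS.{u, v, w}`): the Casimir element computes the parity index.

Proof. Copy `Pool/Agent/H64ND/Cen.lean` (`main_pi`, `alg1`, `closed`, `struct`, `t_CEN`) with other conclusions. In `main_pi` the quotient is `∏ i, Mat_{n i}(K)`, `s = ∑ i, c i tr` with rational integers `c i ≠ 0`,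
and `κ Ω` has the components `lam i = t i / c i` (`t i > 0`: see `hκΩ` there; what is needed about `Ω` is `hΩ : ∀ a, s (a * κ Ω) = trace (mulLeft a)`, and for dual bases `f`, `g` the trace of `mulLeft a` is
`∑ i, s (a κ(f i) κ(g i))`, since `κ (f i)` is a basis of the quotient with dual basis `κ (g i)`). Then `κ (P(Ω))` has the components `P(lam i)`, `Λ = image lam`,
`μ l = ∑_{lam i = l} n i |c i|`, `τ (P(Ω)) = ∑ i, c i n i P(lam i)`, `c i = sign(lam i) |c i|`; the last statement is `∑ i, c i lam i r i = ∑ i, t i r i > 0`, `r i` = rank of the `i`-th component of the idempotent `κ y`.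
`μ` sums to the parity index: take `P` with `P(l) = sign l` on `Λ`; conversely for a numerical involution `v` let `e = (1 + v)/2`, `e' = (1 - v)/2`, `τ v = τ e - τ e' ≤ τ(x e) + τ(x e') = τ x` (conclusion of `t_CEN`). -/
def S_CAS : Prop :=
  ∀ {C : Type u} [Category.{v} C] [Preadditive C] [Linear ℚ C] [MonoidalCategory C]
    [MonoidalPreadditive C] [MonoidalLinear ℚ C] [SymmetricCategory C] [RightRigidCategory C]
    (hU : UnitQ C) {K : Type w} [Field K] (_ : SuperRealisation C K) (X : C) (m : ℕ)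
    (f g : Fin m → (X ⟶ X)), DualBases hU f g →
    ∃ (Λ : Finset ℚ) (μ : ℚ → ℕ), (0 : ℚ) ∉ Λ ∧ (∀ l ∈ Λ, 0 < μ l) ∧
      (∀ P : Polynomial ℚ, NumZero hU (Polynomial.aeval (End.of (∑ i, f i ≫ g i)) P : End X) ↔
        ∀ l ∈ Λ, P.eval l = 0) ∧
      (∀ P : Polynomial ℚ, ctr hU (Polynomial.aeval (End.of (∑ i, f i ≫ g i)) P : End X) =
        ∑ l ∈ Λ, (if 0 < l then 1 else -1) * (μ l : ℚ) * P.eval l) ∧
      IsIdx hU X (∑ l ∈ Λ, μ l) ∧
      (∀ h : X ⟶ X, NumZero hU ((∑ i, f i ≫ g i) ≫ h - h ≫ ∑ i, f i ≫ g i)) ∧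
      ∀ y : X ⟶ X, NumZero hU (y ≫ y - y) → ¬ NumZero hU y →
        0 < ctr hU ((∑ i, f i ≫ g i) ≫ y)

end Pool.Agent.H64ND
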