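import Pool.Agent.H64ND.Kl

/-!
# Project ND (helper64): the structure of tensor ideals of the symmetric groups
-/

set_option autoImplicit false

open Finset

namespace Pool.Agent.H64ND

/-- All statements about the group algebras which are used. -/
structure AllS : Prop where
  ga : S_GA
  pos : S_POS
  quad : S_QUAD
  nump : S_NUMP
  hw : S_HW
  cap : S_CAP
  det : S_DET
  factb : S_FACTB

lemma exQ_zero {m : ℕ} (x : QS m) : (exQ m 0 x : QS m) = x := by
  induction x using MonoidAlgebra.induction_on with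
  | of σ =>
    simp only [exQ, MonoidAlgebra.mapDomainRingHom_apply, MonoidAlgebra.of_apply,
      MonoidAlgebra.mapDomain_single]
    congr 1
    apply Equiv.ext
    intro i
    exact exA_castAdd m 0 σ i
  | add x y hx hy => rw [map_add]; exact congrArg₂ _ hx hy
  | smul c x hx =>
    simp only [exQ, MonoidAlgebra.mapDomainRingHom_apply, MonoidAlgebra.mapDomain_smul] at hx ⊢
    exact congrArg _ hx

lemma mem_ex {N : ∀ n, Submodule ℚ (QS n)} (hN : ∀ n, ∀ x ∈ N n, exQ n 1 x ∈ N (n + 1)) {m : ℕ}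
    {x : QS m} (hx : x ∈ N m) (k : ℕ) : exQ m k x ∈ N (m + k) := by
  induction k with
  | zero =>
    have h1 := exQ_zero x
    have h2 : (exQ m 0 x : QS m) ∈ N m := by rw [h1]; exact hx
    exact h2
  | succ k ih =>
    rw [exQ_succ]
    exact hN _ _ ih

/-- The minimal degree of a tensor ideal. -/
theorem min_ideal (S : AllS) {N : ∀ n, Submodule ℚ (QS n)} {d : ℤ} (hT : ∀ n, Two (N n))
    (hpt : ∀ n, ∀ x ∈ N (n + 1), pt d x ∈ N n) {n : ℕ} (h0 : N n = ⊥) (h1 : N (n + 1) ≠ ⊥) :
    ∃ e ∈ N (n + 1), CI e ∧ e ≠ 0 ∧ e * ((d : ℚ) • 1 + JM n) = 0 := by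
  obtain ⟨e, he, heN, hex⟩ := S.ga (n + 1) (N (n + 1)) (hT _)
  have he0 : e ≠ 0 := by
    intro h
    apply h1
    rw [Submodule.eq_bot_iff]
    intro x hx
    rw [← hex x hx, h, zero_mul]
  refine ⟨e, heN, he, he0, S.pos n d ⊥ e he (fun x hx => ?_) fun x hx => ?_⟩
  · rw [(Submodule.mem_bot ℚ).1 hx, map_zero, mul_zero]
  · rw [← h0]
    apply hpt
    rw [← hx]
    exact (hT _ e heN x).1

/-- Comparison in one degree. -/
theorem step (S : AllS) {N N' : ∀ n, Submodule ℚ (QS n)} {d : ℤ} (hT : ∀ n, Two (N n))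
    (hT' : ∀ n, Two (N' n)) (hN : ∀ n, ∀ x ∈ N n, exQ n 1 x ∈ N (n + 1))
    (hpt : ∀ n, ∀ x ∈ N' (n + 1), pt d x ∈ N' n) {n : ℕ} (h : N' n ≤ N n) (E : QS (n + 1))
    (hE : E ∈ N (n + 1)) {a b : ℕ} (hab : (a : ℤ) = b + d) (hn : b * a ≤ n + 1)
    (hEg : ∀ a' b' : ℕ, a ≤ a' → b ≤ b' → n + 1 = b' * a' → ∀ g : QS (n + 1),
      (∀ t : Fin (n + 1) ≃ Fin b' × Fin a', act0 g (dv t) = dv t) → E * g ≠ 0) :
    N' (n + 1) ≤ N (n + 1) := by
  obtain ⟨e, he, heN, hex⟩ := S.ga (n + 1) (N (n + 1)) (hT _)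
  obtain ⟨f, hf, hfN, hfx⟩ := S.ga (n + 1) (N' (n + 1)) (hT' _)
  set g := f * (1 - e) with hg
  have hgC : CI g := hf.mul he.one_sub
  have hge : ∀ x ∈ N (n + 1), g * x = 0 := by
    intro x hx
    rw [hg, mul_assoc, sub_mul, one_mul, hex x hx, sub_self, mul_zero]
  have hg0 : g = 0 := by
    by_contra hg0
    have h1 : g * ((d : ℚ) • 1 + JM n) = 0 := by
      refine S.pos n d (N n) g hgC (fun x hx => hge _ (hN n x hx)) fun x hx => ?_
      apply h
      apply hpt
      rw [← hx, hg, mul_assoc]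
      exact (hT' _ f hfN _).1
    obtain ⟨a', b', ha', hb', hab', hn', hfix⟩ := kl S.quad S.nump S.hw S.cap S.det hgC hg0 h1
    have h2 : a ≤ a' := by
      by_contra h3
      push Not at h3
      have h4 : b' < b := by omega
      have h5 : b' * a' < b * a := Nat.mul_lt_mul'' h4 h3
      omega
    have h3 : b ≤ b' := by omega
    apply hEg a' b' h2 h3 hn' g hfix
    rw [← hgC.2.1 E]
    exact hge E hE
  intro x hx
  have h1 : f = f * e := by
    have h2 : f * (1 - e) = 0 := hg0
    rw [mul_sub, mul_one] at h2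
    exact sub_eq_zero.1 h2
  have h2 : x = e * (f * x) := by
    calc x = f * x := (hfx x hx).symm
      _ = f * e * x := by rw [← h1]
      _ = e * (f * x) := by rw [← he.2.1 f, mul_assoc]
  rw [h2]
  exact (hT _ e heN _).1

/-- **Tensor ideals are determined by their lowest degree.** -/
theorem compare (S : AllS) {N N' : ∀ n, Submodule ℚ (QS n)} {d : ℤ} (hT : ∀ n, Two (N n))
    (hT' : ∀ n, Two (N' n)) (hN : ∀ n, ∀ x ∈ N n, exQ n 1 x ∈ N (n + 1))
    (hpt : ∀ n, ∀ x ∈ N' (n + 1), pt d x ∈ N' n) {m : ℕ} (hm : ∀ n ≤ m, N' n = ⊥)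
    (e : QS (m + 1)) (heN : e ∈ N (m + 1)) (he : CI e) (he0 : e ≠ 0)
    (hed : e * ((d : ℚ) • 1 + JM m) = 0) : ∀ n, N' n ≤ N n := by
  obtain ⟨a, b, ha, hb, hab, hmab, hfix⟩ := kl S.quad S.nump S.hw S.cap S.det he he0 hed
  have key : ∀ k, N' (m + 1 + k) ≤ N (m + 1 + k) := by
    intro k
    induction k with
    | zero =>
      refine step S hT hT' hN hpt (n := m) (by rw [hm m le_rfl]; exact bot_le) e heN hab
        (le_of_eq hmab.symm) ?_
      intro a' b' haa hbb hn g hg h0
      apply S.factb a b a' b' (m + 1) 0 haa hbb hmab hn e g hfix hg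
      have h1 := exQ_zero e
      have h2 : (exQ (m + 1) 0 e : QS (m + 1)) * g = 0 := by rw [h1]; exact h0
      exact h2
    | succ k ih =>
      refine step S hT hT' hN hpt (n := m + 1 + k) ih (exQ (m + 1) (k + 1) e)
        (mem_ex hN heN (k + 1)) hab (by omega) ?_
      intro a' b' haa hbb hn g hg
      exact S.factb a b a' b' (m + 1) (k + 1) haa hbb hmab hn e g hfix hg
  intro n
  rcases Nat.lt_or_ge n (m + 1) with h | h
  · rw [hm n (by omega)]
    exact bot_le
  · obtain ⟨k, rfl⟩ := Nat.exists_eq_add_of_le h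
    exact key k

/-- The kernel of the action on functions of words with `L` letters. -/
def Ker0 (L n : ℕ) : Submodule ℚ (QS n) where
  carrier := {x | ∀ u : (Fin n → Fin L) → ℚ, act0 x u = 0}
  add_mem' := by
    intro x y hx hy u
    funext w
    have h1 := congrFun (hx u) w
    have h2 := congrFun (hy u) w
    simp only [act0, Pi.zero_apply] at h1 h2 ⊢
    simp only [MonoidAlgebra.coeff_add, Finsupp.coe_add, Pi.add_apply, add_mul,
      Finset.sum_add_distrib, h1, h2, add_zero]
  zero_mem' := by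
    intro u
    funext w
    simp [act0]
  smul_mem' := by
    intro c x hx u
    funext w
    have h1 := congrFun (hx u) w
    simp only [act0, Pi.zero_apply] at h1 ⊢
    have e : ∀ σ : Equiv.Perm (Fin n), (c • x).coeff σ * u (w ∘ σ) =
        c * (x.coeff σ * u (w ∘ σ)) := by
      intro σ
      simp only [MonoidAlgebra.coeff_smul, Finsupp.coe_smul, Pi.smul_apply, smul_eq_mul]
      ring
    simp only [e, ← Finset.mul_sum, h1, mul_zero]

lemma two_ker0 (L n : ℕ) : Two (Ker0 L n) := by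
  intro x hx y
  constructor
  · intro u
    rw [act0_mul]
    exact hx _
  · intro u
    rw [act0_mul, hx u]
    funext w
    simp [act0]

lemma coeff_exQ_sum {n : ℕ} (x : QS n) (k : ℕ) (F : Equiv.Perm (Fin (n + k)) → ℚ) :
    ∑ ρ, (exQ n k x).coeff ρ * F ρ = ∑ σ, x.coeff σ * F (exA n k σ) := by
  classical
  induction x using MonoidAlgebra.induction_on with
  | of σ =>
    simp only [exQ, MonoidAlgebra.mapDomainRingHom_apply, MonoidAlgebra.of_apply,
      MonoidAlgebra.mapDomain_single]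
    rw [Finset.sum_eq_single (exA n k σ), Finset.sum_eq_single σ]
    · simp
    · intro τ _ hτ
      rw [MonoidAlgebra.coeff_single, Finsupp.single_eq_of_ne hτ, zero_mul]
    · intro h
      exact absurd (Finset.mem_univ _) h
    · intro τ _ hτ
      rw [MonoidAlgebra.coeff_single, Finsupp.single_eq_of_ne hτ, zero_mul]
    · intro h
      exact absurd (Finset.mem_univ _) h
  | add x y hx hy =>
    rw [map_add]
    simp only [MonoidAlgebra.coeff_add, Finsupp.coe_add, Pi.add_apply, add_mul,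
      Finset.sum_add_distrib, hx, hy]
  | smul c x hx =>
    have h1 : exQ n k (c • x) = c • exQ n k x := by
      simp only [exQ, MonoidAlgebra.mapDomainRingHom_apply, MonoidAlgebra.mapDomain_smul]
    rw [h1]
    simp only [MonoidAlgebra.coeff_smul, Finsupp.coe_smul, Pi.smul_apply, smul_eq_mul, mul_assoc,
      ← Finset.mul_sum, hx]

lemma ex_ker0 (L n : ℕ) (x : QS n) (hx : x ∈ Ker0 L n) : exQ n 1 x ∈ Ker0 L (n + 1) := by
  intro u
  funext w
  simp only [act0, Pi.zero_apply]
  rw [coeff_exQ_sum x 1 (fun ρ => u (w ∘ ρ))]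
  have h1 := congrFun (hx (fun w' : Fin n → Fin L =>
    u (Fin.snoc (α := fun _ => Fin L) w' (w (Fin.last n))))) (fun i => w i.castSucc)
  simp only [act0, Pi.zero_apply] at h1
  rw [← h1]
  refine Finset.sum_congr rfl fun σ _ => ?_
  congr 2
  funext i
  refine Fin.lastCases ?_ (fun j => ?_) i
  · rw [Fin.snoc_last]
    have h2 := exA_natAdd n 1 σ 0
    exact congrArg w h2
  · rw [Fin.snoc_castSucc]
    have h2 := exA_castAdd n 1 σ j
    exact congrArg w h2

end Pool.Agent.H64ND
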